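import Pool.Agent.Helper118.Yud.Defs

set_option autoImplicit false

namespace Pool.Agent.Helper118.Yud

open MeasureTheory Complex Set Filter Topology



/-- auxiliary: complex trigonometric polynomials -/
lemma b1_job10268_isTrig_iff (p : T2 → ℝ) :
    IsTrig p ↔ (fun x => (p x : ℂ)) ∈ Submodule.span ℂ (Set.range ek) := by
  rw [Finsupp.mem_span_range_iff_exists_finsupp]
  constructor
  · rintro ⟨c, hc⟩
    refine ⟨c, ?_⟩
    ext x
    rw [hc x, Finsupp.sum, Finsupp.sum, Finset.sum_apply]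
    rfl
  · rintro ⟨c, hc⟩
    refine ⟨c, fun x => ?_⟩
    have := congrFun hc x
    rw [← this, Finsupp.sum, Finsupp.sum, Finset.sum_apply]
    rfl

lemma b1_job10268_ek_mul (k l : ℤ × ℤ) : ek k * ek l = ek (k + l) := by
  ext x
  simp only [Pi.mul_apply, ek, Prod.fst_add, Prod.snd_add, fourier_add]
  ring

lemma b1_job10268_mul_mem {u v : T2 → ℂ} (hu : u ∈ Submodule.span ℂ (Set.range ek))
    (hv : v ∈ Submodule.span ℂ (Set.range ek)) : u * v ∈ Submodule.span ℂ (Set.range ek) := by
  have h := Submodule.mul_mem_mul hu hv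
  rw [Submodule.span_mul_span] at h
  refine Submodule.span_le.2 ?_ h
  rintro _ ⟨_, ⟨k, rfl⟩, _, ⟨l, rfl⟩, rfl⟩
  apply Submodule.subset_span
  exact ⟨k + l, (b1_job10268_ek_mul k l).symm⟩

lemma b1_job10268_const (r : ℝ) : IsTrig (fun _ => r) := by
  rw [b1_job10268_isTrig_iff]
  have h : (fun _ : T2 => (r : ℂ)) = (r : ℂ) • ek 0 := by
    ext x
    simp [ek]
  rw [h]
  exact Submodule.smul_mem _ _ (Submodule.subset_span ⟨0, rfl⟩)

lemma b1_job10268_add {p q : T2 → ℝ} (hp : IsTrig p) (hq : IsTrig q) : IsTrig (fun x => p x + q x) := by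
  rw [b1_job10268_isTrig_iff] at *
  have : (fun x => ((p x + q x : ℝ) : ℂ)) = (fun x => (p x : ℂ)) + (fun x => (q x : ℂ)) := by
    ext x; simp
  rw [this]
  exact Submodule.add_mem _ hp hq

lemma b1_job10268_mul {p q : T2 → ℝ} (hp : IsTrig p) (hq : IsTrig q) : IsTrig (fun x => p x * q x) := by
  rw [b1_job10268_isTrig_iff] at *
  have : (fun x => ((p x * q x : ℝ) : ℂ)) = (fun x => (p x : ℂ)) * (fun x => (q x : ℂ)) := by
    ext x; simp
  rw [this]
  exact b1_job10268_mul_mem hp hq

lemma b1_job10268_conj (k : ℤ × ℤ) (x : T2) : (starRingEnd ℂ) (ek k x) = ek (-k) x := by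
  simp only [ek, map_mul, Prod.fst_neg, Prod.snd_neg, fourier_neg]

lemma b1_job10268_re (k : ℤ × ℤ) : IsTrig (fun x => (ek k x).re) := by
  rw [b1_job10268_isTrig_iff]
  have : (fun x => (((ek k x).re : ℝ) : ℂ)) = (1/2 : ℂ) • (ek k + ek (-k)) := by
    ext x
    rw [Pi.smul_apply, Pi.add_apply, ← b1_job10268_conj, Complex.add_conj, smul_eq_mul]
    push_cast
    ring
  rw [this]
  exact Submodule.smul_mem _ _ (Submodule.add_mem _ (Submodule.subset_span ⟨k, rfl⟩)
    (Submodule.subset_span ⟨-k, rfl⟩))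

lemma b1_job10268_im (k : ℤ × ℤ) : IsTrig (fun x => (ek k x).im) := by
  rw [b1_job10268_isTrig_iff]
  have : (fun x => (((ek k x).im : ℝ) : ℂ)) = (1/(2*I) : ℂ) • (ek k - ek (-k)) := by
    ext x
    rw [Pi.smul_apply, Pi.sub_apply, ← b1_job10268_conj, Complex.sub_conj, smul_eq_mul]
    push_cast
    field_simp
  rw [this]
  exact Submodule.smul_mem _ _ (Submodule.sub_mem _ (Submodule.subset_span ⟨k, rfl⟩)
    (Submodule.subset_span ⟨-k, rfl⟩))

lemma b1_job10268_cont (k : ℤ × ℤ) : Continuous (ek k) := by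
  unfold ek
  exact ((fourier k.1).continuous.comp continuous_fst).mul ((fourier k.2).continuous.comp continuous_snd)

/-- the subalgebra of real trigonometric polynomials -/
noncomputable def b1_job10268_alg : Subalgebra ℝ C(T2, ℝ) where
  carrier := {p | IsTrig p}
  mul_mem' := fun ha hb => b1_job10268_mul ha hb
  add_mem' := fun ha hb => b1_job10268_add ha hb
  algebraMap_mem' := fun r => b1_job10268_const r

lemma b1_job10268_sep : b1_job10268_alg.SeparatesPoints := by
  intro x y hxy
  have key : ∃ k : ℤ × ℤ, ek k x ≠ ek k y := by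
    by_contra hcon
    push Not at hcon
    apply hxy
    have h1 := hcon (1, 0)
    have h2 := hcon (0, 1)
    simp only [ek, fourier_zero, mul_one, one_mul] at h1 h2
    have i1 : x.1 = y.1 := by
      rw [fourier_one, fourier_one] at h1
      exact AddCircle.injective_toCircle one_ne_zero (Subtype.ext h1)
    have i2 : x.2 = y.2 := by
      rw [fourier_one, fourier_one] at h2
      exact AddCircle.injective_toCircle one_ne_zero (Subtype.ext h2)
    exact Prod.ext i1 i2
  obtain ⟨k, hk⟩ := key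
  by_cases hre : (ek k x).re = (ek k y).re
  · have him : (ek k x).im ≠ (ek k y).im := fun h => hk (Complex.ext hre h)
    refine ⟨fun x => (ek k x).im, ⟨⟨fun x => (ek k x).im, Complex.continuous_im.comp (b1_job10268_cont k)⟩,
      b1_job10268_im k, rfl⟩, him⟩
  · refine ⟨fun x => (ek k x).re, ⟨⟨fun x => (ek k x).re, Complex.continuous_re.comp (b1_job10268_cont k)⟩,
      b1_job10268_re k, rfl⟩, hre⟩

theorem trig_dense (f : C(T2, ℝ)) (ε : ℝ) (hε : 0 < ε) :
    ∃ p : C(T2, ℝ), IsTrig p ∧ ∀ x, |p x - f x| < ε := by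
  obtain ⟨g, hg⟩ := ContinuousMap.exists_mem_subalgebra_near_continuousMap_of_separatesPoints
    b1_job10268_alg b1_job10268_sep f ε hε
  refine ⟨g.1, g.2, fun x => ?_⟩
  have := (ContinuousMap.norm_lt_iff _ hε).1 hg x
  simpa using this

lemma b1_job10268_step (f : T2 → ℝ) (hf : Measurable f) (h1 : ∀ x, |f x| ≤ 1) (ε : ℝ) (hε : 0 < ε) :
    ∃ p : C(T2, ℝ), IsTrig p ∧ (∀ x, |p x| ≤ 1) ∧ ∫ x, |p x - f x| ≤ 3 * ε := by
  have hfi : Integrable f := by
    refine Integrable.of_bound hf.aestronglyMeasurable 1 (Eventually.of_forall fun x => ?_)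
    rw [Real.norm_eq_abs]; exact h1 x
  obtain ⟨g, hg, hgi⟩ := hfi.exists_boundedContinuous_integral_sub_le hε
  let g' : C(T2, ℝ) := ⟨fun x => max (-1) (min 1 (g x)),
    continuous_const.max (continuous_const.min g.continuous)⟩
  have hg'1 : ∀ x, |g' x| ≤ 1 := by
    intro x
    show |max (-1) (min 1 (g x))| ≤ 1
    rw [abs_le]
    exact ⟨le_max_left _ _, max_le (by norm_num) (min_le_left _ _)⟩
  have hg'f : ∀ x, |g' x - f x| ≤ ‖f x - g x‖ := by
    intro x
    have hfx := abs_le.1 (h1 x)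
    show |max (-1) (min 1 (g x)) - f x| ≤ _
    rw [Real.norm_eq_abs, abs_sub_comm (f x)]
    rcases le_total (g x) 1 with h | h
    · rw [min_eq_right h]
      rcases le_total (-1) (g x) with h' | h'
      · rw [max_eq_right h']
      · rw [max_eq_left h', abs_le]
        have := neg_abs_le (g x - f x)
        have h3 : |g x - f x| = f x - g x := by rw [abs_of_nonpos (by linarith)]; ring
        rw [h3]
        constructor <;> linarith
    · rw [min_eq_left h, max_eq_right (by norm_num : (-1:ℝ) ≤ 1), abs_le]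
      have h3 : |g x - f x| = g x - f x := abs_of_nonneg (by linarith)
      rw [h3]
      constructor <;> linarith
  obtain ⟨q, hq, hqg⟩ := trig_dense g' ε hε
  let p : C(T2, ℝ) := ⟨fun x => (1 + ε)⁻¹ * q x, continuous_const.mul q.continuous⟩
  have hpg : ∀ x, |p x - g' x| ≤ 2 * ε := by
    intro x
    have e1 := hqg x
    have e2 := hg'1 x
    have e3 : p x - g' x = (1 + ε)⁻¹ * ((q x - g' x) - ε * g' x) := by
      show (1 + ε)⁻¹ * q x - g' x = _
      field_simp
      ring
    rw [e3, abs_mul, abs_of_pos (by positivity)]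
    have e4 : |(q x - g' x) - ε * g' x| ≤ 2 * ε := by
      refine (abs_sub _ _).trans ?_
      rw [abs_mul, abs_of_pos hε]
      nlinarith
    have e5 : (1 + ε)⁻¹ ≤ 1 := inv_le_one_of_one_le₀ (by linarith)
    calc (1 + ε)⁻¹ * |(q x - g' x) - ε * g' x| ≤ 1 * (2 * ε) :=
        mul_le_mul e5 e4 (abs_nonneg _) zero_le_one
      _ = 2 * ε := one_mul _
  refine ⟨p, b1_job10268_mul (b1_job10268_const _) hq, fun x => ?_, ?_⟩
  · show |(1 + ε)⁻¹ * q x| ≤ 1
    rw [abs_mul, abs_of_pos (by positivity), inv_mul_le_iff₀ (by positivity), mul_one]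
    have e1 := hqg x
    have e2 := hg'1 x
    calc |q x| = |(q x - g' x) + g' x| := by ring_nf
      _ ≤ |q x - g' x| + |g' x| := abs_add_le _ _
      _ ≤ 1 + ε := by linarith
  · have hb : ∀ x, |p x - f x| ≤ 2 * ε + ‖f x - g x‖ := by
      intro x
      calc |p x - f x| = |(p x - g' x) + (g' x - f x)| := by ring_nf
        _ ≤ |p x - g' x| + |g' x - f x| := abs_add_le _ _
        _ ≤ 2 * ε + ‖f x - g x‖ := add_le_add (hpg x) (hg'f x)
    have hi2 : Integrable (fun x => ‖f x - g x‖) := (hfi.sub hgi).norm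
    calc ∫ x, |p x - f x| ≤ ∫ x, (2 * ε + ‖f x - g x‖) := by
          refine integral_mono_of_nonneg (Eventually.of_forall fun x => abs_nonneg _)
            ((integrable_const _).add hi2) (Eventually.of_forall hb)
      _ = 2 * ε + ∫ x, ‖f x - g x‖ := by
          have hv : (volume : Measure T2).real univ = 1 := by
            rw [Measure.real, Measure.volume_eq_prod, ← univ_prod_univ, Measure.prod_prod,
              UnitAddCircle.measure_univ]
            simp
          rw [integral_add (integrable_const _) hi2, integral_const, hv, one_smul]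
      _ ≤ 3 * ε := by linarith

theorem trig_approx_L1 (f : T2 → ℝ) (hf : Measurable f) (h1 : ∀ x, |f x| ≤ 1) :
    ∃ pn : ℕ → C(T2, ℝ), (∀ n, IsTrig (pn n)) ∧ (∀ n x, |pn n x| ≤ 1) ∧
      Tendsto (fun n => ∫ x, |pn n x - f x|) atTop (𝓝 0) := by
  have h := fun n : ℕ => b1_job10268_step f hf h1 (1 / ((n : ℝ) + 1)) (by positivity)
  choose pn ha hb hc using h
  refine ⟨pn, ha, hb, ?_⟩
  refine squeeze_zero (fun n => integral_nonneg fun x => abs_nonneg _) hc ?_
  have := (tendsto_one_div_add_atTop_nhds_zero_nat (𝕜 := ℝ)).const_mul 3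
  simpa using this

end Pool.Agent.Helper118.Yud
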