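import Pool.Agent.Helper118.Yud.Defs

set_option autoImplicit false

namespace Pool.Agent.Helper118.Yud

open MeasureTheory Complex Set Filter Topology


theorem top_coeff_bound (n : ℕ) (c : ℕ → ℂ) (B : ℝ)
    (h : ∀ s : ℝ, |s| ≤ 1 → ‖∑ j ∈ Finset.range (n+1), c j * (s:ℂ)^j‖ ≤ B) :
    ‖c n‖ ≤ (2 * Real.exp 1)^n * B := by
  rcases Nat.eq_zero_or_pos n with hn | hn
  · subst hn
    have := h 0 (by simp)
    simpa using this
  have hn0 : (n : ℂ) ≠ 0 := by exact_mod_cast hn.ne'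
  have hnR : (0 : ℝ) < n := by exact_mod_cast hn
  let b : ℕ → ℂ := fun j => c j / (n : ℂ) ^ j
  let F : ℂ → ℂ := fun r => ∑ j ∈ Finset.range (n + 1), b j * r ^ j
  have h1 : (fwdDiff (1 : ℂ))^[n] F 0 = b n * (n.factorial : ℂ) := by
    have hF : F = (fun r : ℂ => ∑ k ∈ Finset.range n, b k * r ^ k) + b n • (fun r : ℂ => r ^ n) := by
      funext r
      simp only [F, Finset.sum_range_succ, Pi.add_apply, Pi.smul_apply, smul_eq_mul]
    rw [hF, fwdDiff_iter_add, fwdDiff_iter_sum_mul_pow_eq_zero, fwdDiff_iter_const_smul,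
      fwdDiff_iter_eq_factorial]
    simp
  have h2 : (fwdDiff (1 : ℂ))^[n] F 0 = ∑ k ∈ Finset.range (n + 1),
      ((-1 : ℤ) ^ (n - k) * n.choose k) • F ((0 : ℂ) + k • (1 : ℂ)) :=
    fwdDiff_iter_eq_sum_shift (1 : ℂ) F n 0
  have h3 : ∀ k ∈ Finset.range (n + 1), ‖F ((0 : ℂ) + k • (1 : ℂ))‖ ≤ B := by
    intro k hk
    have hk' : (k : ℝ) ≤ n := by exact_mod_cast Nat.lt_succ_iff.1 (Finset.mem_range.1 hk)
    have := h ((k : ℝ) / n) (by
      rw [abs_of_nonneg (by positivity), div_le_one hnR]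
      exact hk')
    have e : F ((0 : ℂ) + k • (1 : ℂ)) =
        ∑ j ∈ Finset.range (n+1), c j * (((k : ℝ) / n : ℝ) : ℂ) ^ j := by
      simp only [F, b]
      refine Finset.sum_congr rfl (fun j _ => ?_)
      push_cast
      simp only [nsmul_eq_mul, mul_one, zero_add]
      rw [div_pow]
      ring
    rw [e]
    exact this
  have h4 : ‖b n * (n.factorial : ℂ)‖ ≤ 2 ^ n * B := by
    rw [← h1, h2]
    refine (norm_sum_le _ _).trans ?_
    have h5 : ∀ k ∈ Finset.range (n + 1),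
        ‖((-1 : ℤ) ^ (n - k) * n.choose k) • F ((0 : ℂ) + k • (1 : ℂ))‖ ≤ (n.choose k : ℝ) * B := by
      intro k hk
      rw [zsmul_eq_mul, norm_mul]
      have : ‖(((-1 : ℤ) ^ (n - k) * n.choose k : ℤ) : ℂ)‖ = n.choose k := by
        push_cast
        simp
      rw [this]
      exact mul_le_mul_of_nonneg_left (h3 k hk) (by positivity)
    refine (Finset.sum_le_sum h5).trans ?_
    rw [← Finset.sum_mul]
    have : ∑ k ∈ Finset.range (n + 1), (n.choose k : ℝ) = 2 ^ n := by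
      exact_mod_cast Nat.sum_range_choose n
    rw [this]
  have h6 : ‖b n * (n.factorial : ℂ)‖ = ‖c n‖ * ((n.factorial : ℝ) / (n : ℝ) ^ n) := by
    simp only [b]
    rw [norm_mul, norm_div, norm_pow, Complex.norm_natCast, Complex.norm_natCast]
    ring
  rw [h6] at h4
  have h7 : (n : ℝ) ^ n / n.factorial ≤ Real.exp n := Real.pow_div_factorial_le_exp _ hnR.le n
  have hB : 0 ≤ B := (norm_nonneg _).trans (h 0 (by simp))
  have h8 : ‖c n‖ = ‖c n‖ * ((n.factorial : ℝ) / (n : ℝ) ^ n) * ((n : ℝ) ^ n / n.factorial) := by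
    have : (n.factorial : ℝ) ≠ 0 := by positivity
    have : (n : ℝ) ^ n ≠ 0 := by positivity
    field_simp
  rw [h8]
  calc ‖c n‖ * ((n.factorial : ℝ) / (n : ℝ) ^ n) * ((n : ℝ) ^ n / n.factorial)
      ≤ (2 ^ n * B) * Real.exp n := by
        apply mul_le_mul h4 h7 (by positivity) (by positivity)
    _ = (2 * Real.exp 1)^n * B := by
        rw [mul_pow, ← Real.exp_nat_mul, mul_one]
        ring

end Pool.Agent.Helper118.Yud
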