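import Pool.Agent.Helper118.Yud.Defs

set_option autoImplicit false

namespace Pool.Agent.Helper118.Yud

open MeasureTheory Complex Set Filter Topology


lemma g2_vitali_real_summ (b : ℕ → ℂ) (M : ℝ) (hb : ∀ k, ‖b k‖ ≤ M) (w : ℂ) (hw : ‖w‖ < 1) :
    Summable (fun j => b j * w ^ j) := by
  refine Summable.of_norm_bounded (g := fun j => M * ‖w‖ ^ j)
    ((summable_geometric_of_lt_one (norm_nonneg _) hw).mul_left M) fun j => ?_
  rw [norm_mul, norm_pow]
  exact mul_le_mul_of_nonneg_right (hb j) (by positivity)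

lemma g2_vitali_real_tail_bound (b : ℕ → ℂ) (M : ℝ) (hb : ∀ k, ‖b k‖ ≤ M) (t : ℝ) (ht : 0 < t) (ht2 : t ≤ 1/2)
    (k : ℕ) :
    ‖((∑' j, b j * (t:ℂ) ^ j) - ∑ j ∈ Finset.range k, b j * (t:ℂ)^j) / (t:ℂ)^k - b k‖ ≤ 2*M*t := by
  have hM : 0 ≤ M := (norm_nonneg _).trans (hb 0)
  have htc : (t:ℂ) ≠ 0 := by exact_mod_cast ht.ne'
  have hnt : ‖(t:ℂ)‖ < 1 := by
    rw [Complex.norm_real, Real.norm_eq_abs, abs_of_pos ht]; linarith
  have hs := g2_vitali_real_summ b M hb (t:ℂ) hnt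
  have h1 := hs.sum_add_tsum_nat_add k
  have h2 : ((∑' j, b j * (t:ℂ) ^ j) - ∑ j ∈ Finset.range k, b j * (t:ℂ)^j) / (t:ℂ)^k
      = ∑' j, b (j + k) * (t:ℂ)^j := by
    rw [← h1, add_sub_cancel_left, ← tsum_div_const]
    congr 1
    ext j
    rw [pow_add]
    field_simp
  have hs2 := g2_vitali_real_summ (fun j => b (j + k)) M (fun j => hb _) (t:ℂ) hnt
  have h3 : (∑' j, b (j + k) * (t:ℂ)^j) - b k = ∑' j, b (j + 1 + k) * (t:ℂ)^(j+1) := by
    have := hs2.sum_add_tsum_nat_add 1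
    rw [← this]
    simp
  rw [h2, h3]
  have hg : HasSum (fun j : ℕ => M * t * t ^ j) (M * t * (1 - t)⁻¹) :=
    (hasSum_geometric_of_lt_one ht.le (by linarith)).mul_left _
  refine (tsum_of_norm_bounded hg fun j => ?_).trans ?_
  · rw [norm_mul, norm_pow, Complex.norm_real, Real.norm_eq_abs, abs_of_pos ht, pow_succ]
    have := mul_le_mul_of_nonneg_right (hb (j + 1 + k)) (by positivity : 0 ≤ t ^ j * t)
    linarith [this]
  · have h5 : (1 - t)⁻¹ ≤ 2 := by
      rw [inv_le_comm₀ (by linarith) (by norm_num)]; linarith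
    have := mul_le_mul_of_nonneg_left h5 (by positivity : 0 ≤ M * t)
    linarith

lemma g2_vitali_real_coeff_cauchy (b : ℕ → ℕ → ℂ) (M : ℝ) (hb : ∀ n k, ‖b n k‖ ≤ M)
    (hc : ∀ t : ℝ, 0 < t → t ≤ 1/2 → ∃ l : ℂ, Tendsto (fun n => ∑' j, b n j * (t:ℂ)^j) atTop (𝓝 l)) (k : ℕ) :
    ∃ c : ℂ, Tendsto (fun n => b n k) atTop (𝓝 c) := by
  induction k using Nat.strong_induction_on with
  | _ k ih =>
    have hM : 0 ≤ M := (norm_nonneg _).trans (hb 0 0)
    apply cauchySeq_tendsto_of_complete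
    rw [Metric.cauchySeq_iff]
    intro ε hε
    set t : ℝ := min (1/2) (ε / (8 * (M + 1))) with htdef
    have ht : 0 < t := lt_min (by norm_num) (by positivity)
    have ht2 : t ≤ 1/2 := min_le_left _ _
    have ht3 : t ≤ ε / (8 * (M + 1)) := min_le_right _ _
    have ht4 : 4 * M * t ≤ ε / 2 := by
      rw [le_div_iff₀ (by positivity)] at ht3
      nlinarith
    obtain ⟨l, hl⟩ := hc t ht ht2
    choose! c hcc using ih
    have hconv : Tendsto (fun n => ((∑' j, b n j * (t:ℂ) ^ j) - ∑ j ∈ Finset.range k, b n j * (t:ℂ)^j) / (t:ℂ)^k)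
        atTop (𝓝 ((l - ∑ j ∈ Finset.range k, c j * (t:ℂ)^j) / (t:ℂ)^k)) := by
      apply Tendsto.div_const
      apply hl.sub
      apply tendsto_finsetSum
      intro j hj
      exact (hcc j (Finset.mem_range.1 hj)).mul_const _
    obtain ⟨N, hN⟩ := Metric.cauchySeq_iff.1 hconv.cauchySeq (ε/2) (by positivity)
    refine ⟨N, fun m hm n hn => ?_⟩
    have h1 := g2_vitali_real_tail_bound (b m) M (hb m) t ht ht2 k
    have h2 := g2_vitali_real_tail_bound (b n) M (hb n) t ht ht2 k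
    have h3 := hN m hm n hn
    rw [dist_eq_norm] at h3 ⊢
    set A := ((∑' j, b m j * (t:ℂ) ^ j) - ∑ j ∈ Finset.range k, b m j * (t:ℂ)^j) / (t:ℂ)^k
    set B := ((∑' j, b n j * (t:ℂ) ^ j) - ∑ j ∈ Finset.range k, b n j * (t:ℂ)^j) / (t:ℂ)^k
    have h4 : b m k - b n k = -(A - b m k) + (B - b n k) + (A - B) := by ring
    rw [h4]
    have h5 := norm_add_le (-(A - b m k) + (B - b n k)) (A - B)
    have h6 := norm_add_le (-(A - b m k)) (B - b n k)
    rw [norm_neg] at h6
    linarith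

lemma g2_vitali_real_unif (b : ℕ → ℕ → ℂ) (M : ℝ) (hb : ∀ n k, ‖b n k‖ ≤ M) (c : ℕ → ℂ)
    (hc : ∀ k, Tendsto (fun n => b n k) atTop (𝓝 (c k))) (ρ : ℝ) (hρ0 : 0 ≤ ρ) (hρ : ρ < 1) :
    TendstoUniformlyOn (fun n w => ∑' j, b n j * w ^ j) (fun w => ∑' j, c j * w ^ j) atTop
      (Metric.closedBall (0:ℂ) ρ) := by
  have hM : 0 ≤ M := (norm_nonneg _).trans (hb 0 0)
  have hcM : ∀ k, ‖c k‖ ≤ M := fun k => le_of_tendsto (hc k).norm (Eventually.of_forall fun n => hb n k)
  have h0 : Tendsto (fun n => ∑' j, ‖b n j - c j‖ * ρ ^ j) atTop (𝓝 (∑' j : ℕ, (0:ℝ))) := by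
    refine tendsto_tsum_of_dominated_convergence (bound := fun j => 2 * M * ρ ^ j)
      ((summable_geometric_of_lt_one hρ0 hρ).mul_left _) (fun j => ?_) (Eventually.of_forall fun n j => ?_)
    · have h1 : Tendsto (fun n => b n j - c j) atTop (𝓝 0) := by
        have := (hc j).sub_const (c j)
        simpa using this
      have h2 := (h1.norm).mul_const (ρ ^ j)
      simpa using h2
    · rw [norm_mul, norm_norm, norm_pow, Real.norm_eq_abs, abs_of_nonneg hρ0]
      refine mul_le_mul_of_nonneg_right ?_ (by positivity)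
      calc ‖b n j - c j‖ ≤ ‖b n j‖ + ‖c j‖ := norm_sub_le _ _
        _ ≤ 2 * M := by linarith [hb n j, hcM j]
  rw [tsum_zero] at h0
  rw [Metric.tendstoUniformlyOn_iff]
  intro ε hε
  filter_upwards [h0.eventually (gt_mem_nhds hε)] with n hn w hw
  have hw' : ‖w‖ ≤ ρ := by simpa using hw
  have hw1 : ‖w‖ < 1 := hw'.trans_lt hρ
  have s1 := g2_vitali_real_summ (b n) M (hb n) w hw1
  have s2 := g2_vitali_real_summ c M hcM w hw1
  rw [dist_comm, dist_eq_norm, ← Summable.tsum_sub s1 s2]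
  have hsum : Summable (fun j => ‖b n j - c j‖ * ρ ^ j) := by
    refine Summable.of_nonneg_of_le (fun j => by positivity) (fun j => ?_)
      ((summable_geometric_of_lt_one hρ0 hρ).mul_left (2 * M))
    refine mul_le_mul_of_nonneg_right ?_ (by positivity)
    calc ‖b n j - c j‖ ≤ ‖b n j‖ + ‖c j‖ := norm_sub_le _ _
      _ ≤ 2 * M := by linarith [hb n j, hcM j]
  refine (tsum_of_norm_bounded hsum.hasSum fun j => ?_).trans_lt hn
  rw [← sub_mul, norm_mul, norm_pow]
  exact mul_le_mul_of_nonneg_left (pow_le_pow_left₀ (norm_nonneg _) hw' j) (norm_nonneg _)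

theorem vitali_real (r M : ℝ) (hr : 0 < r) (F : ℕ → ℂ → ℂ)
    (hF : ∀ n, DifferentiableOn ℂ (F n) (Metric.ball 0 r))
    (hM : ∀ n, ∀ z ∈ Metric.ball (0:ℂ) r, ‖F n z‖ ≤ M) (g : ℝ → ℂ)
    (hg : ∀ t : ℝ, |t| < r → Tendsto (fun n => F n (t:ℂ)) atTop (𝓝 (g t))) :
    ∃ G : ℂ → ℂ, DifferentiableOn ℂ G (Metric.ball 0 r) ∧
      (∀ z ∈ Metric.ball (0:ℂ) r, ‖G z‖ ≤ M) ∧
      (∀ t : ℝ, |t| < r → G (t:ℂ) = g t) ∧
      TendstoLocallyUniformlyOn F G atTop (Metric.ball (0:ℂ) r) := by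
  have hM0 : 0 ≤ M := (norm_nonneg _).trans (hM 0 0 (by simpa using hr))
  have hrc : (r:ℂ) ≠ 0 := by exact_mod_cast hr.ne'
  -- coefficients
  let b : ℕ → ℕ → ℂ := fun n k => (k.factorial : ℂ)⁻¹ * iteratedDeriv k (F n) 0 * (r:ℂ) ^ k
  have hb : ∀ n k, ‖b n k‖ ≤ M := by
    intro n k
    have h1 : ∀ ρ : ℝ, 0 < ρ → ρ < r → ‖iteratedDeriv k (F n) 0‖ ≤ k.factorial * M / ρ ^ k := by
      intro ρ hρ hρr
      apply Complex.norm_iteratedDeriv_le_of_forall_mem_sphere_norm_le k hρ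
      · refine ⟨(hF n).mono (Metric.ball_subset_ball hρr.le), ?_⟩
        rw [closure_ball _ hρ.ne']
        exact ((hF n).continuousOn).mono (Metric.closedBall_subset_ball hρr)
      · intro z hz
        apply hM n z
        exact Metric.closedBall_subset_ball hρr (Metric.sphere_subset_closedBall hz)
    have h2 : ‖iteratedDeriv k (F n) 0‖ ≤ k.factorial * M / r ^ k := by
      have hcont : Tendsto (fun ρ : ℝ => k.factorial * M / ρ ^ k) (𝓝[<] r) (𝓝 (k.factorial * M / r ^ k)) := by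
        have : ContinuousAt (fun ρ : ℝ => k.factorial * M / ρ ^ k) r := by
          apply ContinuousAt.div
          · exact continuousAt_const
          · fun_prop
          · positivity
        exact this.tendsto.mono_left nhdsWithin_le_nhds
      refine ge_of_tendsto hcont ?_
      filter_upwards [Ioo_mem_nhdsLT hr] with ρ hρ
      exact h1 ρ hρ.1 hρ.2
    show ‖(k.factorial : ℂ)⁻¹ * iteratedDeriv k (F n) 0 * (r:ℂ) ^ k‖ ≤ M
    rw [norm_mul, norm_mul, norm_inv, norm_pow, Complex.norm_natCast, Complex.norm_real, Real.norm_eq_abs,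
      abs_of_pos hr]
    have hk : (0:ℝ) < k.factorial := by exact_mod_cast k.factorial_pos
    rw [le_div_iff₀ (by positivity)] at h2
    calc (k.factorial : ℝ)⁻¹ * ‖iteratedDeriv k (F n) 0‖ * r ^ k
        = (k.factorial : ℝ)⁻¹ * (‖iteratedDeriv k (F n) 0‖ * r ^ k) := by ring
      _ ≤ (k.factorial : ℝ)⁻¹ * (k.factorial * M) := by
          exact mul_le_mul_of_nonneg_left h2 (by positivity)
      _ = M := by field_simp
  have hser : ∀ n, ∀ z ∈ Metric.ball (0:ℂ) r, F n z = ∑' j, b n j * (z / r) ^ j := by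
    intro n z hz
    have := (Complex.hasSum_taylorSeries_on_ball (hF n) hz).tsum_eq
    rw [← this]
    congr 1
    ext j
    simp only [sub_zero, smul_eq_mul, b]
    rw [div_pow]
    field_simp
  have hconv : ∀ t : ℝ, 0 < t → t ≤ 1/2 →
      ∃ l : ℂ, Tendsto (fun n => ∑' j, b n j * (t:ℂ)^j) atTop (𝓝 l) := by
    intro t ht ht2
    have habs : |t * r| < r := by
      rw [abs_of_pos (by positivity)]; nlinarith
    refine ⟨g (t * r), (hg (t * r) habs).congr fun n => ?_⟩
    rw [hser n _ (by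
      rw [mem_ball_zero_iff, Complex.norm_real, Real.norm_eq_abs]; exact habs)]
    congr 1
    ext j
    congr 2
    push_cast
    field_simp
  have hex := g2_vitali_real_coeff_cauchy b M hb hconv
  choose c hc using hex
  let G : ℂ → ℂ := fun z => ∑' j, c j * (z / r) ^ j
  have hlu : TendstoLocallyUniformlyOn F G atTop (Metric.ball (0:ℂ) r) := by
    intro u hu z hz
    have hz' : ‖z‖ < r := by simpa using hz
    obtain ⟨ρ', h1, h2⟩ := exists_between hz'
    have hρ'0 : 0 ≤ ρ' := (norm_nonneg z).trans h1.le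
    have hU := g2_vitali_real_unif b M hb c hc (ρ' / r) (by positivity) (by rw [div_lt_one hr]; exact h2)
    refine ⟨Metric.ball 0 ρ', ?_, ?_⟩
    · apply mem_nhdsWithin_of_mem_nhds
      exact Metric.isOpen_ball.mem_nhds (by simpa using h1)
    · filter_upwards [hU u hu] with n hn y hy
      have hy' : ‖y‖ < ρ' := by simpa using hy
      have hyr : y ∈ Metric.ball (0:ℂ) r := by simpa using hy'.trans h2
      have := hn (y / r) (by
        rw [mem_closedBall_zero_iff, norm_div, Complex.norm_real, Real.norm_eq_abs, abs_of_pos hr]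
        exact div_le_div_of_nonneg_right hy'.le hr.le)
      rw [hser n y hyr]
      exact this
  have hpt : ∀ z ∈ Metric.ball (0:ℂ) r, Tendsto (fun n => F n z) atTop (𝓝 (G z)) := fun z hz =>
    hlu.tendsto_at hz
  refine ⟨G, hlu.differentiableOn (Eventually.of_forall hF) Metric.isOpen_ball, ?_, ?_, hlu⟩
  · intro z hz
    exact le_of_tendsto (hpt z hz).norm (Eventually.of_forall fun n => hM n z hz)
  · intro t ht
    refine tendsto_nhds_unique (hpt t ?_) (hg t ht)
    rw [mem_ball_zero_iff, Complex.norm_real, Real.norm_eq_abs]; exact ht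
end Pool.Agent.Helper118.Yud
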