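import Pool.Agent.Helper118.Yud.Defs
import Pool.Agent.Helper118.Yud.G2
import Pool.Agent.Helper118.Yud.B1
import Pool.Agent.Helper118.Yud.B3

set_option autoImplicit false

namespace Pool.Agent.Helper118.Yud

open MeasureTheory Complex Set Filter Topology





/-- Y w extends holomorphically to the disc of radius ρ, bounded by M -/
def ExtBdd (y : ℝ → ℂ) (ρ M : ℝ) : Prop :=
  ∃ H : ℂ → ℂ, DifferentiableOn ℂ H (Metric.ball 0 ρ) ∧ (∀ z ∈ Metric.ball (0:ℂ) ρ, ‖H z‖ ≤ M) ∧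
    ∀ t : ℝ, |t| < ρ → H (t:ℂ) = y t

theorem b4_analAux10270 (y : ℝ → ℂ) (hy : AnalyticAt ℝ y 0) :
    ∃ C q : ℝ, 0 < C ∧ 0 < q ∧ (∀ n, ‖iteratedDeriv n y 0 / (n.factorial : ℂ)‖ ≤ C * q ^ n) ∧
      ∀ᶠ t : ℝ in 𝓝 0, HasSum (fun n => iteratedDeriv n y 0 / (n.factorial : ℂ) * (t : ℂ) ^ n) (y t) := by
  obtain ⟨p, r, hp⟩ := hy
  have hcoef : ∀ n, p.coeff n = iteratedDeriv n y 0 / (n.factorial : ℂ) := by
    intro n
    have h1 := hp.factorial_smul (y := (1 : ℝ)) n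
    rw [← iteratedDeriv_eq_iteratedFDeriv, FormalMultilinearSeries.apply_eq_pow_smul_coeff,
      one_pow, one_smul, nsmul_eq_mul] at h1
    rw [← h1, mul_div_cancel_left₀ _ (Nat.cast_ne_zero.2 n.factorial_ne_zero)]
  obtain ⟨r', hr0, hr'⟩ := ENNReal.lt_iff_exists_nnreal_btwn.1 hp.r_pos
  have hr'0 : 0 < r' := by exact_mod_cast hr0
  obtain ⟨C, hC, hCb⟩ := p.norm_le_div_pow_of_pos_of_lt_radius hr'0 (lt_of_lt_of_le hr' hp.r_le)
  refine ⟨C, (r' : ℝ)⁻¹, hC, by positivity, ?_, ?_⟩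
  · intro n
    rw [← hcoef, ← FormalMultilinearSeries.norm_apply_eq_norm_coef, inv_pow, ← div_eq_mul_inv]
    exact hCb n
  · filter_upwards [hp.eventually_hasSum] with t ht
    rw [zero_add] at ht
    have h2 : (fun n : ℕ => p n fun _ : Fin n => t) =
        fun n => iteratedDeriv n y 0 / (n.factorial : ℂ) * (t : ℂ) ^ n := by
      funext n
      rw [FormalMultilinearSeries.apply_eq_pow_smul_coeff, hcoef, Complex.real_smul]
      push_cast
      ring
    rwa [h2] at ht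

theorem b4_seriesAux10270 (a : ℕ → ℂ) (M Q : ℝ) (hQ : 0 < Q) (h : ∀ n, ‖a n‖ ≤ M * Q ^ n) :
    ∃ H : ℂ → ℂ, DifferentiableOn ℂ H (Metric.ball 0 (1 / (2 * Q))) ∧
      (∀ z ∈ Metric.ball (0 : ℂ) (1 / (2 * Q)), ‖H z‖ ≤ 2 * M) ∧
      ∀ z ∈ Metric.ball (0 : ℂ) (1 / (2 * Q)), HasSum (fun n => a n * z ^ n) (H z) := by
  have hM : 0 ≤ M := by
    have := h 0
    rw [pow_zero, mul_one] at this
    exact (norm_nonneg _).trans this
  have hb : ∀ (n : ℕ) (z : ℂ), z ∈ Metric.ball (0 : ℂ) (1 / (2 * Q)) →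
      ‖a n * z ^ n‖ ≤ M * (1 / 2) ^ n := by
    intro n z hz
    rw [mem_ball_zero_iff] at hz
    rw [norm_mul, norm_pow]
    calc ‖a n‖ * ‖z‖ ^ n ≤ (M * Q ^ n) * (1 / (2 * Q)) ^ n := by
          gcongr
          exact h n
      _ = M * (Q * (1 / (2 * Q))) ^ n := by rw [mul_pow]; ring
      _ = M * (1 / 2) ^ n := by
          congr 2
          field_simp
  have hs : HasSum (fun n : ℕ => M * (1 / 2 : ℝ) ^ n) (M * 2) := hasSum_geometric_two.mul_left M
  refine ⟨fun z => ∑' n, a n * z ^ n, ?_, ?_, ?_⟩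
  · refine Complex.differentiableOn_tsum_of_summable_norm hs.summable (fun n => ?_)
      Metric.isOpen_ball hb
    exact (Differentiable.const_mul (differentiable_id.pow n) (a n)).differentiableOn
  · intro z hz
    have := tsum_of_norm_bounded hs (fun n => hb n z hz)
    linarith
  · intro z hz
    exact (Summable.of_norm_bounded hs.summable (fun n => hb n z hz)).hasSum

theorem b4_extMono10270 {y : ℝ → ℂ} {ρ ρ' M M' : ℝ} (h : ExtBdd y ρ M) (hρ : ρ' ≤ ρ) (hM : M ≤ M') :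
    ExtBdd y ρ' M' := by
  obtain ⟨H, h1, h2, h3⟩ := h
  exact ⟨H, h1.mono (Metric.ball_subset_ball hρ),
    fun z hz => (h2 z (Metric.ball_subset_ball hρ hz)).trans hM,
    fun t ht => h3 t (ht.trans_le hρ)⟩

theorem extBdd_of_analyticAt (y : ℝ → ℂ) (hy : AnalyticAt ℝ y 0) :
    ∃ N : ℕ, ExtBdd y (1 / ((N:ℝ) + 1)) (N + 1) := by
  obtain ⟨C, q, hC, hq, hb, hev⟩ := b4_analAux10270 y hy
  obtain ⟨H, h1, h2, h3⟩ := b4_seriesAux10270 _ C q hq hb
  obtain ⟨ε, hε, hεs⟩ := Metric.eventually_nhds_iff.1 hev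
  have hE : ExtBdd y (min ε (1 / (2 * q))) (2 * C) := by
    refine ⟨H, h1.mono (Metric.ball_subset_ball (min_le_right _ _)),
      fun z hz => h2 z (Metric.ball_subset_ball (min_le_right _ _) hz), fun t ht => ?_⟩
    have ht1 : (t : ℂ) ∈ Metric.ball (0 : ℂ) (1 / (2 * q)) := by
      rw [mem_ball_zero_iff, Complex.norm_real, Real.norm_eq_abs]
      exact ht.trans_le (min_le_right _ _)
    have ht2 : dist t 0 < ε := by
      rw [Real.dist_eq, sub_zero]
      exact ht.trans_le (min_le_left _ _)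
    exact (h3 _ ht1).unique (hεs ht2)
  have hρ : 0 < min ε (1 / (2 * q)) := lt_min hε (by positivity)
  obtain ⟨N, hN⟩ := exists_nat_ge (max (1 / min ε (1 / (2 * q))) (2 * C))
  refine ⟨N, b4_extMono10270 hE ?_ ?_⟩
  · have h4 : 1 / min ε (1 / (2 * q)) ≤ (N : ℝ) + 1 := by
      have := (le_max_left _ _).trans hN
      linarith
    rw [div_le_iff₀ hρ] at h4
    rw [div_le_iff₀ (by positivity)]
    linarith
  · have := (le_max_right _ _).trans hN
    linarith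

theorem extBdd_closed (Y : C(T2, ℝ) → ℝ → ℂ) (hcont : ∀ t, Continuous (fun w => Y w t)) (ρ M : ℝ)
    (hρ : 0 < ρ) : IsClosed {w : C(T2, ℝ) | ExtBdd (Y w) ρ M} := by
  apply IsSeqClosed.isClosed
  intro w w0 hw hlim
  choose H h1 h2 h3 using hw
  obtain ⟨G, g1, g2, g3, -⟩ := vitali_real ρ M hρ H h1 h2 (Y w0) (fun t ht => by
    have h4 : (fun n => H n (t : ℂ)) = fun n => Y (w n) t := by
      funext n; exact h3 n t ht
    rw [h4]
    exact ((hcont t).tendsto w0).comp hlim)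
  exact ⟨G, g1, g2, g3⟩

theorem b4_iterAux10270 (H : ℂ → ℂ) (ρ : ℝ) (hH : DifferentiableOn ℂ H (Metric.ball 0 ρ)) (y : ℝ → ℂ)
    (hy : ∀ t : ℝ, |t| < ρ → H t = y t) (n : ℕ) :
    ∀ t : ℝ, |t| < ρ → iteratedDeriv n y t = iteratedDeriv n H (t : ℂ) := by
  induction n with
  | zero => intro t ht; simp [hy t ht]
  | succ n ih =>
    intro t ht
    rw [iteratedDeriv_succ, iteratedDeriv_succ]
    have h1 : iteratedDeriv n y =ᶠ[𝓝 t] fun s : ℝ => iteratedDeriv n H (s : ℂ) := by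
      have ho : IsOpen {s : ℝ | |s| < ρ} := isOpen_lt continuous_abs continuous_const
      filter_upwards [ho.mem_nhds ht] with s hs using ih s hs
    rw [h1.deriv_eq]
    have h2 : DifferentiableAt ℂ (iteratedDeriv n H) (t : ℂ) := by
      rw [iteratedDeriv_eq_iterate]
      refine ((hH.analyticOnNhd Metric.isOpen_ball).iterated_deriv n (t : ℂ) ?_).differentiableAt
      rwa [mem_ball_zero_iff, Complex.norm_real, Real.norm_eq_abs]
    exact h2.hasDerivAt.comp_ofReal.deriv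

theorem extBdd_deriv (y : ℝ → ℂ) (ρ M : ℝ) (hρ : 0 < ρ) (h : ExtBdd y ρ M) (n : ℕ) :
    ‖iteratedDeriv n y 0‖ ≤ n.factorial * M / ρ ^ n := by
  obtain ⟨H, h1, h2, h3⟩ := h
  have h4 := b4_iterAux10270 H ρ h1 y h3 n 0 (by simpa using hρ)
  rw [h4, Complex.ofReal_zero, le_div_iff₀ (by positivity)]
  have hcl : IsClosed {R : ℝ | ‖iteratedDeriv n H 0‖ * R ^ n ≤ n.factorial * M} :=
    isClosed_le (by fun_prop) continuous_const
  have hsub : Set.Ioo 0 ρ ⊆ {R : ℝ | ‖iteratedDeriv n H 0‖ * R ^ n ≤ n.factorial * M} := by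
    intro R hR
    have h5 := Complex.norm_iteratedDeriv_le_of_forall_mem_sphere_norm_le (f := H) (c := 0)
      (C := M) n hR.1 (h1.diffContOnCl_ball (Metric.closedBall_subset_ball hR.2))
      (fun z hz => h2 z (Metric.closedBall_subset_ball hR.2 (Metric.sphere_subset_closedBall hz)))
    rwa [le_div_iff₀ (pow_pos hR.1 n)] at h5
  have h6 := hcl.closure_subset_iff.2 hsub
  rw [closure_Ioo hρ.ne] at h6
  exact h6 (Set.right_mem_Icc.2 hρ.le)

theorem extBdd_of_taylor (y : ℝ → ℂ) (hy : ∀ t, AnalyticAt ℝ y t) (M Q : ℝ) (hQ : 0 < Q)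
    (h : ∀ n, ‖iteratedDeriv n y 0‖ ≤ n.factorial * M * Q ^ n) : ExtBdd y (1 / (2 * Q)) (2 * M) := by
  have hb : ∀ n, ‖iteratedDeriv n y 0 / (n.factorial : ℂ)‖ ≤ M * Q ^ n := by
    intro n
    have hf : (0 : ℝ) < n.factorial := by exact_mod_cast n.factorial_pos
    rw [norm_div, Complex.norm_natCast, div_le_iff₀ hf]
    have := h n
    linarith
  obtain ⟨H, h1, h2, h3⟩ := b4_seriesAux10270 _ M Q hQ hb
  refine ⟨H, h1, h2, fun t ht => ?_⟩
  obtain ⟨C, q, -, -, -, hev⟩ := b4_analAux10270 y (hy 0)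
  set U : Set ℝ := Metric.ball (0 : ℝ) (1 / (2 * Q)) with hU
  have hUpre : IsPreconnected U := (convex_ball (0 : ℝ) _).isPreconnected
  have hmem : ∀ s ∈ U, (s : ℂ) ∈ Metric.ball (0 : ℂ) (1 / (2 * Q)) := by
    intro s hs
    rw [mem_ball_zero_iff, Real.norm_eq_abs] at hs
    rwa [mem_ball_zero_iff, Complex.norm_real, Real.norm_eq_abs]
  have hHa : AnalyticOnNhd ℝ (fun s : ℝ => H (s : ℂ)) U := by
    intro s hs
    have e1 : AnalyticAt ℂ H (s : ℂ) := h1.analyticOnNhd Metric.isOpen_ball _ (hmem s hs)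
    have e2 : AnalyticAt ℝ H (s : ℂ) := e1.restrictScalars
    exact e2.fun_comp (Complex.ofRealCLM.analyticAt s)
  have h0U : (0 : ℝ) ∈ U := Metric.mem_ball_self (by positivity)
  have hloc : (fun s : ℝ => H (s : ℂ)) =ᶠ[𝓝 0] y := by
    filter_upwards [hev, Metric.isOpen_ball.mem_nhds h0U] with s hs hsU
    exact (h3 _ (hmem s hsU)).unique hs
  have := hHa.eqOn_of_preconnected_of_eventuallyEq (fun s _ => hy s) hUpre h0U hloc
  exact this (by rw [hU, mem_ball_zero_iff, Real.norm_eq_abs]; exact ht)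

theorem baire_uniform (Y : C(T2, ℝ) → ℝ → ℂ) (hcont : ∀ t, Continuous (fun w => Y w t))
    (hana : ∀ w t, AnalyticAt ℝ (Y w) t)
    (htaylor : ∀ p φ : C(T2, ℝ), IsTrig p → IsTrig φ → ∀ n : ℕ, ∃ c : ℕ → ℂ, ∀ s1 s2 : ℝ,
      iteratedDeriv n (Y (s1 • p + s2 • φ)) 0 =
        ∑ j ∈ Finset.range (n+1), c j * (s1:ℂ)^(n-j) * (s2:ℂ)^j) :
    ∃ r M δ : ℝ, 0 < r ∧ 0 < δ ∧ ∀ φ : C(T2, ℝ), IsTrig φ → (∀ x, |φ x| ≤ δ) → ExtBdd (Y φ) r M := by
  have hcl : ∀ N : ℕ, IsClosed {w : C(T2, ℝ) | ExtBdd (Y w) (1 / ((N : ℝ) + 1)) (N + 1)} := fun N =>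
    extBdd_closed Y hcont _ _ (by positivity)
  have hU : ⋃ N : ℕ, {w : C(T2, ℝ) | ExtBdd (Y w) (1 / ((N : ℝ) + 1)) (N + 1)} = Set.univ := by
    rw [Set.eq_univ_iff_forall]
    intro w
    obtain ⟨N, hN⟩ := extBdd_of_analyticAt (Y w) (hana w 0)
    exact Set.mem_iUnion.2 ⟨N, hN⟩
  obtain ⟨N, w0, hw0⟩ := nonempty_interior_of_iUnion_of_closed hcl hU
  obtain ⟨δ, hδ, hδs⟩ := Metric.isOpen_iff.1 isOpen_interior w0 hw0
  obtain ⟨p, hp, hpw⟩ := trig_dense w0 (δ / 4) (by positivity)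
  have hN0 : (0 : ℝ) < (N : ℝ) + 1 := by positivity
  refine ⟨1 / (2 * (2 * Real.exp 1 * ((N : ℝ) + 1))), 2 * ((N : ℝ) + 1), δ / 4, by positivity,
    by positivity, fun φ hφ hφδ => ?_⟩
  refine extBdd_of_taylor (Y φ) (hana φ) _ _ (by positivity) fun n => ?_
  obtain ⟨c, hc⟩ := htaylor p φ hp hφ n
  have hB : ∀ s : ℝ, |s| ≤ 1 → ‖∑ j ∈ Finset.range (n+1), c j * (s:ℂ)^j‖ ≤
      n.factorial * ((N : ℝ) + 1) * ((N : ℝ) + 1) ^ n := by
    intro s hs
    have e1 := hc 1 s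
    have e2 : ∑ j ∈ Finset.range (n+1), c j * ((1 : ℝ):ℂ)^(n-j) * (s:ℂ)^j =
        ∑ j ∈ Finset.range (n+1), c j * (s:ℂ)^j := by
      refine Finset.sum_congr rfl fun j _ => ?_
      simp
    rw [← e2, ← e1]
    have hmem : (1 : ℝ) • p + s • φ ∈ Metric.ball w0 δ := by
      rw [Metric.mem_ball]
      refine lt_of_le_of_lt ((ContinuousMap.dist_le (C := δ / 2) (by positivity)).2 fun x => ?_)
        (by linarith)
      rw [Real.dist_eq]
      have e3 : ((1 : ℝ) • p + s • φ) x - w0 x = (p x - w0 x) + s * φ x := by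
        simp; ring
      rw [e3]
      have e4 : |s * φ x| ≤ 1 * (δ / 4) := by
        rw [abs_mul]
        exact mul_le_mul hs (hφδ x) (abs_nonneg _) zero_le_one
      have e5 := abs_add_le (p x - w0 x) (s * φ x)
      have e6 := hpw x
      linarith
    have hE : ExtBdd (Y ((1 : ℝ) • p + s • φ)) (1 / ((N : ℝ) + 1)) (N + 1) := by
      have := interior_subset (hδs hmem)
      exact this
    have e7 := extBdd_deriv _ _ _ (by positivity) hE n
    refine e7.trans (le_of_eq ?_)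
    rw [one_div, inv_pow, div_inv_eq_mul]
  have htop := top_coeff_bound n c _ hB
  have e1 := hc 0 1
  have e2 : (0 : ℝ) • p + (1 : ℝ) • φ = φ := by simp
  have e3 : ∑ j ∈ Finset.range (n+1), c j * ((0 : ℝ):ℂ)^(n-j) * ((1 : ℝ):ℂ)^j = c n := by
    rw [Finset.sum_range_succ, Finset.sum_eq_zero]
    · simp
    · intro j hj
      have : n - j ≠ 0 := by
        have := Finset.mem_range.1 hj
        omega
      simp [this]
  rw [e2, e3] at e1
  rw [e1]
  refine htop.trans (le_of_eq ?_)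
  rw [mul_pow (2 * Real.exp 1)]
  ring

end Pool.Agent.Helper118.Yud
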