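import Pool.Agent.Helper118.Yud.Defs

set_option autoImplicit false

namespace Pool.Agent.Helper118.Yud

open MeasureTheory Complex Set Filter Topology


theorem lagr_scale (K : T2 → ℂ) (ω : T2 → ℝ) (ξ : ℝ → T2 → ℂ) (h : Lagr K ω ξ) (l : ℝ) :
    Lagr K (fun x => l * ω x) (fun t a => ξ (l * t) a) := by
  have hv : ∀ (η : T2 → ℂ) (x : T2), vel K (fun x => l * ω x) η x = (l : ℂ) * vel K ω η x := by
    intro η x
    unfold vel
    rw [← integral_const_mul]
    congr 1
    ext b
    push_cast
    ring
  refine ⟨?_, fun t => h.mp (l * t), fun t a => ?_⟩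
  · exact h.cont.comp ((continuous_const.mul continuous_fst).prodMk continuous_snd)
  · have h1 := h.eq (l * t) a
    have h2 := intervalIntegral.smul_integral_comp_mul_left
      (a := 0) (b := t) (fun s => vel K ω (ξ s) (mv (ξ s) a)) l
    rw [mul_zero] at h2
    show ξ (l * t) a = ∫ s in (0:ℝ)..t, vel K (fun x => l * ω x) (ξ (l * s)) (mv (ξ (l * s)) a)
    simp_rw [hv]
    rw [h1, ← h2, intervalIntegral.integral_const_mul]
    exact Complex.real_smul

theorem lagr_translate (K : T2 → ℂ) (ω : T2 → ℝ) (ξ : ℝ → T2 → ℂ) (h : Lagr K ω ξ) (c : T2) :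
    Lagr K (fun x => ω (x + c)) (fun t a => ξ t (a + c)) := by
  have hinv : (volume : Measure T2).IsAddLeftInvariant := by
    rw [Measure.volume_eq_prod]; infer_instance
  have hmv : ∀ (η : T2 → ℂ) (b : T2), mv (fun a => η (a + c)) b = mv η (b + c) - c := by
    intro η b
    unfold mv
    abel
  have hv : ∀ (η : T2 → ℂ) (x : T2), vel K (fun x => ω (x + c)) (fun a => η (a + c)) x =
      vel K ω η (x + c) := by
    intro η x
    unfold vel
    rw [← integral_add_right_eq_self (fun b => (ω b : ℂ) * K (x + c - mv η b)) c]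
    congr 1
    ext b
    rw [hmv]
    congr 2
    abel
  refine ⟨?_, fun t => ?_, fun t a => ?_⟩
  · exact h.cont.comp (continuous_fst.prodMk (continuous_snd.add continuous_const))
  · have e : mv (fun a => ξ t (a + c)) = (fun x => x + (-c)) ∘ (mv (ξ t)) ∘ (fun x => x + c) := by
      ext1 b
      simp only [Function.comp]
      rw [hmv, sub_eq_add_neg]
    show MeasurePreserving (mv (fun a => ξ t (a + c))) volume volume
    rw [e]
    exact (measurePreserving_add_right volume (-c)).comp
      ((h.mp t).comp (measurePreserving_add_right volume c))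
  · show ξ t (a + c) = ∫ s in (0:ℝ)..t, vel K (fun x => ω (x + c)) (fun a => ξ s (a + c))
      (mv (fun a => ξ s (a + c)) a)
    simp_rw [hv, hmv, sub_add_cancel]
    exact h.eq t (a + c)

end Pool.Agent.Helper118.Yud
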