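import Pool.Agent.Helper118.Yud.Defs

set_option autoImplicit false

namespace Pool.Agent.Helper118.Yud

open MeasureTheory Complex Set Filter Topology


theorem e1_meas_lt_bound (t : ℝ) (ht : 0 < t) :
    (volume : Measure T2) {a | t < ‖a‖⁻¹} ≤ ENNReal.ofReal (4 * t ^ (-2 : ℝ)) := by
  have hsub : {a : T2 | t < ‖a‖⁻¹} ⊆
      (Metric.closedBall (0 : UnitAddCircle) (1/t)) ×ˢ (Metric.closedBall (0 : UnitAddCircle) (1/t)) := by
    intro a ha
    simp only [Set.mem_ofPred_eq] at ha
    have hpos : 0 < ‖a‖ := by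
      by_contra h
      have h0 : ‖a‖ = 0 := le_antisymm (not_lt.mp h) (norm_nonneg a)
      rw [h0, inv_zero] at ha
      linarith
    have hle : ‖a‖ ≤ 1 / t := by
      rw [le_div_iff₀ ht]
      have h1 : t * ‖a‖ < ‖a‖⁻¹ * ‖a‖ := mul_lt_mul_of_pos_right ha hpos
      rw [inv_mul_cancel₀ hpos.ne'] at h1
      linarith [mul_comm t ‖a‖]
    refine ⟨?_, ?_⟩
    · rw [mem_closedBall_zero_iff]
      exact (norm_fst_le a).trans hle
    · rw [mem_closedBall_zero_iff]
      exact (norm_snd_le a).trans hle
  refine (measure_mono hsub).trans ?_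
  rw [show (volume : Measure T2) = (volume : Measure UnitAddCircle).prod volume from rfl,
    Measure.prod_prod]
  have hb : (volume : Measure UnitAddCircle) (Metric.closedBall (0 : UnitAddCircle) (1/t))
      ≤ ENNReal.ofReal (2 * t⁻¹) := by
    rw [AddCircle.volume_closedBall]
    apply ENNReal.ofReal_le_ofReal
    have := min_le_right (1:ℝ) (2 * (1 / t))
    rw [one_div] at this
    simpa using this
  calc (volume : Measure UnitAddCircle) (Metric.closedBall (0 : UnitAddCircle) (1/t)) *
        (volume : Measure UnitAddCircle) (Metric.closedBall (0 : UnitAddCircle) (1/t))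
      ≤ ENNReal.ofReal (2 * t⁻¹) * ENNReal.ofReal (2 * t⁻¹) := mul_le_mul' hb hb
    _ = ENNReal.ofReal (4 * t ^ (-2 : ℝ)) := by
        rw [← ENNReal.ofReal_mul (by positivity)]
        congr 1
        rw [Real.rpow_neg ht.le]
        norm_cast
        field_simp
        ring

theorem e1_lint_fin : ∫⁻ a : T2, ENNReal.ofReal (‖a‖⁻¹) < ⊤ := by
  rw [lintegral_eq_lintegral_meas_lt volume (Filter.Eventually.of_forall fun a => by positivity)
    (by fun_prop)]
  have hsplit : (Set.Ioi (0:ℝ)) = Set.Ioc 0 1 ∪ Set.Ioi 1 := (Set.Ioc_union_Ioi_eq_Ioi zero_le_one).symm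
  rw [hsplit]
  refine (lintegral_union_le _ _ _).trans_lt ?_
  refine ENNReal.add_lt_top.mpr ⟨?_, ?_⟩
  · calc ∫⁻ t in Set.Ioc (0:ℝ) 1, (volume : Measure T2) {a | t < ‖a‖⁻¹}
        ≤ ∫⁻ t in Set.Ioc (0:ℝ) 1, 1 := by
          apply lintegral_mono
          intro t
          haveI : IsProbabilityMeasure (volume : Measure UnitAddCircle) :=
            ⟨UnitAddCircle.measure_univ⟩
          exact (prob_le_one (μ := (volume : Measure UnitAddCircle).prod
            (volume : Measure UnitAddCircle)))
      _ < ⊤ := by simp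
  · calc ∫⁻ t in Set.Ioi (1:ℝ), (volume : Measure T2) {a | t < ‖a‖⁻¹}
        ≤ ∫⁻ t in Set.Ioi (1:ℝ), ENNReal.ofReal (4 * t ^ (-2 : ℝ)) := by
          apply setLIntegral_mono' measurableSet_Ioi
          intro t ht
          exact e1_meas_lt_bound t (lt_trans zero_lt_one ht)
      _ < ⊤ := by
          have h := (integrableOn_Ioi_rpow_of_lt (by norm_num : (-2:ℝ) < -1) (zero_lt_one)).const_mul 4
          have h2 := h.lintegral_lt_top
          exact h2

theorem IsBS.integrable {K : T2 → ℂ} {C : ℝ} (hK : IsBS K C) : Integrable K volume := by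
  have hint : Integrable (fun a : T2 => C * ‖a‖⁻¹) volume := by
    apply Integrable.const_mul
    refine ⟨by fun_prop, ?_⟩
    rw [hasFiniteIntegral_iff_ofReal (Filter.Eventually.of_forall fun a => by positivity)]
    exact e1_lint_fin
  refine hint.mono' hK.meas.aestronglyMeasurable ?_
  have h0 : ∀ᵐ x : T2, x ≠ 0 := by
    have h1 : (volume : Measure UnitAddCircle) {0} = 0 := by
      rw [← Metric.closedBall_zero, AddCircle.volume_closedBall]
      simp
    have : (volume : Measure T2) {0} = 0 := by
      rw [show ({0} : Set T2) = ({0} : Set UnitAddCircle) ×ˢ ({0} : Set UnitAddCircle) by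
        rw [Set.singleton_prod_singleton]; rfl]
      rw [show (volume : Measure T2) = (volume : Measure UnitAddCircle).prod volume from rfl,
        Measure.prod_prod, h1, zero_mul]
    exact compl_mem_ae_iff.mpr this
  filter_upwards [h0] with x hx
  have := hK.bd x hx
  rwa [div_eq_mul_inv] at this

end Pool.Agent.Helper118.Yud
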