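import Pool.Agent.Helper118.Yud.Defs

set_option autoImplicit false

namespace Pool.Agent.Helper118.Yud

open MeasureTheory Complex Set Filter Topology



section KE

open scoped ENNReal

theorem e2_ke_mp (x : T2) : MeasurePreserving (fun u : T2 => x - u) volume volume := by
  have e2_h1 : MeasurePreserving (Prod.map (Neg.neg : UnitAddCircle → UnitAddCircle)
      (Neg.neg : UnitAddCircle → UnitAddCircle))
      ((volume : Measure UnitAddCircle).prod (volume : Measure UnitAddCircle))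
      ((volume : Measure UnitAddCircle).prod (volume : Measure UnitAddCircle)) :=
    (Measure.measurePreserving_neg (volume : Measure UnitAddCircle)).prod
      (Measure.measurePreserving_neg (volume : Measure UnitAddCircle))
  have e2_h2 : MeasurePreserving (fun u : T2 => x + u)
      ((volume : Measure UnitAddCircle).prod (volume : Measure UnitAddCircle))
      ((volume : Measure UnitAddCircle).prod (volume : Measure UnitAddCircle)) :=
    measurePreserving_add_left _ x
  have h3 := e2_h2.comp e2_h1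
  have h4 : (fun u : T2 => x - u) = (fun u : T2 => x + u) ∘ (Prod.map
      (Neg.neg : UnitAddCircle → UnitAddCircle) (Neg.neg : UnitAddCircle → UnitAddCircle)) := by
    funext u
    rw [sub_eq_add_neg]
    rfl
  rw [h4]
  exact h3

theorem e2_ke_vol {s : ℝ} (hs : 0 ≤ s) :
    volume (Metric.closedBall (0 : T2) s) ≤ ENNReal.ofReal (4 * s ^ 2) := by
  have e2_h1 : Metric.closedBall (0 : T2) s =
      Metric.closedBall (0 : UnitAddCircle) s ×ˢ Metric.closedBall (0 : UnitAddCircle) s :=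
    (closedBall_prod_same (0 : UnitAddCircle) (0 : UnitAddCircle) s).symm
  rw [e2_h1, Measure.volume_eq_prod, Measure.prod_prod, AddCircle.volume_closedBall]
  have e2_h2 : ENNReal.ofReal (min 1 (2 * s)) ≤ ENNReal.ofReal (2 * s) :=
    ENNReal.ofReal_le_ofReal (min_le_right _ _)
  calc ENNReal.ofReal (min 1 (2 * s)) * ENNReal.ofReal (min 1 (2 * s))
      ≤ ENNReal.ofReal (2 * s) * ENNReal.ofReal (2 * s) := mul_le_mul' e2_h2 e2_h2
    _ = ENNReal.ofReal (4 * s ^ 2) := by
        rw [← ENNReal.ofReal_mul (by positivity)]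
        congr 1; ring

theorem e2_ke_half (u : T2) : ‖u‖ ≤ 1 / 2 := by
  rw [Prod.norm_def]
  apply max_le
  · have := AddCircle.norm_le_half_period (1 : ℝ) (x := u.1) one_ne_zero
    simpa using this
  · have := AddCircle.norm_le_half_period (1 : ℝ) (x := u.2) one_ne_zero
    simpa using this

noncomputable def e2_h1 (r : ℝ) (u : T2) : ℝ≥0∞ :=
  open Classical in if ‖u‖ ≤ r then ENNReal.ofReal (1 / ‖u‖) else 0

noncomputable def e2_h2 (a : ℝ) (u : T2) : ℝ≥0∞ :=
  open Classical in if a ≤ ‖u‖ then ENNReal.ofReal (1 / ‖u‖ ^ 2) else 0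

theorem e2_h1_meas (r : ℝ) : Measurable (e2_h1 r) := by
  unfold e2_h1
  apply Measurable.ite
  · exact measurableSet_le measurable_norm measurable_const
  · exact (measurable_const.div measurable_norm).ennreal_ofReal
  · exact measurable_const

theorem e2_h2_meas (a : ℝ) : Measurable (e2_h2 a) := by
  unfold e2_h2
  apply Measurable.ite
  · exact measurableSet_le measurable_const measurable_norm
  · exact (measurable_const.div (measurable_norm.pow_const 2)).ennreal_ofReal
  · exact measurable_const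

theorem e2_h1_int {r : ℝ} (hr : 0 < r) : ∫⁻ u, e2_h1 r u ≤ ENNReal.ofReal (16 * r) := by
  set g : ℕ → T2 → ℝ≥0∞ := fun n => (Metric.closedBall (0 : T2) (r * (1 / 2) ^ n)).indicator
    (fun _ => ENNReal.ofReal (2 ^ (n + 1) / r)) with hg
  have hpt : ∀ u, e2_h1 r u ≤ ∑' n, g n u := by
    intro u
    unfold e2_h1
    split_ifs with hu
    · by_cases hu0 : ‖u‖ = 0
      · rw [hu0]; simp
      · have hpos : 0 < ‖u‖ := lt_of_le_of_ne (norm_nonneg _) (Ne.symm hu0)
        obtain ⟨n, hn1, hn2⟩ := exists_nat_pow_near_of_lt_one (x := ‖u‖ / r) (y := 1 / 2)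
          (by positivity) (by rw [div_le_one hr]; exact hu) (by norm_num) (by norm_num)
        rw [lt_div_iff₀ hr] at hn1
        rw [div_le_iff₀ hr] at hn2
        have hmem : u ∈ Metric.closedBall (0 : T2) (r * (1 / 2) ^ n) := by
          rw [mem_closedBall_zero_iff, mul_comm]; exact hn2
        calc ENNReal.ofReal (1 / ‖u‖) ≤ ENNReal.ofReal (2 ^ (n + 1) / r) := by
              apply ENNReal.ofReal_le_ofReal
              rw [div_le_div_iff₀ hpos hr, one_mul]
              have h3 : (2 : ℝ) ^ (n + 1) * ((1 / 2) ^ (n + 1) * r) ≤ 2 ^ (n + 1) * ‖u‖ :=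
                mul_le_mul_of_nonneg_left hn1.le (by positivity)
              have h4 : (2 : ℝ) ^ (n + 1) * ((1 / 2) ^ (n + 1) * r) = r := by
                rw [← mul_assoc, ← mul_pow]
                norm_num
              rw [h4] at h3
              exact h3
          _ = g n u := by
              rw [hg]
              simp only
              rw [indicator_of_mem hmem]
          _ ≤ ∑' n, g n u := ENNReal.le_tsum n
    · exact bot_le
  have hgm : ∀ n, Measurable (g n) := fun n =>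
    measurable_const.indicator Metric.isClosed_closedBall.measurableSet
  have hgi : ∀ n, ∫⁻ u, g n u ≤ ENNReal.ofReal (8 * r * (1 / 2) ^ n) := by
    intro n
    rw [hg]
    simp only
    rw [lintegral_indicator_const Metric.isClosed_closedBall.measurableSet]
    have h3 := e2_ke_vol (s := r * (1 / 2) ^ n) (by positivity)
    calc ENNReal.ofReal (2 ^ (n + 1) / r) * volume (Metric.closedBall (0 : T2) (r * (1 / 2) ^ n))
        ≤ ENNReal.ofReal (2 ^ (n + 1) / r) * ENNReal.ofReal (4 * (r * (1 / 2) ^ n) ^ 2) :=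
          mul_le_mul' le_rfl h3
      _ = ENNReal.ofReal (8 * r * (1 / 2) ^ n) := by
          rw [← ENNReal.ofReal_mul (by positivity)]
          congr 1
          have h4 : (2 : ℝ) ^ n * (1 / 2) ^ n = 1 := by rw [← mul_pow]; norm_num
          calc (2 : ℝ) ^ (n + 1) / r * (4 * (r * (1 / 2) ^ n) ^ 2)
              = (2 ^ n * (1 / 2) ^ n) * (8 * r * (1 / 2) ^ n) := by
                field_simp; ring
            _ = 8 * r * (1 / 2) ^ n := by rw [h4, one_mul]
  calc ∫⁻ u, e2_h1 r u ≤ ∫⁻ u, ∑' n, g n u := lintegral_mono hpt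
    _ = ∑' n, ∫⁻ u, g n u := lintegral_tsum fun n => (hgm n).aemeasurable
    _ ≤ ∑' n, ENNReal.ofReal (8 * r * (1 / 2) ^ n) := ENNReal.tsum_le_tsum hgi
    _ = ENNReal.ofReal (∑' n : ℕ, 8 * r * (1 / 2) ^ n) := by
        rw [ENNReal.ofReal_tsum_of_nonneg (fun n => by positivity)]
        exact summable_geometric_two.mul_left _
    _ = ENNReal.ofReal (16 * r) := by
        rw [tsum_mul_left, tsum_geometric_two]
        congr 1; ring

theorem e2_h2_int {a : ℝ} (ha : 0 < a) (ha1 : 2 * a ≤ 1) : ∃ N : ℕ, 2 * a ≤ (1 / 2) ^ N ∧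
    ∫⁻ u, e2_h2 a u ≤ ENNReal.ofReal (16 * ((N : ℝ) + 1)) := by
  obtain ⟨N, hN1, hN2⟩ := exists_nat_pow_near_of_lt_one (x := 2 * a) (y := 1 / 2)
    (by positivity) ha1 (by norm_num) (by norm_num)
  refine ⟨N, hN2, ?_⟩
  set g : ℕ → T2 → ℝ≥0∞ := fun n => (Metric.closedBall (0 : T2) ((1 / 2) ^ (n + 1))).indicator
    (fun _ => ENNReal.ofReal (4 ^ (n + 2))) with hg
  have hpt : ∀ u, e2_h2 a u ≤ ∑ n ∈ Finset.range (N + 1), g n u := by
    intro u
    unfold e2_h2
    split_ifs with hu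
    · have hpos : 0 < ‖u‖ := lt_of_lt_of_le ha hu
      obtain ⟨n, hn1, hn2⟩ := exists_nat_pow_near_of_lt_one (x := 2 * ‖u‖) (y := 1 / 2)
        (by positivity) (by have := e2_ke_half u; linarith) (by norm_num) (by norm_num)
      have hnN : n ∈ Finset.range (N + 1) := by
        rw [Finset.mem_range]
        by_contra hcon
        rw [not_lt] at hcon
        have h3 : ((1 : ℝ) / 2) ^ n ≤ (1 / 2) ^ (N + 1) :=
          pow_le_pow_of_le_one (by norm_num) (by norm_num) hcon
        linarith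
      have hmem : u ∈ Metric.closedBall (0 : T2) ((1 / 2) ^ (n + 1)) := by
        rw [mem_closedBall_zero_iff, pow_succ]; linarith
      calc ENNReal.ofReal (1 / ‖u‖ ^ 2) ≤ ENNReal.ofReal (4 ^ (n + 2)) := by
            apply ENNReal.ofReal_le_ofReal
            rw [div_le_iff₀ (by positivity)]
            have h3 : ((1 : ℝ) / 2) ^ (n + 2) ≤ ‖u‖ := by
              rw [pow_succ]; linarith
            have h4 : (((1 : ℝ) / 2) ^ (n + 2)) ^ 2 ≤ ‖u‖ ^ 2 :=
              pow_le_pow_left₀ (by positivity) h3 2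
            have h5 : (4 : ℝ) ^ (n + 2) * (((1 : ℝ) / 2) ^ (n + 2)) ^ 2 = 1 := by
              rw [← pow_mul, mul_comm (n + 2) 2, pow_mul, ← mul_pow]
              norm_num
            calc (1 : ℝ) = (4 : ℝ) ^ (n + 2) * (((1 : ℝ) / 2) ^ (n + 2)) ^ 2 := h5.symm
              _ ≤ 4 ^ (n + 2) * ‖u‖ ^ 2 := mul_le_mul_of_nonneg_left h4 (by positivity)
        _ = g n u := by
            rw [hg]
            simp only
            rw [indicator_of_mem hmem]
        _ ≤ ∑ n ∈ Finset.range (N + 1), g n u :=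
            Finset.single_le_sum (f := fun n => g n u) (fun _ _ => bot_le) hnN
    · exact bot_le
  have hgm : ∀ n, Measurable (g n) := fun n =>
    measurable_const.indicator Metric.isClosed_closedBall.measurableSet
  have hgi : ∀ n, ∫⁻ u, g n u ≤ ENNReal.ofReal 16 := by
    intro n
    rw [hg]
    simp only
    rw [lintegral_indicator_const Metric.isClosed_closedBall.measurableSet]
    have h3 := e2_ke_vol (s := (1 / 2) ^ (n + 1)) (by positivity)
    calc ENNReal.ofReal (4 ^ (n + 2)) * volume (Metric.closedBall (0 : T2) ((1 / 2) ^ (n + 1)))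
        ≤ ENNReal.ofReal (4 ^ (n + 2)) * ENNReal.ofReal (4 * ((1 / 2) ^ (n + 1)) ^ 2) :=
          mul_le_mul' le_rfl h3
      _ = ENNReal.ofReal 16 := by
          rw [← ENNReal.ofReal_mul (by positivity)]
          congr 1
          have h5 : (4 : ℝ) ^ (n + 1) * (((1 : ℝ) / 2) ^ (n + 1)) ^ 2 = 1 := by
            rw [← pow_mul, mul_comm (n + 1) 2, pow_mul, ← mul_pow]
            norm_num
          calc (4 : ℝ) ^ (n + 2) * (4 * ((1 / 2) ^ (n + 1)) ^ 2)
              = 16 * ((4 : ℝ) ^ (n + 1) * (((1 : ℝ) / 2) ^ (n + 1)) ^ 2) := by ring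
            _ = 16 := by rw [h5, mul_one]
  calc ∫⁻ u, e2_h2 a u ≤ ∫⁻ u, ∑ n ∈ Finset.range (N + 1), g n u := lintegral_mono hpt
    _ = ∑ n ∈ Finset.range (N + 1), ∫⁻ u, g n u := lintegral_finsetSum _ fun n _ => hgm n
    _ ≤ ∑ n ∈ Finset.range (N + 1), ENNReal.ofReal 16 := Finset.sum_le_sum fun n _ => hgi n
    _ = ENNReal.ofReal (16 * ((N : ℝ) + 1)) := by
        rw [Finset.sum_const, Finset.card_range, nsmul_eq_mul, mul_comm,
          ENNReal.ofReal_mul (by norm_num)]
        congr 1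
        rw [← Nat.cast_succ, ENNReal.ofReal_natCast]

theorem e2_ke_K0 {K : T2 → ℂ} {C : ℝ} (hK : IsBS K C) : K 0 = 0 := by
  have h := hK.odd 0
  rw [neg_zero] at h
  have h3 : (2 : ℂ) * K 0 = 0 := by linear_combination h
  simpa using h3

theorem e2_ke_bd {K : T2 → ℂ} {C : ℝ} (hK : IsBS K C) (x : T2) : ‖K x‖ ≤ C / ‖x‖ := by
  by_cases hx : x = 0
  · rw [hx, e2_ke_K0 hK]; simp
  · exact hK.bd x hx

theorem e2_ke_pt1 {K : T2 → ℂ} {C : ℝ} (hK : IsBS K C) {r : ℝ} {z : T2} (hz : ‖z‖ ≤ r) :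
    ENNReal.ofReal ‖K z‖ ≤ ENNReal.ofReal C * e2_h1 r z := by
  unfold e2_h1
  rw [if_pos hz, ← ENNReal.ofReal_mul hK.pos.le]
  apply ENNReal.ofReal_le_ofReal
  have := e2_ke_bd hK z
  rw [mul_one_div]
  exact this

theorem e2_ke_pt2 {K : T2 → ℂ} {C : ℝ} (hK : IsBS K C) {δ : ℝ} (hδ : 0 < δ) {z w : T2}
    (hzw : ‖z - w‖ ≤ δ) (hz : 2 * δ ≤ ‖z‖) :
    ENNReal.ofReal ‖K z - K w‖ ≤ ENNReal.ofReal (2 * C * δ) * e2_h2 (2 * δ) z := by
  have hC := hK.pos
  unfold e2_h2
  rw [if_pos hz, ← ENNReal.ofReal_mul (by positivity)]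
  apply ENNReal.ofReal_le_ofReal
  have hzp : 0 < ‖z‖ := by linarith
  have h3 : ‖z‖ ≤ ‖z - w‖ + ‖w‖ := by
    have := norm_add_le (z - w) w
    rwa [sub_add_cancel] at this
  have h4 : ‖z‖ / 2 ≤ ‖w‖ := by linarith
  have hwp : 0 < ‖w‖ := by linarith
  have hz0 : z ≠ 0 := norm_pos_iff.1 hzp
  have hw0 : w ≠ 0 := norm_pos_iff.1 hwp
  calc ‖K z - K w‖ ≤ C * ‖z - w‖ / (‖z‖ * ‖w‖) := hK.lip z w hz0 hw0
    _ ≤ C * δ / (‖z‖ * (‖z‖ / 2)) := by
        apply div_le_div₀ (by positivity) (mul_le_mul_of_nonneg_left hzw hC.le) (by positivity)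
        exact mul_le_mul_of_nonneg_left h4 hzp.le
    _ = 2 * C * δ * (1 / ‖z‖ ^ 2) := by
        field_simp

theorem e2_ke_log {δ : ℝ} (hδ : 0 < δ) {N : ℕ} (hN : 2 * (2 * δ) ≤ (1 / 2) ^ N) :
    (N : ℝ) + 1 ≤ 3 / 2 * (1 - Real.log δ) := by
  have e2_h1 : Real.log (2 * (2 * δ)) ≤ Real.log ((1 / 2) ^ N) :=
    Real.log_le_log (by positivity) hN
  rw [Real.log_pow, Real.log_mul (by norm_num) (by positivity),
    Real.log_mul (by norm_num) hδ.ne', one_div, Real.log_inv] at e2_h1
  have e2_h2 := Real.log_two_gt_d9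
  have h3 : ((N : ℝ) + 2) * Real.log 2 ≤ - Real.log δ := by linarith
  have h4 : (0 : ℝ) ≤ N := Nat.cast_nonneg N
  nlinarith

theorem e2_phi_nonneg' {δ : ℝ} (hδ : 0 ≤ δ) : 0 ≤ phi δ ∧ min δ 1 ≤ phi δ := by
  unfold phi
  have hm0 : 0 ≤ min δ 1 := le_min hδ zero_le_one
  have hm1 : min δ 1 ≤ 1 := min_le_right _ _
  have e2_h1 : Real.log (min δ 1) ≤ 0 := Real.log_nonpos hm0 hm1
  have e2_h2 : 1 ≤ 1 - Real.log (min δ 1) := by linarith
  constructor
  · exact mul_nonneg hm0 (by linarith)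
  · exact le_mul_of_one_le_right hm0 e2_h2

end KE

open scoped ENNReal in
theorem IsBS.kest {K : T2 → ℂ} {C : ℝ} (hK : IsBS K C) :
    ∃ C1 : ℝ, 0 < C1 ∧ ∀ X Y : T2 → T2, MeasurePreserving X volume volume →
      MeasurePreserving Y volume volume → ∀ x y : T2, ∀ δ : ℝ, 0 ≤ δ →
      (∀ b, ‖(x - X b) - (y - Y b)‖ ≤ δ) →
      ∫ b, ‖K (x - X b) - K (y - Y b)‖ ≤ C1 * phi δ := by
  have hC := hK.pos
  refine ⟨128 * C, by positivity, ?_⟩
  intro X Y hX hY x y δ hδ hb
  have mpz : MeasurePreserving (fun b => x - X b) volume volume := (e2_ke_mp x).comp hX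
  have mpw : MeasurePreserving (fun b => y - Y b) volume volume := (e2_ke_mp y).comp hY
  have hfm : Measurable (fun b => ‖K (x - X b) - K (y - Y b)‖) :=
    ((hK.meas.comp mpz.measurable).sub (hK.meas.comp mpw.measurable)).norm
  obtain ⟨hphi0, hphi1⟩ := e2_phi_nonneg' hδ
  rw [integral_eq_lintegral_of_nonneg_ae (ae_of_all _ (fun b => norm_nonneg _))
    hfm.aestronglyMeasurable]
  apply ENNReal.toReal_le_of_le_ofReal (by positivity)
  have hzc : ∀ G : T2 → ℝ≥0∞, Measurable G → ∫⁻ b, G (x - X b) = ∫⁻ u, G u := fun G hG =>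
    mpz.lintegral_comp hG
  have hwc : ∀ G : T2 → ℝ≥0∞, Measurable G → ∫⁻ b, G (y - Y b) = ∫⁻ u, G u := fun G hG =>
    mpw.lintegral_comp hG
  have mz : ∀ G : T2 → ℝ≥0∞, Measurable G → Measurable (fun b => G (x - X b)) := fun G hG =>
    hG.comp mpz.measurable
  have mw : ∀ G : T2 → ℝ≥0∞, Measurable G → Measurable (fun b => G (y - Y b)) := fun G hG =>
    hG.comp mpw.measurable
  have hsub : ∀ z w : T2, ENNReal.ofReal ‖K z - K w‖ ≤ ENNReal.ofReal ‖K z‖ + ENNReal.ofReal ‖K w‖ := by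
    intro z w
    rw [← ENNReal.ofReal_add (norm_nonneg _) (norm_nonneg _)]
    exact ENNReal.ofReal_le_ofReal (norm_sub_le _ _)
  rcases hδ.eq_or_lt with h0 | hpos
  · -- δ = 0
    have : ∀ b, ENNReal.ofReal ‖K (x - X b) - K (y - Y b)‖ = 0 := by
      intro b
      have h3 := hb b
      rw [← h0] at h3
      have h4 : (x - X b) - (y - Y b) = 0 := norm_le_zero_iff.1 h3
      rw [sub_eq_zero.1 h4, sub_self, norm_zero, ENNReal.ofReal_zero]
    simp only [this, lintegral_zero]
    exact bot_le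
  rcases le_or_gt (1 / 4) δ with hbig | hsmall
  · -- δ ≥ 1/4
    have hpt : ∀ b, ENNReal.ofReal ‖K (x - X b) - K (y - Y b)‖ ≤
        ENNReal.ofReal C * e2_h1 (1 / 2) (x - X b) + ENNReal.ofReal C * e2_h1 (1 / 2) (y - Y b) :=
      fun b => (hsub _ _).trans (add_le_add (e2_ke_pt1 hK (e2_ke_half _)) (e2_ke_pt1 hK (e2_ke_half _)))
    have hI := e2_h1_int (r := 1 / 2) (by norm_num)
    have hm : 1 / 4 ≤ min δ 1 := le_min hbig (by norm_num)
    calc ∫⁻ b, ENNReal.ofReal ‖K (x - X b) - K (y - Y b)‖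
        ≤ ∫⁻ b, (ENNReal.ofReal C * e2_h1 (1 / 2) (x - X b) +
            ENNReal.ofReal C * e2_h1 (1 / 2) (y - Y b)) := lintegral_mono hpt
      _ = ENNReal.ofReal C * (∫⁻ u, e2_h1 (1 / 2) u) + ENNReal.ofReal C * (∫⁻ u, e2_h1 (1 / 2) u) := by
          rw [lintegral_add_left ((mz _ (e2_h1_meas _)).const_mul _),
            lintegral_const_mul _ (mz _ (e2_h1_meas _)), lintegral_const_mul _ (mw _ (e2_h1_meas _)),
            hzc _ (e2_h1_meas _), hwc _ (e2_h1_meas _)]
      _ ≤ ENNReal.ofReal C * ENNReal.ofReal (16 * (1 / 2)) +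
            ENNReal.ofReal C * ENNReal.ofReal (16 * (1 / 2)) := by gcongr
      _ = ENNReal.ofReal (C * (16 * (1 / 2)) + C * (16 * (1 / 2))) := by
          rw [← ENNReal.ofReal_mul hC.le, ← ENNReal.ofReal_add (by positivity) (by positivity)]
      _ ≤ ENNReal.ofReal (128 * C * phi δ) := by
          apply ENNReal.ofReal_le_ofReal
          nlinarith
  · -- 0 < δ < 1/4
    have hpt : ∀ b, ENNReal.ofReal ‖K (x - X b) - K (y - Y b)‖ ≤
        ENNReal.ofReal C * e2_h1 (2 * δ) (x - X b) +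
          ENNReal.ofReal (2 * C * δ) * e2_h2 (2 * δ) (x - X b) +
          ENNReal.ofReal C * e2_h1 (3 * δ) (y - Y b) := by
      intro b
      rcases le_or_gt (2 * δ) ‖x - X b‖ with hz | hz
      · refine (e2_ke_pt2 hK hpos (hb b) hz).trans ?_
        exact (le_add_self).trans le_self_add
      · have hw : ‖y - Y b‖ ≤ 3 * δ := by
          have h3 : ‖y - Y b‖ ≤ ‖x - X b‖ + ‖(x - X b) - (y - Y b)‖ := by
            have h4 := norm_sub_le (x - X b) ((x - X b) - (y - Y b))
            rwa [sub_sub_cancel] at h4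
          have := hb b
          linarith
        refine (hsub _ _).trans ?_
        refine (add_le_add (e2_ke_pt1 hK hz.le) (e2_ke_pt1 hK hw)).trans ?_
        gcongr
        exact le_self_add
    obtain ⟨N, hN1, hN2⟩ := e2_h2_int (a := 2 * δ) (by positivity) (by linarith)
    have hlog := e2_ke_log hpos hN1
    have hI1 := e2_h1_int (r := 2 * δ) (by positivity)
    have hI2 := e2_h1_int (r := 3 * δ) (by positivity)
    have hphi : phi δ = δ * (1 - Real.log δ) := by
      unfold phi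
      rw [min_eq_left (by linarith)]
    have hl0 : Real.log δ ≤ 0 := Real.log_nonpos hpos.le (by linarith)
    calc ∫⁻ b, ENNReal.ofReal ‖K (x - X b) - K (y - Y b)‖
        ≤ ∫⁻ b, (ENNReal.ofReal C * e2_h1 (2 * δ) (x - X b) +
          ENNReal.ofReal (2 * C * δ) * e2_h2 (2 * δ) (x - X b) +
          ENNReal.ofReal C * e2_h1 (3 * δ) (y - Y b)) := lintegral_mono hpt
      _ = ENNReal.ofReal C * (∫⁻ u, e2_h1 (2 * δ) u) +
          ENNReal.ofReal (2 * C * δ) * (∫⁻ u, e2_h2 (2 * δ) u) +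
          ENNReal.ofReal C * (∫⁻ u, e2_h1 (3 * δ) u) := by
          have hmA : Measurable (fun b => ENNReal.ofReal C * e2_h1 (2 * δ) (x - X b) +
              ENNReal.ofReal (2 * C * δ) * e2_h2 (2 * δ) (x - X b)) :=
            ((mz _ (e2_h1_meas _)).const_mul _).add ((mz _ (e2_h2_meas _)).const_mul _)
          rw [lintegral_add_left hmA,
            lintegral_add_left ((mz _ (e2_h1_meas _)).const_mul _),
            lintegral_const_mul _ (mz _ (e2_h1_meas _)), lintegral_const_mul _ (mz _ (e2_h2_meas _)),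
            lintegral_const_mul _ (mw _ (e2_h1_meas _)),
            hzc _ (e2_h1_meas _), hzc _ (e2_h2_meas _), hwc _ (e2_h1_meas _)]
      _ ≤ ENNReal.ofReal C * ENNReal.ofReal (16 * (2 * δ)) +
          ENNReal.ofReal (2 * C * δ) * ENNReal.ofReal (16 * ((N : ℝ) + 1)) +
          ENNReal.ofReal C * ENNReal.ofReal (16 * (3 * δ)) := by gcongr
      _ = ENNReal.ofReal (C * (16 * (2 * δ)) + (2 * C * δ) * (16 * ((N : ℝ) + 1)) +
          C * (16 * (3 * δ))) := by
          rw [← ENNReal.ofReal_mul hC.le, ← ENNReal.ofReal_mul hC.le,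
            ← ENNReal.ofReal_mul (by positivity), ← ENNReal.ofReal_add (by positivity)
            (by positivity), ← ENNReal.ofReal_add (by positivity) (by positivity)]
      _ ≤ ENNReal.ofReal (128 * C * phi δ) := by
          apply ENNReal.ofReal_le_ofReal
          rw [hphi]
          have h3 : (2 * C * δ) * (16 * ((N : ℝ) + 1)) ≤
              (2 * C * δ) * (16 * (3 / 2 * (1 - Real.log δ))) := by gcongr
          have h4 : C * δ ≤ C * δ * (1 - Real.log δ) :=
            le_mul_of_one_le_right (by positivity) (by linarith)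
          nlinarith

end Pool.Agent.Helper118.Yud
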