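import Pool.Agent.Helper118.Yud.Defs

set_option autoImplicit false

namespace Pool.Agent.Helper118.Yud

open MeasureTheory Complex Set Filter Topology



theorem e3_haarT : (volume : Measure T2).IsAddHaarMeasure := by
  rw [Measure.volume_eq_prod]; infer_instance

theorem e3_probT : IsProbabilityMeasure (volume : Measure T2) := by
  refine ⟨?_⟩
  rw [Measure.volume_eq_prod, ← univ_prod_univ, Measure.prod_prod, UnitAddCircle.measure_univ, one_mul]

theorem e3_vol_small (s : ℝ) : volume {u : T2 | ‖u‖ < s} ≤ ENNReal.ofReal (4 * s ^ 2) := by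
  by_cases hs : 0 < s
  · have h1 : {u : T2 | ‖u‖ < s} ⊆ Metric.closedBall (0 : UnitAddCircle) s ×ˢ Metric.closedBall (0 : UnitAddCircle) s := by
      intro u hu
      simp only [mem_ofPred_eq] at hu
      rw [closedBall_prod_same]
      simp only [Metric.mem_closedBall, dist_eq_norm]
      have : u - (0, 0) = u := by
        show u - 0 = u
        simp
      rw [this]
      exact hu.le
    refine (measure_mono h1).trans ?_
    rw [Measure.volume_eq_prod, Measure.prod_prod]
    rw [AddCircle.volume_closedBall]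
    rw [← ENNReal.ofReal_mul (by positivity)]
    apply ENNReal.ofReal_le_ofReal
    have h2 : min 1 (2 * s) ≤ 2 * s := min_le_right _ _
    have h3 : 0 ≤ min 1 (2 * s) := by positivity
    nlinarith
  · have : {u : T2 | ‖u‖ < s} = ∅ := by
      ext u
      simp only [mem_ofPred_eq, mem_empty_iff_false, iff_false, not_lt]
      exact (not_lt.mp hs).trans (norm_nonneg u)
    rw [this]
    simp

theorem e3_vol_singleton (x : T2) : volume ({x} : Set T2) = 0 := by
  have h1 : ∀ s : ℝ, 0 < s → volume ({(0 : T2)} : Set T2) ≤ ENNReal.ofReal (4 * s ^ 2) := by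
    intro s hs
    refine (measure_mono ?_).trans (e3_vol_small s)
    intro u hu
    simp only [mem_singleton_iff] at hu
    simp only [mem_ofPred_eq, hu, norm_zero]
    exact hs
  have h2 : volume ({(0 : T2)} : Set T2) = 0 := by
    have ht : Filter.Tendsto (fun s : ℝ => ENNReal.ofReal (4 * s ^ 2)) (𝓝[>] 0) (𝓝 0) := by
      have h3 : Filter.Tendsto (fun s : ℝ => ENNReal.ofReal (4 * s ^ 2)) (𝓝 0) (𝓝 (ENNReal.ofReal (4 * 0 ^ 2))) := by
        apply ENNReal.tendsto_ofReal
        exact (Continuous.tendsto (by fun_prop) _)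
      simp only [ne_eq, OfNat.ofNat_ne_zero, not_false_eq_true, zero_pow, mul_zero, ENNReal.ofReal_zero] at h3
      exact h3.mono_left nhdsWithin_le_nhds
    have h4 := ge_of_tendsto ht (Filter.eventually_of_mem self_mem_nhdsWithin (fun s hs => h1 s hs))
    exact le_antisymm h4 bot_le
  have h5 : ({x} : Set T2) = (fun y => -x + y) ⁻¹' {(0 : T2)} := by
    ext y
    simp only [mem_singleton_iff, mem_preimage]
    constructor
    · rintro rfl; simp
    · intro h
      have := neg_add_eq_zero.mp h
      exact this.symm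
  have := e3_haarT
  rw [h5, measure_preimage_add]
  exact h2

theorem e3_lint_small {s : ℝ} (hs : 0 < s) :
    ∫⁻ u : T2, (if ‖u‖ < s then ENNReal.ofReal (1 / ‖u‖) else 0) ≤ ENNReal.ofReal (64 * s) := by
  have h1 : ∀ u : T2, (if ‖u‖ < s then ENNReal.ofReal (1 / ‖u‖) else 0) ≤
      ∑' j : ℕ, ({u : T2 | ‖u‖ < s * 2 * (1 / 2) ^ j}.indicator
        (fun _ => ENNReal.ofReal (2 ^ (j + 1) / s)) u) := by
    intro u
    by_cases hu : ‖u‖ < s
    · rw [if_pos hu]
      by_cases hu0 : ‖u‖ = 0
      · rw [hu0]; simp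
      · have hpos : 0 < ‖u‖ := lt_of_le_of_ne (norm_nonneg u) (Ne.symm hu0)
        obtain ⟨n, hn1, hn2⟩ := exists_nat_pow_near_of_lt_one (x := ‖u‖ / s) (y := (1 / 2 : ℝ)) (by positivity)
          ((div_le_one hs).mpr hu.le) (by norm_num) (by norm_num)
        have h2 : ‖u‖ < s * 2 * (1 / 2) ^ n := by
          have := (div_le_iff₀ hs).mp hn2
          have h3 : 0 < (1 / 2 : ℝ) ^ n * s := by positivity
          nlinarith
        refine le_trans ?_ (ENNReal.le_tsum n)
        rw [indicator_of_mem (by simpa only [mem_ofPred_eq] using h2)]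
        apply ENNReal.ofReal_le_ofReal
        rw [div_le_div_iff₀ hpos hs]
        have h4 := (lt_div_iff₀ hs).mp hn1
        have h5 : (2 : ℝ) ^ (n + 1) * (1 / 2) ^ (n + 1) = 1 := by
          rw [← mul_pow]; norm_num
        have h6 : (0 : ℝ) < 2 ^ (n + 1) := by positivity
        nlinarith
    · rw [if_neg hu]; exact bot_le
  refine (lintegral_mono h1).trans ?_
  rw [lintegral_tsum]
  · have h2 : ∀ j : ℕ, ∫⁻ u : T2, ({u : T2 | ‖u‖ < s * 2 * (1 / 2) ^ j}.indicator
        (fun _ => ENNReal.ofReal (2 ^ (j + 1) / s)) u) ≤ ENNReal.ofReal (64 * s) * (1/2) * (1 / 2) ^ j := by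
      intro j
      rw [lintegral_indicator_const]
      · refine (mul_le_mul_right (e3_vol_small _) _).trans ?_
        rw [← ENNReal.ofReal_mul (by positivity)]
        have h3 : ((1 : ENNReal) / 2) = ENNReal.ofReal (1 / 2) := by
          rw [ENNReal.ofReal_div_of_pos (by norm_num)]; simp
        rw [h3, ← ENNReal.ofReal_pow (by norm_num), ← ENNReal.ofReal_mul (by positivity),
          ← ENNReal.ofReal_mul (by positivity)]
        apply ENNReal.ofReal_le_ofReal
        have h5 : (2 : ℝ) ^ j * (1 / 2) ^ j = 1 := by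
          rw [← mul_pow]; norm_num
        have h6 : 2 ^ (j + 1) / s * (4 * (s * 2 * (1 / 2) ^ j) ^ 2) = 32 * s * (2 ^ j * (1 / 2) ^ j) * (1/2) ^ j := by
          field_simp
          ring
        rw [h6, h5]
        have : 0 < s * (1 / 2) ^ j := by positivity
        nlinarith
      · exact measurableSet_lt (by fun_prop) measurable_const
    refine (ENNReal.tsum_le_tsum h2).trans ?_
    rw [ENNReal.tsum_mul_left, ENNReal.tsum_geometric]
    have h7 : (1 - 1 / 2 : ENNReal)⁻¹ = 2 := by
      rw [one_div, ENNReal.one_sub_inv_two, inv_inv]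
    rw [h7, mul_assoc, one_div, ENNReal.inv_mul_cancel (by norm_num) (by norm_num), mul_one]
  · intro j
    apply Measurable.aemeasurable
    apply measurable_const.indicator
    exact measurableSet_lt (by fun_prop) measurable_const


theorem IsBS.e3_bath_aux {K : T2 → ℂ} {C : ℝ} (hK : IsBS K C) (X : T2 → T2)
    (hX : MeasurePreserving X volume volume) (x : T2) (g : T2 → ℝ) (hg : Measurable g) (M' η : ℝ)
    (hM : ∀ b, |g b| ≤ M') (hη : ∫ b, |g b| ≤ η) (s : ℝ) (hs : 0 < s) :
    ∫ b, |g b| * ‖K (x - X b)‖ ≤ M' * C * (64 * s) + C / s * η := by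
  have hC := hK.pos
  have hprob := e3_probT
  have hhaar := e3_haarT
  have hM0 : 0 ≤ M' := (abs_nonneg _).trans (hM 0)
  have hη0 : 0 ≤ η := le_trans (integral_nonneg (fun b => abs_nonneg _)) hη
  have hKm : Measurable fun b => ‖K (x - X b)‖ := by
    apply Measurable.norm
    apply hK.meas.comp
    exact measurable_const.sub hX.measurable
  have hfm : Measurable fun b => |g b| * ‖K (x - X b)‖ := (hg.abs).mul hKm
  rw [integral_eq_lintegral_of_nonneg_ae (Filter.Eventually.of_forall (fun b => by positivity))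
    hfm.aestronglyMeasurable]
  apply ENNReal.toReal_le_of_le_ofReal (by positivity)
  have hgi : Integrable (fun b => |g b|) := by
    refine Integrable.mono' (integrable_const M') hg.abs.aestronglyMeasurable ?_
    refine Filter.Eventually.of_forall (fun b => ?_)
    rw [Real.norm_eq_abs, abs_abs]
    exact hM b
  have hae : ∀ᵐ b, ENNReal.ofReal (|g b| * ‖K (x - X b)‖) ≤
      ENNReal.ofReal (M' * C) * (if ‖X b - x‖ < s then ENNReal.ofReal (1 / ‖X b - x‖) else 0) +
      ENNReal.ofReal (C / s) * ENNReal.ofReal |g b| := by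
    have h0 : volume {b | X b = x} = 0 := by
      have : {b | X b = x} = X ⁻¹' {x} := rfl
      rw [this, hX.measure_preimage (measurableSet_singleton x).nullMeasurableSet]
      exact e3_vol_singleton x
    have h0' : ∀ᵐ b, X b ≠ x := by
      rw [ae_iff]; simpa using h0
    filter_upwards [h0'] with b hb
    have hne : x - X b ≠ 0 := sub_ne_zero.mpr (Ne.symm hb)
    have hbd := hK.bd _ hne
    have hpos : 0 < ‖x - X b‖ := norm_pos_iff.mpr hne
    rw [norm_sub_rev] at hbd hpos
    have hgb := abs_nonneg (g b)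
    by_cases hlt : ‖X b - x‖ < s
    · rw [if_pos hlt]
      refine le_trans ?_ le_self_add
      rw [← ENNReal.ofReal_mul (by positivity)]
      apply ENNReal.ofReal_le_ofReal
      have : M' * C * (1 / ‖X b - x‖) = M' * (C / ‖X b - x‖) := by ring
      rw [this]
      exact mul_le_mul (hM b) hbd (norm_nonneg _) hM0
    · rw [if_neg hlt, mul_zero, zero_add, ← ENNReal.ofReal_mul (by positivity)]
      apply ENNReal.ofReal_le_ofReal
      rw [mul_comm]
      apply mul_le_mul_of_nonneg_right _ hgb
      refine hbd.trans ?_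
      exact div_le_div_of_nonneg_left hC.le hs (not_lt.mp hlt)
  refine (lintegral_mono_ae hae).trans ?_
  have hFm : Measurable (fun u : T2 => (if ‖u - x‖ < s then ENNReal.ofReal (1 / ‖u - x‖) else 0)) := by
    apply Measurable.ite
    · exact measurableSet_lt (by fun_prop) measurable_const
    · fun_prop
    · exact measurable_const
  have hFXm : Measurable (fun b : T2 => (if ‖X b - x‖ < s then ENNReal.ofReal (1 / ‖X b - x‖) else 0)) :=
    hFm.comp hX.measurable
  rw [lintegral_add_left (hFXm.const_mul _), lintegral_const_mul _ hFXm, lintegral_const_mul _ (by fun_prop)]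
  rw [ENNReal.ofReal_add (by positivity) (by positivity), ENNReal.ofReal_mul (p := M' * C) (by positivity),
    ENNReal.ofReal_mul (p := C / s) (by positivity)]
  apply add_le_add
  · apply mul_le_mul_right
    have h1 := hX.lintegral_comp hFm
    rw [h1]
    have h2 := lintegral_sub_right_eq_self (μ := (volume : Measure T2))
      (fun u : T2 => (if ‖u‖ < s then ENNReal.ofReal (1 / ‖u‖) else 0)) x
    rw [h2]
    exact e3_lint_small hs
  · apply mul_le_mul_right
    rw [← ofReal_integral_eq_lintegral_ofReal hgi (Filter.Eventually.of_forall (fun b => abs_nonneg _))]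
    exact ENNReal.ofReal_le_ofReal hη

theorem IsBS.bath {K : T2 → ℂ} {C : ℝ} (hK : IsBS K C) :
    ∃ C2 : ℝ, 0 < C2 ∧ ∀ X : T2 → T2, MeasurePreserving X volume volume → ∀ x : T2,
      ∀ g : T2 → ℝ, Measurable g → ∀ M' η : ℝ, (∀ b, |g b| ≤ M') → ∫ b, |g b| ≤ η →
      ∫ b, |g b| * ‖K (x - X b)‖ ≤ C2 * Real.sqrt (M' * η) := by
  have hC := hK.pos
  refine ⟨65 * C, by positivity, ?_⟩
  intro X hX x g hg M' η hM hη
  have hM0 : 0 ≤ M' := (abs_nonneg _).trans (hM 0)
  have hη0 : 0 ≤ η := le_trans (integral_nonneg (fun b => abs_nonneg _)) hη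
  have key := hK.e3_bath_aux X hX x g hg M' η hM hη
  rcases hM0.eq_or_lt with hM1 | hM1
  · have : ∀ b, g b = 0 := fun b => by
      have := hM b
      rw [← hM1] at this
      exact abs_nonpos_iff.mp this
    simp [this, ← hM1]
  rcases hη0.eq_or_lt with hη1 | hη1
  · rw [← hη1, mul_zero, Real.sqrt_zero, mul_zero]
    apply le_of_forall_pos_le_add
    intro ε hε
    have h1 := key (ε / (M' * C * 64)) (by positivity)
    rw [← hη1, mul_zero, add_zero] at h1
    refine h1.trans ?_
    rw [zero_add]
    apply le_of_eq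
    field_simp
  · have h1 := key (Real.sqrt (M' * η) / M') (by positivity)
    refine h1.trans (le_of_eq ?_)
    have h2 : Real.sqrt (M' * η) * Real.sqrt (M' * η) = M' * η := Real.mul_self_sqrt (by positivity)
    have h3 : 0 < Real.sqrt (M' * η) := by positivity
    have h4 : C / (Real.sqrt (M' * η) / M') * η = C * Real.sqrt (M' * η) := by
      field_simp
      nlinarith
    rw [h4]
    field_simp
    ring

end Pool.Agent.Helper118.Yud
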