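import Pool.Agent.Helper118.Yud.Defs
import Pool.Agent.Helper118.Yud.E1
import Pool.Agent.Helper118.Yud.E2
import Pool.Agent.Helper118.Yud.E3

set_option autoImplicit false

namespace Pool.Agent.Helper118.Yud

open MeasureTheory Complex Set Filter Topology





theorem norm_pr_le (z : ℂ) : ‖pr z‖ ≤ ‖z‖ := by
  rw [Prod.norm_def]
  refine max_le ?_ ?_
  · exact (QuotientAddGroup.norm_mk_le_norm (S := AddSubgroup.zmultiples (1:ℝ)) (m := z.re)).trans
      (by rw [Real.norm_eq_abs]; exact Complex.abs_re_le_norm z)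
  · exact (QuotientAddGroup.norm_mk_le_norm (S := AddSubgroup.zmultiples (1:ℝ)) (m := z.im)).trans
      (by rw [Real.norm_eq_abs]; exact Complex.abs_im_le_norm z)

theorem e4_mp_sub_left_aux (x : T2) : MeasurePreserving (fun b : T2 => x - b) volume volume := by
  have h1 := Measure.measurePreserving_sub_left (volume : Measure UnitAddCircle) x.1
  have h2 := Measure.measurePreserving_sub_left (volume : Measure UnitAddCircle) x.2
  exact h1.prod h2

theorem integrable_vel {K : T2 → ℂ} {C : ℝ} (hK : IsBS K C) (ω : T2 → ℝ) (hω : Measurable ω)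
    (M : ℝ) (hM : ∀ x, |ω x| ≤ M) (X : T2 → T2) (hX : MeasurePreserving X volume volume) (x : T2) :
    Integrable (fun b => (ω b : ℂ) * K (x - X b)) volume := by
  have h1 : MeasurePreserving (fun b : T2 => x - b) volume volume :=
    e4_mp_sub_left_aux x
  have h2 : MeasurePreserving (fun b : T2 => x - X b) volume volume := h1.comp hX
  have h3 : Integrable (fun b => K (x - X b)) volume := h2.integrable_comp_of_integrable hK.integrable
  refine h3.bdd_mul (c := M) ?_ ?_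
  · exact (Complex.measurable_ofReal.comp hω).aestronglyMeasurable
  · exact Filter.Eventually.of_forall fun b => by
      rw [Complex.norm_real, Real.norm_eq_abs]; exact hM b

theorem e4_phi_nonneg_aux (d : ℝ) (hd : 0 ≤ d) : 0 ≤ phi d := by
  unfold phi
  have h0 : 0 ≤ min d 1 := le_min hd zero_le_one
  have h1 : Real.log (min d 1) ≤ 0 := Real.log_nonpos h0 (min_le_right _ _)
  exact mul_nonneg h0 (by linarith)

theorem e4_phi_two_mul_aux (d : ℝ) (hd : 0 ≤ d) : phi (2 * d) ≤ 2 * phi d := by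
  unfold phi
  rcases le_total (2 * d) 1 with h | h
  · rw [min_eq_left h, min_eq_left (by linarith : d ≤ 1)]
    rcases hd.eq_or_lt with h0 | h0
    · rw [← h0]; simp
    · have := Real.log_le_log h0 (by linarith : d ≤ 2 * d)
      nlinarith
  · rw [min_eq_right h, Real.log_one]
    have h0 : 1 / 2 ≤ min d 1 := le_min (by linarith) (by norm_num)
    have h1 : Real.log (min d 1) ≤ 0 := Real.log_nonpos (by linarith) (min_le_right _ _)
    nlinarith

theorem e4_pr_sub_aux (z w : ℂ) : pr (z - w) = pr z - pr w := by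
  unfold pr
  ext <;> simp

theorem IsBS.vel_diff {K : T2 → ℂ} {C : ℝ} (hK : IsBS K C) (M : ℝ) (hM : 0 ≤ M) :
    ∃ A : ℝ, 0 < A ∧ ∀ ω1 ω2 : T2 → ℝ, Measurable ω1 → Measurable ω2 →
      (∀ x, |ω1 x| ≤ M) → (∀ x, |ω2 x| ≤ M) → ∀ η : ℝ, ∫ x, |ω1 x - ω2 x| ≤ η →
      ∀ ξ1 ξ2 : T2 → ℂ, MeasurePreserving (mv ξ1) volume volume →
      MeasurePreserving (mv ξ2) volume volume → ∀ x1 x2 : T2, ∀ d : ℝ, 0 ≤ d →
      (∀ b, ‖ξ1 b - ξ2 b‖ ≤ d) → ‖x1 - x2‖ ≤ d →
      ‖vel K ω1 ξ1 x1 - vel K ω2 ξ2 x2‖ ≤ A * phi d + A * Real.sqrt η := by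
  obtain ⟨C1, hC1, hk⟩ := hK.kest
  obtain ⟨C2, hC2, hb⟩ := hK.bath
  refine ⟨2 * M * C1 + C2 * Real.sqrt (2 * M) + 1, by positivity, ?_⟩
  intro ω1 ω2 h1 h2 hM1 hM2 η hη ξ1 ξ2 hξ1 hξ2 x1 x2 d hd hdξ hdx
  have I1 := integrable_vel hK ω1 h1 M hM1 (mv ξ1) hξ1 x1
  have I2 := integrable_vel hK ω2 h2 M hM2 (mv ξ2) hξ2 x2
  have I3 := integrable_vel hK ω1 h1 M hM1 (mv ξ2) hξ2 x2
  have hKi : ∀ (X : T2 → T2), MeasurePreserving X volume volume → ∀ x : T2,
      Integrable (fun b => K (x - X b)) volume := by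
    intro X hX x
    have := integrable_vel hK (fun _ => 1) measurable_const 1 (by simp) X hX x
    simpa using this
  have hdist : ∀ b, ‖(x1 - mv ξ1 b) - (x2 - mv ξ2 b)‖ ≤ 2 * d := by
    intro b
    have e : (x1 - mv ξ1 b) - (x2 - mv ξ2 b) = (x1 - x2) - pr (ξ1 b - ξ2 b) := by
      rw [e4_pr_sub_aux]
      unfold mv
      abel
    rw [e]
    calc ‖(x1 - x2) - pr (ξ1 b - ξ2 b)‖ ≤ ‖x1 - x2‖ + ‖pr (ξ1 b - ξ2 b)‖ := norm_sub_le _ _
      _ ≤ d + d := add_le_add hdx ((norm_pr_le _).trans (hdξ b))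
      _ = 2 * d := by ring
  have hA := hk (mv ξ1) (mv ξ2) hξ1 hξ2 x1 x2 (2 * d) (by linarith) hdist
  have hgb : ∀ b, |ω1 b - ω2 b| ≤ 2 * M := by
    intro b
    calc |ω1 b - ω2 b| ≤ |ω1 b| + |ω2 b| := abs_sub _ _
      _ ≤ 2 * M := by linarith [hM1 b, hM2 b]
  have hB := hb (mv ξ2) hξ2 x2 (fun b => ω1 b - ω2 b) (h1.sub h2) (2 * M) η hgb hη
  have esplit : vel K ω1 ξ1 x1 - vel K ω2 ξ2 x2 =
      (∫ b, (ω1 b : ℂ) * (K (x1 - mv ξ1 b) - K (x2 - mv ξ2 b))) +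
      ∫ b, ((ω1 b - ω2 b : ℝ) : ℂ) * K (x2 - mv ξ2 b) := by
    unfold vel
    have e1 : (∫ b, (ω1 b : ℂ) * (K (x1 - mv ξ1 b) - K (x2 - mv ξ2 b))) =
        (∫ b, (ω1 b : ℂ) * K (x1 - mv ξ1 b)) - ∫ b, (ω1 b : ℂ) * K (x2 - mv ξ2 b) := by
      rw [← integral_sub I1 I3]
      congr 1; ext b; ring
    have e2 : (∫ b, ((ω1 b - ω2 b : ℝ) : ℂ) * K (x2 - mv ξ2 b)) =
        (∫ b, (ω1 b : ℂ) * K (x2 - mv ξ2 b)) - ∫ b, (ω2 b : ℂ) * K (x2 - mv ξ2 b) := by
      rw [← integral_sub I3 I2]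
      congr 1; ext b; push_cast; ring
    rw [e1, e2]; ring
  have b1 : ‖∫ b, (ω1 b : ℂ) * (K (x1 - mv ξ1 b) - K (x2 - mv ξ2 b))‖ ≤ M * (C1 * phi (2 * d)) := by
    calc ‖∫ b, (ω1 b : ℂ) * (K (x1 - mv ξ1 b) - K (x2 - mv ξ2 b))‖
        ≤ ∫ b, M * ‖K (x1 - mv ξ1 b) - K (x2 - mv ξ2 b)‖ := by
          refine norm_integral_le_of_norm_le ?_ (Filter.Eventually.of_forall fun b => ?_)
          · exact (((hKi _ hξ1 x1).sub (hKi _ hξ2 x2)).norm).const_mul M
          · rw [norm_mul, Complex.norm_real, Real.norm_eq_abs]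
            exact mul_le_mul_of_nonneg_right (hM1 b) (norm_nonneg _)
      _ = M * ∫ b, ‖K (x1 - mv ξ1 b) - K (x2 - mv ξ2 b)‖ := integral_const_mul _ _
      _ ≤ M * (C1 * phi (2 * d)) := mul_le_mul_of_nonneg_left hA hM
  have b2 : ‖∫ b, ((ω1 b - ω2 b : ℝ) : ℂ) * K (x2 - mv ξ2 b)‖ ≤ C2 * Real.sqrt (2 * M * η) := by
    refine le_trans (norm_integral_le_integral_norm _) (le_trans (le_of_eq ?_) hB)
    congr 1; ext b
    rw [norm_mul, Complex.norm_real, Real.norm_eq_abs]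
  rw [esplit]
  have hphi := e4_phi_nonneg_aux d hd
  have hphi2 := e4_phi_two_mul_aux d hd
  have hsq : Real.sqrt (2 * M * η) = Real.sqrt (2 * M) * Real.sqrt η :=
    Real.sqrt_mul (by positivity) η
  have hs0 := Real.sqrt_nonneg η
  have hsM := Real.sqrt_nonneg (2 * M)
  calc _ ≤ M * (C1 * phi (2 * d)) + C2 * Real.sqrt (2 * M * η) :=
        (norm_add_le _ _).trans (add_le_add b1 b2)
    _ ≤ M * (C1 * (2 * phi d)) + C2 * (Real.sqrt (2 * M) * Real.sqrt η) := by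
        rw [hsq]; gcongr
    _ ≤ _ := by
        have p1 : 0 ≤ M * C1 * Real.sqrt η := by positivity
        have p2 : 0 ≤ C2 * Real.sqrt (2 * M) * phi d := by positivity
        nlinarith

end Pool.Agent.Helper118.Yud
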