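import Pool.Agent.Helper118.Yud.Defs

set_option autoImplicit false

namespace Pool.Agent.Helper118.Yud

open MeasureTheory Complex Set Filter Topology


/-- the explicit solution of the Osgood equation -/
noncomputable def g1_yy (A e t : ℝ) : ℝ := Real.exp (1 + (Real.log e - 1) * Real.exp (-(A * t)))

theorem g1_yy_eq (A t : ℝ) {e : ℝ} (he : 0 < e) :
    Real.exp 1 * (e / Real.exp 1) ^ Real.exp (-(A * t)) = g1_yy A e t := by
  unfold g1_yy
  rw [Real.rpow_def_of_pos (div_pos he (Real.exp_pos 1)), ← Real.exp_add,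
    Real.log_div he.ne' (Real.exp_pos 1).ne', Real.log_exp]

theorem g1_phi_nonneg {d : ℝ} (hd : 0 ≤ d) : 0 ≤ phi d := by
  unfold phi
  have h1 : 0 ≤ min d 1 := le_min hd zero_le_one
  have h2 : Real.log (min d 1) ≤ 0 := Real.log_nonpos h1 (min_le_right _ _)
  exact mul_nonneg h1 (by linarith)

theorem g1_phi_mono {a b : ℝ} (ha : 0 ≤ a) (hab : a ≤ b) : phi a ≤ phi b := by
  unfold phi
  obtain ⟨x, hx⟩ : ∃ x, x = min a 1 := ⟨_, rfl⟩
  obtain ⟨y, hy⟩ : ∃ y, y = min b 1 := ⟨_, rfl⟩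
  rw [← hx, ← hy]
  have hx0 : 0 ≤ x := by rw [hx]; exact le_min ha zero_le_one
  have hxy : x ≤ y := by rw [hx, hy]; exact min_le_min_right 1 hab
  have hy1 : y ≤ 1 := by rw [hy]; exact min_le_right _ _
  rcases hx0.eq_or_lt with h0 | h0
  · rw [← h0, zero_mul]
    have : Real.log y ≤ 0 := Real.log_nonpos (hx0.trans hxy) hy1
    exact mul_nonneg (hx0.trans hxy) (by linarith)
  · have hy0 : 0 < y := lt_of_lt_of_le h0 hxy
    have h1 : Real.log y ≤ 0 := Real.log_nonpos hy0.le hy1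
    have h2 : Real.log y - Real.log x ≤ y / x - 1 := by
      rw [← Real.log_div hy0.ne' h0.ne']
      exact Real.log_le_sub_one_of_pos (by positivity)
    have h3 : x * (Real.log y - Real.log x) ≤ y - x := by
      have := mul_le_mul_of_nonneg_left h2 h0.le
      have h4 : x * (y / x - 1) = y - x := by field_simp
      linarith
    have h5 : (y - x) * Real.log y ≤ 0 := mul_nonpos_of_nonneg_of_nonpos (by linarith) h1
    nlinarith [h3, h5]

theorem g1_phi_of_lt {y : ℝ} (hy : y ≤ 1) : phi y = y * (1 - Real.log y) := by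
  unfold phi
  rw [min_eq_left hy]

theorem g1_yy_deriv (A e t : ℝ) :
    HasDerivAt (g1_yy A e) (A * (g1_yy A e t * (1 - Real.log (g1_yy A e t)))) t := by
  have h1 : HasDerivAt (fun t : ℝ => -(A * t)) (-A) t := by
    convert! ((hasDerivAt_id t).const_mul A).neg using 1
    rw [mul_one]
  have h2 := ((h1.exp.const_mul (Real.log e - 1)).const_add 1).exp
  unfold g1_yy
  convert! h2 using 1
  rw [Real.log_exp]
  ring

theorem g1_yy_lt_one {A T e : ℝ} (hA : 0 ≤ A) (hcond : (Real.log e - 1) * Real.exp (-(A * T)) < -1)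
    {t : ℝ} (ht : t ≤ T) : g1_yy A e t < 1 := by
  unfold g1_yy
  rw [Real.exp_lt_one_iff]
  have h1 : Real.exp (-(A * T)) ≤ Real.exp (-(A * t)) :=
    Real.exp_le_exp.2 (by nlinarith)
  have h2 : Real.log e - 1 < 0 := by
    by_contra h
    push Not at h
    have := mul_nonneg h (Real.exp_pos (-(A * T))).le
    linarith
  have h3 : (Real.log e - 1) * Real.exp (-(A * t)) ≤ (Real.log e - 1) * Real.exp (-(A * T)) :=
    mul_le_mul_of_nonpos_left h1 h2.le
  linarith

theorem g1_osgood_aux (A T ε e : ℝ) (hA : 0 ≤ A) (hT : 0 ≤ T) (hε : 0 < ε) (hee : ε < e)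
    (hcond : (Real.log e - 1) * Real.exp (-(A * T)) < -1)
    (D : ℝ → ℝ) (hD0 : ∀ t, 0 ≤ D t) (hmono : MonotoneOn D (Icc 0 T))
    (h : ∀ t ∈ Icc (0:ℝ) T, D t ≤ ε + ∫ s in (0:ℝ)..t, A * phi (D s)) :
    ∀ t ∈ Icc (0:ℝ) T, D t ≤ g1_yy A e t := by
  have he : 0 < e := hε.trans hee
  have hgm : MonotoneOn (fun s => A * phi (D s)) (Icc 0 T) := fun a ha b hb hab =>
    mul_le_mul_of_nonneg_left (g1_phi_mono (hD0 a) (hmono ha hb hab)) hA
  have hgi : IntervalIntegrable (fun s => A * phi (D s)) volume 0 T := by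
    apply MonotoneOn.intervalIntegrable
    rwa [uIcc_of_le hT]
  have hRc : ContinuousOn (fun t => ε + ∫ s in (0:ℝ)..t, A * phi (D s)) (Icc 0 T) := by
    have h1 := intervalIntegral.continuousOn_primitive_interval' hgi
      (show (0 : ℝ) ∈ uIcc 0 T from left_mem_uIcc)
    rw [uIcc_of_le hT] at h1
    exact continuousOn_const.add h1
  have hyc : Continuous (g1_yy A e) :=
    continuous_iff_continuousAt.2 fun t => (g1_yy_deriv A e t).continuousAt
  have key : ∀ t ∈ Icc (0:ℝ) T, ε + ∫ s in (0:ℝ)..t, A * phi (D s) < g1_yy A e t := by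
    by_contra hcon
    push Not at hcon
    obtain ⟨t1, ht1, ht1'⟩ := hcon
    have hclosed : IsClosed {t ∈ Icc (0:ℝ) T | g1_yy A e t ≤ ε + ∫ s in (0:ℝ)..t, A * phi (D s)} :=
      isClosed_Icc.isClosed_le hyc.continuousOn hRc
    have hcompact : IsCompact {t ∈ Icc (0:ℝ) T | g1_yy A e t ≤ ε + ∫ s in (0:ℝ)..t, A * phi (D s)} :=
      isCompact_Icc.of_isClosed_subset hclosed (fun t ht => ht.1)
    obtain ⟨ts, hts, hmin⟩ := hcompact.exists_isLeast ⟨t1, ht1, ht1'⟩
    obtain ⟨hts1, hts2⟩ := hts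
    have hbelow : ∀ s, 0 ≤ s → s < ts → ε + ∫ u in (0:ℝ)..s, A * phi (D u) < g1_yy A e s := by
      intro s hs0 hs1
      by_contra hc
      push Not at hc
      have := hmin (show s ∈ {t ∈ Icc (0:ℝ) T | g1_yy A e t ≤ ε + ∫ s in (0:ℝ)..t, A * phi (D s)} from
        ⟨⟨hs0, hs1.le.trans hts1.2⟩, hc⟩)
      linarith
    have hy0 : g1_yy A e 0 = e := by
      unfold g1_yy
      rw [mul_zero, neg_zero, Real.exp_zero, mul_one, add_sub_cancel, Real.exp_log he]
    have hint : ∫ s in (0:ℝ)..ts, A * (g1_yy A e s * (1 - Real.log (g1_yy A e s))) =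
        g1_yy A e ts - g1_yy A e 0 := by
      refine intervalIntegral.integral_eq_sub_of_hasDerivAt (fun s _ => g1_yy_deriv A e s) ?_
      refine Continuous.intervalIntegrable ?_ _ _
      have : Continuous (fun s => Real.log (g1_yy A e s)) :=
        hyc.log fun s => (Real.exp_pos _).ne'
      fun_prop
    have hle : ∫ s in (0:ℝ)..ts, A * phi (D s) ≤
        ∫ s in (0:ℝ)..ts, A * (g1_yy A e s * (1 - Real.log (g1_yy A e s))) := by
      refine intervalIntegral.integral_mono_on_of_le_Ioo hts1.1 ?_ ?_ fun s hs => ?_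
      · refine hgi.mono_set ?_
        rw [uIcc_of_le hts1.1, uIcc_of_le hT]
        exact Icc_subset_Icc_right hts1.2
      · refine Continuous.intervalIntegrable ?_ _ _
        have : Continuous (fun s => Real.log (g1_yy A e s)) :=
          hyc.log fun s => (Real.exp_pos _).ne'
        fun_prop
      · have hsT : s ∈ Icc (0:ℝ) T := ⟨hs.1.le, hs.2.le.trans hts1.2⟩
        have h1 : D s ≤ g1_yy A e s := (h s hsT).trans (hbelow s hs.1.le hs.2).le
        have h2 : g1_yy A e s ≤ 1 := (g1_yy_lt_one hA hcond hsT.2).le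
        rw [← g1_phi_of_lt h2]
        exact mul_le_mul_of_nonneg_left (g1_phi_mono (hD0 s) h1) hA
    rw [hint, hy0] at hle
    linarith
  intro t ht
  exact (h t ht).trans (key t ht).le

theorem osgood (A T ε : ℝ) (hA : 0 ≤ A) (hT : 0 ≤ T) (hε : 0 < ε)
    (hsmall : Real.exp 1 * (ε / Real.exp 1) ^ Real.exp (-(A * T)) < 1)
    (D : ℝ → ℝ) (hD0 : ∀ t, 0 ≤ D t) (hmono : MonotoneOn D (Icc 0 T))
    (h : ∀ t ∈ Icc (0:ℝ) T, D t ≤ ε + ∫ s in (0:ℝ)..t, A * phi (D s)) :
    ∀ t ∈ Icc (0:ℝ) T, D t ≤ Real.exp 1 * (ε / Real.exp 1) ^ Real.exp (-(A * t)) := by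
  intro t ht
  rw [g1_yy_eq A t hε]
  rw [g1_yy_eq A T hε] at hsmall
  have hcond0 : (Real.log ε - 1) * Real.exp (-(A * T)) < -1 := by
    unfold g1_yy at hsmall
    rw [Real.exp_lt_one_iff] at hsmall
    linarith
  have hlog : ContinuousAt Real.log ε := Real.continuousAt_log hε.ne'
  have hc1 : ContinuousAt (fun e => (Real.log e - 1) * Real.exp (-(A * T))) ε :=
    (hlog.sub continuousAt_const).mul continuousAt_const
  have hc2 : ContinuousAt (fun e => g1_yy A e t) ε := by
    unfold g1_yy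
    exact Real.continuous_exp.continuousAt.comp
      (continuousAt_const.add ((hlog.sub continuousAt_const).mul continuousAt_const))
  have hev : ∀ᶠ e in 𝓝[>] ε, (Real.log e - 1) * Real.exp (-(A * T)) < -1 :=
    (hc1.eventually_lt continuousAt_const hcond0).filter_mono nhdsWithin_le_nhds
  refine ge_of_tendsto (hc2.tendsto.mono_left (nhdsWithin_le_nhds (s := Ioi ε))) ?_
  filter_upwards [hev, self_mem_nhdsWithin] with e he1 he2
  exact g1_osgood_aux A T ε e hA hT hε he2 he1 D hD0 hmono h t ht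

end Pool.Agent.Helper118.Yud
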