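import Pool.Agent.Helper118.Yud.Defs
import Pool.Agent.Helper118.Yud.G1
import Pool.Agent.Helper118.Yud.E4

set_option autoImplicit false

namespace Pool.Agent.Helper118.Yud

open MeasureTheory Complex Set Filter Topology






theorem e5_phi_continuous : Continuous phi := by
  have h : phi = fun δ => min δ 1 - min δ 1 * Real.log (min δ 1) := by
    funext δ; simp only [phi]; ring
  rw [h]
  have h1 : Continuous fun δ : ℝ => min δ 1 := continuous_id.min continuous_const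
  exact h1.sub (Real.continuous_mul_log.comp h1)

theorem e5_phi_zero : phi 0 = 0 := by simp [phi]

theorem e5_phi_nonneg {δ : ℝ} (hδ : 0 ≤ δ) : 0 ≤ phi δ := by
  have h0 : 0 ≤ min δ 1 := le_min hδ zero_le_one
  have h1 : min δ 1 ≤ 1 := min_le_right _ _
  have h2 : Real.log (min δ 1) ≤ 0 := Real.log_nonpos h0 h1
  exact mul_nonneg h0 (by linarith)

theorem e5_phi_le_one {δ : ℝ} (hδ : 0 ≤ δ) : phi δ ≤ 1 := by
  have h0 : 0 ≤ min δ 1 := le_min hδ zero_le_one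
  unfold phi
  set m := min δ 1 with hm
  rcases h0.eq_or_lt with h | h
  · rw [← h]; simp
  · have h3 := Real.one_sub_inv_le_log_of_pos h
    have h4 : m * (1 - Real.log m) ≤ m * m⁻¹ :=
      mul_le_mul_of_nonneg_left (by linarith) h0
    rwa [mul_inv_cancel₀ h.ne'] at h4

theorem e5_pr_continuous : Continuous pr := by
  unfold pr
  exact ((AddCircle.continuous_mk' 1).comp Complex.continuous_re).prodMk
    ((AddCircle.continuous_mk' 1).comp Complex.continuous_im)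

theorem e5_pr_sub (z w : ℂ) : pr z - pr w = pr (z - w) := by
  simp [pr]

theorem e5_mv_sub (ξ1 ξ2 : T2 → ℂ) (a : T2) : mv ξ1 a - mv ξ2 a = pr (ξ1 a - ξ2 a) := by
  unfold mv
  rw [← e5_pr_sub, add_sub_add_left_eq_sub]

theorem e5_exists_small (A : ℝ) {ε : ℝ} (hε : 0 < ε) : ∃ d : ℝ, 0 < d ∧ A * phi d < ε := by
  have h : Tendsto (fun d => A * phi d) (𝓝[>] 0) (𝓝 (A * phi 0)) :=
    ((continuous_const.mul e5_phi_continuous).tendsto 0).mono_left nhdsWithin_le_nhds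
  rw [e5_phi_zero, mul_zero] at h
  have h1 := h.eventually (gt_mem_nhds hε)
  obtain ⟨d, hd1, hd2⟩ := (h1.and self_mem_nhdsWithin).exists
  exact ⟨d, hd2, hd1⟩

/-- continuity of the velocity along a continuous family of measure preserving displacements -/
theorem vel_continuousOn {K : T2 → ℂ} {C : ℝ} (hK : IsBS K C) (ω : T2 → ℝ) (hω : Measurable ω)
    (M : ℝ) (hM : ∀ x, |ω x| ≤ M) (T : ℝ) (ξ : ℝ → T2 → ℂ) (hξ : Continuous (Function.uncurry ξ))
    (hmp : ∀ t, |t| ≤ T → MeasurePreserving (mv (ξ t)) volume volume) :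
    ContinuousOn (fun p : ℝ × T2 => vel K ω (ξ p.1) p.2) (Icc (-T) T ×ˢ univ) := by
  have hM0 : 0 ≤ M := (abs_nonneg _).trans (hM 0)
  obtain ⟨A, hA, hvd⟩ := hK.vel_diff M hM0
  rintro ⟨t0, x0⟩ ⟨ht0, -⟩
  rw [ContinuousWithinAt, Metric.tendsto_nhds]
  intro ε hε
  obtain ⟨d, hd, hdε⟩ := e5_exists_small A hε
  have h1 : ∀ᶠ s in 𝓝 t0, ∀ b ∈ (univ : Set T2), ‖ξ s b - ξ t0 b‖ < d := by
    apply isCompact_univ.eventually_forall_of_forall_eventually
    intro b _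
    have hc : Continuous fun z : ℝ × T2 => ‖ξ z.1 z.2 - ξ t0 z.2‖ := by
      have e1 : Continuous fun z : ℝ × T2 => ξ z.1 z.2 := hξ
      have e2 : Continuous fun z : ℝ × T2 => ξ t0 z.2 :=
        hξ.comp (continuous_const.prodMk continuous_snd)
      exact (e1.sub e2).norm
    have := hc.tendsto (t0, b)
    simp only [sub_self, norm_zero] at this
    exact this.eventually (gt_mem_nhds hd)
  have h2 : ∀ᶠ p : ℝ × T2 in 𝓝 (t0, x0), ∀ b, ‖ξ p.1 b - ξ t0 b‖ < d := by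
    have := (continuous_fst.tendsto (t0, x0)).eventually h1
    filter_upwards [this] with p hp b using hp b (mem_univ _)
  have h3 : ∀ᶠ p : ℝ × T2 in 𝓝 (t0, x0), ‖p.2 - x0‖ < d := by
    have hc : Continuous fun p : ℝ × T2 => ‖p.2 - x0‖ := (continuous_snd.sub continuous_const).norm
    have := hc.tendsto (t0, x0)
    simp only [sub_self, norm_zero] at this
    exact this.eventually (gt_mem_nhds hd)
  filter_upwards [nhdsWithin_le_nhds h2, nhdsWithin_le_nhds h3, self_mem_nhdsWithin] with p hp1 hp2 hp3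
  rw [dist_eq_norm]
  have h4 := hvd ω ω hω hω hM hM 0 (by simp) (ξ p.1) (ξ t0) (hmp _ (abs_le.2 hp3.1))
    (hmp _ (abs_le.2 ht0)) p.2 x0 d hd.le (fun b => (hp1 b).le) hp2.le
  simp only [Real.sqrt_zero, mul_zero, add_zero] at h4
  exact h4.trans_lt hdε

theorem e5_vel_curve {K : T2 → ℂ} {C : ℝ} (hK : IsBS K C) (ω : T2 → ℝ) (hω : Measurable ω)
    (M : ℝ) (hM : ∀ x, |ω x| ≤ M) (T : ℝ) (ξ : ℝ → T2 → ℂ) (hξ : Continuous (Function.uncurry ξ))
    (hmp : ∀ t, |t| ≤ T → MeasurePreserving (mv (ξ t)) volume volume) (a : T2) :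
    ContinuousOn (fun s => vel K ω (ξ s) (mv (ξ s) a)) (Icc (-T) T) := by
  have e := vel_continuousOn hK ω hω M hM T ξ hξ hmp
  have e2 : Continuous fun s : ℝ => (s, mv (ξ s) a) := by
    have e3 : Continuous fun s : ℝ => ξ s a :=
      hξ.comp (continuous_id.prodMk continuous_const)
    exact continuous_id.prodMk (continuous_const.add (e5_pr_continuous.comp e3))
  have e4 : MapsTo (fun s : ℝ => (s, mv (ξ s) a)) (Icc (-T) T) (Icc (-T) T ×ˢ (univ : Set T2)) :=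
    fun s hs => ⟨hs, mem_univ _⟩
  have e5 := ContinuousOn.comp (g := fun p : ℝ × T2 => vel K ω (ξ p.1) p.2)
    (f := fun s : ℝ => (s, mv (ξ s) a)) e e2.continuousOn e4
  exact e5

theorem stab {K : T2 → ℂ} {C : ℝ} (hK : IsBS K C) (M : ℝ) (hM : 0 ≤ M) :
    ∃ A : ℝ, 0 < A ∧ ∀ T δ1 δ2 η ε : ℝ, 0 ≤ T → 0 ≤ δ1 → 0 ≤ δ2 → 0 ≤ η → 0 < ε →
      ∀ ω1 ω2 : T2 → ℝ, Measurable ω1 → Measurable ω2 →
      (∀ x, |ω1 x| ≤ M) → (∀ x, |ω2 x| ≤ M) → ∫ x, |ω1 x - ω2 x| ≤ η →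
      ∀ ξ1 ξ2 : ℝ → T2 → ℂ, ALagr K T δ1 ω1 ξ1 → ALagr K T δ2 ω2 ξ2 →
      δ1 + δ2 + A * T * Real.sqrt η ≤ ε →
      Real.exp 1 * (ε / Real.exp 1) ^ Real.exp (-(A * T)) < 1 →
      ∀ t, |t| ≤ T → ∀ a, ‖ξ1 t a - ξ2 t a‖ ≤ Real.exp 1 * (ε / Real.exp 1) ^ Real.exp (-(A * T)) := by
  obtain ⟨A, hA, hvd⟩ := hK.vel_diff M hM
  refine ⟨A, hA, ?_⟩
  intro T δ1 δ2 η ε hT hδ1 hδ2 hη hε ω1 ω2 hω1 hω2 hb1 hb2 hω ξ1 ξ2 h1 h2 hεb hsmall
  -- the function `D`
  set g : ℝ × T2 → ℝ := fun p => ‖ξ1 p.1 p.2 - ξ2 p.1 p.2‖ with hg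
  have hgc : Continuous g := by
    have e1 : Continuous fun z : ℝ × T2 => ξ1 z.1 z.2 := h1.cont
    have e2 : Continuous fun z : ℝ × T2 => ξ2 z.1 z.2 := h2.cont
    exact (e1.sub e2).norm
  set D : ℝ → ℝ := fun t => sSup (g '' (Icc (-t) t ×ˢ (univ : Set T2))) with hD
  have hbdd : ∀ t, BddAbove (g '' (Icc (-t) t ×ˢ (univ : Set T2))) := fun t =>
    ((isCompact_Icc.prod isCompact_univ).image hgc).bddAbove
  have hle : ∀ t s a, |s| ≤ t → ‖ξ1 s a - ξ2 s a‖ ≤ D t := by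
    intro t s a hs
    exact le_csSup (hbdd t) ⟨(s, a), ⟨abs_le.1 hs, mem_univ _⟩, rfl⟩
  have hD0 : ∀ t, 0 ≤ D t := by
    intro t
    apply Real.sSup_nonneg
    rintro _ ⟨p, -, rfl⟩
    exact norm_nonneg _
  have hDle : ∀ t b, 0 ≤ b → (∀ s a, |s| ≤ t → ‖ξ1 s a - ξ2 s a‖ ≤ b) → D t ≤ b := by
    intro t b hb h
    apply Real.sSup_le _ hb
    rintro _ ⟨p, hp, rfl⟩
    exact h p.1 p.2 (abs_le.2 hp.1)
  have hDm : Monotone D := by
    intro s t hst
    exact hDle s _ (hD0 t) fun r a hr => hle t r a (hr.trans hst)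
  have hphiD : Measurable fun s => phi (D s) := e5_phi_continuous.measurable.comp hDm.measurable
  have hphiI : ∀ a b, IntervalIntegrable (fun s => A * phi (D s)) volume a b := by
    intro a b
    apply IntervalIntegrable.const_mul
    rw [intervalIntegrable_iff]
    refine Measure.integrableOn_of_bounded (M := 1) (by simp) hphiD.aestronglyMeasurable ?_
    refine Eventually.of_forall fun s => ?_
    rw [Real.norm_eq_abs, abs_of_nonneg (e5_phi_nonneg (hD0 s))]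
    exact e5_phi_le_one (hD0 s)
  -- continuity of the integrands
  have hcv : ∀ (δ : ℝ) (ω : T2 → ℝ) (ξ : ℝ → T2 → ℂ), Measurable ω → (∀ x, |ω x| ≤ M) →
      ALagr K T δ ω ξ → ∀ a, ContinuousOn (fun s => vel K ω (ξ s) (mv (ξ s) a)) (Icc (-T) T) := by
    intro δ ω ξ hm hb h a
    exact e5_vel_curve hK ω hm M hb T ξ h.cont h.mp a
  have hii : ∀ (δ : ℝ) (ω : T2 → ℝ) (ξ : ℝ → T2 → ℂ), Measurable ω → (∀ x, |ω x| ≤ M) →
      ALagr K T δ ω ξ → ∀ a r, |r| ≤ T →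
      IntervalIntegrable (fun s => vel K ω (ξ s) (mv (ξ s) a)) volume 0 r := by
    intro δ ω ξ hm hb h a r hr
    apply ContinuousOn.intervalIntegrable
    apply (hcv δ ω ξ hm hb h a).mono
    have hr' := abs_le.1 hr
    intro s hs
    rw [uIcc, mem_Icc] at hs
    constructor
    · exact (le_min (by linarith) hr'.1).trans hs.1
    · exact hs.2.trans (max_le hT hr'.2)
  have hpt : ∀ s a, |s| ≤ T →
      ‖vel K ω1 (ξ1 s) (mv (ξ1 s) a) - vel K ω2 (ξ2 s) (mv (ξ2 s) a)‖ ≤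
        A * phi (D |s|) + A * Real.sqrt η := by
    intro s a hs
    apply hvd ω1 ω2 hω1 hω2 hb1 hb2 η hω (ξ1 s) (ξ2 s) (h1.mp s hs) (h2.mp s hs) _ _ (D |s|) (hD0 _)
    · intro b; exact hle _ s b le_rfl
    · rw [e5_mv_sub]
      exact (norm_pr_le _).trans (hle _ s a le_rfl)
  have hint : ∀ r a, |r| ≤ T →
      ‖∫ s in (0:ℝ)..r, (vel K ω1 (ξ1 s) (mv (ξ1 s) a) - vel K ω2 (ξ2 s) (mv (ξ2 s) a))‖ ≤
        ∫ s in (0:ℝ)..|r|, (A * phi (D s) + A * Real.sqrt η) := by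
    intro r a hr
    have hGI : ∀ a b, IntervalIntegrable (fun s => A * phi (D s) + A * Real.sqrt η) volume a b :=
      fun a b => (hphiI a b).add intervalIntegrable_const
    rcases le_or_gt 0 r with h0 | h0
    · rw [abs_of_nonneg h0] at hr ⊢
      apply intervalIntegral.norm_integral_le_of_norm_le h0 _ (hGI _ _)
      refine Eventually.of_forall fun s hs => ?_
      have := hpt s a (by rw [abs_of_nonneg hs.1.le]; exact hs.2.trans hr)
      rwa [abs_of_nonneg hs.1.le] at this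
    · rw [abs_of_neg h0] at hr ⊢
      have e : (∫ s in (0:ℝ)..r,
          (vel K ω1 (ξ1 s) (mv (ξ1 s) a) - vel K ω2 (ξ2 s) (mv (ξ2 s) a))) =
          -∫ s in (0:ℝ)..(-r), (vel K ω1 (ξ1 (-s)) (mv (ξ1 (-s)) a) -
            vel K ω2 (ξ2 (-s)) (mv (ξ2 (-s)) a)) := by
        rw [intervalIntegral.integral_comp_neg
          (fun s => vel K ω1 (ξ1 s) (mv (ξ1 s) a) - vel K ω2 (ξ2 s) (mv (ξ2 s) a)),
          neg_neg, neg_zero, intervalIntegral.integral_symm r 0]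
      rw [e, norm_neg]
      apply intervalIntegral.norm_integral_le_of_norm_le (by linarith) _ (hGI _ _)
      refine Eventually.of_forall fun s hs => ?_
      have := hpt (-s) a (by rw [abs_neg, abs_of_nonneg hs.1.le]; exact hs.2.trans hr)
      rwa [abs_neg, abs_of_nonneg hs.1.le] at this
  have hmain : ∀ t ∈ Icc (0:ℝ) T, D t ≤ ε + ∫ s in (0:ℝ)..t, A * phi (D s) := by
    intro t ht
    have hI0 : 0 ≤ ∫ s in (0:ℝ)..t, A * phi (D s) :=
      intervalIntegral.integral_nonneg ht.1 fun s _ => mul_nonneg hA.le (e5_phi_nonneg (hD0 s))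
    apply hDle t _ (by linarith)
    intro r a hr
    have hrT : |r| ≤ T := hr.trans ht.2
    have k1 := h1.eq r hrT a
    have k2 := h2.eq r hrT a
    have k3 := hint r a hrT
    rw [intervalIntegral.integral_sub (hii δ1 ω1 ξ1 hω1 hb1 h1 a r hrT)
      (hii δ2 ω2 ξ2 hω2 hb2 h2 a r hrT)] at k3
    rw [intervalIntegral.integral_add (hphiI _ _) intervalIntegrable_const,
      intervalIntegral.integral_const, sub_zero, smul_eq_mul] at k3
    have k4 : (∫ s in (0:ℝ)..|r|, A * phi (D s)) ≤ ∫ s in (0:ℝ)..t, A * phi (D s) := by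
      rw [← intervalIntegral.integral_add_adjacent_intervals (hphiI 0 |r|) (hphiI |r| t)]
      have : 0 ≤ ∫ s in |r|..t, A * phi (D s) :=
        intervalIntegral.integral_nonneg hr fun s _ => mul_nonneg hA.le (e5_phi_nonneg (hD0 s))
      linarith
    have k5 : |r| * (A * Real.sqrt η) ≤ A * T * Real.sqrt η := by
      have : |r| * (A * Real.sqrt η) ≤ T * (A * Real.sqrt η) :=
        mul_le_mul_of_nonneg_right hrT (mul_nonneg hA.le (Real.sqrt_nonneg _))
      linarith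
    set I1 := ∫ s in (0:ℝ)..r, vel K ω1 (ξ1 s) (mv (ξ1 s) a) with hI1
    set I2 := ∫ s in (0:ℝ)..r, vel K ω2 (ξ2 s) (mv (ξ2 s) a) with hI2
    have k6 : ξ1 r a - ξ2 r a = (ξ1 r a - I1) - (ξ2 r a - I2) + (I1 - I2) := by ring
    have k7 : ‖ξ1 r a - ξ2 r a‖ ≤ ‖ξ1 r a - I1‖ + ‖ξ2 r a - I2‖ + ‖I1 - I2‖ := by
      rw [k6]
      exact (norm_add_le _ _).trans (add_le_add_left (norm_sub_le _ _) _)
    linarith
  have hfin := osgood A T ε hA.le hT hε hsmall D hD0 (hDm.monotoneOn _) hmain T ⟨hT, le_rfl⟩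
  intro t ht a
  exact (hle T t a ht).trans hfin

end Pool.Agent.Helper118.Yud
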