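import Pool.Agent.Helper118.Yud.Defs
import Pool.Agent.Helper118.Yud.E5

set_option autoImplicit false

namespace Pool.Agent.Helper118.Yud

open MeasureTheory Complex Set Filter Topology





theorem e6_e6_phi_nonneg {d : ℝ} (hd : 0 ≤ d) : 0 ≤ phi d := by
  unfold phi
  have h1 : 0 ≤ min d 1 := le_min hd zero_le_one
  have h2 : Real.log (min d 1) ≤ 0 := Real.log_nonpos h1 (min_le_right _ _)
  exact mul_nonneg h1 (by linarith)

theorem e6_e6_phi_aux {m1 m2 : ℝ} (h0 : 0 ≤ m1) (h12 : m1 ≤ m2) (h2 : m2 ≤ 1) :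
    m1 * (1 - Real.log m1) ≤ m2 * (1 - Real.log m2) := by
  have hm2 : 0 ≤ m2 := h0.trans h12
  have hl2 : Real.log m2 ≤ 0 := Real.log_nonpos hm2 h2
  rcases h0.eq_or_lt with h | h
  · rw [← h, zero_mul]
    exact mul_nonneg hm2 (by linarith)
  · have hm2' : 0 < m2 := lt_of_lt_of_le h h12
    have h3 := Real.log_le_sub_one_of_pos (div_pos hm2' h)
    rw [Real.log_div hm2'.ne' h.ne'] at h3
    have h4 : m1 * (Real.log m2 - Real.log m1) ≤ m1 * (m2 / m1 - 1) :=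
      mul_le_mul_of_nonneg_left h3 h.le
    have h5 : m1 * (m2 / m1 - 1) = m2 - m1 := by
      field_simp
    have h6 : 0 ≤ (m1 - m2) * Real.log m2 := mul_nonneg_of_nonpos_of_nonpos (by linarith) hl2
    nlinarith

theorem e6_e6_phi_mono {d1 d2 : ℝ} (h0 : 0 ≤ d1) (h12 : d1 ≤ d2) : phi d1 ≤ phi d2 :=
  e6_e6_phi_aux (le_min h0 zero_le_one) (min_le_min_right 1 h12) (min_le_right _ _)

theorem e6_e6_B {p : ℝ} (hp : 0 < p) :
    Tendsto (fun ε : ℝ => Real.exp 1 * (ε / Real.exp 1) ^ p) (𝓝 0) (𝓝 0) := by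
  have h1 : Continuous (fun ε : ℝ => Real.exp 1 * (ε / Real.exp 1) ^ p) :=
    continuous_const.mul ((Real.continuous_rpow_const hp.le).comp (continuous_id.div_const _))
  have h2 := h1.tendsto 0
  rw [zero_div, Real.zero_rpow hp.ne', mul_zero] at h2
  exact h2

theorem e6_e6_limit {p x : ℝ} (hp : 0 < p)
    (h : ∀ ε : ℝ, 0 < ε → Real.exp 1 * (ε / Real.exp 1) ^ p < 1 →
      x ≤ Real.exp 1 * (ε / Real.exp 1) ^ p) : x ≤ 0 := by
  have h1 : Tendsto (fun ε : ℝ => Real.exp 1 * (ε / Real.exp 1) ^ p) (𝓝[>] 0) (𝓝 0) :=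
    (e6_e6_B hp).mono_left nhdsWithin_le_nhds
  apply ge_of_tendsto h1
  have h2 : ∀ᶠ ε : ℝ in 𝓝[>] 0, Real.exp 1 * (ε / Real.exp 1) ^ p < 1 :=
    h1.eventually (gt_mem_nhds one_pos)
  filter_upwards [h2, self_mem_nhdsWithin] with ε h3 h4
  exact h ε h4 h3

theorem e6_e6_curve {A T : ℝ} (hA : 0 ≤ A) (hT : 0 ≤ T) (y y' : ℝ → ℂ)
    (hy : ∀ s, HasDerivAt y (y' s) s) (hy'c : Continuous y')
    (hb : ∀ s, ‖y' s‖ ≤ A * phi ‖y s‖) (h0 : y 0 = 0) : y T = 0 := by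
  have yc : Continuous y := continuous_iff_continuousAt.mpr fun s => (hy s).continuousAt
  set D : ℝ → ℝ := fun t => sSup ((fun s => ‖y s‖) '' Icc 0 t) with hD
  have bdd : ∀ t, BddAbove ((fun s => ‖y s‖) '' Icc 0 t) := fun t =>
    isCompact_Icc.bddAbove_image yc.norm.continuousOn
  have hDge : ∀ t, ∀ s ∈ Icc 0 t, ‖y s‖ ≤ D t := fun t s hs => le_csSup (bdd t) ⟨s, hs, rfl⟩
  have hD0 : ∀ t, 0 ≤ D t := by
    intro t
    apply Real.sSup_nonneg
    rintro _ ⟨s, _, rfl⟩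
    exact norm_nonneg _
  have hne : ∀ s : ℝ, 0 ≤ s → ((fun s => ‖y s‖) '' Icc 0 s).Nonempty := fun s hs =>
    ⟨‖y 0‖, 0, ⟨le_rfl, hs⟩, rfl⟩
  have hmono : ∀ s t, 0 ≤ s → s ≤ t → D s ≤ D t := by
    intro s t hs hst
    exact csSup_le_csSup (bdd t) (hne s hs) (image_mono (Icc_subset_Icc_right hst))
  have hgm : ∀ t, 0 ≤ t → IntervalIntegrable (fun r => A * phi (D r)) volume 0 t := by
    intro t ht
    apply MonotoneOn.intervalIntegrable
    rw [uIcc_of_le ht]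
    intro a ha b _ hab
    exact mul_le_mul_of_nonneg_left (e6_e6_phi_mono (hD0 a) (hmono a b ha.1 hab)) hA
  have key : ∀ t ∈ Icc (0:ℝ) T, D t ≤ ∫ s in (0:ℝ)..t, A * phi (D s) := by
    intro t ht
    apply csSup_le (hne t ht.1)
    rintro _ ⟨s, hs, rfl⟩
    simp only
    have h1 : ∫ r in (0:ℝ)..s, y' r = y s - y 0 :=
      intervalIntegral.integral_eq_sub_of_hasDerivAt (fun x _ => hy x)
        (hy'c.intervalIntegrable 0 s)
    rw [h0, sub_zero] at h1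
    rw [← h1]
    have h2 : ‖∫ r in (0:ℝ)..s, y' r‖ ≤ ∫ r in (0:ℝ)..s, A * phi (D r) := by
      apply intervalIntegral.norm_integral_le_of_norm_le hs.1 _ (hgm s hs.1)
      apply Filter.Eventually.of_forall
      intro r hr
      refine (hb r).trans ?_
      exact mul_le_mul_of_nonneg_left
        (e6_e6_phi_mono (norm_nonneg _) (hDge r r ⟨hr.1.le, le_rfl⟩)) hA
    refine h2.trans ?_
    apply intervalIntegral.integral_mono_interval le_rfl hs.1 hs.2 _ (hgm t ht.1)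
    apply Filter.Eventually.of_forall
    intro r
    exact mul_nonneg hA (e6_e6_phi_nonneg (hD0 r))
  have hDT : D T ≤ 0 := by
    apply e6_e6_limit (Real.exp_pos (-(A * T)))
    intro ε hε hsm
    exact osgood A T ε hA hT hε hsm D hD0 (fun a ha b _ hab => hmono a b ha.1 hab)
      (fun t ht => (key t ht).trans (by linarith)) T ⟨hT, le_rfl⟩
  have h1 := hDge T T ⟨hT, le_rfl⟩
  exact norm_le_zero_iff.mp (h1.trans hDT)

theorem e6_e6_pr_cont : Continuous pr := by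
  unfold pr
  exact ((AddCircle.continuous_mk' (1:ℝ)).comp Complex.continuous_re).prodMk
    ((AddCircle.continuous_mk' (1:ℝ)).comp Complex.continuous_im)

theorem e6_e6_pr_add (z w : ℂ) : pr (z + w) = pr z + pr w := by
  unfold pr
  rw [Complex.add_re, Complex.add_im, AddCircle.coe_add, AddCircle.coe_add]
  rfl

theorem e6_e6_pr_sub (z w : ℂ) : pr (z - w) = pr z - pr w := by
  rw [eq_sub_iff_add_eq, ← e6_e6_pr_add, sub_add_cancel]

theorem e6_e6_pr_surj (a : T2) : ∃ z : ℂ, pr z = a := by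
  obtain ⟨u, hu⟩ := QuotientAddGroup.mk_surjective a.1
  obtain ⟨v, hv⟩ := QuotientAddGroup.mk_surjective a.2
  refine ⟨⟨u, v⟩, ?_⟩
  exact Prod.ext hu hv

theorem e6_e6_mv_cont {ξ : ℝ → T2 → ℂ} (h : Continuous (Function.uncurry ξ)) (a : T2) :
    Continuous (fun s => mv (ξ s) a) := by
  have h1 : Continuous (fun s => ξ s a) :=
    h.comp (continuous_id.prodMk (continuous_const (y := a)))
  exact continuous_const.add (e6_e6_pr_cont.comp h1)

theorem e6_e6_g_cont {K : T2 → ℂ} {C : ℝ} (hK : IsBS K C) (ω : T2 → ℝ) (hω : Measurable ω)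
    (M : ℝ) (hM : ∀ x, |ω x| ≤ M) (ξ : ℝ → T2 → ℂ) (h : Lagr K ω ξ) (a : T2) :
    Continuous (fun s => vel K ω (ξ s) (mv (ξ s) a)) := by
  rw [continuous_iff_continuousAt]
  intro r
  have hco := vel_continuousOn hK ω hω M hM (|r| + 1) ξ h.cont (fun t _ => h.mp t)
  have hmem : Icc (-(|r| + 1)) (|r| + 1) ×ˢ (univ : Set T2) ∈ 𝓝 (r, mv (ξ r) a) :=
    prod_mem_nhds (Icc_mem_nhds (by linarith [neg_abs_le r]) (by linarith [le_abs_self r])) univ_mem
  have h1 : ContinuousAt (fun p : ℝ × T2 => vel K ω (ξ p.1) p.2) (r, mv (ξ r) a) :=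
    hco.continuousAt hmem
  have h2 : Continuous (fun s => (s, mv (ξ s) a)) := continuous_id.prodMk (e6_e6_mv_cont h.cont a)
  exact ContinuousAt.comp (f := fun s => (s, mv (ξ s) a)) h1 h2.continuousAt

theorem e6_e6_alagr {K : T2 → ℂ} {ω : T2 → ℝ} {ξ : ℝ → T2 → ℂ} (h : Lagr K ω ξ) (T : ℝ) :
    ALagr K T 0 ω ξ where
  cont := h.cont
  mp := fun t _ => h.mp t
  eq := fun t _ a => by
    rw [← h.eq t a, sub_self, norm_zero]

/-- the velocity is the time derivative of the displacement -/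
theorem Lagr.hasDerivAt {K : T2 → ℂ} {C : ℝ} (hK : IsBS K C) (ω : T2 → ℝ) (hω : Measurable ω)
    (M : ℝ) (hM : ∀ x, |ω x| ≤ M) (ξ : ℝ → T2 → ℂ) (h : Lagr K ω ξ) (t : ℝ) (a : T2) :
    HasDerivAt (fun s => ξ s a) (vel K ω (ξ t) (mv (ξ t) a)) t := by
  have hg := e6_e6_g_cont hK ω hω M hM ξ h a
  have e : (fun s => ξ s a) = fun s => ∫ r in (0:ℝ)..s, vel K ω (ξ r) (mv (ξ r) a) :=
    funext fun s => h.eq s a
  rw [e]
  exact (hg.integral_hasStrictDerivAt 0 t).hasDerivAt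

theorem lagr_unique {K : T2 → ℂ} {C : ℝ} (hK : IsBS K C) (ω : T2 → ℝ) (hω : Measurable ω)
    (M : ℝ) (hM : ∀ x, |ω x| ≤ M) (ξ1 ξ2 : ℝ → T2 → ℂ) (h1 : Lagr K ω ξ1) (h2 : Lagr K ω ξ2) :
    ξ1 = ξ2 := by
  have hM0 : 0 ≤ M := (abs_nonneg _).trans (hM 0)
  obtain ⟨A, hA, hst⟩ := stab hK M hM0
  funext t a
  have h3 : ‖ξ1 t a - ξ2 t a‖ ≤ 0 := by
    apply e6_e6_limit (Real.exp_pos (-(A * |t|)))
    intro ε hε hsm
    refine hst |t| 0 0 0 ε (abs_nonneg t) le_rfl le_rfl le_rfl hε ω ω hω hω hM hM (by simp) ξ1 ξ2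
      (e6_e6_alagr h1 _) (e6_e6_alagr h2 _) ?_ hsm t le_rfl a
    rw [Real.sqrt_zero]
    linarith
  exact sub_eq_zero.mp (norm_le_zero_iff.mp h3)

theorem lagr_cont_dep {K : T2 → ℂ} {C : ℝ} (hK : IsBS K C) (M : ℝ)
    (ωn : ℕ → T2 → ℝ) (ω : T2 → ℝ) (hωn : ∀ n, Measurable (ωn n)) (hω : Measurable ω)
    (hMn : ∀ n x, |ωn n x| ≤ M) (hM : ∀ x, |ω x| ≤ M)
    (hlim : Tendsto (fun n => ∫ x, |ωn n x - ω x|) atTop (𝓝 0))
    (ξn : ℕ → ℝ → T2 → ℂ) (ξ : ℝ → T2 → ℂ) (hn : ∀ n, Lagr K (ωn n) (ξn n)) (h : Lagr K ω ξ)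
    (t : ℝ) (a : T2) : Tendsto (fun n => ξn n t a) atTop (𝓝 (ξ t a)) := by
  have hM0 : 0 ≤ M := (abs_nonneg _).trans (hM 0)
  obtain ⟨A, hA, hst⟩ := stab hK M hM0
  set ε : ℕ → ℝ := fun n => A * |t| * Real.sqrt (∫ x, |ωn n x - ω x|) + 1 / ((n:ℝ) + 1) with hε
  have hη0 : ∀ n, 0 ≤ ∫ x, |ωn n x - ω x| := fun n => integral_nonneg fun x => abs_nonneg _
  have hε0 : ∀ n, 0 < ε n := by
    intro n
    have h1 : 0 ≤ A * |t| * Real.sqrt (∫ x, |ωn n x - ω x|) := by positivity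
    have h2 : (0:ℝ) < 1 / ((n:ℝ) + 1) := by positivity
    exact add_pos_of_nonneg_of_pos h1 h2
  have hεlim : Tendsto ε atTop (𝓝 0) := by
    have h1 : Tendsto (fun n => Real.sqrt (∫ x, |ωn n x - ω x|)) atTop (𝓝 0) := by
      have h2 := (Real.continuous_sqrt.tendsto 0).comp hlim
      rw [Real.sqrt_zero] at h2
      exact h2
    have h3 := (h1.const_mul (A * |t|)).add (tendsto_one_div_add_atTop_nhds_zero_nat (𝕜 := ℝ))
    rw [mul_zero, add_zero] at h3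
    exact h3
  have hB := (e6_e6_B (Real.exp_pos (-(A * |t|)))).comp hεlim
  rw [tendsto_iff_norm_sub_tendsto_zero]
  refine squeeze_zero' (Filter.Eventually.of_forall fun n => norm_nonneg _) ?_ hB
  have hev := hB.eventually (gt_mem_nhds one_pos)
  filter_upwards [hev] with n hn1
  refine hst |t| 0 0 (∫ x, |ωn n x - ω x|) (ε n) (abs_nonneg t) le_rfl le_rfl (hη0 n) (hε0 n)
    (ωn n) ω (hωn n) hω (hMn n) hM le_rfl (ξn n) ξ (e6_e6_alagr (hn n) _) (e6_e6_alagr h _) ?_ hn1 t le_rfl a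
  have h2 : (0:ℝ) < 1 / ((n:ℝ) + 1) := by positivity
  simp only [hε]
  linarith

theorem lagr_injective {K : T2 → ℂ} {C : ℝ} (hK : IsBS K C) (ω : T2 → ℝ) (hω : Measurable ω)
    (M : ℝ) (hM : ∀ x, |ω x| ≤ M) (ξ : ℝ → T2 → ℂ) (h : Lagr K ω ξ) (t : ℝ) :
    Function.Injective (mv (ξ t)) := by
  have hM0 : 0 ≤ M := (abs_nonneg _).trans (hM 0)
  obtain ⟨A, hA, hvel⟩ := hK.vel_diff M hM0
  intro a a' haa
  obtain ⟨x, hx⟩ := e6_e6_pr_surj a
  obtain ⟨x', hx'⟩ := e6_e6_pr_surj a'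
  obtain ⟨w, hw⟩ : ∃ w : ℂ, w = x + ξ t a - (x' + ξ t a') := ⟨_, rfl⟩
  have hprs : ∀ s, pr (x + ξ s a - (x' + ξ s a')) = mv (ξ s) a - mv (ξ s) a' := by
    intro s
    rw [e6_e6_pr_sub, e6_e6_pr_add, e6_e6_pr_add, hx, hx']
    rfl
  have hw0 : pr w = 0 := by
    rw [hw, hprs, haa, sub_self]
  set z : ℝ → ℂ := fun s => x + ξ s a - (x' + ξ s a') - w with hz
  set z' : ℝ → ℂ := fun s => vel K ω (ξ s) (mv (ξ s) a) - vel K ω (ξ s) (mv (ξ s) a') with hz'
  have hzd : ∀ s, HasDerivAt z (z' s) s := by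
    intro s
    have h1 := Lagr.hasDerivAt hK ω hω M hM ξ h s a
    have h2 := Lagr.hasDerivAt hK ω hω M hM ξ h s a'
    exact ((h1.const_add x).sub (h2.const_add x')).sub_const w
  have hz'c : Continuous z' :=
    (e6_e6_g_cont hK ω hω M hM ξ h a).sub (e6_e6_g_cont hK ω hω M hM ξ h a')
  have hprz : ∀ s, pr (z s) = mv (ξ s) a - mv (ξ s) a' := by
    intro s
    rw [hz]
    simp only
    rw [e6_e6_pr_sub, hprs, hw0, sub_zero]
  have hzb : ∀ s, ‖z' s‖ ≤ A * phi ‖z s‖ := by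
    intro s
    have h1 := hvel ω ω hω hω hM hM 0 (by simp) (ξ s) (ξ s) (h.mp s) (h.mp s) (mv (ξ s) a)
      (mv (ξ s) a') ‖z s‖ (norm_nonneg _) (by
        intro b
        rw [sub_self, norm_zero]
        exact norm_nonneg _) (by
        rw [← hprz]
        exact norm_pr_le _)
    rw [Real.sqrt_zero, mul_zero, add_zero] at h1
    exact h1
  have hzt : z t = 0 := by
    rw [hz]
    simp only
    rw [hw, sub_self]
  have hz0 : z 0 = 0 := by
    rcases le_total 0 t with ht | ht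
    · have h1 := e6_e6_curve hA.le ht (fun s => z (t - s)) (fun s => -z' (t - s)) (by
        intro s
        have h2 : HasDerivAt (fun s : ℝ => t - s) (-1) s := (hasDerivAt_id s).const_sub t
        have h3 := HasDerivAt.scomp s (hzd (t - s)) h2
        have h4 : (-1 : ℝ) • z' (t - s) = -z' (t - s) := by rw [neg_smul, one_smul]
        rw [h4] at h3
        exact h3) (hz'c.comp (continuous_const.sub continuous_id)).neg
        (fun s => by rw [norm_neg]; exact hzb (t - s)) (by simpa using hzt)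
      simpa using h1
    · have h1 := e6_e6_curve hA.le (neg_nonneg.mpr ht) (fun s => z (t + s)) (fun s => z' (t + s)) (by
        intro s
        have h2 : HasDerivAt (fun s : ℝ => t + s) 1 s := (hasDerivAt_id s).const_add t
        have h3 := HasDerivAt.scomp s (hzd (t + s)) h2
        rw [one_smul] at h3
        exact h3) (hz'c.comp (continuous_const.add continuous_id))
        (fun s => hzb (t + s)) (by simpa using hzt)
      simpa using h1
  have hξ0 : ∀ b, ξ 0 b = 0 := by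
    intro b
    rw [h.eq 0 b, intervalIntegral.integral_same]
  have h5 : x - x' - w = 0 := by
    have h6 := hz0
    rw [hz] at h6
    simp only [hξ0, add_zero] at h6
    exact h6
  have h7 : pr (x - x' - w) = a - a' := by
    rw [e6_e6_pr_sub, e6_e6_pr_sub, hx, hx', hw0, sub_zero]
  have h8 : pr 0 = (0 : T2) := by
    have := e6_e6_pr_sub 0 0
    rw [sub_self, sub_self] at this
    exact this
  rw [h5, h8] at h7
  exact (sub_eq_zero.mp h7.symm)

end Pool.Agent.Helper118.Yud
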