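import Pool.Agent.Helper118.Yud.Defs

set_option autoImplicit false

namespace Pool.Agent.Helper118.Yud

open MeasureTheory Complex Set Filter Topology


theorem pr_continuous : Continuous pr := by
  unfold pr
  exact ((AddCircle.continuous_mk' (1 : ℝ)).comp continuous_re).prodMk
    ((AddCircle.continuous_mk' (1 : ℝ)).comp continuous_im)

theorem pr_surjective : Function.Surjective pr := by
  rintro ⟨a, b⟩
  obtain ⟨x, rfl⟩ := QuotientAddGroup.mk_surjective a
  obtain ⟨y, rfl⟩ := QuotientAddGroup.mk_surjective b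
  exact ⟨⟨x, y⟩, rfl⟩

theorem pr_add (z w : ℂ) : pr (z + w) = pr z + pr w := rfl

theorem x0_coe_eq_iff (x y : ℝ) : (x : UnitAddCircle) = (y : UnitAddCircle) ↔ ∃ m : ℤ, y - x = m := by
  rw [QuotientAddGroup.eq, AddSubgroup.mem_zmultiples_iff]
  constructor
  · rintro ⟨m, hm⟩
    refine ⟨m, ?_⟩
    have : (m : ℝ) = -x + y := by simpa using hm
    linarith
  · rintro ⟨m, hm⟩
    refine ⟨m, ?_⟩
    simp only [zsmul_eq_mul, mul_one]
    linarith

theorem pr_eq_iff (z w : ℂ) : pr z = pr w ↔ ∃ m n : ℤ, w - z = (m : ℂ) + (n : ℂ) * I := by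
  unfold pr
  rw [Prod.mk.injEq, x0_coe_eq_iff, x0_coe_eq_iff]
  constructor
  · rintro ⟨⟨m, hm⟩, ⟨n, hn⟩⟩
    refine ⟨m, n, ?_⟩
    apply Complex.ext
    · simp [hm]
    · simp [hn]
  · rintro ⟨m, n, h⟩
    refine ⟨⟨m, ?_⟩, ⟨n, ?_⟩⟩
    · have := congrArg Complex.re h
      simpa using this
    · have := congrArg Complex.im h
      simpa using this

theorem pr_isOpenQuotientMap : IsOpenQuotientMap pr := by
  have h1 : IsOpenQuotientMap (fun x : ℝ => (x : UnitAddCircle)) :=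
    QuotientAddGroup.isOpenQuotientMap_mk
  have h2 := (h1.prodMap h1).comp Complex.equivRealProdCLM.toHomeomorph.isOpenQuotientMap
  exact h2

theorem continuous_of_lift {Y : Type*} [TopologicalSpace Y] (f : T2 → Y)
    (h : Continuous (fun z : ℂ => f (pr z))) : Continuous f :=
  pr_isOpenQuotientMap.isQuotientMap.continuous_iff.2 h

/-- for a representative in the centred square the torus norm is the sup norm -/
theorem norm_pr_eq (z : ℂ) (h1 : |z.re| ≤ 1/2) (h2 : |z.im| ≤ 1/2) : ‖pr z‖ = max |z.re| |z.im| := by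
  have e1 : ‖(z.re : UnitAddCircle)‖ = |z.re| :=
    (AddCircle.norm_coe_eq_abs_iff (p := (1 : ℝ)) one_ne_zero).2 (by rw [abs_one]; exact h1)
  have e2 : ‖(z.im : UnitAddCircle)‖ = |z.im| :=
    (AddCircle.norm_coe_eq_abs_iff (p := (1 : ℝ)) one_ne_zero).2 (by rw [abs_one]; exact h2)
  unfold pr
  rw [Prod.norm_mk, e1, e2]

theorem x0_exists_rep1 (x : UnitAddCircle) : ∃ r : ℝ, (r : UnitAddCircle) = x ∧ |r| ≤ 1/2 := by
  obtain ⟨y, rfl⟩ := QuotientAddGroup.mk_surjective x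
  refine ⟨y - round y, ?_, abs_sub_round y⟩
  exact (x0_coe_eq_iff _ _).2 ⟨round y, by ring⟩

/-- every point has a representative in the centred square -/
theorem exists_rep (x : T2) : ∃ z : ℂ, pr z = x ∧ |z.re| ≤ 1/2 ∧ |z.im| ≤ 1/2 ∧ ‖x‖ = max |z.re| |z.im| := by
  obtain ⟨a, b⟩ := x
  obtain ⟨r, hr, hr'⟩ := x0_exists_rep1 a
  obtain ⟨s, hs, hs'⟩ := x0_exists_rep1 b
  have h : pr ⟨r, s⟩ = (a, b) := by
    unfold pr
    rw [← hr, ← hs]
  refine ⟨⟨r, s⟩, h, hr', hs', ?_⟩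
  rw [← h]
  exact norm_pr_eq ⟨r, s⟩ hr' hs'

/-- integral over the torus as an integral over the unit square -/
theorem integral_T2 (f : T2 → ℂ) (hf : Integrable f volume) :
    ∫ x, f x = ∫ s in (0:ℝ)..1, ∫ t in (0:ℝ)..1, f (pr (s + t * I)) := by
  have h1 : ∫ x, f x = ∫ a : UnitAddCircle, ∫ b : UnitAddCircle, f (a, b) := by
    rw [Measure.volume_eq_prod] at hf ⊢
    exact integral_prod f hf
  have h2 : ∀ a : UnitAddCircle, ∫ b : UnitAddCircle, f (a, b) = ∫ t in (0:ℝ)..1, f (a, (t : UnitAddCircle)) := by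
    intro a
    have := UnitAddCircle.intervalIntegral_preimage 0 (fun b => f (a, b))
    rw [zero_add] at this
    exact this.symm
  have h3 : ∫ a : UnitAddCircle, ∫ t in (0:ℝ)..1, f (a, (t : UnitAddCircle)) =
      ∫ s in (0:ℝ)..1, ∫ t in (0:ℝ)..1, f ((s : UnitAddCircle), (t : UnitAddCircle)) := by
    have := UnitAddCircle.intervalIntegral_preimage 0
      (fun a => ∫ t in (0:ℝ)..1, f (a, (t : UnitAddCircle)))
    rw [zero_add] at this
    exact this.symm
  rw [h1]
  simp_rw [h2]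
  rw [h3]
  have h4 : ∀ s t : ℝ, pr ((s : ℂ) + (t : ℂ) * I) = ((s : UnitAddCircle), (t : UnitAddCircle)) := by
    intro s t
    unfold pr
    simp
  simp_rw [h4]

end Pool.Agent.Helper118.Yud
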