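import Pool.Agent.Helper118.Yud.Defs

set_option autoImplicit false

namespace Pool.Agent.Helper118.Yud

open MeasureTheory Complex Set Filter Topology


section euler_aux

theorem l1_es_pr_add (z z' : ℂ) : pr (z + z') = pr z + pr z' := by
  simp [pr, Complex.add_re, Complex.add_im]

theorem l1_es_pr_cont : Continuous pr := by
  refine Continuous.prodMk ?_ ?_
  · exact (AddCircle.continuous_mk' 1).comp continuous_re
  · exact (AddCircle.continuous_mk' 1).comp continuous_im

theorem l1_es_pr_quot : IsOpenQuotientMap pr := by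
  have h1 : IsOpenQuotientMap ((↑) : ℝ → UnitAddCircle) := QuotientAddGroup.isOpenQuotientMap_mk
  have h2 := h1.prodMap h1
  have h3 : IsOpenQuotientMap (Complex.equivRealProdCLM) :=
    Complex.equivRealProdCLM.toHomeomorph.isOpenQuotientMap
  exact h2.comp h3

/-- the unit square -/
noncomputable def l1_esQ : Set ℂ := ZSpan.fundamentalDomain Complex.basisOneI

theorem l1_es_mem_Q (z : ℂ) : z ∈ l1_esQ ↔ z.re ∈ Set.Ico (0:ℝ) 1 ∧ z.im ∈ Set.Ico (0:ℝ) 1 := by
  simp only [l1_esQ, ZSpan.mem_fundamentalDomain, Fin.forall_fin_two, Complex.coe_basisOneI_repr]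
  rfl

theorem l1_es_pr_mp : MeasurePreserving pr (volume.restrict l1_esQ) volume := by
  have h1 : MeasurePreserving ((↑) : ℝ → UnitAddCircle) (volume.restrict (Set.Ico (0:ℝ) 1)) volume := by
    have h := UnitAddCircle.measurePreserving_mk 0
    rw [zero_add] at h
    rwa [Measure.restrict_congr_set Ico_ae_eq_Ioc]
  have h2 := h1.prod h1
  rw [Measure.prod_restrict] at h2
  have h3 : MeasurePreserving Complex.measurableEquivRealProd
      (volume.restrict (Complex.measurableEquivRealProd ⁻¹' (Set.Ico (0:ℝ) 1 ×ˢ Set.Ico (0:ℝ) 1)))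
      (volume.restrict (Set.Ico (0:ℝ) 1 ×ˢ Set.Ico (0:ℝ) 1)) :=
    Complex.volume_preserving_equiv_real_prod.restrict_preimage
      (measurableSet_Ico.prod measurableSet_Ico)
  have h4 : Complex.measurableEquivRealProd ⁻¹' (Set.Ico (0:ℝ) 1 ×ˢ Set.Ico (0:ℝ) 1) = l1_esQ := by
    ext z
    rw [l1_es_mem_Q]
    rfl
  rw [h4] at h3
  exact h2.comp h3

theorem l1_es_pr_span (g : Submodule.span ℤ (Set.range Complex.basisOneI)) (z : ℂ) :
    pr (g +ᵥ z) = pr z := by
  have h1 : pr (g : ℂ) = 0 := by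
    obtain ⟨g, hg⟩ := g
    induction hg using Submodule.span_induction with
    | mem x hx =>
      obtain ⟨i, rfl⟩ := hx
      fin_cases i
      · simp [pr]
      · simp [pr]
    | zero => simp [pr]
    | add x y hx hy h1 h2 => 
      show pr (x + y) = 0
      rw [l1_es_pr_add]
      simp only at h1 h2
      rw [h1, h2, add_zero]
    | smul a x hx h =>
      simp only at h ⊢
      simp only [pr, Prod.mk_eq_zero] at h ⊢
      simp only [zsmul_eq_mul, Complex.mul_re, Complex.mul_im, Complex.intCast_re,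
        Complex.intCast_im, zero_mul, sub_zero, add_zero]
      have h3 : ∀ y : ℝ, (((a : ℝ) * y : ℝ) : UnitAddCircle) = a • (y : UnitAddCircle) := by
        intro y
        rw [← zsmul_eq_mul]
        rfl
      rw [h3, h3, h.1, h.2]
      simp
  rw [Submodule.vadd_def, vadd_eq_add, l1_es_pr_add, h1, zero_add]

theorem l1_es_det (A : ℂ →L[ℝ] ℂ) (hA : (A 1).re + (A I).im = 0) (h : ℝ) :
    (ContinuousLinearMap.id ℝ ℂ + h • A).det =
      1 + h ^ 2 * ((A 1).re * (A I).im - (A 1).im * (A I).re) := by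
  rw [ContinuousLinearMap.det, ← LinearMap.det_toMatrix Complex.basisOneI, Matrix.det_fin_two]
  simp only [LinearMap.toMatrix_apply, Complex.coe_basisOneI_repr, Complex.coe_basisOneI]
  simp
  linear_combination h * hA

theorem l1_es_bound (A : ℂ →L[ℝ] ℂ) (L : ℝ) (hL : ‖A‖ ≤ L) :
    |(A 1).re * (A I).im - (A 1).im * (A I).re| ≤ L ^ 2 := by
  have hL0 : 0 ≤ L := (norm_nonneg _).trans hL
  have h1 : ‖A 1‖ ≤ L := by
    have := A.le_of_opNorm_le hL 1
    simpa using this
  have h2 : ‖A I‖ ≤ L := by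
    have := A.le_of_opNorm_le hL I
    simpa using this
  have h3 : ‖A 1‖ ^ 2 = (A 1).re ^ 2 + (A 1).im ^ 2 := by
    rw [Complex.sq_norm, Complex.normSq_apply]; ring
  have h4 : ‖A I‖ ^ 2 = (A I).re ^ 2 + (A I).im ^ 2 := by
    rw [Complex.sq_norm, Complex.normSq_apply]; ring
  have h5 : ((A 1).re * (A I).im - (A 1).im * (A I).re) ^ 2 ≤ (L ^ 2) ^ 2 := by
    have h6 : ((A 1).re * (A I).im - (A 1).im * (A I).re) ^ 2 ≤ ‖A 1‖ ^ 2 * ‖A I‖ ^ 2 := by
      rw [h3, h4]
      nlinarith [sq_nonneg ((A 1).re * (A I).re + (A 1).im * (A I).im)]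
    have h7 : ‖A 1‖ ^ 2 ≤ L ^ 2 := by gcongr
    have h8 : ‖A I‖ ^ 2 ≤ L ^ 2 := by gcongr
    calc _ ≤ _ := h6
      _ ≤ L ^ 2 * L ^ 2 := by gcongr
      _ = _ := by ring
  exact abs_le_of_sq_le_sq h5 (by positivity)

end euler_aux

theorem euler_step (w : T2 → ℂ) (hC1 : ContDiff ℝ 1 (fun z : ℂ => w (pr z))) (L : ℝ)
    (hL : ∀ z, ‖fderiv ℝ (fun z : ℂ => w (pr z)) z‖ ≤ L)
    (hdiv : ∀ z, (fderiv ℝ (fun z : ℂ => w (pr z)) z 1).re +
      (fderiv ℝ (fun z : ℂ => w (pr z)) z I).im = 0)
    (h : ℝ) (hh : |h| * L ≤ 1/4) (f : T2 → ℝ) (hf : Continuous f) (B : ℝ) (hB : ∀ x, |f x| ≤ B) :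
    |(∫ b, f (b + pr (h * w b))) - ∫ b, f b| ≤ 4 * B * (h * L)^2 := by
  set W : ℂ → ℂ := fun z => w (pr z) with hW
  have hL0 : 0 ≤ L := (norm_nonneg _).trans (hL 0)
  have hB0 : 0 ≤ B := (abs_nonneg _).trans (hB 0)
  have hwc : Continuous w := (l1_es_pr_quot.isQuotientMap.continuous_iff).2 hC1.continuous
  have hWd : Differentiable ℝ W := hC1.differentiable (by norm_num)
  have hlip : ∀ z z', ‖W z - W z'‖ ≤ L * ‖z - z'‖ := fun z z' =>
    Convex.norm_image_sub_le_of_norm_fderiv_le (fun x _ => hWd x) (fun x _ => hL x) convex_univ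
      (Set.mem_univ z') (Set.mem_univ z)
  set Φ : ℂ → ℂ := fun z => z + h • W z with hΦ
  have hhL : ∀ z z', ‖h • W z - h • W z'‖ ≤ 1 / 4 * ‖z - z'‖ := by
    intro z z'
    rw [← smul_sub, norm_smul, Real.norm_eq_abs]
    calc |h| * ‖W z - W z'‖ ≤ |h| * (L * ‖z - z'‖) :=
          mul_le_mul_of_nonneg_left (hlip z z') (abs_nonneg _)
      _ = (|h| * L) * ‖z - z'‖ := by ring
      _ ≤ 1 / 4 * ‖z - z'‖ := mul_le_mul_of_nonneg_right hh (norm_nonneg _)
  have hinj : Function.Injective Φ := by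
    intro z z' hz
    have h1 : z - z' = -(h • W z - h • W z') := by
      have : z + h • W z = z' + h • W z' := hz
      linear_combination this
    have h2 : ‖z - z'‖ ≤ 1 / 4 * ‖z - z'‖ := by
      calc ‖z - z'‖ = ‖h • W z - h • W z'‖ := by rw [← norm_neg (h • W z - h • W z'), ← h1]
        _ ≤ _ := hhL z z'
    have h3 : ‖z - z'‖ = 0 := by have := norm_nonneg (z - z'); linarith
    exact sub_eq_zero.1 (norm_eq_zero.1 h3)
  have hsurj : Function.Surjective Φ := by
    intro y
    have hc : ContractingWith (1 / 4 : NNReal) (fun z => y - h • W z) := by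
      refine ⟨by norm_num, LipschitzWith.of_dist_le_mul fun z z' => ?_⟩
      rw [dist_eq_norm, dist_eq_norm]
      have : y - h • W z - (y - h • W z') = -(h • W z - h • W z') := by ring
      rw [this, norm_neg]
      have h2 := hhL z z'
      push_cast
      exact h2
    refine ⟨ContractingWith.fixedPoint _ hc, ?_⟩
    have h1 : y - h • W (ContractingWith.fixedPoint _ hc) = ContractingWith.fixedPoint _ hc :=
      hc.fixedPoint_isFixedPt
    show ContractingWith.fixedPoint _ hc + h • W (ContractingWith.fixedPoint _ hc) = y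
    linear_combination -h1
  have hequiv : ∀ (g : Submodule.span ℤ (Set.range Complex.basisOneI)) (z : ℂ),
      Φ (g +ᵥ z) = g +ᵥ Φ z := by
    intro g z
    show (g +ᵥ z) + h • w (pr (g +ᵥ z)) = g +ᵥ (z + h • w (pr z))
    rw [l1_es_pr_span]
    simp only [Submodule.vadd_def, vadd_eq_add]
    ring
  have hΦc : Continuous Φ := continuous_id.add (hC1.continuous.const_smul h)
  have hQm : MeasurableSet l1_esQ := ZSpan.fundamentalDomain_measurableSet _
  have hderiv : ∀ z, HasFDerivAt Φ (ContinuousLinearMap.id ℝ ℂ + h • fderiv ℝ W z) z := fun z =>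
    (hasFDerivAt_id z).add ((hWd z).hasFDerivAt.const_smul h)
  have hfd1 : IsAddFundamentalDomain (Submodule.span ℤ (Set.range Complex.basisOneI)) l1_esQ
      (volume : Measure ℂ) := ZSpan.isAddFundamentalDomain _ _
  have hfd2 : IsAddFundamentalDomain (Submodule.span ℤ (Set.range Complex.basisOneI)) (Φ '' l1_esQ)
      (volume : Measure ℂ) := by
    refine IsAddFundamentalDomain.mk' ?_ ?_
    · exact (hQm.image_of_continuousOn_injOn hΦc.continuousOn hinj.injOn).nullMeasurableSet
    · intro x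
      obtain ⟨z, rfl⟩ := hsurj x
      obtain ⟨g, hg, hg'⟩ := ZSpan.exist_unique_vadd_mem_fundamentalDomain Complex.basisOneI z
      refine ⟨g, ?_, ?_⟩
      · show g +ᵥ Φ z ∈ Φ '' l1_esQ
        rw [← hequiv]
        exact Set.mem_image_of_mem _ hg
      · intro g2 hg2
        apply hg'
        have h2 : g2 +ᵥ Φ z ∈ Φ '' l1_esQ := hg2
        rw [← hequiv] at h2
        exact (hinj.mem_set_image).1 h2
  set F : ℂ → ℝ := fun z => f (pr z) with hF
  have hFc : Continuous F := hf.comp l1_es_pr_cont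
  have e1 : ∫ b, f b = ∫ z in l1_esQ, F z := by
    rw [← l1_es_pr_mp.map_eq, integral_map l1_es_pr_cont.measurable.aemeasurable
      hf.aestronglyMeasurable]
  have hinv : VAddInvariantMeasure (Submodule.span ℤ (Set.range Complex.basisOneI)) ℂ
      (volume : Measure ℂ) := ⟨fun g s _ => measure_preimage_add volume (g : ℂ) s⟩
  have e2 : ∫ z in l1_esQ, F z = ∫ z in Φ '' l1_esQ, F z :=
    hfd1.setIntegral_eq hfd2 (fun g x => by
      show f (pr (g +ᵥ x)) = f (pr x)
      rw [l1_es_pr_span])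
  have e3 : ∫ z in Φ '' l1_esQ, F z =
      ∫ z in l1_esQ, |(ContinuousLinearMap.id ℝ ℂ + h • fderiv ℝ W z).det| • F (Φ z) :=
    integral_image_eq_integral_abs_det_fderiv_smul volume hQm
      (fun z _ => (hderiv z).hasFDerivWithinAt) hinj.injOn F
  have e4 : (∫ b, f (b + pr (h * w b))) = ∫ z in l1_esQ, F (Φ z) := by
    have hc : Continuous (fun b : T2 => f (b + pr (h * w b))) :=
      hf.comp (continuous_id.add (l1_es_pr_cont.comp (continuous_const.mul hwc)))
    rw [← l1_es_pr_mp.map_eq, integral_map l1_es_pr_cont.measurable.aemeasurable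
      hc.aestronglyMeasurable]
    refine integral_congr_ae (Filter.Eventually.of_forall fun z => ?_)
    show f (pr z + pr (h * w (pr z))) = f (pr (z + h • w (pr z)))
    rw [l1_es_pr_add, Complex.real_smul]
  set J : ℂ → ℝ := fun z => 1 + h ^ 2 * ((fderiv ℝ W z 1).re * (fderiv ℝ W z I).im -
    (fderiv ℝ W z 1).im * (fderiv ℝ W z I).re) with hJ
  have hfc : Continuous (fun z => fderiv ℝ W z) := hC1.continuous_fderiv (by norm_num)
  have hJc : Continuous J := by
    have h1 : Continuous (fun z => fderiv ℝ W z 1) := hfc.clm_apply continuous_const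
    have h2 : Continuous (fun z => fderiv ℝ W z I) := hfc.clm_apply continuous_const
    exact continuous_const.add (continuous_const.mul
      (((continuous_re.comp h1).mul (continuous_im.comp h2)).sub
        ((continuous_im.comp h1).mul (continuous_re.comp h2))))
  have hJb : ∀ z, |J z - 1| ≤ (h * L) ^ 2 := by
    intro z
    have h1 : J z - 1 = h ^ 2 * ((fderiv ℝ W z 1).re * (fderiv ℝ W z I).im -
      (fderiv ℝ W z 1).im * (fderiv ℝ W z I).re) := by rw [hJ]; ring
    rw [h1, abs_mul, abs_of_nonneg (sq_nonneg h), mul_pow]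
    exact mul_le_mul_of_nonneg_left (l1_es_bound _ L (hL z)) (sq_nonneg h)
  have hhL2 : (h * L) ^ 2 ≤ 1 / 16 := by
    have h1 : |h * L| ≤ 1 / 4 := by rw [abs_mul, abs_of_nonneg hL0]; exact hh
    rw [← sq_abs]
    have := abs_nonneg (h * L)
    nlinarith
  have hJpos : ∀ z, 0 < J z := by
    intro z
    have := (abs_le.1 (hJb z)).1
    linarith
  have e5 : ∫ b, f b = ∫ z in l1_esQ, J z * F (Φ z) := by
    rw [e1, e2, e3]
    refine integral_congr_ae (Filter.Eventually.of_forall fun z => ?_)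
    show |(ContinuousLinearMap.id ℝ ℂ + h • fderiv ℝ W z).det| • F (Φ z) = J z * F (Φ z)
    rw [l1_es_det _ (hdiv z) h, smul_eq_mul]
    congr 1
    exact abs_of_pos (hJpos z)
  have hvol : (volume : Measure ℂ) l1_esQ = 1 := by
    have h1 := l1_es_pr_mp.measure_preimage (s := Set.univ) MeasurableSet.univ.nullMeasurableSet
    rw [Set.preimage_univ, Measure.restrict_apply_univ] at h1
    rw [h1, ← Set.univ_prod_univ, Measure.volume_eq_prod, Measure.prod_prod,
      UnitAddCircle.measure_univ, one_mul]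
  have hfin : (volume : Measure ℂ) l1_esQ < ⊤ := by rw [hvol]; exact ENNReal.one_lt_top
  have hFΦ : Continuous (fun z => F (Φ z)) := hFc.comp hΦc
  have i1 : IntegrableOn (fun z => F (Φ z)) l1_esQ := by
    refine Measure.integrableOn_of_bounded hfin.ne hFΦ.aestronglyMeasurable
      (M := B) (Filter.Eventually.of_forall fun z => ?_)
    rw [Real.norm_eq_abs]
    exact hB _
  have i2 : IntegrableOn (fun z => J z * F (Φ z)) l1_esQ := by
    refine Measure.integrableOn_of_bounded hfin.ne (hJc.mul hFΦ).aestronglyMeasurable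
      (M := 2 * B) (Filter.Eventually.of_forall fun z => ?_)
    rw [Real.norm_eq_abs, abs_mul]
    have h1 : |J z| ≤ 2 := by
      have := abs_le.1 (hJb z)
      rw [abs_le]
      constructor <;> linarith [this.1, this.2]
    exact mul_le_mul h1 (hB _) (abs_nonneg _) (by norm_num)
  rw [e4, e5, ← integral_sub i1 i2]
  have hfinal : ‖∫ z in l1_esQ, (F (Φ z) - J z * F (Φ z))‖ ≤ (B * (h * L) ^ 2) * volume.real l1_esQ := by
    refine norm_setIntegral_le_of_norm_le_const hfin fun z _ => ?_
    have h1 : F (Φ z) - J z * F (Φ z) = -(F (Φ z) * (J z - 1)) := by ring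
    rw [h1, norm_neg, Real.norm_eq_abs, abs_mul]
    exact mul_le_mul (hB _) (hJb z) (abs_nonneg _) hB0
  rw [Real.norm_eq_abs] at hfinal
  have hvr : volume.real l1_esQ = 1 := by simp [Measure.real, hvol]
  rw [hvr, mul_one] at hfinal
  have h0 : 0 ≤ B * (h * L) ^ 2 := by positivity
  linarith

end Pool.Agent.Helper118.Yud
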