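import Pool.Agent.Helper118.Yud.Defs

set_option autoImplicit false

namespace Pool.Agent.Helper118.Yud

open MeasureTheory Complex Set Filter Topology


theorem l2_pr_continuous : Continuous pr := by
  unfold pr
  have h : Continuous (fun x : ℝ => (x : UnitAddCircle)) := AddCircle.continuous_mk' 1
  exact (h.comp Complex.continuous_re).prodMk (h.comp Complex.continuous_im)

theorem euler_conv (v : ℝ → T2 → ℂ) (hc : Continuous (Function.uncurry v)) (L : ℝ) (hL0 : 0 ≤ L)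
    (hL : ∀ t a, ∀ z w : ℂ, ‖v t (a + pr z) - v t (a + pr w)‖ ≤ L * ‖z - w‖)
    (ξ : ℝ → T2 → ℂ) (hξ : Continuous (Function.uncurry ξ)) (h0 : ∀ a, ξ 0 a = 0)
    (hode : ∀ t a, HasDerivAt (fun s => ξ s a) (v t (a + pr (ξ t a))) t) (t : ℝ) :
    ∀ ε > 0, ∃ N0 : ℕ, ∀ N : ℕ, N0 ≤ N → 0 < N → ∀ Z : ℕ → T2 → ℂ, (∀ a, Z 0 a = 0) →
      (∀ n a, Z (n+1) a = Z n a + ((t / N : ℝ) : ℂ) * v (n * (t / N)) (a + pr (Z n a))) →
      ∀ a, ‖Z N a - ξ t a‖ ≤ ε := by
  intro ε hε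
  set g : ℝ × T2 → ℂ := fun p => v p.1 (p.2 + pr (ξ p.1 p.2)) with hg
  have hξ' : Continuous (fun p : ℝ × T2 => ξ p.1 p.2) := hξ
  have gc : Continuous g := by
    have h1 : Continuous (fun p : ℝ × T2 => (p.1, p.2 + pr (ξ p.1 p.2))) :=
      continuous_fst.prodMk (continuous_snd.add (l2_pr_continuous.comp hξ'))
    exact hc.comp h1
  set η : ℝ := ε / (|t| * Real.exp (L * |t|) + 1) with hη
  have hden : 0 < |t| * Real.exp (L * |t|) + 1 := by positivity
  have hη0 : 0 < η := div_pos hε hden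
  have hcomp : IsCompact ((Icc (-|t|) |t|) ×ˢ (univ : Set T2)) := isCompact_Icc.prod isCompact_univ
  have huc := hcomp.uniformContinuousOn_of_continuous gc.continuousOn
  obtain ⟨δ, hδ, huc'⟩ := Metric.uniformContinuousOn_iff.1 huc η hη0
  obtain ⟨N0, hN0⟩ := exists_nat_gt (|t| / δ)
  refine ⟨N0, fun N hN hNpos Z hZ0 hZ a => ?_⟩
  have hNr : (0 : ℝ) < N := by exact_mod_cast hNpos
  set h : ℝ := t / N with hh
  have hNh : (N : ℝ) * h = t := by
    rw [hh]
    field_simp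
  have hNabs : (N : ℝ) * |h| = |t| := by
    rw [← hNh, abs_mul, abs_of_pos hNr]
  have hhδ : |h| < δ := by
    have h1 : |t| / δ < N := hN0.trans_le (by exact_mod_cast hN)
    rw [div_lt_iff₀ hδ, ← hNabs] at h1
    exact lt_of_mul_lt_mul_left h1 hNr.le
  have hmem : ∀ n : ℕ, n ≤ N → (n : ℝ) * h ∈ Icc (-|t|) |t| := by
    intro n hn
    rw [mem_Icc, ← abs_le, abs_mul, Nat.abs_cast, ← hNabs]
    exact mul_le_mul_of_nonneg_right (by exact_mod_cast hn) (abs_nonneg _)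
  have step : ∀ n : ℕ, n + 1 ≤ N →
      ‖ξ (((n + 1 : ℕ) : ℝ) * h) a - ξ ((n : ℝ) * h) a - (h : ℂ) * g ((n : ℝ) * h, a)‖ ≤ |h| * η := by
    intro n hn
    have hd : ∀ x ∈ uIcc ((n : ℝ) * h) (((n + 1 : ℕ) : ℝ) * h),
        HasDerivWithinAt (fun s : ℝ => ξ s a - (s : ℂ) * g ((n : ℝ) * h, a))
          (g (x, a) - g ((n : ℝ) * h, a)) (uIcc ((n : ℝ) * h) (((n + 1 : ℕ) : ℝ) * h)) x := by
      intro x _
      have h1 := hode x a
      have h2 : HasDerivAt (fun s : ℝ => (s : ℂ) * g ((n : ℝ) * h, a))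
          (1 * g ((n : ℝ) * h, a)) x := by
        apply HasDerivAt.mul_const
        exact Complex.ofRealCLM.hasDerivAt
      rw [one_mul] at h2
      exact (h1.sub h2).hasDerivWithinAt
    have hb : ∀ x ∈ uIcc ((n : ℝ) * h) (((n + 1 : ℕ) : ℝ) * h),
        ‖g (x, a) - g ((n : ℝ) * h, a)‖ ≤ η := by
      intro x hx
      have hx1 : x ∈ Icc (-|t|) |t| :=
        uIcc_subset_Icc (hmem n (by omega)) (hmem (n + 1) hn) hx
      have hx2 : |x - (n : ℝ) * h| ≤ |((n + 1 : ℕ) : ℝ) * h - (n : ℝ) * h| :=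
        abs_sub_left_of_mem_uIcc hx
      have e1 : ((n + 1 : ℕ) : ℝ) * h - (n : ℝ) * h = h := by
        push_cast
        ring
      rw [e1] at hx2
      have := huc' (x, a) ⟨hx1, trivial⟩ ((n : ℝ) * h, a) ⟨hmem n (by omega), trivial⟩ (by
        rw [Prod.dist_eq, dist_self, Real.dist_eq]
        exact max_lt (hx2.trans_lt hhδ) hδ)
      rw [dist_eq_norm] at this
      exact this.le
    have key := (convex_uIcc ((n : ℝ) * h)
      (((n + 1 : ℕ) : ℝ) * h)).norm_image_sub_le_of_norm_hasDerivWithin_le hd hb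
      left_mem_uIcc right_mem_uIcc
    have e1 : ((n + 1 : ℕ) : ℝ) * h - (n : ℝ) * h = h := by
      push_cast
      ring
    rw [e1, Real.norm_eq_abs, mul_comm η] at key
    have e2 : ξ (((n + 1 : ℕ) : ℝ) * h) a - ξ ((n : ℝ) * h) a - (h : ℂ) * g ((n : ℝ) * h, a) =
        ξ (((n + 1 : ℕ) : ℝ) * h) a - ((((n + 1 : ℕ) : ℝ) * h : ℝ) : ℂ) * g ((n : ℝ) * h, a) -
        (ξ ((n : ℝ) * h) a - (((n : ℝ) * h : ℝ) : ℂ) * g ((n : ℝ) * h, a)) := by
      push_cast
      ring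
    rw [e2]
    exact key
  have ind : ∀ n : ℕ, n ≤ N → ‖Z n a - ξ ((n : ℝ) * h) a‖ ≤
      n * |h| * η * (1 + |h| * L) ^ n := by
    intro n
    induction n with
    | zero =>
      intro _
      rw [hZ0]
      simp [h0]
    | succ n ih =>
      intro hn
      have h1 := ih (by omega)
      have h2 := step n hn
      have h3 : ‖v ((n : ℝ) * h) (a + pr (Z n a)) - g ((n : ℝ) * h, a)‖ ≤
          L * ‖Z n a - ξ ((n : ℝ) * h) a‖ := hL ((n : ℝ) * h) a (Z n a) (ξ ((n : ℝ) * h) a)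
      have e1 : Z (n + 1) a - ξ (((n + 1 : ℕ) : ℝ) * h) a =
          (Z n a - ξ ((n : ℝ) * h) a) +
          (h : ℂ) * (v ((n : ℝ) * h) (a + pr (Z n a)) - g ((n : ℝ) * h, a)) -
          (ξ (((n + 1 : ℕ) : ℝ) * h) a - ξ ((n : ℝ) * h) a - (h : ℂ) * g ((n : ℝ) * h, a)) := by
        rw [hZ n a]
        ring
      rw [e1]
      have h4 : ‖(h : ℂ) * (v ((n : ℝ) * h) (a + pr (Z n a)) - g ((n : ℝ) * h, a))‖ ≤
          |h| * (L * ‖Z n a - ξ ((n : ℝ) * h) a‖) := by
        rw [norm_mul, Complex.norm_real, Real.norm_eq_abs]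
        exact mul_le_mul_of_nonneg_left h3 (abs_nonneg _)
      have h5 : (1 : ℝ) ≤ (1 + |h| * L) ^ (n + 1) := by
        apply one_le_pow₀
        have : 0 ≤ |h| * L := by positivity
        linarith
      have h6 : 0 ≤ |h| * η := by positivity
      calc ‖(Z n a - ξ ((n : ℝ) * h) a) +
          (h : ℂ) * (v ((n : ℝ) * h) (a + pr (Z n a)) - g ((n : ℝ) * h, a)) -
          (ξ (((n + 1 : ℕ) : ℝ) * h) a - ξ ((n : ℝ) * h) a - (h : ℂ) * g ((n : ℝ) * h, a))‖
          ≤ ‖Z n a - ξ ((n : ℝ) * h) a‖ + |h| * (L * ‖Z n a - ξ ((n : ℝ) * h) a‖) + |h| * η := by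
            refine (norm_sub_le _ _).trans (add_le_add ((norm_add_le _ _).trans ?_) h2)
            exact add_le_add le_rfl h4
        _ = (1 + |h| * L) * ‖Z n a - ξ ((n : ℝ) * h) a‖ + |h| * η := by ring
        _ ≤ (1 + |h| * L) * (n * |h| * η * (1 + |h| * L) ^ n) + |h| * η * (1 + |h| * L) ^ (n + 1) := by
            refine add_le_add (mul_le_mul_of_nonneg_left h1 (by positivity)) ?_
            exact le_mul_of_one_le_right h6 h5
        _ = ((n + 1 : ℕ) : ℝ) * |h| * η * (1 + |h| * L) ^ (n + 1) := by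
            push_cast
            ring
  have hfin := ind N le_rfl
  rw [hNh, hNabs] at hfin
  refine hfin.trans ?_
  have hexp : (1 + |h| * L) ^ N ≤ Real.exp (L * |t|) := by
    have h1 : 1 + |h| * L ≤ Real.exp (|h| * L) := by
      have := Real.add_one_le_exp (|h| * L)
      linarith
    calc (1 + |h| * L) ^ N ≤ Real.exp (|h| * L) ^ N := pow_le_pow_left₀ (by positivity) h1 N
      _ = Real.exp (L * |t|) := by
        rw [← Real.exp_nat_mul, ← hNabs]
        congr 1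
        ring
  calc |t| * η * (1 + |h| * L) ^ N ≤ |t| * η * Real.exp (L * |t|) :=
        mul_le_mul_of_nonneg_left hexp (by positivity)
    _ = η * (|t| * Real.exp (L * |t|)) := by ring
    _ ≤ η * (|t| * Real.exp (L * |t|) + 1) := mul_le_mul_of_nonneg_left (by linarith) hη0.le
    _ = ε := by
      rw [hη]
      exact div_mul_cancel₀ _ hden.ne'

end Pool.Agent.Helper118.Yud
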