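import Pool.Agent.Helper118.Yud.Defs
import Pool.Agent.Helper118.Yud.L1
import Pool.Agent.Helper118.Yud.L2
import Pool.Agent.Helper118.Yud.E4

set_option autoImplicit false

namespace Pool.Agent.Helper118.Yud

open MeasureTheory Complex Set Filter Topology



theorem l3_lv_pr_cont : Continuous pr := by
  unfold pr
  exact ((AddCircle.continuous_mk' (1:ℝ)).comp Complex.continuous_re).prodMk
    ((AddCircle.continuous_mk' (1:ℝ)).comp Complex.continuous_im)

theorem l3_lv_pr_add (z w : ℂ) : pr (z + w) = pr z + pr w := by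
  unfold pr
  rw [Complex.add_re, Complex.add_im, AddCircle.coe_add, AddCircle.coe_add]
  rfl

theorem l3_lv_pr_sub (z w : ℂ) : pr (z - w) = pr z - pr w := by
  rw [eq_sub_iff_add_eq, ← l3_lv_pr_add, sub_add_cancel]

theorem l3_lv_pr_surj (a : T2) : ∃ z : ℂ, pr z = a := by
  obtain ⟨x, hx⟩ := QuotientAddGroup.mk_surjective a.1
  obtain ⟨y, hy⟩ := QuotientAddGroup.mk_surjective a.2
  exact ⟨⟨x, y⟩, Prod.ext hx hy⟩

/-- the Euler scheme -/
noncomputable def l3_lvZ (v : ℝ → T2 → ℂ) (h : ℝ) : ℕ → T2 → ℂ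
  | 0 => fun _ => 0
  | n + 1 => fun a => l3_lvZ v h n a + (h : ℂ) * v (n * h) (a + pr (l3_lvZ v h n a))

theorem l3_lvZ_int (v : ℝ → T2 → ℂ) (hc : Continuous (Function.uncurry v))
    (hC1 : ∀ t, ContDiff ℝ 1 (fun z : ℂ => v t (pr z))) (L : ℝ)
    (hL : ∀ t z, ‖fderiv ℝ (fun z : ℂ => v t (pr z)) z‖ ≤ L)
    (hdiv : ∀ t z, (fderiv ℝ (fun z : ℂ => v t (pr z)) z 1).re +
      (fderiv ℝ (fun z : ℂ => v t (pr z)) z I).im = 0)
    (h : ℝ) (hh : |h| * L ≤ 1/4) (B : ℝ) (n : ℕ) :
    ∀ f : T2 → ℝ, Continuous f → (∀ x, |f x| ≤ B) →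
      |(∫ b, f (mv (l3_lvZ v h n) b)) - ∫ b, f b| ≤ n * (4 * B * (h * L)^2) := by
  induction n with
  | zero =>
    intro f hf hB
    have : ∀ b, mv (l3_lvZ v h 0) b = b := by
      intro b
      show b + pr 0 = b
      have : pr 0 = 0 := by
        have := l3_lv_pr_sub 0 0
        rwa [sub_self, sub_self] at this
      rw [this, add_zero]
    simp_rw [this]
    simp
  | succ n ih =>
    intro f hf hB
    have hstep : ∀ b, mv (l3_lvZ v h (n+1)) b =
        (fun b => b + pr (h * v (n * h) b)) (mv (l3_lvZ v h n) b) := by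
      intro b
      show b + pr (l3_lvZ v h n b + (h : ℂ) * v (n * h) (b + pr (l3_lvZ v h n b))) =
        (b + pr (l3_lvZ v h n b)) + pr (h * v (n * h) (b + pr (l3_lvZ v h n b)))
      rw [l3_lv_pr_add, add_assoc]
    have hvc : Continuous (v (n * h)) := hc.comp (Continuous.prodMk_right (n * h))
    have hE : Continuous (fun b : T2 => b + pr (h * v (n * h) b)) :=
      continuous_id.add (l3_lv_pr_cont.comp (continuous_const.mul hvc))
    have h1 := ih (fun b => f (b + pr (h * v (n * h) b))) (hf.comp hE) (fun x => hB _)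
    have h2 := euler_step (v (n * h)) (hC1 _) L (hL _) (hdiv _) h hh f hf B hB
    have h3 : (∫ b, f (mv (l3_lvZ v h (n+1)) b)) =
        ∫ b, (fun b => f (b + pr (h * v (n * h) b))) (mv (l3_lvZ v h n) b) := by
      simp_rw [hstep]
    rw [h3]
    push_cast
    calc _ ≤ |(∫ b, (fun b => f (b + pr (h * v (n * h) b))) (mv (l3_lvZ v h n) b)) -
          ∫ b, f (b + pr (h * v (n * h) b))| + |(∫ b, f (b + pr (h * v (n * h) b))) - ∫ b, f b| :=
          abs_sub_le _ _ _
      _ ≤ n * (4 * B * (h * L)^2) + 4 * B * (h * L)^2 := add_le_add h1 h2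
      _ = _ := by ring



theorem liouville (v : ℝ → T2 → ℂ) (hc : Continuous (Function.uncurry v))
    (hC1 : ∀ t, ContDiff ℝ 1 (fun z : ℂ => v t (pr z))) (L : ℝ)
    (hL : ∀ t z, ‖fderiv ℝ (fun z : ℂ => v t (pr z)) z‖ ≤ L)
    (hdiv : ∀ t z, (fderiv ℝ (fun z : ℂ => v t (pr z)) z 1).re +
      (fderiv ℝ (fun z : ℂ => v t (pr z)) z I).im = 0)
    (ξ : ℝ → T2 → ℂ) (hξ : Continuous (Function.uncurry ξ)) (h0 : ∀ a, ξ 0 a = 0)
    (hode : ∀ t a, HasDerivAt (fun s => ξ s a) (v t (a + pr (ξ t a))) t) (t : ℝ) :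
    MeasurePreserving (mv (ξ t)) volume volume := by
  have hL0 : 0 ≤ L := (norm_nonneg _).trans (hL 0 0)
  have hlip : ∀ t a, ∀ z w : ℂ, ‖v t (a + pr z) - v t (a + pr w)‖ ≤ L * ‖z - w‖ := by
    intro t a z w
    obtain ⟨x, rfl⟩ := l3_lv_pr_surj a
    rw [← l3_lv_pr_add, ← l3_lv_pr_add]
    have h := Convex.norm_image_sub_le_of_norm_fderiv_le (𝕜 := ℝ) (s := Set.univ)
      (f := fun z : ℂ => v t (pr z)) (C := L) (x := x + w) (y := x + z)
      (fun z _ => (hC1 t).differentiable (by norm_num) z) (fun z _ => hL t z) convex_univ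
      (Set.mem_univ _) (Set.mem_univ _)
    simpa using h
  have hξt : Continuous (ξ t) := hξ.comp (Continuous.prodMk_right t)
  have hmv : Continuous (mv (ξ t)) := continuous_id.add (l3_lv_pr_cont.comp hξt)
  refine ⟨hmv.measurable, ?_⟩
  have : IsProbabilityMeasure (volume : Measure UnitAddCircle) := ⟨UnitAddCircle.measure_univ⟩
  have : IsProbabilityMeasure (volume : Measure T2) := by
    show IsProbabilityMeasure ((volume : Measure UnitAddCircle).prod (volume : Measure UnitAddCircle))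
    infer_instance
  have : IsFiniteMeasure (Measure.map (mv (ξ t)) (volume : Measure T2)) := by infer_instance
  apply ext_of_forall_integral_eq_of_IsFiniteMeasure
  intro f
  rw [integral_map hmv.measurable.aemeasurable f.continuous.aestronglyMeasurable]
  have hB : ∀ x, |f x| ≤ ‖f‖ := fun x => f.norm_coe_le_norm x
  have hB0 : 0 ≤ ‖f‖ := norm_nonneg _
  have huc : UniformContinuous f := CompactSpace.uniformContinuous_of_continuous f.continuous
  rw [← sub_eq_zero]
  rw [← abs_nonpos_iff]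
  apply le_of_forall_pos_le_add
  intro ε hε
  rw [zero_add]
  obtain ⟨δ, hδ, hδf⟩ := Metric.uniformContinuous_iff.1 huc (ε / 2) (by positivity)
  obtain ⟨N0, hN0⟩ := euler_conv v hc L hL0 hlip ξ hξ h0 hode t (δ / 2) (by positivity)
  obtain ⟨N1, hN1⟩ := exists_nat_gt (|t| * L * 4)
  obtain ⟨N2, hN2⟩ := exists_nat_gt (4 * ‖f‖ * (t * L) ^ 2 / (ε / 2))
  let N : ℕ := N0 + N1 + N2 + 1
  have hN : 0 < N := Nat.succ_pos _
  have hNr : (0 : ℝ) < (N : ℝ) := by exact_mod_cast hN
  have hNN1 : (N1 : ℝ) ≤ N := by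
    have : N1 ≤ N := by omega
    exact_mod_cast this
  have hNN2 : (N2 : ℝ) ≤ N := by
    have : N2 ≤ N := by omega
    exact_mod_cast this
  have hZ := hN0 N (by omega) hN (l3_lvZ v (t / N)) (fun _ => rfl) (fun n a => rfl)
  have hh : |t / N| * L ≤ 1 / 4 := by
    rw [abs_div, Nat.abs_cast, div_mul_eq_mul_div, div_le_div_iff₀ hNr (by norm_num)]
    linarith
  have h1 := l3_lvZ_int v hc hC1 L hL hdiv (t / N) hh ‖f‖ N f f.continuous hB
  have h1' : (N : ℝ) * (4 * ‖f‖ * (t / N * L) ^ 2) ≤ ε / 2 := by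
    have e : (N : ℝ) * (4 * ‖f‖ * (t / N * L) ^ 2) = 4 * ‖f‖ * (t * L) ^ 2 / N := by
      field_simp
    rw [e, div_le_iff₀ hNr]
    have := (div_lt_iff₀ (by positivity : (0:ℝ) < ε / 2)).1 hN2
    nlinarith
  have hcZ : ∀ n, Continuous (l3_lvZ v (t / N) n) := by
    intro n
    induction n with
    | zero => exact continuous_const
    | succ n ih =>
      have hvc : Continuous (v (n * (t / N))) := hc.comp (Continuous.prodMk_right _)
      exact ih.add (continuous_const.mul (hvc.comp (continuous_id.add (l3_lv_pr_cont.comp ih))))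
  have h2 : |(∫ b, f (mv (ξ t) b)) - ∫ b, f (mv (l3_lvZ v (t / N) N) b)| ≤ ε / 2 := by
    have i1 : Integrable (fun b => f (mv (ξ t) b)) := by
      refine Integrable.of_bound ((f.continuous.comp hmv).aestronglyMeasurable) ‖f‖ ?_
      exact Filter.Eventually.of_forall fun b => hB _
    have i2 : Integrable (fun b => f (mv (l3_lvZ v (t / N) N) b)) := by
      refine Integrable.of_bound ((f.continuous.comp
        (continuous_id.add (l3_lv_pr_cont.comp (hcZ N)))).aestronglyMeasurable) ‖f‖ ?_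
      exact Filter.Eventually.of_forall fun b => hB _
    rw [← integral_sub i1 i2]
    have h3 : ∀ b : T2, ‖f (mv (ξ t) b) - f (mv (l3_lvZ v (t / N) N) b)‖ ≤ ε / 2 := by
      intro b
      rw [← dist_eq_norm]
      apply le_of_lt
      apply hδf
      show dist (b + pr (ξ t b)) (b + pr (l3_lvZ v (t / N) N b)) < δ
      rw [dist_add_left, dist_eq_norm, ← l3_lv_pr_sub]
      refine lt_of_le_of_lt (norm_pr_le _) ?_
      rw [norm_sub_rev]
      exact lt_of_le_of_lt (hZ b) (by linarith)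
    have := norm_integral_le_of_norm_le_const (μ := (volume : Measure T2))
      (Filter.Eventually.of_forall h3)
    simpa using this
  calc |(∫ b, f (mv (ξ t) b)) - ∫ b, f b|
      ≤ |(∫ b, f (mv (ξ t) b)) - ∫ b, f (mv (l3_lvZ v (t / N) N) b)| +
        |(∫ b, f (mv (l3_lvZ v (t / N) N) b)) - ∫ b, f b| := abs_sub_le _ _ _
    _ ≤ ε / 2 + ε / 2 := add_le_add h2 (h1.trans h1')
    _ = ε := by ring

end Pool.Agent.Helper118.Yud
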