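import Pool.Agent.Helper118.Yud.Defs
import Pool.Agent.Helper118.Yud.G3
import Pool.Agent.Helper118.Yud.L3

set_option autoImplicit false

namespace Pool.Agent.Helper118.Yud

open MeasureTheory Complex Set Filter Topology



theorem x1_j9964_pr_add (z w : ℂ) : pr (z + w) = pr z + pr w := by
  unfold pr
  rw [Complex.add_re, Complex.add_im, AddCircle.coe_add, AddCircle.coe_add]
  rfl

theorem x1_j9964_pr_zero : pr 0 = 0 := by
  unfold pr
  rw [Complex.zero_re, Complex.zero_im]
  rfl

theorem x1_j9964_pr_sub (z w : ℂ) : pr (z - w) = pr z - pr w := by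
  have h := x1_j9964_pr_add (z - w) w
  rw [sub_add_cancel] at h
  rw [h, add_sub_cancel_right]

theorem x1_j9964_quot : IsOpenQuotientMap pr := by
  have h1 : IsOpenQuotientMap (fun x : ℝ => (x : UnitAddCircle)) :=
    QuotientAddGroup.isOpenQuotientMap_mk
  have h2 := h1.prodMap h1
  exact h2.comp Complex.equivRealProdCLM.toHomeomorph.isOpenQuotientMap

theorem x1_j9964_pr_cont : Continuous pr := x1_j9964_quot.continuous

theorem x1_j9964_int {G : Type*} [NormedAddCommGroup G] [NormedSpace ℝ G] (h : T2 → G)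
    (hh : Continuous h) (B : ℝ) (hB : ∀ b, ‖h b‖ ≤ B) (ω : T2 → ℝ) (hω : Measurable ω) (M : ℝ)
    (hM : ∀ x, |ω x| ≤ M) :
    AEStronglyMeasurable (fun b => ω b • h b) volume ∧ (∀ b, ‖ω b • h b‖ ≤ M * B) ∧
      Integrable (fun b => ω b • h b) volume := by
  have h1 : AEStronglyMeasurable (fun b => ω b • h b) volume :=
    hω.aestronglyMeasurable.smul hh.aestronglyMeasurable
  have hM0 : 0 ≤ M := (abs_nonneg _).trans (hM 0)
  have h2 : ∀ b, ‖ω b • h b‖ ≤ M * B := by
    intro b
    rw [norm_smul, Real.norm_eq_abs]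
    exact mul_le_mul (hM b) (hB b) (norm_nonneg _) hM0
  exact ⟨h1, h2, Integrable.of_bound h1 (M * B) (Filter.Eventually.of_forall h2)⟩

theorem x1_j9964_cont {X G : Type*} [TopologicalSpace X] [FirstCountableTopology X]
    [NormedAddCommGroup G] [NormedSpace ℝ G] (H : X → T2 → G)
    (hH : Continuous (Function.uncurry H)) (B : ℝ) (hB : ∀ x b, ‖H x b‖ ≤ B) (ω : T2 → ℝ)
    (hω : Measurable ω) (M : ℝ) (hM : ∀ x, |ω x| ≤ M) :
    Continuous fun x => ∫ b, ω b • H x b := by
  have hx : ∀ x, Continuous (H x) := fun x => hH.comp (Continuous.prodMk_right x)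
  refine continuous_of_dominated (bound := fun _ => M * B) (fun x => ?_) (fun x => ?_)
    (integrable_const _) ?_
  · exact (x1_j9964_int (H x) (hx x) B (hB x) ω hω M hM).1
  · exact Filter.Eventually.of_forall (x1_j9964_int (H x) (hx x) B (hB x) ω hω M hM).2.1
  · refine Filter.Eventually.of_forall fun b => ?_
    exact (hH.comp (Continuous.prodMk_left b)).const_smul (ω b)

theorem x1_j9964_k (k : T2 → ℂ) (hC1 : ContDiff ℝ 1 (fun z : ℂ => k (pr z))) :
    ∃ Dk : T2 → (ℂ →L[ℝ] ℂ), Continuous Dk ∧ (∀ z, Dk (pr z) = fderiv ℝ (fun z : ℂ => k (pr z)) z) ∧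
      (∀ (c : T2) (z : ℂ), HasFDerivAt (fun z : ℂ => k (pr z - c)) (Dk (pr z - c)) z) := by
  set g : ℂ → ℂ := fun z => k (pr z) with hg
  have hper : ∀ z w : ℂ, pr z = pr w → fderiv ℝ g z = fderiv ℝ g w := by
    intro z w hzw
    have h0 : pr (z - w) = 0 := by rw [x1_j9964_pr_sub, hzw, sub_self]
    have h1 : (fun y => g (y + (z - w))) = g := by
      funext y
      show k (pr (y + (z - w))) = k (pr y)
      rw [x1_j9964_pr_add, h0, add_zero]
    have h2 := fderiv_comp_add_right (𝕜 := ℝ) (f := g) (x := w) (z - w)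
    rw [h1] at h2
    rw [h2, add_sub_cancel]
  have hsurj : Function.Surjective pr := x1_j9964_quot.surjective
  have hDpr : ∀ z, (fun x => fderiv ℝ g (Function.surjInv hsurj x)) (pr z) = fderiv ℝ g z := by
    intro z
    exact hper _ _ (Function.surjInv_eq hsurj (pr z))
  refine ⟨fun x => fderiv ℝ g (Function.surjInv hsurj x), ?_, hDpr, ?_⟩
  · rw [x1_j9964_quot.isQuotientMap.continuous_iff]
    have h1 : (fun x => fderiv ℝ g (Function.surjInv hsurj x)) ∘ pr = fderiv ℝ g := funext hDpr
    rw [h1]
    exact hC1.continuous_fderiv (by norm_num)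
  · intro c z
    obtain ⟨c0, rfl⟩ := hsurj c
    have h1 : (fun z : ℂ => k (pr z - pr c0)) = fun z => g (z - c0) := by
      funext y
      show _ = k (pr (y - c0))
      rw [x1_j9964_pr_sub]
    have h2 : pr z - pr c0 = pr (z - c0) := (x1_j9964_pr_sub z c0).symm
    rw [h1, h2, hDpr]
    have h3 : HasFDerivAt g (fderiv ℝ g (z - c0)) (z - c0) :=
      (hC1.differentiable (by norm_num) (z - c0)).hasFDerivAt
    have h4 : HasFDerivAt (fun y : ℂ => y - c0) (ContinuousLinearMap.id ℝ ℂ) z :=
      (hasFDerivAt_id z).sub_const c0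
    have h5 := HasFDerivAt.comp z h3 h4
    rw [ContinuousLinearMap.comp_id] at h5
    exact h5



theorem exists_lagr_reg (k : T2 → ℂ) (hC1 : ContDiff ℝ 1 (fun z : ℂ => k (pr z)))
    (hdiv : ∀ z : ℂ, (fderiv ℝ (fun z : ℂ => k (pr z)) z 1).re +
      (fderiv ℝ (fun z : ℂ => k (pr z)) z I).im = 0)
    (ω : T2 → ℝ) (hω : Measurable ω) (M : ℝ) (hM : ∀ x, |ω x| ≤ M) :
    ∃ ξ : ℝ → T2 → ℂ, Lagr k ω ξ := by
  have hM0 : 0 ≤ M := (abs_nonneg _).trans (hM 0)
  obtain ⟨Dk, hDc, hDpr, hDk⟩ := x1_j9964_k k hC1
  have hsurj : Function.Surjective pr := x1_j9964_quot.surjective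
  have hkc : Continuous k := by
    rw [x1_j9964_quot.isQuotientMap.continuous_iff]
    exact hC1.continuous
  obtain ⟨B, hB⟩ : ∃ B, ∀ x, ‖k x‖ ≤ B := by
    obtain ⟨B, hB⟩ := isCompact_univ.exists_bound_of_continuousOn hkc.continuousOn
    exact ⟨B, fun x => hB x (mem_univ x)⟩
  obtain ⟨L, hL⟩ : ∃ L, ∀ x, ‖Dk x‖ ≤ L := by
    obtain ⟨B, hB⟩ := isCompact_univ.exists_bound_of_continuousOn hDc.continuousOn
    exact ⟨B, fun x => hB x (mem_univ x)⟩
  have hL0 : 0 ≤ L := (norm_nonneg _).trans (hL 0)
  -- Lipschitz property of `k`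
  have hlip : ∀ (c : T2) (z w : ℂ), ‖k (pr z - c) - k (pr w - c)‖ ≤ L * ‖z - w‖ := by
    intro c z w
    exact Convex.norm_image_sub_le_of_norm_hasFDerivWithin_le (f := fun z : ℂ => k (pr z - c))
      (fun x _ => (hDk c x).hasFDerivWithinAt) (fun x _ => hL _) convex_univ (mem_univ w)
      (mem_univ z)
  have hlip' : ∀ (c : T2) (z w : ℂ), ‖k (c + pr z) - k (c + pr w)‖ ≤ L * ‖z - w‖ := by
    intro c z w
    have h := hlip (-c) z w
    rwa [sub_neg_eq_add, sub_neg_eq_add, add_comm (pr z), add_comm (pr w)] at h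
  -- velocity as a scalar multiple
  have hvel : ∀ (η : T2 → ℂ) (x : T2), vel k ω η x = ∫ b, ω b • k (x - mv η b) := by
    intro η x
    unfold vel
    refine integral_congr_ae (Filter.Eventually.of_forall fun b => ?_)
    exact (Complex.real_smul).symm
  have hmv : ∀ η : T2 → ℂ, Continuous η → Continuous (mv η) := fun η hη =>
    continuous_id.add (x1_j9964_pr_cont.comp hη)
  -- the vector field on the Banach space
  have hFc : ∀ η : C(T2, ℂ), Continuous fun a => vel k ω η (mv η a) := by
    intro η
    have h1 : (fun a => vel k ω η (mv η a)) = fun a => ∫ b, ω b • k (mv η a - mv η b) :=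
      funext fun a => hvel η _
    rw [h1]
    refine x1_j9964_cont (fun a b => k (mv η a - mv η b)) ?_ B (fun a b => hB _) ω hω M hM
    have h2 := hmv η η.continuous
    exact hkc.comp ((h2.comp continuous_fst).sub (h2.comp continuous_snd))
  let F : C(T2, ℂ) → C(T2, ℂ) := fun η => ⟨fun a => vel k ω η (mv η a), hFc η⟩
  set V : ℝ := (volume : Measure T2).real univ with hV
  have hV0 : 0 ≤ V := measureReal_nonneg
  have hFlip : LipschitzWith (Real.toNNReal (M * (2 * L) * V)) F := by
    refine LipschitzWith.of_dist_le_mul fun η η' => ?_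
    rw [Real.coe_toNNReal _ (by positivity), ContinuousMap.dist_le (by positivity)]
    intro a
    show dist (vel k ω η (mv η a)) (vel k ω η' (mv η' a)) ≤ _
    rw [hvel, hvel, dist_eq_norm]
    have hc1 : Continuous fun b => k (mv η a - mv η b) :=
      hkc.comp (continuous_const.sub (hmv η η.continuous))
    have hc2 : Continuous fun b => k (mv η' a - mv η' b) :=
      hkc.comp (continuous_const.sub (hmv η' η'.continuous))
    rw [← integral_sub (x1_j9964_int _ hc1 B (fun _ => hB _) ω hω M hM).2.2
      (x1_j9964_int _ hc2 B (fun _ => hB _) ω hω M hM).2.2]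
    have hb : ∀ b, ‖ω b • k (mv η a - mv η b) - ω b • k (mv η' a - mv η' b)‖ ≤
        M * (2 * L) * dist η η' := by
      intro b
      rw [← smul_sub, norm_smul, Real.norm_eq_abs]
      have e1 : mv η a - mv η b = (a - b) + pr (η a - η b) := by
        rw [mv, mv, x1_j9964_pr_sub]
        abel
      have e2 : mv η' a - mv η' b = (a - b) + pr (η' a - η' b) := by
        rw [mv, mv, x1_j9964_pr_sub]
        abel
      have e3 : ‖k (mv η a - mv η b) - k (mv η' a - mv η' b)‖ ≤ 2 * L * dist η η' := by
        rw [e1, e2]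
        refine (hlip' _ _ _).trans ?_
        have e4 : ‖(η a - η b) - (η' a - η' b)‖ ≤ 2 * dist η η' := by
          have e5 : (η a - η b) - (η' a - η' b) = (η a - η' a) - (η b - η' b) := by ring
          rw [e5]
          refine (norm_sub_le _ _).trans ?_
          have e6 := ContinuousMap.dist_apply_le_dist (f := η) (g := η') a
          have e7 := ContinuousMap.dist_apply_le_dist (f := η) (g := η') b
          rw [dist_eq_norm] at e6 e7
          linarith
        calc L * ‖(η a - η b) - (η' a - η' b)‖ ≤ L * (2 * dist η η') :=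
              mul_le_mul_of_nonneg_left e4 hL0
          _ = 2 * L * dist η η' := by ring
      calc |ω b| * ‖k (mv η a - mv η b) - k (mv η' a - mv η' b)‖ ≤ M * (2 * L * dist η η') :=
            mul_le_mul (hM b) e3 (norm_nonneg _) hM0
        _ = M * (2 * L) * dist η η' := by ring
    refine (norm_integral_le_of_norm_le_const (Filter.Eventually.of_forall hb)).trans
      (le_of_eq ?_)
    rw [← hV]
    ring
  -- global solution
  obtain ⟨η, hη0, hη⟩ := global_ode (fun _ => F) (Real.toNNReal (M * (2 * L) * V))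
    (fun _ => hFlip) (hFlip.continuous.comp continuous_snd) 0
  have hηc : Continuous η := continuous_iff_continuousAt.2 fun t => (hη t).continuousAt
  have hξc : Continuous (Function.uncurry fun t a => η t a) := by
    have : Continuous fun p : ℝ × T2 => (η p.1) p.2 :=
      (hηc.comp continuous_fst).eval continuous_snd
    exact this
  have hpt : ∀ t a, HasDerivAt (fun s => η s a) (vel k ω (η t) (mv (η t) a)) t := by
    intro t a
    exact (ContinuousMap.evalCLM ℝ a).hasFDerivAt.comp_hasDerivAt t (hη t)
  have h0 : ∀ a, η 0 a = 0 := by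
    intro a
    rw [hη0]
    rfl
  refine ⟨fun t a => η t a, hξc, ?_, ?_⟩
  · intro t
    refine liouville (fun t x => vel k ω (η t) x) ?_ ?_ (M * L * V) ?_ ?_ (fun t a => η t a)
      hξc h0 (fun t a => hpt t a) t
    · have h1 : (Function.uncurry fun (t : ℝ) (x : T2) => vel k ω (η t) x) =
          fun p : ℝ × T2 => ∫ b, ω b • k (p.2 - mv (η p.1) b) := by
        funext p
        exact hvel (η p.1) p.2
      rw [h1]
      refine x1_j9964_cont (fun (p : ℝ × T2) b => k (p.2 - mv (η p.1) b)) ?_ B (fun a b => hB _)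
        ω hω M hM
      have h2 : Continuous fun q : (ℝ × T2) × T2 => mv (η q.1.1) q.2 := by
        have h3 : Continuous fun q : (ℝ × T2) × T2 => (η q.1.1) q.2 :=
          (hηc.comp (continuous_fst.comp continuous_fst)).eval continuous_snd
        exact continuous_snd.add (x1_j9964_pr_cont.comp h3)
      exact hkc.comp ((continuous_snd.comp continuous_fst).sub h2)
    all_goals
      have hder : ∀ (t : ℝ) (z : ℂ), HasFDerivAt (fun z : ℂ => vel k ω (η t) (pr z))
          (∫ b, ω b • Dk (pr z - mv (η t) b)) z := by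
        intro t z
        have h1 : (fun z : ℂ => vel k ω (η t) (pr z)) =
            fun z => ∫ b, ω b • k (pr z - mv (η t) b) := funext fun z => hvel _ _
        rw [h1]
        have hm := hmv (η t) (η t).continuous
        have hck : ∀ z, Continuous fun b => k (pr z - mv (η t) b) := fun z =>
          hkc.comp (continuous_const.sub hm)
        have hcD : ∀ z, Continuous fun b => Dk (pr z - mv (η t) b) := fun z =>
          hDc.comp (continuous_const.sub hm)
        refine hasFDerivAt_integral_of_dominated_of_fderiv_le (𝕜 := ℝ) (s := univ)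
          (F := fun z b => ω b • k (pr z - mv (η t) b))
          (F' := fun z b => ω b • Dk (pr z - mv (η t) b)) (bound := fun _ => M * L)
          Filter.univ_mem
          (Filter.Eventually.of_forall fun z =>
            (x1_j9964_int _ (hck z) B (fun _ => hB _) ω hω M hM).1)
          (x1_j9964_int _ (hck z) B (fun _ => hB _) ω hω M hM).2.2
          (x1_j9964_int _ (hcD z) L (fun _ => hL _) ω hω M hM).1
          (Filter.Eventually.of_forall fun b z _ =>
            (x1_j9964_int _ (hcD z) L (fun _ => hL _) ω hω M hM).2.1 b)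
          (integrable_const _) ?_
        refine Filter.Eventually.of_forall fun b z _ => ?_
        exact (hDk (mv (η t) b) z).const_smul (ω b)
    · intro t
      rw [contDiff_one_iff_fderiv]
      refine ⟨fun z => (hder t z).differentiableAt, ?_⟩
      have h1 : fderiv ℝ (fun z : ℂ => vel k ω (η t) (pr z)) =
          fun z => ∫ b, ω b • Dk (pr z - mv (η t) b) := funext fun z => (hder t z).fderiv
      rw [h1]
      refine x1_j9964_cont (fun (z : ℂ) b => Dk (pr z - mv (η t) b)) ?_ L (fun a b => hL _)
        ω hω M hM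
      exact hDc.comp ((x1_j9964_pr_cont.comp continuous_fst).sub
        ((hmv (η t) (η t).continuous).comp continuous_snd))
    · intro t z
      rw [(hder t z).fderiv]
      have hcD : Continuous fun b => Dk (pr z - mv (η t) b) :=
        hDc.comp (continuous_const.sub (hmv (η t) (η t).continuous))
      exact norm_integral_le_of_norm_le_const (Filter.Eventually.of_forall
        (x1_j9964_int _ hcD L (fun _ => hL _) ω hω M hM).2.1)
    · intro t z
      rw [(hder t z).fderiv]
      have hcD : Continuous fun b => Dk (pr z - mv (η t) b) :=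
        hDc.comp (continuous_const.sub (hmv (η t) (η t).continuous))
      have hint := (x1_j9964_int _ hcD L (fun _ => hL _) ω hω M hM).2.2
      let T : (ℂ →L[ℝ] ℂ) →L[ℝ] ℝ :=
        Complex.reCLM.comp (ContinuousLinearMap.apply ℝ ℂ (1 : ℂ)) +
        Complex.imCLM.comp (ContinuousLinearMap.apply ℝ ℂ I)
      have hT : ∀ A : ℂ →L[ℝ] ℂ, T A = (A 1).re + (A I).im := fun A => rfl
      have hT0 : ∀ x, T (Dk x) = 0 := by
        intro x
        obtain ⟨z, rfl⟩ := hsurj x
        rw [hT, hDpr]
        exact hdiv z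
      rw [← hT, ← ContinuousLinearMap.integral_comp_comm T hint]
      have h1 : (fun b => T (ω b • Dk (pr z - mv (η t) b))) = fun _ => 0 := by
        funext b
        rw [map_smul, hT0, smul_zero]
      rw [h1, integral_zero]
  · intro t a
    have h1 : Continuous fun s => vel k ω (η s) (mv (η s) a) := by
      have h2 : Continuous fun s => (F (η s)) a :=
        (hFlip.continuous.comp hηc).eval continuous_const
      exact h2
    have h2 := intervalIntegral.integral_eq_sub_of_hasDerivAt (a := 0) (b := t)
      (f := fun s => η s a) (fun s _ => hpt s a) (h1.intervalIntegrable 0 t)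
    show η t a = ∫ s in (0:ℝ)..t, vel k ω (η s) (mv (η s) a)
    rw [h2, h0, sub_zero]

end Pool.Agent.Helper118.Yud
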