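import Pool.Agent.Helper118.Yud.Defs
import Pool.Agent.Helper118.Yud.E5

set_option autoImplicit false

namespace Pool.Agent.Helper118.Yud

open MeasureTheory Complex Set Filter Topology



theorem x2_job_sub_left (x : T2) : MeasurePreserving (fun y : T2 => x - y) volume volume := by
  have h := (Measure.measurePreserving_sub_left (volume : Measure UnitAddCircle) x.1).prod
    (Measure.measurePreserving_sub_left (volume : Measure UnitAddCircle) x.2)
  exact h

theorem x2_job_mp_integral {E : Type*} [NormedAddCommGroup E] [NormedSpace ℝ E]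
    {f : T2 → T2} (hf : MeasurePreserving f volume volume) {g : T2 → E}
    (hg : AEStronglyMeasurable g volume) : ∫ x, g (f x) = ∫ x, g x := by
  have h := integral_map (μ := (volume : Measure T2)) hf.measurable.aemeasurable (f := g)
    (by rw [hf.map_eq]; exact hg)
  rw [hf.map_eq] at h
  exact h.symm

theorem x2_job_pr_cont : Continuous pr := by
  unfold pr
  exact ((AddCircle.continuous_mk' 1).comp Complex.continuous_re).prodMk
    ((AddCircle.continuous_mk' 1).comp Complex.continuous_im)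

theorem x2_job_pr_sub (z w : ℂ) : pr z - pr w = pr (z - w) := by
  unfold pr
  rw [Prod.mk_sub_mk, Complex.sub_re, Complex.sub_im]
  rfl

theorem x2_job_mv_cont {ξ : T2 → ℂ} (h : Continuous ξ) : Continuous (mv ξ) :=
  continuous_id.add (x2_job_pr_cont.comp h)

theorem x2_job_comp {F : ℝ → T2 → ℂ} {m : ℝ → T2} {T t : ℝ}
    (h1 : ContinuousOn (fun p : ℝ × T2 => F p.1 p.2) (Icc (-T) T ×ˢ univ))
    (hm : Continuous m) (ht : |t| ≤ T) :
    IntervalIntegrable (fun s : ℝ => F s (m s)) volume 0 t := by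
  have h3 : ContinuousOn (fun s : ℝ => (s, m s)) (Icc (-T) T) :=
    (continuous_id.prodMk hm).continuousOn
  have h2 : ContinuousOn (fun s : ℝ => F s (m s)) (Icc (-T) T) :=
    ContinuousOn.comp (g := fun p : ℝ × T2 => F p.1 p.2) (f := fun s : ℝ => (s, m s)) h1 h3
      (fun s hs => ⟨hs, mem_univ _⟩)
  refine (h2.mono ?_).intervalIntegrable
  intro s hs
  rcases le_total 0 t with h0 | h0
  · rw [uIcc_of_le h0] at hs
    rw [abs_of_nonneg h0] at ht
    exact ⟨by linarith [hs.1], by linarith [hs.2]⟩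
  · rw [uIcc_of_ge h0] at hs
    rw [abs_of_nonpos h0] at ht
    exact ⟨by linarith [hs.1], by linarith [hs.2]⟩



theorem reg_approx {K : T2 → ℂ} {C : ℝ} (hK : IsBS K C) (k : T2 → ℂ) (hk : Continuous k) (κ : ℝ)
    (hκ : ∫ x, ‖K x - k x‖ ≤ κ) (ω : T2 → ℝ) (hω : Measurable ω) (M : ℝ) (hM : ∀ x, |ω x| ≤ M)
    (ξ : ℝ → T2 → ℂ) (h : Lagr k ω ξ) (T : ℝ) (hT : 0 ≤ T) : ALagr K T (T * M * κ) ω ξ := by
  have hM0 : 0 ≤ M := (abs_nonneg _).trans (hM 0)
  have hκ0 : 0 ≤ κ := (integral_nonneg (fun x => norm_nonneg _)).trans hκ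
  refine ⟨h.cont, fun t _ => h.mp t, ?_⟩
  intro t ht a
  have hξc : ∀ b : T2, Continuous (fun s : ℝ => ξ s b) := fun b =>
    h.cont.comp (Continuous.prodMk_left b)
  have hξs : ∀ s : ℝ, Continuous (ξ s) := fun s => h.cont.comp (Continuous.prodMk_right s)
  have hmvc : ∀ b : T2, Continuous (fun s : ℝ => mv (ξ s) b) := fun b => by
    unfold mv
    exact continuous_const.add (x2_job_pr_cont.comp (hξc b))
  -- vel k continuous in time
  obtain ⟨B, hB⟩ : ∃ B : ℝ, ∀ x, ‖k x‖ ≤ B := by
    obtain ⟨B, hB⟩ := isCompact_univ.exists_bound_of_continuousOn hk.continuousOn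
    exact ⟨B, fun x => hB x (mem_univ _)⟩
  have hvk : Continuous (fun s : ℝ => vel k ω (ξ s) (mv (ξ s) a)) := by
    unfold vel
    refine continuous_of_dominated (bound := fun _ => M * B) ?_ ?_ (integrable_const _) ?_
    · intro s
      refine AEStronglyMeasurable.mul ?_ ?_
      · exact (Complex.measurable_ofReal.comp hω).aestronglyMeasurable
      · exact (hk.comp (continuous_const.sub (x2_job_mv_cont (hξs s)))).aestronglyMeasurable
    · intro s
      refine Filter.Eventually.of_forall fun b => ?_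
      rw [norm_mul]
      refine mul_le_mul ?_ (hB _) (norm_nonneg _) hM0
      rw [Complex.norm_real]; exact hM b
    · refine Filter.Eventually.of_forall fun b => ?_
      exact continuous_const.mul (hk.comp ((hmvc a).sub (hmvc b)))
  have hvK : IntervalIntegrable (fun s : ℝ => vel K ω (ξ s) (mv (ξ s) a)) volume 0 t := by
    have h1 := vel_continuousOn hK ω hω M hM T ξ h.cont (fun t _ => h.mp t)
    exact x2_job_comp (F := fun s x => vel K ω (ξ s) x) (m := fun s => mv (ξ s) a) h1 (hmvc a) ht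
  rw [h.eq t a, ← intervalIntegral.integral_sub (hvk.intervalIntegrable _ _) hvK]
  have hkint : Integrable k volume := hk.integrable_of_hasCompactSupport (HasCompactSupport.of_compactSpace _)
  have hKint := hK.integrable
  have hbound : ∀ s ∈ uIoc 0 t, ‖vel k ω (ξ s) (mv (ξ s) a) - vel K ω (ξ s) (mv (ξ s) a)‖ ≤ M * κ := by
    intro s _
    set x := mv (ξ s) a with hx
    have hmp : MeasurePreserving (fun b => x - mv (ξ s) b) volume volume :=
      (x2_job_sub_left x).comp (h.mp s)
    have hik : Integrable (fun b => (ω b : ℂ) * k (x - mv (ξ s) b)) volume := by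
      refine Integrable.bdd_mul (c := M) ?_ ?_ ?_
      · exact hmp.integrable_comp_of_integrable hkint
      · exact (Complex.measurable_ofReal.comp hω).aestronglyMeasurable
      · refine Filter.Eventually.of_forall fun b => ?_
        rw [Complex.norm_real]; exact hM b
    have hiK : Integrable (fun b => (ω b : ℂ) * K (x - mv (ξ s) b)) volume := by
      refine Integrable.bdd_mul (c := M) ?_ ?_ ?_
      · exact hmp.integrable_comp_of_integrable hKint
      · exact (Complex.measurable_ofReal.comp hω).aestronglyMeasurable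
      · refine Filter.Eventually.of_forall fun b => ?_
        rw [Complex.norm_real]; exact hM b
    unfold vel
    rw [← integral_sub hik hiK]
    have hd : Integrable (fun y => ‖K y - k y‖) volume := (hKint.sub hkint).norm
    have hd2 : Integrable (fun b => M * ‖K (x - mv (ξ s) b) - k (x - mv (ξ s) b)‖) volume :=
      (hmp.integrable_comp_of_integrable hd).const_mul M
    have h5 : ‖∫ b, ((ω b : ℂ) * k (x - mv (ξ s) b) - (ω b : ℂ) * K (x - mv (ξ s) b))‖ ≤
        ∫ b, M * ‖K (x - mv (ξ s) b) - k (x - mv (ξ s) b)‖ := by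
      refine norm_integral_le_of_norm_le hd2 ?_
      refine Filter.Eventually.of_forall fun b => ?_
      rw [← mul_sub, norm_mul, norm_sub_rev]
      refine mul_le_mul_of_nonneg_right ?_ (norm_nonneg _)
      rw [Complex.norm_real]; exact hM b
    refine h5.trans ?_
    rw [integral_const_mul]
    have h6 := x2_job_mp_integral hmp (g := fun y => ‖K y - k y‖) hd.aestronglyMeasurable
    rw [h6]
    exact mul_le_mul_of_nonneg_left hκ hM0
  have h7 := intervalIntegral.norm_integral_le_of_norm_le_const hbound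
  refine h7.trans ?_
  rw [sub_zero]
  have : M * κ * |t| ≤ M * κ * T := mul_le_mul_of_nonneg_left ht (mul_nonneg hM0 hκ0)
  linarith

theorem x2_job_phi_tendsto : Tendsto phi (𝓝[>] 0) (𝓝 0) := by
  have h1 : Tendsto (fun δ : ℝ => min δ 1) (𝓝[>] 0) (𝓝 0) := by
    have : Continuous (fun δ : ℝ => min δ 1) := continuous_id.min continuous_const
    have h := this.tendsto 0
    have h0 : min (0:ℝ) 1 = 0 := by norm_num
    rw [h0] at h
    exact h.mono_left nhdsWithin_le_nhds
  have h2 : Tendsto (fun δ : ℝ => min δ 1 - (min δ 1) * Real.log (min δ 1)) (𝓝[>] 0) (𝓝 0) := by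
    have h3 := (Real.continuous_mul_log.tendsto 0).comp h1
    have h4 := h1.sub h3
    simpa using h4
  refine h2.congr ?_
  intro δ
  unfold phi
  ring

theorem x2_job_small (A T : ℝ) (hA : 0 < A) (r : ℝ) (hr : 0 < r) :
    ∃ ε : ℝ, 0 < ε ∧ Real.exp 1 * (ε / Real.exp 1) ^ Real.exp (-(A * T)) < r := by
  have hc : 0 < Real.exp (-(A * T)) := Real.exp_pos _
  have h1 : Tendsto (fun ε : ℝ => Real.exp 1 * (ε / Real.exp 1) ^ Real.exp (-(A * T)))
      (𝓝[>] 0) (𝓝 0) := by
    have h2 : Tendsto (fun ε : ℝ => ε / Real.exp 1) (𝓝[>] 0) (𝓝 0) := by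
      have : Continuous (fun ε : ℝ => ε / Real.exp 1) := continuous_id.div_const _
      have h := this.tendsto 0
      rw [zero_div] at h
      exact h.mono_left nhdsWithin_le_nhds
    have h3 := h2.rpow_const (p := Real.exp (-(A * T))) (Or.inr hc.le)
    rw [Real.zero_rpow hc.ne'] at h3
    have h4 := h3.const_mul (Real.exp 1)
    rwa [mul_zero] at h4
  have h5 := (h1.eventually (gt_mem_nhds hr)).and self_mem_nhdsWithin
  obtain ⟨ε, h6, h7⟩ := h5.exists
  exact ⟨ε, h7, h6⟩

theorem lagr_limit {K : T2 → ℂ} {C : ℝ} (hK : IsBS K C) (ω : T2 → ℝ) (hω : Measurable ω) (M : ℝ)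
    (hM : ∀ x, |ω x| ≤ M) (δ : ℕ → ℝ) (hδ0 : ∀ n, 0 ≤ δ n) (hδ : Tendsto δ atTop (𝓝 0))
    (ξn : ℕ → ℝ → T2 → ℂ) (h : ∀ n T, 0 ≤ T → ALagr K T (T * δ n) ω (ξn n)) :
    ∃ ξ : ℝ → T2 → ℂ, Lagr K ω ξ := by
  have hM0 : 0 ≤ M := (abs_nonneg _).trans (hM 0)
  obtain ⟨A, hA, hstab⟩ := stab hK M hM0
  have hcauchy : ∀ T : ℝ, 0 ≤ T → ∀ r : ℝ, 0 < r → ∃ N : ℕ, ∀ n ≥ N, ∀ m ≥ N, ∀ t, |t| ≤ T →
      ∀ a, ‖ξn n t a - ξn m t a‖ ≤ r := by
    intro T hT r hr
    obtain ⟨ε, hε, hsm⟩ := x2_job_small A T hA (min r 1) (lt_min hr one_pos)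
    have h1 : Tendsto (fun n => T * δ n) atTop (𝓝 0) := by
      have := hδ.const_mul T
      rwa [mul_zero] at this
    have h2 := h1.eventually (gt_mem_nhds (half_pos hε))
    obtain ⟨N, hN⟩ := eventually_atTop.1 h2
    refine ⟨N, fun n hn m hm t ht a => ?_⟩
    have h3 := hstab T (T * δ n) (T * δ m) 0 ε hT (mul_nonneg hT (hδ0 n)) (mul_nonneg hT (hδ0 m))
      le_rfl hε ω ω hω hω hM hM (by simp) (ξn n) (ξn m) (h n T hT) (h m T hT)
      (by rw [Real.sqrt_zero, mul_zero, add_zero]; linarith [hN n hn, hN m hm])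
      (hsm.trans_le (min_le_right _ _)) t ht a
    exact h3.trans (hsm.le.trans (min_le_left _ _))
  have hlim : ∀ t a, ∃ z : ℂ, Tendsto (fun n => ξn n t a) atTop (𝓝 z) := by
    intro t a
    apply cauchySeq_tendsto_of_complete
    rw [Metric.cauchySeq_iff]
    intro ε hε
    obtain ⟨N, hN⟩ := hcauchy |t| (abs_nonneg _) (ε / 2) (half_pos hε)
    refine ⟨N, fun m hm n hn => ?_⟩
    rw [dist_eq_norm]
    exact (hN m hm n hn t le_rfl a).trans_lt (half_lt_self hε)
  choose ξ hξ using hlim
  have hunif : ∀ T : ℝ, 0 ≤ T → ∀ r : ℝ, 0 < r → ∃ N : ℕ, ∀ n ≥ N, ∀ t, |t| ≤ T →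
      ∀ a, ‖ξn n t a - ξ t a‖ ≤ r := by
    intro T hT r hr
    obtain ⟨N, hN⟩ := hcauchy T hT r hr
    refine ⟨N, fun n hn t ht a => ?_⟩
    have h1 : Tendsto (fun m => ‖ξn n t a - ξn m t a‖) atTop (𝓝 ‖ξn n t a - ξ t a‖) :=
      ((hξ t a).const_sub _).norm
    refine le_of_tendsto h1 ?_
    filter_upwards [eventually_ge_atTop N] with m hm
    exact hN n hn m hm t ht a
  have hcontn : ∀ n, Continuous (Function.uncurry (ξn n)) := fun n => (h n 0 le_rfl).cont
  have hcont : Continuous (Function.uncurry ξ) := by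
    rw [continuous_iff_continuousAt]
    rintro ⟨t0, a0⟩
    have h1 : TendstoUniformlyOn (fun n => Function.uncurry (ξn n)) (Function.uncurry ξ) atTop
        {p : ℝ × T2 | |p.1| ≤ |t0| + 1} := by
      rw [Metric.tendstoUniformlyOn_iff]
      intro ε hε
      obtain ⟨N, hN⟩ := hunif (|t0| + 1) (by positivity) (ε / 2) (half_pos hε)
      filter_upwards [eventually_ge_atTop N] with n hn
      rintro ⟨t, a⟩ hp
      rw [dist_comm, dist_eq_norm]
      exact (hN n hn t hp a).trans_lt (half_lt_self hε)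
    have h2 := h1.continuousOn (Frequently.of_forall fun n => (hcontn n).continuousOn)
    refine h2.continuousAt ?_
    have h3 : IsOpen {p : ℝ × T2 | |p.1| < |t0| + 1} :=
      isOpen_lt (continuous_fst.abs) continuous_const
    refine mem_of_superset (h3.mem_nhds ?_) ?_
    · change |t0| < |t0| + 1
      linarith
    · intro p hp
      have hp' : |p.1| < |t0| + 1 := hp
      exact hp'.le
  have hξs : ∀ s : ℝ, Continuous (ξ s) := fun s => hcont.comp (Continuous.prodMk_right s)
  have hξc : ∀ b : T2, Continuous (fun s : ℝ => ξ s b) := fun b =>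
    hcont.comp (Continuous.prodMk_left b)
  have hξsn : ∀ n, ∀ s : ℝ, Continuous (ξn n s) := fun n s =>
    (hcontn n).comp (Continuous.prodMk_right s)
  have hξcn : ∀ n, ∀ b : T2, Continuous (fun s : ℝ => ξn n s b) := fun n b =>
    (hcontn n).comp (Continuous.prodMk_left b)
  have hmp : ∀ t, MeasurePreserving (mv (ξ t)) volume volume := by
    intro t
    refine ⟨(x2_job_mv_cont (hξs t)).measurable, ?_⟩
    haveI : IsFiniteMeasure (Measure.map (mv (ξ t)) (volume : Measure T2)) :=
      Measure.isFiniteMeasure_map _ _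
    apply ext_of_forall_integral_eq_of_IsFiniteMeasure
    intro f
    rw [integral_map (x2_job_mv_cont (hξs t)).measurable.aemeasurable
      f.continuous.aestronglyMeasurable]
    have h1 : Tendsto (fun n => ∫ b, f (mv (ξn n t) b)) atTop (𝓝 (∫ b, f (mv (ξ t) b))) := by
      refine tendsto_integral_of_dominated_convergence (fun _ => ‖f‖) ?_ (integrable_const _) ?_ ?_
      · intro n
        exact (f.continuous.comp (x2_job_mv_cont (hξsn n t))).aestronglyMeasurable
      · intro n
        exact Filter.Eventually.of_forall fun b => f.norm_coe_le_norm _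
      · refine Filter.Eventually.of_forall fun b => ?_
        have h2 : Tendsto (fun n => mv (ξn n t) b) atTop (𝓝 (mv (ξ t) b)) := by
          unfold mv
          exact ((x2_job_pr_cont.tendsto _).comp (hξ t b)).const_add b
        exact (f.continuous.tendsto _).comp h2
    have h3 : ∀ n, ∫ b, f (mv (ξn n t) b) = ∫ b, f b := fun n =>
      x2_job_mp_integral ((h n |t| (abs_nonneg _)).mp t le_rfl) f.continuous.aestronglyMeasurable
    simp only [h3] at h1
    exact tendsto_nhds_unique h1 tendsto_const_nhds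
  refine ⟨ξ, hcont, hmp, ?_⟩
  intro t a
  obtain ⟨A', hA', hvd⟩ := hK.vel_diff M hM0
  -- interval integrability
  have hII : ∀ ζ : ℝ → T2 → ℂ, Continuous (Function.uncurry ζ) →
      (∀ s, |s| ≤ |t| → MeasurePreserving (mv (ζ s)) volume volume) →
      IntervalIntegrable (fun s : ℝ => vel K ω (ζ s) (mv (ζ s) a)) volume 0 t := by
    intro ζ hζ hζmp
    have h1 := vel_continuousOn hK ω hω M hM |t| ζ hζ hζmp
    have hmvc : Continuous (fun s : ℝ => mv (ζ s) a) := by
      unfold mv
      exact continuous_const.add (x2_job_pr_cont.comp (hζ.comp (Continuous.prodMk_left a)))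
    exact x2_job_comp (F := fun s x => vel K ω (ζ s) x) (m := fun s => mv (ζ s) a) h1 hmvc le_rfl
  have habs : ∀ s ∈ uIoc 0 t, |s| ≤ |t| := by
    intro s hs
    rcases le_total 0 t with h0 | h0
    · rw [uIoc_of_le h0] at hs
      rw [abs_of_nonneg h0, abs_of_nonneg hs.1.le]; exact hs.2
    · rw [uIoc_of_ge h0] at hs
      rw [abs_of_nonpos h0, abs_of_nonpos hs.2]; linarith [hs.1]
  have hkey : ∀ r : ℝ, 0 < r → ∀ᶠ n in atTop,
      ‖ξ t a - ∫ s in (0:ℝ)..t, vel K ω (ξ s) (mv (ξ s) a)‖ ≤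
        r + |t| * δ n + A' * phi r * |t| := by
    intro r hr
    obtain ⟨N, hN⟩ := hunif |t| (abs_nonneg _) r hr
    filter_upwards [eventually_ge_atTop N] with n hn
    have e1 := hN n hn t le_rfl a
    have e2 := (h n |t| (abs_nonneg _)).eq t le_rfl a
    have e3 : ‖(∫ s in (0:ℝ)..t, vel K ω (ξn n s) (mv (ξn n s) a)) -
        ∫ s in (0:ℝ)..t, vel K ω (ξ s) (mv (ξ s) a)‖ ≤ A' * phi r * |t| := by
      rw [← intervalIntegral.integral_sub
        (hII _ (hcontn n) (fun s hs => (h n |t| (abs_nonneg _)).mp s hs))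
        (hII _ hcont (fun s _ => hmp s))]
      have h7 := intervalIntegral.norm_integral_le_of_norm_le_const (a := 0) (b := t)
        (f := fun s => vel K ω (ξn n s) (mv (ξn n s) a) - vel K ω (ξ s) (mv (ξ s) a))
        (C := A' * phi r) (by
          intro s hs
          have hs' := habs s hs
          have h8 := hvd ω ω hω hω hM hM 0 (by simp) (ξn n s) (ξ s)
            ((h n |t| (abs_nonneg _)).mp s hs') (hmp s) (mv (ξn n s) a) (mv (ξ s) a) r hr.le
            (fun b => hN n hn s hs' b) (by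
              unfold mv
              rw [add_sub_add_left_eq_sub, x2_job_pr_sub]
              exact (norm_pr_le _).trans (hN n hn s hs' a))
          rw [Real.sqrt_zero, mul_zero, add_zero] at h8
          exact h8)
      rwa [sub_zero] at h7
    have e4 : ξ t a - ∫ s in (0:ℝ)..t, vel K ω (ξ s) (mv (ξ s) a) =
        -(ξn n t a - ξ t a) + (ξn n t a - ∫ s in (0:ℝ)..t, vel K ω (ξn n s) (mv (ξn n s) a)) +
        ((∫ s in (0:ℝ)..t, vel K ω (ξn n s) (mv (ξn n s) a)) -
        ∫ s in (0:ℝ)..t, vel K ω (ξ s) (mv (ξ s) a)) := by ring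
    rw [e4]
    refine (norm_add₃_le).trans ?_
    rw [norm_neg]
    linarith
  have hkey2 : ∀ r : ℝ, 0 < r →
      ‖ξ t a - ∫ s in (0:ℝ)..t, vel K ω (ξ s) (mv (ξ s) a)‖ ≤ r + A' * phi r * |t| := by
    intro r hr
    have h1 : Tendsto (fun n => r + |t| * δ n + A' * phi r * |t|) atTop
        (𝓝 (r + |t| * 0 + A' * phi r * |t|)) :=
      ((hδ.const_mul |t|).const_add r).add_const _
    have h2 := ge_of_tendsto h1 (hkey r hr)
    rw [mul_zero, add_zero] at h2
    exact h2
  have hfin : ‖ξ t a - ∫ s in (0:ℝ)..t, vel K ω (ξ s) (mv (ξ s) a)‖ ≤ 0 := by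
    have h1 : Tendsto (fun r : ℝ => r + A' * phi r * |t|) (𝓝[>] 0) (𝓝 (0 + A' * 0 * |t|)) :=
      (tendsto_nhdsWithin_of_tendsto_nhds tendsto_id).add
        ((x2_job_phi_tendsto.const_mul A').mul_const |t|)
    rw [mul_zero, zero_mul, add_zero] at h1
    refine ge_of_tendsto h1 ?_
    filter_upwards [self_mem_nhdsWithin] with r hr
    exact hkey2 r hr
  have h9 := norm_le_zero_iff.1 hfin
  exact sub_eq_zero.1 h9

end Pool.Agent.Helper118.Yud
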