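import Pool.Agent.Helper118.Yud.Defs
import Pool.Agent.Helper118.Yud.X0
import Pool.Agent.Helper118.Yud.X1
import Pool.Agent.Helper118.Yud.X2
import Pool.Agent.Helper118.Yud.E5

set_option autoImplicit false

namespace Pool.Agent.Helper118.Yud

open MeasureTheory Complex Set Filter Topology

/-- existence of Lagrangian solutions for bounded measurable vorticity -/
theorem exists_lagr {K : T2 → ℂ} {C : ℝ} (hK : IsBS K C) (ω : T2 → ℝ) (hω : Measurable ω)
    (M : ℝ) (hM : ∀ x, |ω x| ≤ M) : ∃ ξ : ℝ → T2 → ℂ, Lagr K ω ξ := by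
  have hM0 : 0 ≤ M := (abs_nonneg _).trans (hM 0)
  have hC := hK.pos
  have key : ∀ n : ℕ, ∃ ξ : ℝ → T2 → ℂ, ∀ T, 0 ≤ T →
      ALagr K T (T * (M * (C * (1 / ((n:ℝ) + 4))))) ω ξ := by
    intro n
    have h1 : (0:ℝ) < 1 / ((n:ℝ) + 4) := by positivity
    have h2 : 1 / ((n:ℝ) + 4) ≤ 1 / 4 := by
      apply one_div_le_one_div_of_le (by norm_num); linarith [Nat.cast_nonneg (α := ℝ) n]
    obtain ⟨k, hk1, hk2, hk3⟩ := hK.reg _ h1 h2
    obtain ⟨ξ, hξ⟩ := exists_lagr_reg k hk1 hk2 ω hω M hM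
    refine ⟨ξ, fun T hT => ?_⟩
    have := reg_approx hK k (continuous_of_lift k hk1.continuous) _ hk3 ω hω M hM ξ hξ T hT
    have e : T * M * (C * (1 / ((n:ℝ) + 4))) = T * (M * (C * (1 / ((n:ℝ) + 4)))) := by ring
    rwa [e] at this
  choose ξn hξn using key
  refine lagr_limit hK ω hω M hM (fun n => M * (C * (1 / ((n:ℝ) + 4)))) (fun n => by positivity) ?_
    ξn hξn
  have h1 : Tendsto (fun n : ℕ => ((n:ℝ) + 4)⁻¹) atTop (𝓝 0) := by
    exact (tendsto_inv_atTop_zero.comp (tendsto_atTop_add_const_right _ 4 tendsto_natCast_atTop_atTop))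
  simpa using (h1.const_mul C).const_mul M

end Pool.Agent.Helper118.Yud
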