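import Pool.Agent.Helper118.Yud.Defs

set_option autoImplicit false

namespace Pool.Agent.Helper118.Yud

open MeasureTheory Complex Set Filter Topology


open scoped NNReal in
theorem g4_global_ode {E : Type*} [NormedAddCommGroup E] [NormedSpace ℝ E] [CompleteSpace E]
    (F : ℝ → E → E) (K : ℝ≥0) (hK : ∀ t, LipschitzWith K (F t))
    (hc : ∀ x, Continuous (fun t => F t x))
    (hb : ∀ T : ℝ, ∃ M : ℝ, ∀ t, |t| ≤ T → ∀ x, ‖F t x‖ ≤ M) :
    ∃ η : ℝ → E, η 0 = 0 ∧ ∀ t, HasDerivAt η (F t (η t)) t := by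
  have hloc : ∀ N : ℕ, ∃ α : ℝ → E, α 0 = 0 ∧
      ∀ t ∈ Ioo (-((N : ℝ) + 1)) ((N : ℝ) + 1), HasDerivAt α (F t (α t)) t := by
    intro N
    obtain ⟨M, hM⟩ := hb ((N : ℝ) + 1)
    have hN : (0 : ℝ) < (N : ℝ) + 1 := by positivity
    have hP : IsPicardLindelof F (tmin := -((N : ℝ) + 1)) (tmax := (N : ℝ) + 1)
        ⟨0, by constructor <;> linarith⟩ (0 : E)
        (Real.toNNReal M * Real.toNNReal ((N : ℝ) + 1)) 0 (Real.toNNReal M) K := by
      refine ⟨fun t _ => (hK t).lipschitzOnWith, fun x _ => (hc x).continuousOn, ?_, ?_⟩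
      · intro t ht x _
        exact (hM t (abs_le.2 ht) x).trans (Real.le_coe_toNNReal M)
      · simp only [sub_zero, zero_sub, neg_neg, max_self, NNReal.coe_mul, NNReal.coe_zero]
        rw [Real.coe_toNNReal _ hN.le]
    obtain ⟨α, h0, h1⟩ := hP.exists_eq_forall_mem_Icc_hasDerivWithinAt₀
    refine ⟨α, h0, fun t ht => ?_⟩
    exact (h1 t (Ioo_subset_Icc_self ht)).hasDerivAt (Icc_mem_nhds ht.1 ht.2)
  choose α hα0 hα using hloc
  have huniq1 : ∀ N M : ℕ, N ≤ M → ∀ t : ℝ, |t| < (N : ℝ) + 1 → α N t = α M t := by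
    intro N M hNM t ht
    have hNM' : (N : ℝ) ≤ M := by exact_mod_cast hNM
    have hN : (0 : ℝ) < (N : ℝ) + 1 := by positivity
    have h := ODE_solution_unique_of_mem_Ioo (v := F) (s := fun _ => univ) (K := K) (t₀ := 0)
      (f := α N) (g := α M) (a := -((N : ℝ) + 1)) (b := (N : ℝ) + 1)
      (fun t _ => (hK t).lipschitzOnWith) (by constructor <;> linarith)
      (fun t ht => ⟨hα N t ht, mem_univ _⟩)
      (fun t ht => ⟨hα M t ⟨by linarith [ht.1], by linarith [ht.2]⟩, mem_univ _⟩)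
      (by rw [hα0, hα0])
    exact h (abs_lt.1 ht)
  have huniq : ∀ N M : ℕ, ∀ t : ℝ, |t| < (N : ℝ) + 1 → |t| < (M : ℝ) + 1 → α N t = α M t := by
    intro N M t h1 h2
    rcases le_total N M with h | h
    · exact huniq1 N M h t h1
    · exact (huniq1 M N h t h2).symm
  have hceil : ∀ t : ℝ, |t| < (⌈|t|⌉₊ : ℝ) + 1 := fun t => by
    have := Nat.le_ceil |t|
    linarith
  refine ⟨fun t => α ⌈|t|⌉₊ t, ?_, ?_⟩
  · simp [hα0]
  · intro t
    have ht := abs_lt.1 (hceil t)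
    have h1 := hα ⌈|t|⌉₊ t ht
    have h2 : (fun t => α ⌈|t|⌉₊ t) =ᶠ[𝓝 t] α ⌈|t|⌉₊ := by
      filter_upwards [Ioo_mem_nhds ht.1 ht.2] with s hs
      exact huniq _ _ s (hceil s) (abs_lt.2 hs)
    exact h1.congr_of_eventuallyEq h2

theorem g4_continuous_pr : Continuous pr := by
  unfold pr
  exact ((AddCircle.continuous_mk' (1 : ℝ)).comp Complex.continuous_re).prodMk
    ((AddCircle.continuous_mk' (1 : ℝ)).comp Complex.continuous_im)

theorem exists_flow (v : ℝ → T2 → ℂ) (hc : Continuous (Function.uncurry v)) (L : ℝ) (hL0 : 0 ≤ L)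
    (hL : ∀ t a, ∀ z w : ℂ, ‖v t (a + pr z) - v t (a + pr w)‖ ≤ L * ‖z - w‖) :
    ∃ ξ : ℝ → T2 → ℂ, Continuous (Function.uncurry ξ) ∧ (∀ a, ξ 0 a = 0) ∧
      ∀ t a, HasDerivAt (fun s => ξ s a) (v t (a + pr (ξ t a))) t := by
  have hcc : ∀ η : C(T2, ℂ), Continuous (fun p : ℝ × T2 => v p.1 (p.2 + pr (η p.2))) := by
    intro η
    have h1 : Continuous (fun p : ℝ × T2 => (p.1, p.2 + pr (η p.2))) :=
      continuous_fst.prodMk (continuous_snd.add
        (g4_continuous_pr.comp (η.continuous.comp continuous_snd)))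
    exact hc.comp h1
  let F : ℝ → C(T2, ℂ) → C(T2, ℂ) := fun t η =>
    ⟨fun a => v t (a + pr (η a)), (hcc η).comp (Continuous.prodMk_right t)⟩
  have hF : ∀ t η a, F t η a = v t (a + pr (η a)) := fun _ _ _ => rfl
  obtain ⟨η, hη0, hη⟩ := g4_global_ode F (Real.toNNReal L) (by
    intro t
    refine LipschitzWith.of_dist_le_mul fun x y => ?_
    rw [Real.coe_toNNReal _ hL0, ContinuousMap.dist_le (by positivity)]
    intro a
    rw [hF, hF, dist_eq_norm]
    refine (hL t a (x a) (y a)).trans (mul_le_mul_of_nonneg_left ?_ hL0)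
    rw [← dist_eq_norm]
    exact ContinuousMap.dist_apply_le_dist a) (by
    intro x
    let G : C(ℝ × T2, ℂ) := ⟨fun p => v p.1 (p.2 + pr (x p.2)), hcc x⟩
    have h2 : (fun t => F t x) = fun t => G.curry t := by
      funext t
      ext a
      rfl
    rw [h2]
    exact G.curry.continuous) (by
    intro T
    obtain ⟨M, hM⟩ := ((isCompact_Icc (a := -T) (b := T)).prod
      (isCompact_univ (X := T2))).exists_bound_of_continuousOn hc.continuousOn
    refine ⟨max M 0, fun t ht x => ?_⟩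
    rw [ContinuousMap.norm_le _ (le_max_right _ _)]
    intro a
    exact (hM (t, a + pr (x a)) ⟨abs_le.1 ht, mem_univ _⟩).trans (le_max_left _ _))
  have hηc : Continuous η := continuous_iff_continuousAt.2 fun t => (hη t).continuousAt
  refine ⟨fun t a => η t a, ?_, ?_, ?_⟩
  · exact (hηc.comp continuous_fst).eval continuous_snd
  · intro a
    show η 0 a = 0
    rw [hη0]
    rfl
  · intro t a
    have h1 := ((ContinuousMap.evalCLM ℝ a : C(T2, ℂ) →L[ℝ] ℂ).hasFDerivAt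
      (x := η t)).comp_hasDerivAt t (hη t)
    exact h1

end Pool.Agent.Helper118.Yud
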