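import Pool.Agent.Helper118.Yud.E6
import Pool.Agent.Helper383.TY.T8

set_option autoImplicit false

namespace Pool.Agent.Helper118.Yud

open MeasureTheory Complex Set Filter Topology

theorem taylor_hom {K : T2 → ℂ} {C : ℝ} (hK : IsBS K C) (p φ : T2 → ℝ) (hp : IsTrig p) (hφ : IsTrig φ) (n : ℕ) :
    ∃ c : ℕ → ℂ, ∀ σ1 σ2 : ℝ, ∀ ξ : ℝ → T2 → ℂ, Lagr K (fun x => σ1 * p x + σ2 * φ x) ξ →
      AnalyticAt ℝ (fun t => ξ t 0) 0 →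
      iteratedDeriv n (fun t => ξ t 0) 0 = ∑ j ∈ Finset.range (n+1), c j * (σ1:ℂ)^(n-j) * (σ2:ℂ)^j :=
  JT8.taylor_hom hK p φ hp hφ n

end Pool.Agent.Helper118.Yud
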