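import Pool.Agent.Helper118.Yud.Defs
import Pool.Agent.Helper118.Yud.EX
import Pool.Agent.Helper118.Yud.E6
import Pool.Agent.Helper118.Yud.G2
import Pool.Agent.Helper118.Yud.B4
import Pool.Agent.Helper118.Yud.B5
import Pool.Agent.Helper118.Yud.T

set_option autoImplicit false

namespace Pool.Agent.Helper118.Yud

open MeasureTheory Complex Set Filter Topology






theorem b7_isTrig_smul_10691 (p : C(T2, ℝ)) (hp : IsTrig p) (d : ℝ) :
    IsTrig (d • p : C(T2, ℝ)) := by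
  obtain ⟨c, hc⟩ := hp
  refine ⟨(d : ℂ) • c, fun x => ?_⟩
  rw [Finsupp.sum_smul_index (fun i => by simp)]
  have e : ((d • p : C(T2, ℝ)) x : ℂ) = (d : ℂ) * (p x : ℂ) := by
    simp
  rw [e, hc x, Finsupp.mul_sum]
  refine Finsupp.sum_congr fun k _ => ?_
  ring

theorem b7_vol_T2_10691 : IsProbabilityMeasure (volume : Measure T2) := by
  haveI : IsProbabilityMeasure (volume : Measure UnitAddCircle) := ⟨UnitAddCircle.measure_univ⟩
  rw [Measure.volume_eq_prod]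
  infer_instance

theorem b7_int_le_10691 (f : C(T2, ℝ)) : ∫ x, |f x| ≤ ‖f‖ := by
  haveI := b7_vol_T2_10691
  have h := norm_integral_le_of_norm_le_const (μ := (volume : Measure T2)) (f := fun x => |f x|)
    (C := ‖f‖) (Filter.Eventually.of_forall fun x => by
      rw [Real.norm_eq_abs, abs_abs]; exact f.norm_coe_le_norm x)
  rw [Measure.real, measure_univ, ENNReal.toReal_one, mul_one] at h
  exact (le_abs_self _).trans h

theorem uniform_radius {K : T2 → ℂ} {C : ℝ} (hK : IsBS K C)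
    (hH : ∀ w : C(T2, ℝ), ∀ ξ : ℝ → T2 → ℂ, Lagr K (fun x => w x) ξ → ∀ t, AnalyticAt ℝ (fun s => ξ s 0) t) :
    ∃ r M : ℝ, 0 < r ∧ ∀ ω : T2 → ℝ, Measurable ω → (∀ x, |ω x| ≤ 1) → ∀ ξ : ℝ → T2 → ℂ,
      Lagr K ω ξ → ∀ a : T2, ExtBdd (fun t => ξ t a) r M := by
  have hex : ∀ w : C(T2, ℝ), ∃ ξ : ℝ → T2 → ℂ, Lagr K (fun x => w x) ξ := fun w =>
    exists_lagr hK (fun x => w x) w.continuous.measurable ‖w‖ (fun x => w.norm_coe_le_norm x)
  choose Ξ hΞ using hex
  have hana : ∀ (w : C(T2, ℝ)) (t : ℝ), AnalyticAt ℝ (fun t => Ξ w t 0) t := fun w t =>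
    hH w (Ξ w) (hΞ w) t
  have hcont : ∀ t, Continuous (fun w : C(T2, ℝ) => Ξ w t 0) := by
    intro t
    rw [continuous_iff_seqContinuous]
    intro wn w hw
    obtain ⟨M, hM⟩ := (hw.norm.bddAbove_range)
    have hMn : ∀ n, ‖wn n‖ ≤ M := fun n => hM ⟨n, rfl⟩
    have hMw : ‖w‖ ≤ M := le_of_tendsto' hw.norm hMn
    refine lagr_cont_dep hK M (fun n x => wn n x) (fun x => w x)
      (fun n => (wn n).continuous.measurable) w.continuous.measurable
      (fun n x => ((wn n).norm_coe_le_norm x).trans (hMn n))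
      (fun x => (w.norm_coe_le_norm x).trans hMw) ?_ (fun n => Ξ (wn n)) (Ξ w)
      (fun n => hΞ _) (hΞ w) t 0
    have h0 : Tendsto (fun n => ‖wn n - w‖) atTop (𝓝 0) :=
      tendsto_iff_norm_sub_tendsto_zero.1 hw
    refine squeeze_zero (fun n => integral_nonneg fun x => abs_nonneg _) (fun n => ?_) h0
    exact b7_int_le_10691 (wn n - w)
  have htay : ∀ p φ : C(T2, ℝ), IsTrig p → IsTrig φ → ∀ n : ℕ, ∃ c : ℕ → ℂ, ∀ s1 s2 : ℝ,
      iteratedDeriv n ((fun (w : C(T2, ℝ)) t => Ξ w t 0) (s1 • p + s2 • φ)) 0 =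
        ∑ j ∈ Finset.range (n+1), c j * (s1:ℂ)^(n-j) * (s2:ℂ)^j := by
    intro p φ hp hφ n
    obtain ⟨c, hc⟩ := taylor_hom hK p φ hp hφ n
    refine ⟨c, fun s1 s2 => ?_⟩
    have e : (fun x => (s1 • p + s2 • φ : C(T2, ℝ)) x) = fun x => s1 * p x + s2 * φ x := by
      funext x
      simp
    have h1 := hΞ (s1 • p + s2 • φ)
    rw [e] at h1
    exact hc s1 s2 _ h1 (hana _ 0)
  obtain ⟨r0, M0, δ0, hr0, hδ0, hb⟩ := baire_uniform (fun w t => Ξ w t 0) hcont hana htay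
  refine ⟨δ0 * r0, M0, by positivity, ?_⟩
  intro ω hω hω1 ξ hξ a
  have hξ' := lagr_translate K ω ξ hξ a
  have hω' : Measurable (fun x : T2 => ω (x + a)) := hω.comp (measurable_add_const a)
  obtain ⟨pn, hp1, hp2, hp3⟩ := trig_approx_L1 (fun x => ω (x + a)) hω' (fun x => hω1 _)
  have hq : ∀ n, ExtBdd (fun t => Ξ (δ0 • pn n) t 0) r0 M0 := by
    intro n
    refine hb (δ0 • pn n) (b7_isTrig_smul_10691 _ (hp1 n) δ0) (fun x => ?_)
    have e : (δ0 • pn n : C(T2, ℝ)) x = δ0 * pn n x := by simp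
    rw [e, abs_mul, abs_of_pos hδ0]
    exact mul_le_of_le_one_right hδ0.le (hp2 n x)
  choose H h1 h2 h3 using hq
  have hsc := lagr_scale K _ _ hξ' δ0
  have hlim : ∀ t : ℝ, Tendsto (fun n => Ξ (δ0 • pn n) t 0) atTop (𝓝 (ξ (δ0 * t) (0 + a))) := by
    intro t
    refine lagr_cont_dep hK δ0 (fun n x => (δ0 • pn n : C(T2, ℝ)) x) (fun x => δ0 * ω (x + a))
      (fun n => (δ0 • pn n).continuous.measurable) (hω'.const_mul δ0) ?_ ?_ ?_
      (fun n => Ξ (δ0 • pn n)) (fun t b => ξ (δ0 * t) (b + a)) (fun n => hΞ _) hsc t 0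
    · intro n x
      have e : (δ0 • pn n : C(T2, ℝ)) x = δ0 * pn n x := by simp
      rw [e, abs_mul, abs_of_pos hδ0]
      exact mul_le_of_le_one_right hδ0.le (hp2 n x)
    · intro x
      rw [abs_mul, abs_of_pos hδ0]
      exact mul_le_of_le_one_right hδ0.le (hω1 _)
    · have h4 := hp3.const_mul δ0
      rw [mul_zero] at h4
      refine h4.congr fun n => ?_
      rw [← integral_const_mul]
      refine integral_congr_ae (Filter.Eventually.of_forall fun x => ?_)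
      simp only
      have e : (δ0 • pn n : C(T2, ℝ)) x = δ0 * pn n x := by simp
      rw [e, ← mul_sub, abs_mul, abs_of_pos hδ0]
  obtain ⟨G, g1, g2, g3, -⟩ := vitali_real r0 M0 hr0 H h1 h2 (fun t => ξ (δ0 * t) (0 + a)) (by
    intro t ht
    refine (hlim t).congr fun n => ?_
    exact (h3 n t ht).symm)
  have hball : ∀ z ∈ Metric.ball (0 : ℂ) (δ0 * r0), z / (δ0 : ℂ) ∈ Metric.ball (0 : ℂ) r0 := by
    intro z hz
    rw [mem_ball_zero_iff] at hz ⊢
    rw [norm_div, Complex.norm_real, Real.norm_of_nonneg hδ0.le, div_lt_iff₀ hδ0, mul_comm]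
    exact hz
  refine ⟨fun z => G (z / (δ0 : ℂ)), ?_, fun z hz => g2 _ (hball z hz), ?_⟩
  · refine DifferentiableOn.comp g1 ?_ hball
    exact (differentiable_id.div_const _).differentiableOn
  · intro t ht
    have h5 : |t / δ0| < r0 := by
      rw [abs_div, abs_of_pos hδ0, div_lt_iff₀ hδ0, mul_comm]
      exact ht
    have h6 := g3 (t / δ0) h5
    have e1 : ((t / δ0 : ℝ) : ℂ) = (t : ℂ) / (δ0 : ℂ) := by push_cast; rfl
    rw [e1, mul_div_cancel₀ _ hδ0.ne', zero_add] at h6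
    exact h6

end Pool.Agent.Helper118.Yud
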