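import Pool.Agent.Helper118.Yud.Defs
import Pool.Agent.Helper118.Yud.E6

set_option autoImplicit false

namespace Pool.Agent.Helper118.Yud

open MeasureTheory Complex Set Filter Topology


/-- Bahouri–Chemin vorticity `sign (sin 2πx₁) * sign (sin 2πx₂)` -/
noncomputable def BC (x : T2) : ℝ := Real.sign (ek (1, 0) x).im * Real.sign (ek (0, 1) x).im




/-- reflections -/
def c1_bcS2 (x : T2) : T2 := (x.1, -x.2)
def c1_bcS1 (x : T2) : T2 := (-x.1, x.2)

theorem c1_bcS2_add (x y : T2) : c1_bcS2 (x + y) = c1_bcS2 x + c1_bcS2 y := by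
  unfold c1_bcS2; ext
  · rfl
  · simp [neg_add, add_comm]
theorem c1_bcS1_add (x y : T2) : c1_bcS1 (x + y) = c1_bcS1 x + c1_bcS1 y := by
  unfold c1_bcS1; ext
  · simp [neg_add, add_comm]
  · rfl
theorem c1_bcS2_sub (x y : T2) : c1_bcS2 (x - y) = c1_bcS2 x - c1_bcS2 y := by
  unfold c1_bcS2; ext
  · rfl
  · simp [neg_sub]; abel
theorem c1_bcS1_sub (x y : T2) : c1_bcS1 (x - y) = c1_bcS1 x - c1_bcS1 y := by
  unfold c1_bcS1; ext
  · simp [neg_sub]; abel
  · rfl
theorem c1_bcS2_inv (x : T2) : c1_bcS2 (c1_bcS2 x) = x := by unfold c1_bcS2; simp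
theorem c1_bcS1_inv (x : T2) : c1_bcS1 (c1_bcS1 x) = x := by unfold c1_bcS1; simp
theorem c1_bcS2_pr (z : ℂ) : c1_bcS2 (pr z) = pr ((starRingEnd ℂ) z) := by
  unfold c1_bcS2 pr; simp
theorem c1_bcS1_pr (z : ℂ) : c1_bcS1 (pr z) = pr (-(starRingEnd ℂ) z) := by
  unfold c1_bcS1 pr; simp
theorem c1_bcS2_cont : Continuous c1_bcS2 := by unfold c1_bcS2; fun_prop
theorem c1_bcS1_cont : Continuous c1_bcS1 := by unfold c1_bcS1; fun_prop

def c1_bcE2 : T2 ≃ᵐ T2 where
  toFun := c1_bcS2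
  invFun := c1_bcS2
  left_inv := c1_bcS2_inv
  right_inv := c1_bcS2_inv
  measurable_toFun := c1_bcS2_cont.measurable
  measurable_invFun := c1_bcS2_cont.measurable

def c1_bcE1 : T2 ≃ᵐ T2 where
  toFun := c1_bcS1
  invFun := c1_bcS1
  left_inv := c1_bcS1_inv
  right_inv := c1_bcS1_inv
  measurable_toFun := c1_bcS1_cont.measurable
  measurable_invFun := c1_bcS1_cont.measurable

theorem c1_bcE2_mp : MeasurePreserving c1_bcE2 (volume : Measure T2) volume :=
  (MeasurePreserving.id (volume : Measure UnitAddCircle)).prod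
    (Measure.measurePreserving_neg (volume : Measure UnitAddCircle))

theorem c1_bcE1_mp : MeasurePreserving c1_bcE1 (volume : Measure T2) volume :=
  (Measure.measurePreserving_neg (volume : Measure UnitAddCircle)).prod
    (MeasurePreserving.id (volume : Measure UnitAddCircle))

theorem c1_bc_four_neg (x : UnitAddCircle) : (fourier 1 (-x) : ℂ).im = -(fourier 1 x : ℂ).im := by
  have h : (fourier 1 (-x) : ℂ) = (starRingEnd ℂ) (fourier 1 x) := by
    rw [fourier_apply, smul_neg]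
    exact fourier_neg'
  rw [h, Complex.conj_im]

theorem c1_bc_ek1 (x : T2) : ek (1, 0) x = fourier 1 x.1 := by
  unfold ek; simp
theorem c1_bc_ek2 (x : T2) : ek (0, 1) x = fourier 1 x.2 := by
  unfold ek; simp

theorem c1_bc_four_zero (x : UnitAddCircle) : (fourier 1 x : ℂ).im = 0 ↔ -x = x := by
  constructor
  · intro h
    induction x using QuotientAddGroup.induction_on with
    | H r =>
      have h1 : (fourier 1 ((r : ℝ) : UnitAddCircle) : ℂ) = Complex.exp (2 * Real.pi * I * r) := by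
        rw [fourier_coe_apply]; simp
      have h2 : (Complex.exp (2 * Real.pi * I * r)).im = Real.sin (2 * Real.pi * r) := by
        have : (2 * Real.pi * I * r : ℂ) = ((2 * Real.pi * r : ℝ) : ℂ) * I := by push_cast; ring
        rw [this, Complex.exp_ofReal_mul_I_im]
      have h3 : Real.sin (2 * Real.pi * r) = 0 := by
        rw [← h2, ← h1]; exact h
      obtain ⟨n, hn⟩ := Real.sin_eq_zero_iff.1 h3
      have h4 : 2 * r = n := by
        have := Real.pi_pos.ne'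
        field_simp at hn
        linarith
      rw [neg_eq_iff_add_eq_zero]
      have h5 : ((r + r : ℝ) : UnitAddCircle) = 0 := by
        rw [AddCircle.coe_eq_zero_iff]
        exact ⟨n, by simp; linarith⟩
      exact h5
  · intro h
    have h1 := c1_bc_four_neg x
    rw [h] at h1
    linarith

theorem c1_BC_S2 (x : T2) : BC (c1_bcS2 x) = -BC x := by
  unfold BC
  rw [c1_bc_ek1, c1_bc_ek2, c1_bc_ek1, c1_bc_ek2]
  unfold c1_bcS2
  rw [c1_bc_four_neg, Real.sign_neg]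
  ring
theorem c1_BC_S1 (x : T2) : BC (c1_bcS1 x) = -BC x := by
  unfold BC
  rw [c1_bc_ek1, c1_bc_ek2, c1_bc_ek1, c1_bc_ek2]
  unfold c1_bcS1
  rw [c1_bc_four_neg, Real.sign_neg]
  ring

theorem c1_bc_sign_meas : Measurable Real.sign := by
  have : Real.sign = fun r : ℝ => if r < 0 then (-1 : ℝ) else if 0 < r then 1 else 0 := by
    funext r; rfl
  rw [this]
  exact Measurable.ite (measurableSet_lt measurable_id measurable_const) measurable_const
    (Measurable.ite (measurableSet_lt measurable_const measurable_id) measurable_const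
      measurable_const)

theorem BC_measurable : Measurable BC := by
  unfold BC
  have h1 : Continuous (fun x : T2 => (ek (1, 0) x).im) := by
    simp only [c1_bc_ek1]
    exact Complex.continuous_im.comp ((fourier 1).continuous.comp continuous_fst)
  have h2 : Continuous (fun x : T2 => (ek (0, 1) x).im) := by
    simp only [c1_bc_ek2]
    exact Complex.continuous_im.comp ((fourier 1).continuous.comp continuous_snd)
  exact (c1_bc_sign_meas.comp h1.measurable).mul (c1_bc_sign_meas.comp h2.measurable)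

theorem c1_bc_sign_abs (r : ℝ) : |Real.sign r| ≤ 1 := by
  rcases Real.sign_apply_eq r with h | h | h <;> rw [h] <;> simp

theorem BC_abs_le (x : T2) : |BC x| ≤ 1 := by
  unfold BC
  rw [abs_mul]
  exact mul_le_one₀ (c1_bc_sign_abs _) (abs_nonneg _) (c1_bc_sign_abs _)

theorem BC_pr (z : ℂ) : BC (pr z) = Real.sign (Real.sin (2 * Real.pi * z.re)) *
    Real.sign (Real.sin (2 * Real.pi * z.im)) := by
  have key : ∀ r : ℝ, (fourier 1 ((r : ℝ) : UnitAddCircle) : ℂ).im = Real.sin (2 * Real.pi * r) := by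
    intro r
    have h1 : (fourier 1 ((r : ℝ) : UnitAddCircle) : ℂ) = Complex.exp (2 * Real.pi * I * r) := by
      rw [fourier_coe_apply]; simp
    have h2 : (Complex.exp (2 * Real.pi * I * r)).im = Real.sin (2 * Real.pi * r) := by
      have : (2 * Real.pi * I * r : ℂ) = ((2 * Real.pi * r : ℝ) : ℂ) * I := by push_cast; ring
      rw [this, Complex.exp_ofReal_mul_I_im]
    rw [h1, h2]
  unfold BC
  rw [c1_bc_ek1, c1_bc_ek2]
  unfold pr
  rw [key, key]

theorem BC_mean : ∫ x, BC x = 0 := by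
  have h1 := c1_bcE1_mp.integral_comp' (fun x => BC x)
  have h2 : ∀ x, BC (c1_bcE1 x) = -BC x := fun x => c1_BC_S1 x
  simp only [h2, integral_neg] at h1
  linarith

theorem c1_bc_K2 {K : T2 → ℂ} {C : ℝ} (hK : IsBS K C) (x : T2) :
    K (c1_bcS2 x) = -(starRingEnd ℂ) (K x) := hK.refl x

theorem c1_bc_K1 {K : T2 → ℂ} {C : ℝ} (hK : IsBS K C) (x : T2) :
    K (c1_bcS1 x) = (starRingEnd ℂ) (K x) := by
  have h : c1_bcS1 x = -(c1_bcS2 x) := by unfold c1_bcS1 c1_bcS2; ext <;> simp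
  rw [h, hK.odd, c1_bc_K2 hK, neg_neg]

theorem c1_bc_mv2 (ξ : T2 → ℂ) (b : T2) :
    mv (fun a => (starRingEnd ℂ) (ξ (c1_bcS2 a))) b = c1_bcS2 (mv ξ (c1_bcS2 b)) := by
  unfold mv
  rw [c1_bcS2_add, c1_bcS2_inv, c1_bcS2_pr]

theorem c1_bc_mv1 (ξ : T2 → ℂ) (b : T2) :
    mv (fun a => -(starRingEnd ℂ) (ξ (c1_bcS1 a))) b = c1_bcS1 (mv ξ (c1_bcS1 b)) := by
  unfold mv
  rw [c1_bcS1_add, c1_bcS1_inv, c1_bcS1_pr]

theorem c1_bc_vel2 {K : T2 → ℂ} {C : ℝ} (hK : IsBS K C) (ξ : T2 → ℂ) (y : T2) :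
    vel K BC (fun a => (starRingEnd ℂ) (ξ (c1_bcS2 a))) (c1_bcS2 y) =
      (starRingEnd ℂ) (vel K BC ξ y) := by
  unfold vel
  rw [← integral_conj, ← c1_bcE2_mp.integral_comp']
  refine integral_congr_ae (Filter.Eventually.of_forall fun b => ?_)
  beta_reduce
  have e : c1_bcE2 b = c1_bcS2 b := rfl
  rw [e, c1_bc_mv2, c1_bcS2_inv, ← c1_bcS2_sub, c1_bc_K2 hK, c1_BC_S2, map_mul, Complex.conj_ofReal]
  push_cast
  ring

theorem c1_bc_vel1 {K : T2 → ℂ} {C : ℝ} (hK : IsBS K C) (ξ : T2 → ℂ) (y : T2) :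
    vel K BC (fun a => -(starRingEnd ℂ) (ξ (c1_bcS1 a))) (c1_bcS1 y) =
      -(starRingEnd ℂ) (vel K BC ξ y) := by
  unfold vel
  rw [← integral_conj, ← integral_neg, ← c1_bcE1_mp.integral_comp']
  refine integral_congr_ae (Filter.Eventually.of_forall fun b => ?_)
  beta_reduce
  have e : c1_bcE1 b = c1_bcS1 b := rfl
  rw [e, c1_bc_mv1, c1_bcS1_inv, ← c1_bcS1_sub, c1_bc_K1 hK, c1_BC_S1, map_mul, Complex.conj_ofReal]
  push_cast
  ring

theorem bc_vel_zero {K : T2 → ℂ} {C : ℝ} (hK : IsBS K C) : vel K BC (fun _ => 0) 0 = 0 := by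
  have h2 := c1_bc_vel2 hK (fun _ => 0) 0
  have h1 := c1_bc_vel1 hK (fun _ => 0) 0
  have e2 : c1_bcS2 0 = 0 := by unfold c1_bcS2; simp
  have e1 : c1_bcS1 0 = 0 := by unfold c1_bcS1; simp
  simp only [map_zero, neg_zero] at h1 h2
  rw [e2] at h2
  rw [e1] at h1
  rw [← h2] at h1
  have : (2 : ℂ) * vel K BC (fun _ => 0) 0 = 0 := by linear_combination h1
  simpa using this

theorem c1_bc_lagr2 {K : T2 → ℂ} {C : ℝ} (hK : IsBS K C) (ξ : ℝ → T2 → ℂ) (h : Lagr K BC ξ) :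
    Lagr K BC (fun t a => (starRingEnd ℂ) (ξ t (c1_bcS2 a))) := by
  refine ⟨?_, fun t => ?_, fun t a => ?_⟩
  · have h1 : Continuous (fun p : ℝ × T2 => (p.1, c1_bcS2 p.2)) :=
      continuous_fst.prodMk (c1_bcS2_cont.comp continuous_snd)
    exact Complex.continuous_conj.comp (h.cont.comp h1)
  · have e : mv (fun a => (starRingEnd ℂ) (ξ t (c1_bcS2 a))) = fun b => c1_bcE2 (mv (ξ t) (c1_bcE2 b)) := by
      funext b; exact c1_bc_mv2 (ξ t) b
    rw [e]
    exact c1_bcE2_mp.comp ((h.mp t).comp c1_bcE2_mp)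
  · rw [h.eq t (c1_bcS2 a), ← intervalIntegral.intervalIntegral_conj]
    refine intervalIntegral.integral_congr fun s _ => ?_
    rw [c1_bc_mv2, c1_bc_vel2 hK]

theorem c1_bc_lagr1 {K : T2 → ℂ} {C : ℝ} (hK : IsBS K C) (ξ : ℝ → T2 → ℂ) (h : Lagr K BC ξ) :
    Lagr K BC (fun t a => -(starRingEnd ℂ) (ξ t (c1_bcS1 a))) := by
  refine ⟨?_, fun t => ?_, fun t a => ?_⟩
  · have h1 : Continuous (fun p : ℝ × T2 => (p.1, c1_bcS1 p.2)) :=
      continuous_fst.prodMk (c1_bcS1_cont.comp continuous_snd)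
    exact (Complex.continuous_conj.comp (h.cont.comp h1)).neg
  · have e : mv (fun a => -(starRingEnd ℂ) (ξ t (c1_bcS1 a))) = fun b => c1_bcE1 (mv (ξ t) (c1_bcE1 b)) := by
      funext b; exact c1_bc_mv1 (ξ t) b
    rw [e]
    exact c1_bcE1_mp.comp ((h.mp t).comp c1_bcE1_mp)
  · rw [h.eq t (c1_bcS1 a), ← intervalIntegral.intervalIntegral_conj, ← intervalIntegral.integral_neg]
    refine intervalIntegral.integral_congr fun s _ => ?_
    rw [c1_bc_mv1, c1_bc_vel1 hK]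

theorem c1_bc_sym {K : T2 → ℂ} {C : ℝ} (hK : IsBS K C) (ξ : ℝ → T2 → ℂ) (h : Lagr K BC ξ) :
    (∀ t a, ξ t a = (starRingEnd ℂ) (ξ t (c1_bcS2 a))) ∧
    (∀ t a, ξ t a = -(starRingEnd ℂ) (ξ t (c1_bcS1 a))) := by
  have h2 := lagr_unique hK BC BC_measurable 1 BC_abs_le _ _ h (c1_bc_lagr2 hK ξ h)
  have h1 := lagr_unique hK BC BC_measurable 1 BC_abs_le _ _ h (c1_bc_lagr1 hK ξ h)
  exact ⟨fun t a => congrFun (congrFun h2 t) a, fun t a => congrFun (congrFun h1 t) a⟩

theorem bc_fix {K : T2 → ℂ} {C : ℝ} (hK : IsBS K C) (ξ : ℝ → T2 → ℂ) (h : Lagr K BC ξ) (t : ℝ) :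
    ξ t 0 = 0 := by
  obtain ⟨h2, h1⟩ := c1_bc_sym hK ξ h
  have e2 : c1_bcS2 0 = 0 := by unfold c1_bcS2; simp
  have e1 : c1_bcS1 0 = 0 := by unfold c1_bcS1; simp
  have a2 := h2 t 0
  have a1 := h1 t 0
  rw [e2] at a2
  rw [e1, ← a2] at a1
  have : (2 : ℂ) * ξ t 0 = 0 := by linear_combination a1
  simpa using this

theorem c1_bc_comm2 {K : T2 → ℂ} {C : ℝ} (hK : IsBS K C) (ξ : ℝ → T2 → ℂ) (h : Lagr K BC ξ) (t : ℝ)
    (a : T2) : mv (ξ t) (c1_bcS2 a) = c1_bcS2 (mv (ξ t) a) := by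
  obtain ⟨h2, -⟩ := c1_bc_sym hK ξ h
  have e : (fun a => (starRingEnd ℂ) (ξ t (c1_bcS2 a))) = ξ t := by
    funext a; exact (h2 t a).symm
  have := c1_bc_mv2 (ξ t) (c1_bcS2 a)
  rw [e, c1_bcS2_inv] at this
  exact this

theorem c1_bc_comm1 {K : T2 → ℂ} {C : ℝ} (hK : IsBS K C) (ξ : ℝ → T2 → ℂ) (h : Lagr K BC ξ) (t : ℝ)
    (a : T2) : mv (ξ t) (c1_bcS1 a) = c1_bcS1 (mv (ξ t) a) := by
  obtain ⟨-, h1⟩ := c1_bc_sym hK ξ h
  have e : (fun a => -(starRingEnd ℂ) (ξ t (c1_bcS1 a))) = ξ t := by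
    funext a; exact (h1 t a).symm
  have := c1_bc_mv1 (ξ t) (c1_bcS1 a)
  rw [e, c1_bcS1_inv] at this
  exact this

theorem c1_bc_pr_cont : Continuous pr := by
  unfold pr
  have h1 : Continuous (fun r : ℝ => (r : UnitAddCircle)) := AddCircle.continuous_mk' _
  exact (h1.comp Complex.continuous_re).prodMk (h1.comp Complex.continuous_im)

/-- a continuous nowhere vanishing real function has constant sign -/
theorem c1_bc_sign_const (g : ℝ → ℝ) (hg : Continuous g) (h0 : ∀ t, g t ≠ 0) (t : ℝ) :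
    Real.sign (g t) = Real.sign (g 0) := by
  rcases lt_or_gt_of_ne (h0 0) with h1 | h1 <;> rcases lt_or_gt_of_ne (h0 t) with h2 | h2
  · rw [Real.sign_of_neg h1, Real.sign_of_neg h2]
  · exfalso
    obtain ⟨s, hs⟩ := mem_range_of_exists_le_of_exists_ge hg ⟨0, h1.le⟩ ⟨t, h2.le⟩
    exact h0 s hs
  · exfalso
    obtain ⟨s, hs⟩ := mem_range_of_exists_le_of_exists_ge hg ⟨t, h2.le⟩ ⟨0, h1.le⟩
    exact h0 s hs
  · rw [Real.sign_of_pos h1, Real.sign_of_pos h2]

theorem c1_bc_inv {K : T2 → ℂ} {C : ℝ} (hK : IsBS K C) (ξ : ℝ → T2 → ℂ) (h : Lagr K BC ξ) (t : ℝ)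
    (a : T2) : BC (mv (ξ t) a) = BC a := by
  have hX0 : mv (ξ 0) a = a := by
    unfold mv
    rw [h.eq 0 a, intervalIntegral.integral_same]
    unfold pr
    simp
  have hcont : Continuous (fun t : ℝ => mv (ξ t) a) := by
    unfold mv
    have h1 : Continuous (fun t : ℝ => ((t, a) : ℝ × T2)) := continuous_id.prodMk continuous_const
    exact continuous_const.add (c1_bc_pr_cont.comp (h.cont.comp h1))
  have hz1 : ∀ t, (fourier 1 (mv (ξ t) a).1 : ℂ).im = 0 ↔ (fourier 1 a.1 : ℂ).im = 0 := by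
    intro t
    rw [c1_bc_four_zero, c1_bc_four_zero]
    constructor
    · intro h3
      have h4 : c1_bcS1 (mv (ξ t) a) = mv (ξ t) a := Prod.ext h3 rfl
      rw [← c1_bc_comm1 hK ξ h] at h4
      have h5 := lagr_injective hK BC BC_measurable 1 BC_abs_le ξ h t h4
      exact congrArg Prod.fst h5
    · intro h3
      have h4 : c1_bcS1 a = a := Prod.ext h3 rfl
      have h5 := c1_bc_comm1 hK ξ h t a
      rw [h4] at h5
      exact (congrArg Prod.fst h5).symm
  have hz2 : ∀ t, (fourier 1 (mv (ξ t) a).2 : ℂ).im = 0 ↔ (fourier 1 a.2 : ℂ).im = 0 := by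
    intro t
    rw [c1_bc_four_zero, c1_bc_four_zero]
    constructor
    · intro h3
      have h4 : c1_bcS2 (mv (ξ t) a) = mv (ξ t) a := Prod.ext rfl h3
      rw [← c1_bc_comm2 hK ξ h] at h4
      have h5 := lagr_injective hK BC BC_measurable 1 BC_abs_le ξ h t h4
      exact congrArg Prod.snd h5
    · intro h3
      have h4 : c1_bcS2 a = a := Prod.ext rfl h3
      have h5 := c1_bc_comm2 hK ξ h t a
      rw [h4] at h5
      exact (congrArg Prod.snd h5).symm
  have hc1 : Continuous (fun t : ℝ => (fourier 1 (mv (ξ t) a).1 : ℂ).im) :=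
    Complex.continuous_im.comp ((fourier 1).continuous.comp (continuous_fst.comp hcont))
  have hc2 : Continuous (fun t : ℝ => (fourier 1 (mv (ξ t) a).2 : ℂ).im) :=
    Complex.continuous_im.comp ((fourier 1).continuous.comp (continuous_snd.comp hcont))
  have hs1 : Real.sign (fourier 1 (mv (ξ t) a).1 : ℂ).im = Real.sign (fourier 1 a.1 : ℂ).im := by
    by_cases h0 : (fourier 1 a.1 : ℂ).im = 0
    · rw [h0, (hz1 t).2 h0]
    · have := c1_bc_sign_const _ hc1 (fun t h1 => h0 ((hz1 t).1 h1)) t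
      beta_reduce at this
      rw [this, hX0]
  have hs2 : Real.sign (fourier 1 (mv (ξ t) a).2 : ℂ).im = Real.sign (fourier 1 a.2 : ℂ).im := by
    by_cases h0 : (fourier 1 a.2 : ℂ).im = 0
    · rw [h0, (hz2 t).2 h0]
    · have := c1_bc_sign_const _ hc2 (fun t h1 => h0 ((hz2 t).1 h1)) t
      beta_reduce at this
      rw [this, hX0]
  unfold BC
  rw [c1_bc_ek1, c1_bc_ek2, c1_bc_ek1, c1_bc_ek2, hs1, hs2]

theorem bc_steady {K : T2 → ℂ} {C : ℝ} (hK : IsBS K C) (ξ : ℝ → T2 → ℂ) (h : Lagr K BC ξ) (t : ℝ)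
    (x : T2) : vel K BC (ξ t) x = vel K BC (fun _ => 0) x := by
  unfold vel
  have e0 : ∀ b : T2, mv (fun _ => (0 : ℂ)) b = b := by
    intro b; unfold mv pr; simp
  simp only [e0]
  have hm : AEStronglyMeasurable (fun y : T2 => ((BC y : ℝ) : ℂ) * K (x - y))
      (Measure.map (mv (ξ t)) volume) := by
    have h1 : Measurable (fun y : T2 => ((BC y : ℝ) : ℂ)) :=
      Complex.measurable_ofReal.comp BC_measurable
    have h2 : Measurable (fun y : T2 => x - y) := (continuous_const.sub continuous_id).measurable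
    exact (h1.mul (hK.meas.comp h2)).aestronglyMeasurable
  have h1 := integral_map (h.mp t).measurable.aemeasurable hm
  rw [(h.mp t).map_eq] at h1
  rw [h1]
  refine integral_congr_ae (Filter.Eventually.of_forall fun b => ?_)
  beta_reduce
  rw [c1_bc_inv hK ξ h t b]

end Pool.Agent.Helper118.Yud
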