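import Pool.Agent.Helper118.Yud.Defs
import Pool.Agent.Helper118.Yud.E4
import Pool.Agent.Helper118.Yud.B1

set_option autoImplicit false

namespace Pool.Agent.Helper118.Yud

open MeasureTheory Complex Set Filter Topology





theorem c2_pr_zero' : pr 0 = 0 := by
  unfold pr; simp

theorem c2_mv_zero' : mv (fun _ => 0) = fun b : T2 => b := by
  funext b; unfold mv; rw [c2_pr_zero', add_zero]

theorem c2_pr_real (x y : ℝ) :
    pr ((x:ℂ) + (y:ℂ) * I) = ((x : UnitAddCircle), (y : UnitAddCircle)) := by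
  unfold pr; simp

theorem c2_phi_cont : Continuous phi := by
  have h1 : Continuous fun δ : ℝ => min δ 1 := by fun_prop
  have h2 : Continuous fun δ : ℝ => min δ 1 * Real.log (min δ 1) := Real.continuous_mul_log.comp h1
  have : phi = fun δ => min δ 1 - min δ 1 * Real.log (min δ 1) := by
    funext δ; unfold phi; ring
  rw [this]
  exact h1.sub h2

theorem c2_phi_zero : phi 0 = 0 := by
  unfold phi; simp

theorem c2_vel_diff0 {K : T2 → ℂ} {C : ℝ} (hK : IsBS K C) :
    ∃ A : ℝ, 0 < A ∧ ∀ ω1 ω2 : T2 → ℝ, Measurable ω1 → Measurable ω2 →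
      (∀ x, |ω1 x| ≤ 1) → (∀ x, |ω2 x| ≤ 1) → ∀ η : ℝ, ∫ x, |ω1 x - ω2 x| ≤ η →
      ∀ x1 x2 : T2,
      ‖vel K ω1 (fun _ => 0) x1 - vel K ω2 (fun _ => 0) x2‖ ≤
        A * phi ‖x1 - x2‖ + A * Real.sqrt η := by
  obtain ⟨A, hA, h⟩ := hK.vel_diff 1 zero_le_one
  refine ⟨A, hA, ?_⟩
  intro ω1 ω2 m1 m2 b1 b2 η hη x1 x2
  have mp : MeasurePreserving (mv (fun _ => 0)) (volume : Measure T2) volume := by
    rw [c2_mv_zero']; exact MeasurePreserving.id _
  exact h ω1 ω2 m1 m2 b1 b2 η hη _ _ mp mp x1 x2 _ (norm_nonneg _) (by simp) le_rfl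

/-- velocity field of a fixed vorticity is continuous -/
theorem vel0_continuous {K : T2 → ℂ} {C : ℝ} (hK : IsBS K C) (ω : T2 → ℝ) (hω : Measurable ω)
    (hM : ∀ x, |ω x| ≤ 1) : Continuous (vel K ω (fun _ => 0)) := by
  obtain ⟨A, hA, h⟩ := c2_vel_diff0 hK
  rw [continuous_iff_continuousAt]
  intro x
  rw [ContinuousAt, tendsto_iff_norm_sub_tendsto_zero]
  have h1 : Tendsto (fun y : T2 => A * phi ‖y - x‖ + A * Real.sqrt 0) (𝓝 x) (𝓝 0) := by
    have h2 : Continuous (fun y : T2 => A * phi ‖y - x‖ + A * Real.sqrt 0) := by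
      have := c2_phi_cont
      fun_prop
    have h3 := h2.tendsto x
    simpa [c2_phi_zero] using h3
  refine squeeze_zero (fun _ => norm_nonneg _) (fun y => ?_) h1
  exact h ω ω hω hω hM hM 0 (by simp) y x

theorem c2_ek_continuous (k : ℤ × ℤ) : Continuous (ek k) := by
  unfold ek
  fun_prop

theorem c2_norm_fourier (n : ℤ) (x : UnitAddCircle) : ‖fourier n x‖ = 1 := by
  rw [fourier_apply]
  exact Circle.norm_coe _

theorem c2_norm_ek (k : ℤ × ℤ) (x : T2) : ‖ek k x‖ = 1 := by
  unfold ek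
  rw [norm_mul, c2_norm_fourier, c2_norm_fourier, one_mul]

theorem c2_fourier_sub_arg (n : ℤ) (x y : UnitAddCircle) :
    fourier n (x - y) = fourier n x * fourier (-n) y := by
  rw [fourier_apply, fourier_apply, fourier_apply, ← Circle.coe_mul, ← AddCircle.toCircle_add]
  congr 2
  rw [smul_sub, neg_smul, sub_eq_add_neg]

theorem c2_ek_sub (k : ℤ × ℤ) (x y : T2) : ek k (x - y) = ek k x * ek (-k) y := by
  unfold ek
  rw [Prod.fst_sub, Prod.snd_sub, c2_fourier_sub_arg, c2_fourier_sub_arg, Prod.fst_neg, Prod.snd_neg]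
  ring

theorem c2_conj_ek (k : ℤ × ℤ) (x : T2) : (starRingEnd ℂ) (ek k x) = ek (-k) x := by
  unfold ek
  rw [map_mul, ← fourier_neg, ← fourier_neg, Prod.fst_neg, Prod.snd_neg]

theorem c2_integral_fourier (n : ℤ) : ∫ x : UnitAddCircle, fourier n x = if n = 0 then 1 else 0 := by
  split_ifs with h
  · subst h
    simp [measureReal_def]
  · have h1 := fourier_add_half_inv_index (T := (1:ℝ)) h (by norm_num)
    exact integral_eq_zero_of_add_right_eq_neg h1

theorem c2_integral_ek (k : ℤ × ℤ) : ∫ x : T2, ek k x = if k = 0 then 1 else 0 := by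
  unfold ek
  have : ∫ x : T2, (fourier k.1 x.1 : ℂ) * fourier k.2 x.2 =
      (∫ x : UnitAddCircle, fourier k.1 x) * (∫ x : UnitAddCircle, fourier k.2 x) := by
    exact integral_prod_mul (fun x : UnitAddCircle => fourier k.1 x) (fun x : UnitAddCircle => fourier k.2 x)
  rw [this, c2_integral_fourier, c2_integral_fourier]
  by_cases h1 : k.1 = 0
  · by_cases h2 : k.2 = 0
    · have : k = 0 := Prod.ext h1 h2
      simp [this]
    · have : k ≠ 0 := fun h => h2 (by rw [h]; rfl)
      simp [h2, this]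
  · have : k ≠ 0 := fun h => h1 (by rw [h]; rfl)
    simp [h1, this]

/-- derivative of the characters, integrated -/
theorem c2_fourier_ftc (n : ℤ) (a b : ℝ) :
    2 * (Real.pi : ℂ) * I * n * ∫ x in a..b, fourier n (x : UnitAddCircle) =
      fourier n (b : UnitAddCircle) - fourier n (a : UnitAddCircle) := by
  have hc : Continuous (fun x : ℝ => fourier n (x : UnitAddCircle)) :=
    (fourier n).continuous.comp (AddCircle.continuous_mk' 1)
  have h := intervalIntegral.integral_eq_sub_of_hasDerivAt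
    (f := fun x : ℝ => fourier n (x : UnitAddCircle))
    (f' := fun x : ℝ => 2 * (Real.pi : ℂ) * I * n / (1:ℝ) * fourier n (x : UnitAddCircle)) (a := a) (b := b)
    (fun x _ => hasDerivAt_fourier 1 n x) ?_
  · rw [← h, intervalIntegral.integral_const_mul]
    simp
  · exact (continuous_const.mul hc).intervalIntegrable _ _


theorem c2_ek_zero (x : T2) : ek 0 x = 1 := by
  unfold ek; simp

theorem c2_haar_T2 : (volume : Measure T2).IsAddHaarMeasure :=
  inferInstanceAs
    ((volume : Measure UnitAddCircle).prod (volume : Measure UnitAddCircle)).IsAddHaarMeasure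

theorem c2_negInv_T2 : (volume : Measure T2).IsNegInvariant := by
  have := c2_haar_T2
  exact Measure.IsAddHaarMeasure.isNegInvariant_of_regular _

theorem c2_integrable_ek_mul {K : T2 → ℂ} {C : ℝ} (hK : IsBS K C) (k : ℤ × ℤ) (x : T2) :
    Integrable (fun b => ek k b * K (x - b)) volume := by
  have := c2_negInv_T2
  have := c2_haar_T2
  have h1 : Integrable (fun b => K (x - b)) volume := hK.integrable.comp_sub_left x
  exact h1.bdd_mul (c2_ek_continuous k).aestronglyMeasurable
    (Filter.Eventually.of_forall fun b => (c2_norm_ek k b).le)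

/-- the multiplier -/
noncomputable def c2_mK (k : ℤ × ℤ) : ℂ :=
  if k = 0 then 0 else 1 / (2 * (Real.pi : ℂ) * ((k.1 : ℂ) - (k.2 : ℂ) * I))

theorem c2_integral_K_ek {K : T2 → ℂ} {C : ℝ} (hK : IsBS K C) (k : ℤ × ℤ) :
    ∫ x, K x * ek (-k) x = c2_mK k := by
  unfold c2_mK
  split_ifs with h
  · subst h
    simp only [neg_zero, c2_ek_zero, mul_one]
    exact hK.fc0
  · exact hK.fc k h

theorem c2_integral_ek_K {K : T2 → ℂ} {C : ℝ} (hK : IsBS K C) (k : ℤ × ℤ) (x : T2) :
    ∫ b, ek k b * K (x - b) = ek k x * c2_mK k := by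
  have := c2_negInv_T2
  have := c2_haar_T2
  have h := integral_sub_left_eq_self (fun b => ek k (x - b) * K b) volume x
  simp only [sub_sub_cancel] at h
  rw [h, ← c2_integral_K_ek hK k, ← integral_const_mul]
  congr 1
  funext b
  rw [c2_ek_sub]
  ring

theorem c2_vel_trig {K : T2 → ℂ} {C : ℝ} (hK : IsBS K C) (p : T2 → ℝ) (c : (ℤ × ℤ) →₀ ℂ)
    (hp : ∀ x, (p x : ℂ) = c.sum fun k a => a * ek k x) (x : T2) :
    vel K p (fun _ => 0) x = ∑ k ∈ c.support, c k * (ek k x * c2_mK k) := by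
  unfold vel
  rw [c2_mv_zero']
  have h1 : ∀ b, (p b : ℂ) * K (x - b) = ∑ k ∈ c.support, c k * (ek k b * K (x - b)) := by
    intro b
    rw [hp b, Finsupp.sum, Finset.sum_mul]
    exact Finset.sum_congr rfl fun k _ => by ring
  simp only [h1]
  rw [integral_finsetSum _ fun k _ => (c2_integrable_ek_mul hK k x).const_mul (c k)]
  refine Finset.sum_congr rfl fun k _ => ?_
  rw [integral_const_mul, c2_integral_ek_K hK]

/-- the boundary integral -/
noncomputable def c2_BI (W : T2 → ℂ) (a b c d : ℝ) : ℂ :=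
  (∫ x in a..b, W ((x : UnitAddCircle), (c : UnitAddCircle))) -
  (∫ x in a..b, W ((x : UnitAddCircle), (d : UnitAddCircle))) +
  I * (∫ y in c..d, W ((b : UnitAddCircle), (y : UnitAddCircle))) -
  I * (∫ y in c..d, W ((a : UnitAddCircle), (y : UnitAddCircle)))

theorem c2_cont_coe1 (W : T2 → ℂ) (hW : Continuous W) (c : ℝ) :
    Continuous fun x : ℝ => W ((x : UnitAddCircle), (c : UnitAddCircle)) :=
  hW.comp ((AddCircle.continuous_mk' 1).prodMk continuous_const)

theorem c2_cont_coe2 (W : T2 → ℂ) (hW : Continuous W) (c : ℝ) :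
    Continuous fun x : ℝ => W ((c : UnitAddCircle), (x : UnitAddCircle)) :=
  hW.comp (continuous_const.prodMk (AddCircle.continuous_mk' 1))

theorem c2_BI_sub (W V : T2 → ℂ) (hW : Continuous W) (hV : Continuous V) (a b c d : ℝ) :
    c2_BI (fun x => W x - V x) a b c d = c2_BI W a b c d - c2_BI V a b c d := by
  unfold c2_BI
  rw [intervalIntegral.integral_sub ((c2_cont_coe1 W hW c).intervalIntegrable _ _)
      ((c2_cont_coe1 V hV c).intervalIntegrable _ _),
    intervalIntegral.integral_sub ((c2_cont_coe1 W hW d).intervalIntegrable _ _)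
      ((c2_cont_coe1 V hV d).intervalIntegrable _ _),
    intervalIntegral.integral_sub ((c2_cont_coe2 W hW b).intervalIntegrable _ _)
      ((c2_cont_coe2 V hV b).intervalIntegrable _ _),
    intervalIntegral.integral_sub ((c2_cont_coe2 W hW a).intervalIntegrable _ _)
      ((c2_cont_coe2 V hV a).intervalIntegrable _ _)]
  ring

theorem c2_BI_bound (W : T2 → ℂ) (a b c d ε : ℝ) (hab : a ≤ b) (hcd : c ≤ d)
    (hab1 : b ≤ a + 1) (hcd1 : d ≤ c + 1) (h : ∀ x, ‖W x‖ ≤ ε) : ‖c2_BI W a b c d‖ ≤ 4 * ε := by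
  have hε : 0 ≤ ε := (norm_nonneg _).trans (h 0)
  have h1 : ∀ y : ℝ, ‖∫ x in a..b, W ((x : UnitAddCircle), (y : UnitAddCircle))‖ ≤ ε := by
    intro y
    have := intervalIntegral.norm_integral_le_of_norm_le_const (a := a) (b := b)
      (f := fun x : ℝ => W ((x : UnitAddCircle), (y : UnitAddCircle))) (C := ε) (fun x _ => h _)
    refine this.trans ?_
    rw [abs_of_nonneg (by linarith)]
    nlinarith
  have h2 : ∀ y : ℝ, ‖∫ x in c..d, W ((y : UnitAddCircle), (x : UnitAddCircle))‖ ≤ ε := by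
    intro y
    have := intervalIntegral.norm_integral_le_of_norm_le_const (a := c) (b := d)
      (f := fun x : ℝ => W ((y : UnitAddCircle), (x : UnitAddCircle))) (C := ε) (fun x _ => h _)
    refine this.trans ?_
    rw [abs_of_nonneg (by linarith)]
    nlinarith
  unfold c2_BI
  calc _ ≤ ‖∫ x in a..b, W ((x : UnitAddCircle), (c : UnitAddCircle))‖ +
        ‖∫ x in a..b, W ((x : UnitAddCircle), (d : UnitAddCircle))‖ +
        ‖I * ∫ y in c..d, W ((b : UnitAddCircle), (y : UnitAddCircle))‖ +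
        ‖I * ∫ y in c..d, W ((a : UnitAddCircle), (y : UnitAddCircle))‖ :=
        (norm_sub_le _ _).trans (add_le_add ((norm_add_le _ _).trans
          (add_le_add (norm_sub_le _ _) le_rfl)) le_rfl)
    _ ≤ ε + ε + ε + ε := by
        rw [norm_mul, norm_mul, Complex.norm_I, one_mul, one_mul]
        exact add_le_add (add_le_add (add_le_add (h1 c) (h1 d)) (h2 b)) (h2 a)
    _ = 4 * ε := by ring

theorem c2_BI_sum {ι : Type*} (s : Finset ι) (m : ι → ℂ) (W : ι → T2 → ℂ) (hW : ∀ i, Continuous (W i))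
    (a b c d : ℝ) :
    c2_BI (fun x => ∑ i ∈ s, m i * W i x) a b c d = ∑ i ∈ s, m i * c2_BI (W i) a b c d := by
  classical
  induction s using Finset.induction_on with
  | empty => simp [c2_BI]
  | insert i s hi ih =>
    rw [Finset.sum_insert hi, ← ih]
    have e : (fun x => ∑ j ∈ insert i s, m j * W j x) =
        fun x => (∑ j ∈ s, m j * W j x) - (-m i) * W i x := by
      funext x; rw [Finset.sum_insert hi]; ring
    have hc : Continuous (fun x => ∑ j ∈ s, m j * W j x) :=
      continuous_finsetSum _ fun j _ => continuous_const.mul (hW j)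
    rw [e, c2_BI_sub _ (fun x => -m i * W i x) hc (continuous_const.mul (hW i))]
    have : c2_BI (fun x => -m i * W i x) a b c d = -m i * c2_BI (W i) a b c d := by
      unfold c2_BI
      simp only [intervalIntegral.integral_const_mul]
      ring
    rw [this]
    ring

/-- area integral -/
noncomputable def c2_AI (W : T2 → ℂ) (a b c d : ℝ) : ℂ :=
  ∫ x in a..b, ∫ y in c..d, W ((x : UnitAddCircle), (y : UnitAddCircle))

theorem c2_BI_ek (k : ℤ × ℤ) (a b c d : ℝ) :
    c2_BI (ek (-k)) a b c d = 2 * (Real.pi : ℂ) * ((k.1 : ℂ) + (k.2 : ℂ) * I) * c2_AI (ek (-k)) a b c d := by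
  have g := c2_fourier_ftc (-k).1 a b
  have h := c2_fourier_ftc (-k).2 c d
  unfold c2_BI c2_AI ek
  simp only [intervalIntegral.integral_const_mul, intervalIntegral.integral_mul_const]
  set J1 := ∫ x in a..b, fourier (-k).1 (x : UnitAddCircle)
  set J2 := ∫ x in c..d, fourier (-k).2 (x : UnitAddCircle)
  have g' : (fourier (-k).1 (b : UnitAddCircle) : ℂ) = fourier (-k).1 (a : UnitAddCircle) +
    2 * (Real.pi : ℂ) * I * (-k).1 * J1 := by rw [g]; ring
  have h' : (fourier (-k).2 (d : UnitAddCircle) : ℂ) = fourier (-k).2 (c : UnitAddCircle) +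
    2 * (Real.pi : ℂ) * I * (-k).2 * J2 := by rw [h]; ring
  rw [g', h']
  simp only [Prod.fst_neg, Prod.snd_neg, Int.cast_neg]
  ring_nf
  rw [I_sq]
  ring

theorem c2_key_ek (k : ℤ × ℤ) (a b c d : ℝ) :
    (starRingEnd ℂ) (c2_mK k) * c2_BI (ek (-k)) a b c d =
      c2_AI (ek (-k)) a b c d - (b - a) * (d - c) * (if k = 0 then 1 else 0) := by
  by_cases hk : k = 0
  · subst hk
    simp only [c2_mK, if_true, map_zero, zero_mul, neg_zero]
    unfold c2_AI
    simp [c2_ek_zero]
    ring
  · rw [c2_BI_ek]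
    unfold c2_mK
    rw [if_neg hk, if_neg hk, mul_zero, sub_zero]
    have h1 : ((k.1 : ℂ) + (k.2 : ℂ) * I) ≠ 0 := by
      intro h
      apply hk
      have hre := congrArg Complex.re h
      have him := congrArg Complex.im h
      simp at hre him
      exact Prod.ext hre him
    have h2 : (starRingEnd ℂ) (1 / (2 * (Real.pi : ℂ) * ((k.1 : ℂ) - (k.2 : ℂ) * I))) =
        1 / (2 * (Real.pi : ℂ) * ((k.1 : ℂ) + (k.2 : ℂ) * I)) := by
      rw [map_div₀, map_mul, map_mul, map_sub, map_mul, map_one, Complex.conj_I, Complex.conj_ofReal,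
        map_ofNat, map_intCast, map_intCast]
      ring
    rw [h2]
    have h3 : (Real.pi : ℂ) ≠ 0 := by exact_mod_cast Real.pi_ne_zero
    field_simp


theorem c2_ii_bdd (f : ℝ → ℂ) (hf : Measurable f) (M : ℝ) (hb : ∀ x, ‖f x‖ ≤ M) (a b : ℝ) :
    IntervalIntegrable f volume a b :=
  (intervalIntegrable_const (c := M)).mono_fun' hf.aestronglyMeasurable
    (Filter.Eventually.of_forall hb)

theorem c2_meas_coe2 (φ : T2 → ℂ) (hφ : Measurable φ) (u : UnitAddCircle) :
    Measurable fun y : ℝ => φ (u, (y : UnitAddCircle)) :=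
  hφ.comp (measurable_const.prodMk AddCircle.measurable_mk')

theorem c2_meas_inner (φ : T2 → ℂ) (hφ : Measurable φ) (c d : ℝ) (hcd : c ≤ d) :
    Measurable fun x : ℝ => ∫ y in c..d, φ ((x : UnitAddCircle), (y : UnitAddCircle)) := by
  have h1 : Measurable (fun z : ℝ × ℝ => φ ((z.1 : UnitAddCircle), (z.2 : UnitAddCircle))) :=
    hφ.comp ((AddCircle.measurable_mk'.comp measurable_fst).prodMk
      (AddCircle.measurable_mk'.comp measurable_snd))
  simp only [intervalIntegral.integral_of_le hcd]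
  exact (h1.stronglyMeasurable.integral_prod_right (ν := volume.restrict (Ioc c d))
    (f := fun (x y : ℝ) => φ ((x : UnitAddCircle), (y : UnitAddCircle)))).measurable

theorem c2_bdd_inner (φ : T2 → ℂ) (M : ℝ) (hb : ∀ x, ‖φ x‖ ≤ M) (c d : ℝ) (u : UnitAddCircle) :
    ‖∫ y in c..d, φ (u, (y : UnitAddCircle))‖ ≤ M * |d - c| :=
  intervalIntegral.norm_integral_le_of_norm_le_const (fun _ _ => hb _)

theorem c2_AI_sub (φ ψ : T2 → ℂ) (hφ : Measurable φ) (hψ : Measurable ψ) (M : ℝ)
    (hb : ∀ x, ‖φ x‖ ≤ M) (hb' : ∀ x, ‖ψ x‖ ≤ M) (a b c d : ℝ) (hcd : c ≤ d) :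
    c2_AI (fun x => φ x - ψ x) a b c d = c2_AI φ a b c d - c2_AI ψ a b c d := by
  unfold c2_AI
  rw [← intervalIntegral.integral_sub
    (c2_ii_bdd _ (c2_meas_inner φ hφ c d hcd) _ (fun x => c2_bdd_inner φ M hb c d _) a b)
    (c2_ii_bdd _ (c2_meas_inner ψ hψ c d hcd) _ (fun x => c2_bdd_inner ψ M hb' c d _) a b)]
  congr 1
  funext x
  rw [← intervalIntegral.integral_sub
    (c2_ii_bdd _ (c2_meas_coe2 φ hφ _) M (fun y => hb _) c d)
    (c2_ii_bdd _ (c2_meas_coe2 ψ hψ _) M (fun y => hb' _) c d)]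

theorem c2_prob_circle : IsProbabilityMeasure (volume : Measure UnitAddCircle) :=
  ⟨UnitAddCircle.measure_univ⟩

theorem c2_AI_bound (φ : T2 → ℂ) (hφ : Measurable φ) (M : ℝ) (hb : ∀ x, ‖φ x‖ ≤ M)
    (a b c d : ℝ) (hab : a ≤ b) (hcd : c ≤ d) (hab1 : b ≤ a + 1) (hcd1 : d ≤ c + 1) :
    ‖c2_AI φ a b c d‖ ≤ ∫ x, ‖φ x‖ := by
  have := c2_prob_circle
  have hM : 0 ≤ M := (norm_nonneg _).trans (hb 0)
  have hn : Integrable (fun x : T2 => ‖φ x‖) volume := by
    refine Integrable.of_bound hφ.norm.aestronglyMeasurable M (Filter.Eventually.of_forall ?_)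
    intro x
    rw [norm_norm]
    exact hb x
  have hg0m : Measurable fun u : UnitAddCircle => ∫ v : UnitAddCircle, ‖φ (u, v)‖ := by
    have h1 : StronglyMeasurable (fun z : UnitAddCircle × UnitAddCircle => ‖φ (z.1, z.2)‖) :=
      hφ.norm.stronglyMeasurable
    exact (h1.integral_prod_right (ν := (volume : Measure UnitAddCircle))
      (f := fun (u v : UnitAddCircle) => ‖φ (u, v)‖)).measurable
  have hg0n : ∀ u : UnitAddCircle, 0 ≤ ∫ v : UnitAddCircle, ‖φ (u, v)‖ := fun u =>
    integral_nonneg fun v => norm_nonneg _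
  have hg0b : ∀ u : UnitAddCircle, ‖∫ v : UnitAddCircle, ‖φ (u, v)‖‖ ≤ M := by
    intro u
    have := norm_integral_le_of_norm_le_const (μ := (volume : Measure UnitAddCircle))
      (f := fun v => ‖φ (u, v)‖) (C := M) (Filter.Eventually.of_forall fun v => by
        rw [norm_norm]; exact hb _)
    simpa using this
  have hii : ∀ s t : ℝ, IntervalIntegrable
      (fun x : ℝ => ∫ v : UnitAddCircle, ‖φ ((x : UnitAddCircle), v)‖) volume s t := by
    intro s t
    exact (intervalIntegrable_const (c := M)).mono_fun'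
      (hg0m.comp AddCircle.measurable_mk').aestronglyMeasurable
      (Filter.Eventually.of_forall fun x => hg0b _)
  have hin : ∀ x : ℝ, ‖∫ y in c..d, φ ((x : UnitAddCircle), (y : UnitAddCircle))‖ ≤
      ∫ v : UnitAddCircle, ‖φ ((x : UnitAddCircle), v)‖ := by
    intro x
    have hi : ∀ s t : ℝ, IntervalIntegrable
        (fun y : ℝ => ‖φ ((x : UnitAddCircle), (y : UnitAddCircle))‖) volume s t := fun s t =>
      (c2_ii_bdd _ (c2_meas_coe2 φ hφ _) M (fun y => hb _) s t).norm
    calc ‖∫ y in c..d, φ ((x : UnitAddCircle), (y : UnitAddCircle))‖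
        ≤ ∫ y in c..d, ‖φ ((x : UnitAddCircle), (y : UnitAddCircle))‖ :=
          intervalIntegral.norm_integral_le_integral_norm hcd
      _ ≤ ∫ y in c..(c+1), ‖φ ((x : UnitAddCircle), (y : UnitAddCircle))‖ :=
          intervalIntegral.integral_mono_interval le_rfl hcd hcd1
            (Filter.Eventually.of_forall fun y => norm_nonneg _) (hi _ _)
      _ = ∫ v : UnitAddCircle, ‖φ ((x : UnitAddCircle), v)‖ :=
          UnitAddCircle.intervalIntegral_preimage c (fun v => ‖φ ((x : UnitAddCircle), v)‖)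
  unfold c2_AI
  calc ‖∫ x in a..b, ∫ y in c..d, φ ((x : UnitAddCircle), (y : UnitAddCircle))‖
      ≤ ∫ x in a..b, ∫ v : UnitAddCircle, ‖φ ((x : UnitAddCircle), v)‖ :=
        intervalIntegral.norm_integral_le_of_norm_le hab
          (Filter.Eventually.of_forall fun x _ => hin x) (hii _ _)
    _ ≤ ∫ x in a..(a+1), ∫ v : UnitAddCircle, ‖φ ((x : UnitAddCircle), v)‖ :=
        intervalIntegral.integral_mono_interval le_rfl hab hab1
          (Filter.Eventually.of_forall fun x => hg0n _) (hii _ _)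
    _ = ∫ u : UnitAddCircle, ∫ v : UnitAddCircle, ‖φ (u, v)‖ :=
        UnitAddCircle.intervalIntegral_preimage a
          (fun u => ∫ v : UnitAddCircle, ‖φ (u, v)‖)
    _ = ∫ x, ‖φ x‖ := (integral_prod _ hn).symm

theorem c2_AI_sum (s : Finset (ℤ × ℤ)) (m : ℤ × ℤ → ℂ) (a b c d : ℝ) :
    c2_AI (fun x => ∑ k ∈ s, m k * ek (-k) x) a b c d = ∑ k ∈ s, m k * c2_AI (ek (-k)) a b c d := by
  have hf : ∀ n : ℤ, Continuous fun y : ℝ => (fourier n (y : UnitAddCircle) : ℂ) := fun n =>
    (fourier n).continuous.comp (AddCircle.continuous_mk' 1)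
  have h1 : ∀ x : ℝ, (∫ y in c..d, ∑ k ∈ s, m k * ek (-k) ((x : UnitAddCircle), (y : UnitAddCircle))) =
      ∑ k ∈ s, m k * (fourier (-k).1 (x : UnitAddCircle) *
        ∫ y in c..d, (fourier (-k).2 (y : UnitAddCircle) : ℂ)) := by
    intro x
    rw [intervalIntegral.integral_finsetSum]
    · refine Finset.sum_congr rfl fun k _ => ?_
      unfold ek
      dsimp only
      rw [intervalIntegral.integral_const_mul, intervalIntegral.integral_const_mul]
    · intro k _
      unfold ek
      exact (continuous_const.mul (continuous_const.mul (hf _))).intervalIntegrable _ _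
  unfold c2_AI
  simp only [h1]
  rw [intervalIntegral.integral_finsetSum]
  · refine Finset.sum_congr rfl fun k _ => ?_
    rw [intervalIntegral.integral_const_mul]
    congr 2
    funext x
    unfold ek
    dsimp only
    rw [intervalIntegral.integral_const_mul]
  · intro k _
    exact (continuous_const.mul ((hf _).mul continuous_const)).intervalIntegrable _ _

theorem c2_circ_trig {K : T2 → ℂ} {C : ℝ} (hK : IsBS K C) (p : T2 → ℝ) (hp : IsTrig p)
    (a b c d : ℝ) :
    c2_BI (fun x => (starRingEnd ℂ) (vel K p (fun _ => 0) x)) a b c d =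
      c2_AI (fun x => (p x : ℂ)) a b c d - (b - a) * (d - c) * ((∫ x, p x : ℝ) : ℂ) := by
  obtain ⟨cf, hcf⟩ := hp
  have e1 : (fun x => (starRingEnd ℂ) (vel K p (fun _ => 0) x)) =
      fun x => ∑ k ∈ cf.support, ((starRingEnd ℂ) (cf k) * (starRingEnd ℂ) (c2_mK k)) * ek (-k) x := by
    funext x
    rw [c2_vel_trig hK p cf hcf x, map_sum]
    refine Finset.sum_congr rfl fun k _ => ?_
    rw [map_mul, map_mul, c2_conj_ek]
    ring
  have e2 : (fun x => (p x : ℂ)) = fun x => ∑ k ∈ cf.support, (starRingEnd ℂ) (cf k) * ek (-k) x := by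
    funext x
    have h1 : (p x : ℂ) = (starRingEnd ℂ) (p x : ℂ) := (Complex.conj_ofReal _).symm
    rw [h1, hcf x, Finsupp.sum, map_sum]
    refine Finset.sum_congr rfl fun k _ => ?_
    rw [map_mul, c2_conj_ek]
  have e3 : ((∫ x, p x : ℝ) : ℂ) = ∑ k ∈ cf.support, (starRingEnd ℂ) (cf k) * (if k = 0 then 1 else 0) := by
    rw [← integral_complex_ofReal]
    have : (fun x => ((p x : ℝ) : ℂ)) = fun x => ∑ k ∈ cf.support, (starRingEnd ℂ) (cf k) * ek (-k) x := e2
    rw [this, integral_finsetSum]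
    · refine Finset.sum_congr rfl fun k _ => ?_
      rw [integral_const_mul, c2_integral_ek]
      simp only [neg_eq_zero]
    · intro k _
      have := c2_prob_circle
      refine Integrable.const_mul ?_ _
      exact Integrable.of_bound (c2_ek_continuous _).aestronglyMeasurable 1
        (Filter.Eventually.of_forall fun x => (c2_norm_ek _ x).le)
  rw [e1, e2, e3, c2_BI_sum _ _ (fun k => ek (-k)) (fun k => c2_ek_continuous _), c2_AI_sum, Finset.mul_sum,
    ← Finset.sum_sub_distrib]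
  refine Finset.sum_congr rfl fun k _ => ?_
  have := c2_key_ek k a b c d
  rw [mul_assoc, this]
  ring

theorem circulation {K : T2 → ℂ} {C : ℝ} (hK : IsBS K C) (ω : T2 → ℝ) (hω : Measurable ω)
    (hM : ∀ x, |ω x| ≤ 1) (h0 : ∫ x, ω x = 0) (a b c d : ℝ) (hab : a ≤ b) (hcd : c ≤ d)
    (hab1 : b ≤ a + 1) (hcd1 : d ≤ c + 1) :
    (∫ x in a..b, (starRingEnd ℂ) (vel K ω (fun _ => 0) (pr ((x:ℂ) + (c:ℂ) * I)))) -
    (∫ x in a..b, (starRingEnd ℂ) (vel K ω (fun _ => 0) (pr ((x:ℂ) + (d:ℂ) * I)))) +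
    I * (∫ y in c..d, (starRingEnd ℂ) (vel K ω (fun _ => 0) (pr ((b:ℂ) + (y:ℂ) * I)))) -
    I * (∫ y in c..d, (starRingEnd ℂ) (vel K ω (fun _ => 0) (pr ((a:ℂ) + (y:ℂ) * I)))) =
    ∫ x in a..b, ∫ y in c..d, ((ω (pr ((x:ℂ) + (y:ℂ) * I)) : ℝ) : ℂ) := by
  simp only [c2_pr_real]
  change c2_BI (fun x => (starRingEnd ℂ) (vel K ω (fun _ => 0) x)) a b c d =
    c2_AI (fun x => (ω x : ℂ)) a b c d
  have := c2_prob_circle
  obtain ⟨A, hA, hvd⟩ := c2_vel_diff0 hK
  obtain ⟨pn, htrig, hpb, hlim⟩ := trig_approx_L1 ω hω hM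
  set η : ℕ → ℝ := fun n => ∫ x, |pn n x - ω x| with hη
  have hη0 : ∀ n, 0 ≤ η n := fun n => integral_nonneg fun x => abs_nonneg _
  have hmp : ∀ n, Measurable (pn n) := fun n => (pn n).continuous.measurable
  have hip : ∀ n, Integrable (pn n) (volume : Measure T2) := fun n =>
    Integrable.of_bound (pn n).continuous.aestronglyMeasurable 1
      (Filter.Eventually.of_forall fun x => by rw [Real.norm_eq_abs]; exact hpb n x)
  have hiω : Integrable ω (volume : Measure T2) :=
    Integrable.of_bound hω.aestronglyMeasurable 1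
      (Filter.Eventually.of_forall fun x => by rw [Real.norm_eq_abs]; exact hM x)
  -- the three estimates
  have est : ∀ n, ‖c2_BI (fun x => (starRingEnd ℂ) (vel K ω (fun _ => 0) x)) a b c d -
      c2_AI (fun x => (ω x : ℂ)) a b c d‖ ≤ 4 * (A * Real.sqrt (η n)) + η n +
        |(b - a) * (d - c)| * η n := by
    intro n
    have c1 : Continuous fun x => (starRingEnd ℂ) (vel K ω (fun _ => 0) x) :=
      Complex.continuous_conj.comp (vel0_continuous hK ω hω hM)
    have c2 : Continuous fun x => (starRingEnd ℂ) (vel K (pn n) (fun _ => 0) x) :=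
      Complex.continuous_conj.comp (vel0_continuous hK (pn n) (hmp n) (hpb n))
    have b1 : ‖c2_BI (fun x => (starRingEnd ℂ) (vel K ω (fun _ => 0) x)) a b c d -
        c2_BI (fun x => (starRingEnd ℂ) (vel K (pn n) (fun _ => 0) x)) a b c d‖ ≤
        4 * (A * Real.sqrt (η n)) := by
      rw [← c2_BI_sub _ _ c1 c2]
      refine c2_BI_bound _ a b c d _ hab hcd hab1 hcd1 ?_
      intro x
      rw [← map_sub, RCLike.norm_conj, norm_sub_rev]
      have h := hvd (pn n) ω (hmp n) hω (hpb n) hM (η n) le_rfl x x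
      rw [sub_self, norm_zero, c2_phi_zero, mul_zero, zero_add] at h
      exact h
    have b2 : ‖c2_AI (fun x => (pn n x : ℂ)) a b c d - c2_AI (fun x => (ω x : ℂ)) a b c d‖ ≤ η n := by
      have m1 : Measurable fun x => ((pn n x : ℝ) : ℂ) := Complex.measurable_ofReal.comp (hmp n)
      have m2 : Measurable fun x => ((ω x : ℝ) : ℂ) := Complex.measurable_ofReal.comp hω
      rw [← c2_AI_sub _ _ m1 m2 1 (fun x => by
        rw [Complex.norm_real, Real.norm_eq_abs]; exact hpb n x) (fun x => by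
        rw [Complex.norm_real, Real.norm_eq_abs]; exact hM x) a b c d hcd]
      refine (c2_AI_bound _ (m1.sub m2) 2 (fun x => ?_) a b c d hab hcd hab1 hcd1).trans ?_
      · refine (norm_sub_le _ _).trans ?_
        rw [Complex.norm_real, Real.norm_eq_abs, Complex.norm_real, Real.norm_eq_abs]
        linarith [hpb n x, hM x]
      · rw [hη]
        apply le_of_eq
        congr 1
        funext x
        change ‖((pn n x : ℝ) : ℂ) - ((ω x : ℝ) : ℂ)‖ = _
        rw [← Complex.ofReal_sub, Complex.norm_real, Real.norm_eq_abs]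
    have b3 : |∫ x, pn n x| ≤ η n := by
      have e : ∫ x, pn n x = ∫ x, (pn n x - ω x) := by
        rw [integral_sub (hip n) hiω, h0, sub_zero]
      rw [e]
      exact norm_integral_le_integral_norm (μ := (volume : Measure T2)) (fun x => pn n x - ω x)
    have e4 := c2_circ_trig hK (pn n) (htrig n) a b c d
    have e5 : c2_BI (fun x => (starRingEnd ℂ) (vel K ω (fun _ => 0) x)) a b c d -
        c2_AI (fun x => (ω x : ℂ)) a b c d =
        (c2_BI (fun x => (starRingEnd ℂ) (vel K ω (fun _ => 0) x)) a b c d -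
        c2_BI (fun x => (starRingEnd ℂ) (vel K (pn n) (fun _ => 0) x)) a b c d) +
        (c2_AI (fun x => (pn n x : ℂ)) a b c d - c2_AI (fun x => (ω x : ℂ)) a b c d) -
        (b - a) * (d - c) * ((∫ x, pn n x : ℝ) : ℂ) := by
      rw [e4]; ring
    rw [e5]
    refine (norm_sub_le _ _).trans (add_le_add ((norm_add_le _ _).trans (add_le_add b1 b2)) ?_)
    have e6 : ((b : ℂ) - a) * (d - c) * ((∫ x, pn n x : ℝ) : ℂ) =
      (((b - a) * (d - c) * (∫ x, pn n x) : ℝ) : ℂ) := by push_cast; ring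
    rw [e6, Complex.norm_real, Real.norm_eq_abs, abs_mul]
    exact mul_le_mul_of_nonneg_left b3 (abs_nonneg _)
  have hlim2 : Tendsto (fun n => 4 * (A * Real.sqrt (η n)) + η n +
        |(b - a) * (d - c)| * η n) atTop (𝓝 0) := by
    have h1 : Tendsto (fun n => Real.sqrt (η n)) atTop (𝓝 0) := by
      have := (Real.continuous_sqrt.tendsto 0).comp hlim
      rw [Real.sqrt_zero] at this
      exact this
    have h2 := (((h1.const_mul A).const_mul 4).add hlim).add (hlim.const_mul |(b - a) * (d - c)|)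
    simpa using h2
  have h3 := ge_of_tendsto' hlim2 est
  have h4 := norm_le_zero_iff.1 h3
  exact sub_eq_zero.1 h4

end Pool.Agent.Helper118.Yud
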