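import Pool.Agent.Helper118.Yud.Defs

set_option autoImplicit false

namespace Pool.Agent.Helper118.Yud

open MeasureTheory Complex Set Filter Topology


/-- boundary integral over the rectangle `[a,b] x [c,d]` -/
noncomputable def c3_ceB (f : ℂ → ℂ) (a b c d : ℝ) : ℂ :=
  (∫ x in a..b, f ((x:ℂ) + (c:ℂ) * I)) - (∫ x in a..b, f ((x:ℂ) + (d:ℂ) * I)) +
      I * (∫ y in c..d, f ((b:ℂ) + (y:ℂ) * I)) - I * (∫ y in c..d, f ((a:ℂ) + (y:ℂ) * I))

noncomputable def c3_ceA (u v : ℝ) : ℝ := u * Real.arctan (v / u)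

theorem c3_ceA_cont : Continuous (fun p : ℝ × ℝ => c3_ceA p.1 p.2) := by
  rw [continuous_iff_continuousAt]
  intro p
  by_cases hp : p.1 = 0
  · have h0 : c3_ceA p.1 p.2 = 0 := by rw [c3_ceA, hp, zero_mul]
    show Tendsto (fun p : ℝ × ℝ => c3_ceA p.1 p.2) (𝓝 p) (𝓝 (c3_ceA p.1 p.2))
    rw [h0]
    have hlim : Tendsto (fun q : ℝ × ℝ => |q.1| * (Real.pi / 2)) (𝓝 p) (𝓝 0) := by
      have : Tendsto (fun q : ℝ × ℝ => |q.1| * (Real.pi / 2)) (𝓝 p) (𝓝 (|p.1| * (Real.pi / 2))) := by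
        apply Continuous.tendsto
        fun_prop
      rwa [hp, abs_zero, zero_mul] at this
    refine squeeze_zero_norm (fun q => ?_) hlim
    rw [Real.norm_eq_abs, c3_ceA, abs_mul]
    refine mul_le_mul_of_nonneg_left ?_ (abs_nonneg _)
    exact (abs_lt.mpr ⟨Real.neg_pi_div_two_lt_arctan _, Real.arctan_lt_pi_div_two _⟩).le
  · unfold c3_ceA
    exact continuousAt_fst.mul
      (Real.continuous_arctan.continuousAt.comp (continuousAt_snd.div continuousAt_fst hp))

noncomputable def c3_ceE (z : ℂ) : ℂ :=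
  -(2 / Real.pi) * (z * (Real.log ‖z‖ : ℂ) + (c3_ceA z.im z.re : ℂ) + I * (c3_ceA z.re z.im : ℂ))

theorem c3_ceL_cont : Continuous (fun z : ℂ => z * (Real.log ‖z‖ : ℂ)) := by
  rw [continuous_iff_continuousAt]
  intro z
  by_cases hz : z = 0
  · subst hz
    unfold ContinuousAt
    simp only [zero_mul]
    have hlim : Tendsto (fun z : ℂ => |‖z‖ * Real.log ‖z‖|) (𝓝 0) (𝓝 0) := by
      have h1 : Continuous (fun z : ℂ => |‖z‖ * Real.log ‖z‖|) :=
        continuous_abs.comp (Real.continuous_mul_log.comp continuous_norm)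
      have h2 := h1.tendsto 0
      simpa using h2
    refine squeeze_zero_norm (fun z => ?_) hlim
    rw [norm_mul, Complex.norm_real, Real.norm_eq_abs, abs_mul, abs_of_nonneg (norm_nonneg z)]
  · refine continuousAt_id.mul (Complex.continuous_ofReal.continuousAt.comp ?_)
    exact (Real.continuousAt_log (norm_ne_zero_iff.mpr hz)).comp continuous_norm.continuousAt

theorem c3_ceE_cont : Continuous c3_ceE := by
  unfold c3_ceE
  have h1 : Continuous (fun z : ℂ => (c3_ceA z.im z.re : ℂ)) :=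
    Complex.continuous_ofReal.comp
      (c3_ceA_cont.comp (Complex.continuous_im.prodMk Complex.continuous_re))
  have h2 : Continuous (fun z : ℂ => (c3_ceA z.re z.im : ℂ)) :=
    Complex.continuous_ofReal.comp
      (c3_ceA_cont.comp (Complex.continuous_re.prodMk Complex.continuous_im))
  exact continuous_const.mul ((c3_ceL_cont.add h1).add (continuous_const.mul h2))

theorem c3_ce_arctan_add {x y : ℝ} (hx : x ≠ 0) (hy : y ≠ 0) :
    Real.arctan (x / y) + Real.arctan (y / x) = Real.sign x * Real.sign y * (Real.pi / 2) := by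
  have hinv : y / x = (x / y)⁻¹ := by rw [inv_div]
  rcases lt_or_gt_of_ne hx with hx' | hx' <;> rcases lt_or_gt_of_ne hy with hy' | hy'
  · rw [hinv, Real.arctan_inv_of_pos (div_pos_of_neg_of_neg hx' hy'), Real.sign_of_neg hx',
      Real.sign_of_neg hy']
    ring
  · rw [hinv, Real.arctan_inv_of_neg (div_neg_of_neg_of_pos hx' hy'), Real.sign_of_neg hx',
      Real.sign_of_pos hy']
    ring
  · rw [hinv, Real.arctan_inv_of_neg (div_neg_of_pos_of_neg hx' hy'), Real.sign_of_pos hx',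
      Real.sign_of_neg hy']
    ring
  · rw [hinv, Real.arctan_inv_of_pos (div_pos hx' hy'), Real.sign_of_pos hx',
      Real.sign_of_pos hy']
    ring

theorem c3_ce_arg {z : ℂ} (hz : 0 < z.re) : Complex.arg z = Real.arctan (z.im / z.re) := by
  have h1 : |Complex.arg z| < Real.pi / 2 := Complex.abs_arg_lt_pi_div_two_iff.mpr (Or.inl hz)
  have h2 := abs_lt.mp h1
  rw [← Complex.tan_arg, Real.arctan_tan h2.1 h2.2]

theorem c3_ce_log {z : ℂ} (hz : 0 < z.re) :
    Complex.log z = (Real.log ‖z‖ : ℂ) + (Real.arctan (z.im / z.re) : ℂ) * I := by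
  rw [Complex.log, c3_ce_arg hz]

theorem c3_ce_log' {z : ℂ} (hz : z.re < 0) :
    Complex.log (-z) = (Real.log ‖z‖ : ℂ) + (Real.arctan (z.im / z.re) : ℂ) * I := by
  have h := c3_ce_log (z := -z) (by simpa using hz)
  rw [h, norm_neg, Complex.neg_im, Complex.neg_re, neg_div_neg_eq]

theorem c3_ceE_eq {z : ℂ} (hx : z.re ≠ 0) (hy : z.im ≠ 0) :
    c3_ceE z = -(I / 2) * ((Real.sign z.re * Real.sign z.im : ℝ) : ℂ) * ((starRingEnd ℂ) z - z)
      - (2 / Real.pi) * z * ((Real.log ‖z‖ : ℂ) + (Real.arctan (z.im / z.re) : ℂ) * I) := by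
  have hpi : (Real.pi : ℂ) ≠ 0 := by exact_mod_cast Real.pi_ne_zero
  have h1 : (starRingEnd ℂ) z - z = -(2 * I * z.im) := by
    apply Complex.ext <;> simp; ring
  have h2 : (Real.arctan (z.re / z.im) : ℂ) + (Real.arctan (z.im / z.re) : ℂ) =
      ((Real.sign z.re * Real.sign z.im : ℝ) : ℂ) * ((Real.pi : ℂ) / 2) := by
    have := congrArg (fun t : ℝ => (t : ℂ)) (c3_ce_arctan_add hx hy)
    push_cast at this ⊢
    exact this
  have h3 : z = (z.re : ℂ) + (z.im : ℂ) * I := (Complex.re_add_im z).symm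
  have h4 : (Real.arctan (z.re / z.im) : ℂ) =
      ((Real.sign z.re * Real.sign z.im : ℝ) : ℂ) * ((Real.pi : ℂ) / 2) -
        (Real.arctan (z.im / z.re) : ℂ) := by
    rw [← h2]; ring
  rw [h1]
  unfold c3_ceE c3_ceA
  rw [Complex.ofReal_mul, Complex.ofReal_mul, h4]
  generalize ((Real.sign z.re * Real.sign z.im : ℝ) : ℂ) = s
  generalize (Real.arctan (z.im / z.re) : ℂ) = t
  generalize (Real.log ‖z‖ : ℂ) = L
  conv_lhs => rw [h3]
  conv_rhs => rw [h3]
  simp only [Complex.add_re, Complex.add_im, Complex.ofReal_re, Complex.ofReal_im, Complex.mul_re,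
    Complex.mul_im, Complex.I_re, Complex.I_im]
  have hI : I * I = -1 := Complex.I_mul_I
  push_cast
  field_simp
  ring_nf
  simp only [Complex.I_sq]
  ring

theorem c3_ceB_zero_left (f : ℂ → ℂ) (d : ℝ) : c3_ceB f 0 0 0 d = 0 := by simp [c3_ceB]
theorem c3_ceB_zero_right (f : ℂ → ℂ) (b : ℝ) : c3_ceB f 0 b 0 0 = 0 := by simp [c3_ceB]

theorem c3_ceB_swap (f : ℂ → ℂ) (a b c d : ℝ) : c3_ceB f b a c d = -c3_ceB f a b c d := by
  unfold c3_ceB
  rw [intervalIntegral.integral_symm a b, intervalIntegral.integral_symm a b]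
  ring

theorem c3_ceB_swap' (f : ℂ → ℂ) (a b c d : ℝ) : c3_ceB f a b d c = -c3_ceB f a b c d := by
  unfold c3_ceB
  rw [intervalIntegral.integral_symm c d, intervalIntegral.integral_symm c d]
  ring

theorem c3_ce_sign_int (b : ℝ) : ∫ x in (0:ℝ)..b, Real.sign x = |b| := by
  rcases le_total 0 b with hb | hb
  · rw [intervalIntegral.integral_of_le hb, abs_of_nonneg hb,
      setIntegral_congr_fun measurableSet_Ioc (g := fun _ => (1 : ℝ))
        (fun x hx => Real.sign_of_pos hx.1)]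
    simp [hb]
  · rw [intervalIntegral.integral_symm, intervalIntegral.integral_of_le hb, abs_of_nonpos hb,
      integral_Ioc_eq_integral_Ioo,
      setIntegral_congr_fun measurableSet_Ioo (g := fun _ => (-1 : ℝ))
        (fun x hx => Real.sign_of_neg hx.2)]
    simp [hb]

theorem c3_ce_sign_int2 (a b c d : ℝ) :
    (∫ x in a..b, ∫ y in c..d, ((Real.sign x * Real.sign y : ℝ) : ℂ)) =
      (((∫ x in a..b, Real.sign x) * (∫ y in c..d, Real.sign y) : ℝ) : ℂ) := by
  simp only [Complex.ofReal_mul, intervalIntegral.integral_const_mul,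
    intervalIntegral.integral_mul_const, intervalIntegral.integral_ofReal]

theorem c3_ce_mem {ρ b d x y : ℝ} (h : (b:ℂ) + (d:ℂ) * I ∈ Metric.ball (0:ℂ) ρ) (hx : |x| ≤ |b|)
    (hy : |y| ≤ |d|) : (x:ℂ) + (y:ℂ) * I ∈ Metric.ball (0:ℂ) ρ := by
  rw [mem_ball_zero_iff, Complex.norm_add_mul_I] at h ⊢
  refine lt_of_le_of_lt (Real.sqrt_le_sqrt ?_) h
  exact add_le_add (sq_le_sq.mpr hx) (sq_le_sq.mpr hy)

theorem c3_ce_abs_le {x b : ℝ} (hx : x ∈ uIcc 0 b) : |x| ≤ |b| := by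
  rcases le_total 0 b with hb | hb
  · rw [uIcc_of_le hb] at hx
    rw [abs_of_nonneg hb, abs_of_nonneg hx.1]
    exact hx.2
  · rw [uIcc_of_ge hb] at hx
    rw [abs_of_nonpos hb, abs_of_nonpos hx.2]
    linarith [hx.1]

/-- integrability of `f` on the horizontal segment -/
theorem c3_ce_hor {ρ : ℝ} {f : ℂ → ℂ} (hf : ContinuousOn f (Metric.ball 0 ρ)) {b c : ℝ}
    (h : (b:ℂ) + (c:ℂ) * I ∈ Metric.ball (0:ℂ) ρ) {t : ℝ} (ht : |t| ≤ |c|) :
    IntervalIntegrable (fun x : ℝ => f ((x:ℂ) + (t:ℂ) * I)) volume 0 b := by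
  apply ContinuousOn.intervalIntegrable
  refine hf.comp (by fun_prop) fun x hx => ?_
  exact c3_ce_mem h (c3_ce_abs_le hx) ht

theorem c3_ce_ver {ρ : ℝ} {f : ℂ → ℂ} (hf : ContinuousOn f (Metric.ball 0 ρ)) {b c : ℝ}
    (h : (b:ℂ) + (c:ℂ) * I ∈ Metric.ball (0:ℂ) ρ) {t : ℝ} (ht : |t| ≤ |b|) :
    IntervalIntegrable (fun y : ℝ => f ((t:ℂ) + (y:ℂ) * I)) volume 0 c := by
  apply ContinuousOn.intervalIntegrable
  refine hf.comp (by fun_prop) fun x hx => ?_
  exact c3_ce_mem h ht (c3_ce_abs_le hx)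

theorem c3_ceB_sub {ρ : ℝ} {f g : ℂ → ℂ} (hf : ContinuousOn f (Metric.ball 0 ρ))
    (hg : ContinuousOn g (Metric.ball 0 ρ)) {b d : ℝ}
    (h : (b:ℂ) + (d:ℂ) * I ∈ Metric.ball (0:ℂ) ρ) :
    c3_ceB (fun z => f z - g z) 0 b 0 d = c3_ceB f 0 b 0 d - c3_ceB g 0 b 0 d := by
  unfold c3_ceB
  rw [intervalIntegral.integral_sub (c3_ce_hor hf h (by simp)) (c3_ce_hor hg h (by simp)),
    intervalIntegral.integral_sub (c3_ce_hor hf h le_rfl) (c3_ce_hor hg h le_rfl),
    intervalIntegral.integral_sub (c3_ce_ver hf h le_rfl) (c3_ce_ver hg h le_rfl),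
    intervalIntegral.integral_sub (c3_ce_ver hf h (by simp)) (c3_ce_ver hg h (by simp))]
  ring

theorem c3_ceB_conj (k : ℂ) (b d : ℝ) :
    c3_ceB (fun z => k * (starRingEnd ℂ) z) 0 b 0 d = k * (2 * I * b * d) := by
  unfold c3_ceB
  have c1 : ∀ t : ℝ, Continuous (fun x : ℝ => k * (starRingEnd ℂ) ((x:ℂ) + (t:ℂ) * I)) := by
    intro t
    exact continuous_const.mul (Complex.continuous_conj.comp (by fun_prop))
  have c2 : ∀ t : ℝ, Continuous (fun y : ℝ => k * (starRingEnd ℂ) ((t:ℂ) + (y:ℂ) * I)) := by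
    intro t
    exact continuous_const.mul (Complex.continuous_conj.comp (by fun_prop))
  rw [← intervalIntegral.integral_sub ((c1 0).intervalIntegrable _ _)
    ((c1 d).intervalIntegrable _ _), add_sub_assoc, ← mul_sub,
    ← intervalIntegral.integral_sub ((c2 b).intervalIntegrable _ _)
    ((c2 0).intervalIntegrable _ _)]
  have e1 : ∀ x : ℝ, k * (starRingEnd ℂ) ((x:ℂ) + ((0:ℝ):ℂ) * I) -
      k * (starRingEnd ℂ) ((x:ℂ) + (d:ℂ) * I) = k * d * I := by
    intro x
    simp only [map_add, map_mul, Complex.conj_ofReal, Complex.conj_I, Complex.ofReal_zero,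
      map_zero]
    ring
  have e2 : ∀ y : ℝ, k * (starRingEnd ℂ) ((b:ℂ) + (y:ℂ) * I) -
      k * (starRingEnd ℂ) (((0:ℝ):ℂ) + (y:ℂ) * I) = k * b := by
    intro y
    simp only [map_add, map_mul, Complex.conj_ofReal, Complex.conj_I, Complex.ofReal_zero,
      map_zero]
    ring
  simp only [e1, e2, intervalIntegral.integral_const, sub_zero, Complex.real_smul]
  ring

theorem c3_ce_sign_mul (b : ℝ) : Real.sign b * b = |b| := by
  rcases lt_trichotomy b 0 with h | h | h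
  · rw [Real.sign_of_neg h, abs_of_neg h]; ring
  · simp [h]
  · rw [Real.sign_of_pos h, abs_of_pos h]; ring

theorem c3_ceB_E (b d : ℝ) : c3_ceB c3_ceE 0 b 0 d = ((|b| * |d| : ℝ) : ℂ) := by
  by_cases hb : b = 0
  · subst hb; rw [c3_ceB_zero_left]; simp
  by_cases hd : d = 0
  · subst hd; rw [c3_ceB_zero_right]; simp
  set s : ℂ := ((Real.sign b * Real.sign d : ℝ) : ℂ) with hs
  set g : ℂ → ℂ := fun z => c3_ceE z + (I / 2) * s * (starRingEnd ℂ) z with hg
  have hgc : Continuous g := c3_ceE_cont.add (continuous_const.mul Complex.continuous_conj)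
  have hsx : ∀ x ∈ Ioo (min 0 b) (max 0 b), Real.sign x = Real.sign b ∧ x ≠ 0 := by
    intro x hx
    rcases lt_or_gt_of_ne hb with h | h
    · rw [min_eq_right h.le, max_eq_left h.le] at hx
      exact ⟨by rw [Real.sign_of_neg hx.2, Real.sign_of_neg h], hx.2.ne⟩
    · rw [min_eq_left h.le, max_eq_right h.le] at hx
      exact ⟨by rw [Real.sign_of_pos hx.1, Real.sign_of_pos h], hx.1.ne'⟩
  have hsy : ∀ x ∈ Ioo (min 0 d) (max 0 d), Real.sign x = Real.sign d ∧ x ≠ 0 := by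
    intro x hx
    rcases lt_or_gt_of_ne hd with h | h
    · rw [min_eq_right h.le, max_eq_left h.le] at hx
      exact ⟨by rw [Real.sign_of_neg hx.2, Real.sign_of_neg h], hx.2.ne⟩
    · rw [min_eq_left h.le, max_eq_right h.le] at hx
      exact ⟨by rw [Real.sign_of_pos hx.1, Real.sign_of_pos h], hx.1.ne'⟩
  have hgd : DifferentiableOn ℂ g (Ioo (min 0 b) (max 0 b) ×ℂ Ioo (min 0 d) (max 0 d)) := by
    have hgeq : ∀ z ∈ Ioo (min 0 b) (max 0 b) ×ℂ Ioo (min 0 d) (max 0 d), g z =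
        (I / 2) * s * z - (2 / Real.pi) * z *
          ((Real.log ‖z‖ : ℂ) + (Real.arctan (z.im / z.re) : ℂ) * I) := by
      intro z hz
      have hz1 : z.re ∈ Ioo (min 0 b) (max 0 b) := hz.1
      have hz2 : z.im ∈ Ioo (min 0 d) (max 0 d) := hz.2
      simp only [hg]
      rw [c3_ceE_eq (hsx _ hz1).2 (hsy _ hz2).2, (hsx _ hz1).1, (hsy _ hz2).1, ← hs]
      ring
    rcases lt_or_gt_of_ne hb with h | h
    · have hneg : ∀ z ∈ Ioo (min 0 b) (max 0 b) ×ℂ Ioo (min 0 d) (max 0 d), z.re < 0 := by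
        intro z hz
        have hz1 : z.re ∈ Ioo (min 0 b) (max 0 b) := hz.1
        rw [max_eq_left h.le] at hz1
        exact hz1.2
      refine DifferentiableOn.congr (f := fun z => (I / 2) * s * z - (2 / Real.pi) * z *
        Complex.log (-z)) ?_ fun z hz => ?_
      · intro z hz
        have hsl : -z ∈ Complex.slitPlane := Or.inl (by simpa using hneg z hz)
        have hl : DifferentiableAt ℂ (fun z : ℂ => Complex.log (-z)) z :=
          (differentiableAt_id.neg).clog hsl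
        exact (((differentiableAt_id.const_mul _).sub
          ((differentiableAt_id.const_mul _).mul hl))).differentiableWithinAt
      · rw [hgeq z hz, c3_ce_log' (hneg z hz)]
    · have hpos : ∀ z ∈ Ioo (min 0 b) (max 0 b) ×ℂ Ioo (min 0 d) (max 0 d), 0 < z.re := by
        intro z hz
        have hz1 : z.re ∈ Ioo (min 0 b) (max 0 b) := hz.1
        rw [min_eq_left h.le] at hz1
        exact hz1.1
      refine DifferentiableOn.congr (f := fun z => (I / 2) * s * z - (2 / Real.pi) * z *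
        Complex.log z) ?_ fun z hz => ?_
      · intro z hz
        have hsl : z ∈ Complex.slitPlane := Or.inl (hpos z hz)
        have hl : DifferentiableAt ℂ (fun z : ℂ => Complex.log z) z :=
          differentiableAt_id.clog hsl
        exact (((differentiableAt_id.const_mul _).sub
          ((differentiableAt_id.const_mul _).mul hl))).differentiableWithinAt
      · rw [hgeq z hz, c3_ce_log (hpos z hz)]
  have h0 := Complex.integral_boundary_rect_eq_zero_of_continuousOn_of_differentiableOn g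
    (⟨0, 0⟩ : ℂ) (⟨b, d⟩ : ℂ) hgc.continuousOn hgd
  have h1 : c3_ceB g 0 b 0 d = 0 := h0
  have h2 : c3_ceB c3_ceE 0 b 0 d = c3_ceB g 0 b 0 d -
      c3_ceB (fun z => (I / 2) * s * (starRingEnd ℂ) z) 0 b 0 d := by
    have hkc : Continuous (fun z : ℂ => (I / 2) * s * (starRingEnd ℂ) z) :=
      continuous_const.mul Complex.continuous_conj
    have h3 := c3_ceB_sub (ρ := ‖(b:ℂ) + (d:ℂ) * I‖ + 1) hgc.continuousOn
      hkc.continuousOn (b := b) (d := d)
      (by rw [mem_ball_zero_iff]; linarith)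
    rw [← h3]
    congr 1
    ext z
    simp only [hg]
    ring
  rw [h2, h1, c3_ceB_conj, hs, ← c3_ce_sign_mul b, ← c3_ce_sign_mul d]
  push_cast
  linear_combination (-(Real.sign b : ℂ) * (Real.sign d : ℂ) * b * d) * Complex.I_mul_I

theorem corner_expansion (ρ : ℝ) (hρ : 0 < ρ) (w : ℂ → ℂ) (hw : ContinuousOn w (Metric.ball 0 ρ))
    (h0 : w 0 = 0)
    (hcirc : ∀ a b c d : ℝ, a ≤ b → c ≤ d → (∀ x ∈ Icc a b, ∀ y ∈ Icc c d, (x:ℂ) + (y:ℂ) * I ∈ Metric.ball (0:ℂ) ρ) →
      (∫ x in a..b, w ((x:ℂ) + (c:ℂ) * I)) - (∫ x in a..b, w ((x:ℂ) + (d:ℂ) * I)) +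
      I * (∫ y in c..d, w ((b:ℂ) + (y:ℂ) * I)) - I * (∫ y in c..d, w ((a:ℂ) + (y:ℂ) * I)) =
      ∫ x in a..b, ∫ y in c..d, ((Real.sign x * Real.sign y : ℝ) : ℂ)) :
    ∃ h : ℂ → ℂ, DifferentiableOn ℂ h (Metric.ball 0 ρ) ∧ h 0 = 0 ∧
      ∀ z ∈ Metric.ball (0:ℂ) ρ, 0 < z.re → 0 < z.im →
        w z = -(I / 2) * ((starRingEnd ℂ) z - z) - (2 / Real.pi) * z * Complex.log z + h z := by
  have hwB : ∀ b d : ℝ, (b:ℂ) + (d:ℂ) * I ∈ Metric.ball (0:ℂ) ρ →
      c3_ceB w 0 b 0 d = ((|b| * |d| : ℝ) : ℂ) := by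
    intro b d h
    have key : ∀ a b' c d' : ℝ, a ≤ b' → c ≤ d' → (∀ x ∈ Icc a b', |x| ≤ |b|) →
        (∀ y ∈ Icc c d', |y| ≤ |d|) → c3_ceB w a b' c d' =
          (((∫ x in a..b', Real.sign x) * (∫ y in c..d', Real.sign y) : ℝ) : ℂ) := by
      intro a b' c d' h1 h2 h3 h4
      rw [← c3_ce_sign_int2]
      exact hcirc a b' c d' h1 h2 fun x hx y hy => c3_ce_mem h (h3 x hx) (h4 y hy)
    have hs0 : ∀ t : ℝ, ∫ x in t..(0:ℝ), Real.sign x = -|t| := fun t => by
      rw [intervalIntegral.integral_symm, c3_ce_sign_int]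
    have hx1 : 0 ≤ b → ∀ x ∈ Icc 0 b, |x| ≤ |b| := fun hb x hx =>
      c3_ce_abs_le (by rw [uIcc_of_le hb]; exact hx)
    have hx2 : b ≤ 0 → ∀ x ∈ Icc b 0, |x| ≤ |b| := fun hb x hx =>
      c3_ce_abs_le (by rw [uIcc_of_ge hb]; exact hx)
    have hy1 : 0 ≤ d → ∀ x ∈ Icc 0 d, |x| ≤ |d| := fun hb x hx =>
      c3_ce_abs_le (by rw [uIcc_of_le hb]; exact hx)
    have hy2 : d ≤ 0 → ∀ x ∈ Icc d 0, |x| ≤ |d| := fun hb x hx =>
      c3_ce_abs_le (by rw [uIcc_of_ge hb]; exact hx)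
    rcases le_total 0 b with hb | hb <;> rcases le_total 0 d with hd | hd
    · rw [key 0 b 0 d hb hd (hx1 hb) (hy1 hd), c3_ce_sign_int, c3_ce_sign_int]
    · rw [← neg_neg (c3_ceB w 0 b 0 d), ← c3_ceB_swap', key 0 b d 0 hb hd (hx1 hb) (hy2 hd),
        c3_ce_sign_int, hs0]
      push_cast
      ring
    · rw [← neg_neg (c3_ceB w 0 b 0 d), ← c3_ceB_swap, key b 0 0 d hb hd (hx2 hb) (hy1 hd),
        c3_ce_sign_int, hs0]
      push_cast
      ring
    · rw [← neg_neg (c3_ceB w 0 b 0 d), ← c3_ceB_swap, ← c3_ceB_swap', key b 0 d 0 hb hd (hx2 hb) (hy2 hd),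
        hs0, hs0]
      push_cast
      ring
  set h : ℂ → ℂ := fun z => w z - c3_ceE z with hh
  have hhc : ContinuousOn h (Metric.ball 0 ρ) := hw.sub c3_ceE_cont.continuousOn
  have hhB : ∀ b d : ℝ, (b:ℂ) + (d:ℂ) * I ∈ Metric.ball (0:ℂ) ρ → c3_ceB h 0 b 0 d = 0 := by
    intro b d hbd
    rw [hh, c3_ceB_sub hw c3_ceE_cont.continuousOn hbd, hwB b d hbd, c3_ceB_E, sub_self]
  have hcons : IsConservativeOn h (Metric.ball 0 ρ) := by
    intro z w' hrect
    rw [← add_eq_zero_iff_eq_neg, wedgeIntegral_add_wedgeIntegral_eq]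
    have hcor : ∀ x ∈ uIcc z.re w'.re, ∀ y ∈ uIcc z.im w'.im,
        (x:ℂ) + (y:ℂ) * I ∈ Metric.ball (0:ℂ) ρ := by
      intro x hx y hy
      apply hrect
      show _ ∈ uIcc z.re w'.re ×ℂ uIcc z.im w'.im
      rw [mem_reProdIm]
      simpa using And.intro hx hy
    set a := z.re with ha
    set b := w'.re with hb
    set c := z.im with hc
    set d := w'.im with hd
    have hac := hcor a left_mem_uIcc c left_mem_uIcc
    have had := hcor a left_mem_uIcc d right_mem_uIcc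
    have hbc := hcor b right_mem_uIcc c left_mem_uIcc
    have hbd := hcor b right_mem_uIcc d right_mem_uIcc
    have H1 := intervalIntegral.integral_interval_sub_left (c3_ce_hor hhc hbc le_rfl)
      (c3_ce_hor hhc hac le_rfl)
    have H2 := intervalIntegral.integral_interval_sub_left (c3_ce_hor hhc hbd le_rfl)
      (c3_ce_hor hhc had le_rfl)
    have H3 := intervalIntegral.integral_interval_sub_left (c3_ce_ver hhc hbd le_rfl)
      (c3_ce_ver hhc hbc le_rfl)
    have H4 := intervalIntegral.integral_interval_sub_left (c3_ce_ver hhc had le_rfl)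
      (c3_ce_ver hhc hac le_rfl)
    have B1 := hhB a c hac
    have B2 := hhB a d had
    have B3 := hhB b c hbc
    have B4 := hhB b d hbd
    unfold c3_ceB at B1 B2 B3 B4
    simp only [smul_eq_mul]
    rw [← H1, ← H2, ← H3, ← H4]
    linear_combination B4 - B3 - B2 + B1
  have hdiff : DifferentiableOn ℂ h (Metric.ball 0 ρ) :=
    (isConservativeOn_and_continuousOn_iff_isDifferentiableOn Metric.isOpen_ball).mp ⟨hcons, hhc⟩
  refine ⟨h, hdiff, ?_, fun z hz h1 h2 => ?_⟩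
  · simp [hh, h0, c3_ceE, c3_ceA]
  · have h3 := c3_ceE_eq h1.ne' h2.ne'
    rw [Real.sign_of_pos h1, Real.sign_of_pos h2, ← c3_ce_log h1] at h3
    simp only [hh]
    rw [h3]
    push_cast
    ring

end Pool.Agent.Helper118.Yud
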