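import Pool.Agent.Helper118.Yud.Defs

set_option autoImplicit false

namespace Pool.Agent.Helper118.Yud

open MeasureTheory Complex Set Filter Topology


theorem c4a_lx_identity (r : ℝ) (hr : 0 < r) (W P : ℂ → ℂ) (hW : DifferentiableOn ℂ W (Metric.ball 0 r))
    (hP : DifferentiableOn ℂ P (Metric.ball 0 r))
    (hev : ∀ᶠ t : ℝ in 𝓝 0, W (t:ℂ) ∈ slitPlane ∧ P (t:ℂ) = W (t:ℂ) * Complex.log (W (t:ℂ))) :
    ∀ z ∈ Metric.ball (0:ℂ) r, deriv P z * W z - P z * deriv W z = W z * deriv W z := by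
  have hWa := hW.analyticOnNhd Metric.isOpen_ball
  have hPa := hP.analyticOnNhd Metric.isOpen_ball
  have hF : AnalyticOnNhd ℂ (fun z => deriv P z * W z - P z * deriv W z - W z * deriv W z)
      (Metric.ball (0:ℂ) r) :=
    ((hPa.deriv.mul hWa).sub (hPa.mul hWa.deriv)).sub (hWa.mul hWa.deriv)
  have hball : ∀ᶠ t : ℝ in 𝓝 0, (t : ℂ) ∈ Metric.ball (0:ℂ) r := by
    have hc : Tendsto (fun t : ℝ => (t : ℂ)) (𝓝 0) (𝓝 ((0 : ℝ) : ℂ)) :=
      Complex.continuous_ofReal.tendsto 0
    rw [Complex.ofReal_zero] at hc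
    exact hc.eventually (Metric.ball_mem_nhds 0 hr)
  have hreal : ∀ᶠ t : ℝ in 𝓝 0, deriv P (t:ℂ) * W t - P t * deriv W t - W t * deriv W t = 0 := by
    filter_upwards [hev.eventually_nhds, hball, hev] with t ht hb ht0
    have dW : HasDerivAt (fun s : ℝ => W (s:ℂ)) (deriv W (t:ℂ)) t :=
      ((hWa (t:ℂ) hb).differentiableAt.hasDerivAt).comp_ofReal
    have dP : HasDerivAt (fun s : ℝ => P (s:ℂ)) (deriv P (t:ℂ)) t :=
      ((hPa (t:ℂ) hb).differentiableAt.hasDerivAt).comp_ofReal
    have dL : HasDerivAt (fun s : ℝ => Complex.log (W (s:ℂ))) (deriv W (t:ℂ) / W (t:ℂ)) t :=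
      dW.clog_real ht0.1
    have dWL := dW.mul dL
    have hcongr : (fun s : ℝ => P (s:ℂ)) =ᶠ[𝓝 t] (fun s : ℝ => W (s:ℂ)) * (fun s : ℝ => Complex.log (W (s:ℂ))) := by
      filter_upwards [ht] with s hs
      exact hs.2
    have h1 := dP.unique (dWL.congr_of_eventuallyEq hcongr)
    have hWne : W (t:ℂ) ≠ 0 := Complex.slitPlane_ne_zero ht0.1
    rw [h1, ht0.2]
    field_simp
    ring
  have htend : Tendsto (fun t : ℝ => (t : ℂ)) (𝓝[≠] 0) (𝓝[≠] (0:ℂ)) := by
    rw [tendsto_nhdsWithin_iff]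
    constructor
    · have hc : Tendsto (fun t : ℝ => (t : ℂ)) (𝓝 0) (𝓝 ((0 : ℝ) : ℂ)) :=
        Complex.continuous_ofReal.tendsto 0
      rw [Complex.ofReal_zero] at hc
      exact hc.mono_left nhdsWithin_le_nhds
    · filter_upwards [self_mem_nhdsWithin] with t ht
      have ht' : t ≠ 0 := ht
      exact Complex.ofReal_ne_zero.2 ht'
  have hfreq : ∃ᶠ z in 𝓝[≠] (0:ℂ), deriv P z * W z - P z * deriv W z - W z * deriv W z = 0 := by
    apply htend.frequently
    exact (hreal.filter_mono nhdsWithin_le_nhds).frequently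
  have h0 := hF.eqOn_zero_of_preconnected_of_frequently_eq_zero (convex_ball (0:ℂ) r).isPreconnected
    (Metric.mem_ball_self hr) hfreq
  intro z hz
  have := h0 hz
  simp only [Pi.zero_apply] at this
  exact sub_eq_zero.1 this

theorem c4a_lx_nonzero (r : ℝ) (hr : 0 < r) (W P : ℂ → ℂ) (hW : DifferentiableOn ℂ W (Metric.ball 0 r))
    (hP : DifferentiableOn ℂ P (Metric.ball 0 r))
    (hid : ∀ z ∈ Metric.ball (0:ℂ) r, deriv P z * W z - P z * deriv W z = W z * deriv W z)
    (hW0 : W 0 ≠ 0) : ∀ z ∈ Metric.ball (0:ℂ) r, W z ≠ 0 := by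
  intro z0 hz0 hWz
  have hWa := hW.analyticOnNhd Metric.isOpen_ball
  have hnz : ¬ ∀ᶠ z in 𝓝 z0, W z = 0 := by
    intro h
    have h1 := hWa.eqOn_zero_of_preconnected_of_eventuallyEq_zero (convex_ball (0:ℂ) r).isPreconnected
      hz0 h
    exact hW0 (h1 (Metric.mem_ball_self hr))
  obtain ⟨n, g, hga, hg0, hgW⟩ := (hWa z0 hz0).exists_eventuallyEq_pow_smul_nonzero_iff.2 hnz
  have hn : n ≠ 0 := by
    rintro rfl
    have h1 := hgW.self_of_nhds
    rw [hWz] at h1
    simp at h1
    exact hg0 h1.symm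
  -- a good radius
  have hev : ∀ᶠ z in 𝓝 z0, z ∈ Metric.ball (0:ℂ) r ∧ AnalyticAt ℂ g z ∧ g z ≠ 0 ∧
      W z = (z - z0) ^ n • g z ∧ ∀ᶠ y in 𝓝 z, W y = (y - z0) ^ n • g y := by
    filter_upwards [Metric.isOpen_ball.mem_nhds hz0, hga.eventually_analyticAt,
      hga.continuousAt.eventually_ne hg0, hgW, hgW.eventually_nhds] with z a b c d e
    exact ⟨a, b, c, d, e⟩
  obtain ⟨s, hs, hsb⟩ := Metric.eventually_nhds_iff_ball.1 hev
  have hs2 : 0 < s / 2 := by positivity
  have hcb : ∀ z ∈ Metric.closedBall z0 (s / 2), z ∈ Metric.ball z0 s := by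
    intro z hz
    rw [Metric.mem_closedBall] at hz
    rw [Metric.mem_ball]
    linarith
  have hgd : ∀ z ∈ Metric.closedBall z0 (s / 2), DifferentiableAt ℂ (fun z => deriv g z / g z) z := by
    intro z hz
    obtain ⟨_, b, c, _, _⟩ := hsb z (hcb z hz)
    exact (b.deriv.differentiableAt).div b.differentiableAt c
  have hgc : ContinuousOn (fun z => deriv g z / g z) (Metric.closedBall z0 (s / 2)) :=
    fun z hz => (hgd z hz).continuousAt.continuousWithinAt
  have i1 : (∮ z in C(z0, s / 2), deriv g z / g z) = 0 :=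
    Complex.circleIntegral_eq_zero_of_differentiable_on_off_countable hs2.le countable_empty hgc
      (fun z hz => hgd z (Metric.ball_subset_closedBall hz.1))
  have i2 : (∮ z in C(z0, s / 2), (n : ℂ) * (z - z0)⁻¹) = n * (2 * Real.pi * I) := by
    rw [circleIntegral.integral_const_mul, circleIntegral.integral_sub_center_inv _ hs2.ne']
  have i3 : (∮ z in C(z0, s / 2), ((n : ℂ) * (z - z0)⁻¹ + deriv g z / g z)) = 0 := by
    apply circleIntegral.integral_eq_zero_of_hasDerivWithinAt (f := fun z => P z / W z) hs2.le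
    intro z hz
    have hz1 : z ∈ Metric.closedBall z0 (s / 2) := Metric.sphere_subset_closedBall hz
    obtain ⟨a, b, c, dd, e⟩ := hsb z (hcb z hz1)
    have hzz : z - z0 ≠ 0 := by
      intro h
      rw [mem_sphere_iff_norm, h, norm_zero] at hz
      linarith
    have hWne : W z ≠ 0 := by
      rw [dd]
      exact mul_ne_zero (pow_ne_zero _ hzz) c
    have dW := (hWa z a).differentiableAt.hasDerivAt
    have dP := (hP.analyticOnNhd Metric.isOpen_ball z a).differentiableAt.hasDerivAt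
    have dPW := dP.div dW hWne
    have h1 := hid z a
    have h2 : deriv W z = n * (z - z0) ^ (n - 1) * g z + (z - z0) ^ n * deriv g z := by
      have h3 : HasDerivAt (fun y => (y - z0) ^ n • g y)
          (n * (z - z0) ^ (n - 1) * g z + (z - z0) ^ n * deriv g z) z := by
        have h4 : HasDerivAt (fun y => (y - z0) ^ n) (n * (z - z0) ^ (n - 1) * 1) z :=
          ((hasDerivAt_id z).sub_const z0).pow n
        have h5 := h4.mul b.differentiableAt.hasDerivAt
        rw [mul_one] at h5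
        exact h5
      exact (h3.congr_of_eventuallyEq e).deriv
    have h6 : (deriv P z * W z - P z * deriv W z) / W z ^ 2 = (n : ℂ) * (z - z0)⁻¹ + deriv g z / g z := by
      rw [h1]
      have h7 : W z * deriv W z / W z ^ 2 = deriv W z / W z := by
        field_simp
      rw [h7, h2, dd, smul_eq_mul]
      obtain ⟨k, rfl⟩ := Nat.exists_eq_succ_of_ne_zero hn
      rw [Nat.succ_sub_one, pow_succ]
      field_simp
    rw [h6] at dPW
    exact dPW.hasDerivWithinAt
  rw [circleIntegral.integral_add, i1, i2, add_zero] at i3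
  · have h1 : (n : ℂ) ≠ 0 := Nat.cast_ne_zero.2 hn
    have h2 : (2 * Real.pi * I : ℂ) ≠ 0 := Complex.two_pi_I_ne_zero
    exact (mul_ne_zero h1 h2) i3
  · apply ContinuousOn.circleIntegrable hs2.le
    intro z hz
    have hzz : z - z0 ≠ 0 := by
      intro h
      rw [mem_sphere_iff_norm, h, norm_zero] at hz
      linarith
    have : ContinuousAt (fun z => (n : ℂ) * (z - z0)⁻¹) z :=
      continuousAt_const.mul ((continuousAt_id.sub continuousAt_const).inv₀ hzz)
    exact this.continuousWithinAt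
  · exact ContinuousOn.circleIntegrable hs2.le (hgc.mono Metric.sphere_subset_closedBall)

theorem log_of_xlogx (r : ℝ) (hr : 0 < r) (W P : ℂ → ℂ) (hW : DifferentiableOn ℂ W (Metric.ball 0 r))
    (hP : DifferentiableOn ℂ P (Metric.ball 0 r))
    (hev : ∀ᶠ t : ℝ in 𝓝 0, W (t:ℂ) ∈ slitPlane ∧ P (t:ℂ) = W (t:ℂ) * Complex.log (W (t:ℂ))) :
    ∃ A : ℂ → ℂ, DifferentiableOn ℂ A (Metric.ball 0 r) ∧
      (∀ z ∈ Metric.ball (0:ℂ) r, Complex.exp (A z) = W z) ∧
      (∀ z ∈ Metric.ball (0:ℂ) r, P z = W z * A z) ∧ A 0 = Complex.log (W 0) := by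
  have hev0 := hev.self_of_nhds
  rw [Complex.ofReal_zero] at hev0
  have hW0 : W 0 ≠ 0 := Complex.slitPlane_ne_zero hev0.1
  have hid := c4a_lx_identity r hr W P hW hP hev
  have hnz := c4a_lx_nonzero r hr W P hW hP hid hW0
  have hA : DifferentiableOn ℂ (fun z => P z / W z) (Metric.ball 0 r) := hP.div hW hnz
  have hA0 : P 0 / W 0 = Complex.log (W 0) := by
    rw [hev0.2, mul_div_cancel_left₀ _ hW0]
  refine ⟨fun z => P z / W z, hA, ?_, ?_, hA0⟩
  · intro z hz
    have hdiff : DifferentiableOn ℂ (fun z => W z * Complex.exp (-(P z / W z))) (Metric.ball 0 r) :=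
      hW.mul hA.neg.cexp
    have hder : Set.EqOn (deriv (fun z => W z * Complex.exp (-(P z / W z)))) 0 (Metric.ball (0:ℂ) r) := by
      intro y hy
      have dW := (hW.differentiableAt (Metric.isOpen_ball.mem_nhds hy)).hasDerivAt
      have dP := (hP.differentiableAt (Metric.isOpen_ball.mem_nhds hy)).hasDerivAt
      have dA := (dP.div dW (hnz y hy)).neg.cexp
      have d := dW.mul dA
      have h1 := d.deriv
      have h2 : deriv (fun z => W z * Complex.exp (-(P z / W z))) y =
          deriv (W * fun x => Complex.exp ((-(P / W)) x)) y := rfl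
      rw [h2]
      refine (HasDerivAt.deriv d).trans ?_
      show deriv W y * Complex.exp (-(P y / W y)) + W y * (Complex.exp (-(P y / W y)) *
        -((deriv P y * W y - P y * deriv W y) / W y ^ 2)) = 0
      rw [hid y hy]
      have := hnz y hy
      field_simp
      ring
    have hconst := Metric.isOpen_ball.is_const_of_deriv_eq_zero (convex_ball (0:ℂ) r).isPreconnected
      hdiff hder hz (Metric.mem_ball_self hr)
    have h1 : W 0 * Complex.exp (-(P 0 / W 0)) = 1 := by
      rw [hA0, Complex.exp_neg, Complex.exp_log hW0, mul_inv_cancel₀ hW0]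
    have h2 : W z * Complex.exp (-(P z / W z)) = 1 := hconst.trans h1
    rw [Complex.exp_neg] at h2
    have h3 := Complex.exp_ne_zero (P z / W z)
    show Complex.exp (P z / W z) = W z
    field_simp at h2
    exact h2.symm
  · intro z hz
    show P z = W z * (P z / W z)
    rw [mul_div_cancel₀ _ (hnz z hz)]

end Pool.Agent.Helper118.Yud
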