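import Pool.Agent.Helper118.Yud.Defs

set_option autoImplicit false

namespace Pool.Agent.Helper118.Yud

open MeasureTheory Complex Set Filter Topology


theorem c4b_riccati_contradiction_bc (r L : ℝ) (hr : 0 < r) (hL : 0 < L) (hLr : 4 / r ≤ L) (A : ℂ → ℂ)
    (hA : DifferentiableOn ℂ A (Metric.ball 0 r)) (hre : ∀ z ∈ Metric.ball (0:ℂ) r, (A z).re ≤ 0)
    (A0 : ℂ) (hA0 : A 0 = -(L:ℂ) + A0) (h0 : 0 ≤ A0.re) (h1 : ‖A0‖ ≤ 2) (z : ℂ)
    (hz : ‖z‖ ≤ 2 / L) : ‖A z + L‖ ≤ 8 / r + 2 := by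
  have h2L : 2 / L ≤ r / 2 := by
    rw [div_le_div_iff₀ hL (by norm_num)]
    rw [div_le_iff₀ hr] at hLr
    linarith
  have hz2 : ‖z‖ ≤ r / 2 := hz.trans h2L
  have hzb : z ∈ Metric.ball (0:ℂ) r := by
    rw [mem_ball_zero_iff]
    linarith
  have hbc := Complex.borelCaratheodory_zero (f := fun z => A z - A 0) (M := L) (R := r) hL
    (hA.sub_const _) (by
      intro w hw
      have h2 := hre w hw
      show (A w - A 0).re ≤ L
      rw [hA0, sub_re, add_re, neg_re, ofReal_re]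
      linarith) hr hzb (by simp)
  have h3 : 2 * L * ‖z‖ / (r - ‖z‖) ≤ 8 / r := by
    rw [div_le_div_iff₀ (by linarith) hr]
    have h4 : ‖z‖ * L ≤ 2 := by
      rw [le_div_iff₀ hL] at hz
      exact hz
    have h5 : 2 * L * ‖z‖ * r ≤ 4 * r := by
      apply mul_le_mul_of_nonneg_right _ hr.le
      linarith
    linarith
  have h6 : A z + L = (A z - A 0) + A0 := by
    rw [hA0]
    ring
  rw [h6]
  calc ‖(A z - A 0) + A0‖ ≤ ‖A z - A 0‖ + ‖A0‖ := norm_add_le _ _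
    _ ≤ 8 / r + 2 := add_le_add (hbc.trans h3) h1

theorem c4b_riccati_contradiction_tan (τ : ℝ) (h0 : 0 ≤ τ) (h1 : τ ≤ Real.pi ^ 2 / 8) :
    0 < Real.cos (Real.pi / 4 - 2 * τ / Real.pi) ∧
    |Real.tan (Real.pi / 4 - 2 * τ / Real.pi)| ≤ 1 := by
  have hπ := Real.pi_pos
  have h2 : 0 ≤ 2 * τ / Real.pi := by positivity
  have h3 : 2 * τ / Real.pi ≤ Real.pi / 4 := by
    rw [div_le_div_iff₀ hπ (by norm_num)]
    nlinarith
  set θ := Real.pi / 4 - 2 * τ / Real.pi with hθ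
  have h4 : 0 ≤ θ := by rw [hθ]; linarith
  have h5 : θ ≤ Real.pi / 4 := by rw [hθ]; linarith
  refine ⟨Real.cos_pos_of_mem_Ioo ⟨by linarith, by linarith⟩, ?_⟩
  rw [abs_of_nonneg (Real.tan_nonneg_of_nonneg_of_le_pi_div_two h4 (by linarith))]
  rw [← Real.tan_pi_div_four]
  exact Real.strictMonoOn_tan.monotoneOn ⟨by linarith, by linarith⟩ ⟨by linarith, by linarith⟩ h5

theorem c4b_riccati_contradiction_sec (θ : ℝ) (h : Real.cos θ ≠ 0) :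
    1 / Real.cos θ ^ 2 = 1 + Real.tan θ ^ 2 := by
  rw [Real.tan_eq_sin_div_cos]
  have := Real.sin_sq_add_cos_sq θ
  field_simp
  linarith

theorem c4b_riccati_contradiction_E (q α β az bz P : ℂ) (c1 c2 Ch : ℝ) (hq : ‖q‖ ≤ c2)
    (hα : ‖α‖ ≤ c1) (hβ : ‖β‖ ≤ c1) (ha : ‖az‖ ≤ Ch) (hb : ‖bz‖ ≤ Ch) (hP : ‖P‖ ≤ 1) :
    ‖(I/2)*(q-1) + (I/2)*(q-q^2) + P*(q^2*α-β) + bz - q^2*az‖ ≤
      1/2*(c2+1) + 1/2*(c2+c2^2) + (c2^2*c1+c1) + Ch + c2^2*Ch := by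
  have hq0 : 0 ≤ ‖q‖ := norm_nonneg _
  have hc2 : 0 ≤ c2 := hq0.trans hq
  have hc1 : 0 ≤ c1 := (norm_nonneg _).trans hα
  have hCh : 0 ≤ Ch := (norm_nonneg _).trans ha
  have hq2 : ‖q^2‖ ≤ c2^2 := by
    rw [norm_pow]
    exact pow_le_pow_left₀ hq0 hq 2
  have hI : ‖(I/2 : ℂ)‖ = 1/2 := by simp
  have e1 : ‖(I/2)*(q-1)‖ ≤ 1/2*(c2+1) := by
    rw [norm_mul, hI]
    apply mul_le_mul_of_nonneg_left _ (by norm_num)
    calc ‖q - 1‖ ≤ ‖q‖ + ‖(1:ℂ)‖ := norm_sub_le _ _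
      _ ≤ c2 + 1 := by rw [norm_one]; linarith
  have e2 : ‖(I/2)*(q-q^2)‖ ≤ 1/2*(c2+c2^2) := by
    rw [norm_mul, hI]
    apply mul_le_mul_of_nonneg_left _ (by norm_num)
    calc ‖q - q^2‖ ≤ ‖q‖ + ‖q^2‖ := norm_sub_le _ _
      _ ≤ c2 + c2^2 := add_le_add hq hq2
  have e3 : ‖P*(q^2*α-β)‖ ≤ c2^2*c1+c1 := by
    rw [norm_mul]
    calc ‖P‖ * ‖q^2*α-β‖ ≤ 1 * (c2^2*c1+c1) := by
          apply mul_le_mul hP _ (norm_nonneg _) (by norm_num)
          calc ‖q^2*α-β‖ ≤ ‖q^2*α‖ + ‖β‖ := norm_sub_le _ _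
            _ ≤ c2^2*c1 + c1 := by
              apply add_le_add _ hβ
              rw [norm_mul]
              exact mul_le_mul hq2 hα (norm_nonneg _) (by positivity)
      _ = _ := one_mul _
  have e4 : ‖q^2*az‖ ≤ c2^2*Ch := by
    rw [norm_mul]
    exact mul_le_mul hq2 ha (norm_nonneg _) (by positivity)
  calc ‖(I/2)*(q-1) + (I/2)*(q-q^2) + P*(q^2*α-β) + bz - q^2*az‖
      ≤ ‖(I/2)*(q-1) + (I/2)*(q-q^2) + P*(q^2*α-β) + bz‖ + ‖q^2*az‖ := norm_sub_le _ _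
    _ ≤ (‖(I/2)*(q-1)‖ + ‖(I/2)*(q-q^2)‖ + ‖P*(q^2*α-β)‖ + ‖bz‖) + ‖q^2*az‖ := by
        have g1 := norm_add_le ((I/2)*(q-1) + (I/2)*(q-q^2) + P*(q^2*α-β)) bz
        have g2 := norm_add_le ((I/2)*(q-1) + (I/2)*(q-q^2)) (P*(q^2*α-β))
        have g3 := norm_add_le ((I/2)*(q-1)) ((I/2)*(q-q^2))
        linarith
    _ ≤ _ := by linarith

theorem c4b_riccati_contradiction_parts (x : ℝ) :
    ((x : ℂ) + I * (Real.pi / 4)).re = x ∧ ((x : ℂ) + I * (Real.pi / 4)).im = Real.pi / 4 ∧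
    ((x : ℂ) - I * (Real.pi / 4)).re = x ∧ ((x : ℂ) - I * (Real.pi / 4)).im = -(Real.pi / 4) := by
  refine ⟨?_, ?_, ?_, ?_⟩ <;> simp

theorem riccati_contradiction (r Ch : ℝ) (hr : 0 < r) (hCh : 0 ≤ Ch) : ∃ L0 : ℝ, ∀ L : ℝ, L0 ≤ L →
    ∀ A B a b : ℂ → ℂ, DifferentiableOn ℂ A (Metric.ball 0 r) → DifferentiableOn ℂ B (Metric.ball 0 r) →
    (∀ z ∈ Metric.ball (0:ℂ) r, (A z).re ≤ 0) → (∀ z ∈ Metric.ball (0:ℂ) r, (B z).re ≤ 0) →
    A 0 = -(L:ℂ) + (Real.log 2 / 2 : ℝ) + I * (Real.pi / 4) →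
    B 0 = -(L:ℂ) + (Real.log 2 / 2 : ℝ) - I * (Real.pi / 4) →
    (∀ z ∈ Metric.ball (0:ℂ) r, ‖a z‖ ≤ Ch) → (∀ z ∈ Metric.ball (0:ℂ) r, ‖b z‖ ≤ Ch) →
    (∀ z ∈ Metric.ball (0:ℂ) r, deriv A z = (I/2) * (1 - exp (B z - A z)) -
        (2/Real.pi) * exp (B z - A z) * B z + exp (B z - A z) * b z) →
    (∀ z ∈ Metric.ball (0:ℂ) r, deriv B z = -(I/2) * (1 - exp (A z - B z)) -
        (2/Real.pi) * exp (A z - B z) * A z + exp (A z - B z) * a z) → False := by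
  have hπ := Real.pi_pos
  have hc1 : 0 < 8 / r + 2 := by positivity
  set c1 : ℝ := 8 / r + 2 with hc1d
  set c2 : ℝ := Real.exp (2 * c1) with hc2d
  have hc2 : 0 < c2 := Real.exp_pos _
  set c3 : ℝ := 1/2*(c2+1) + 1/2*(c2+c2^2) + (c2^2*c1+c1) + Ch + c2^2*Ch with hc3d
  have hc3 : 0 ≤ c3 := by positivity
  set C4 : ℝ := c3 / (c2 + 1) * (Real.exp ((c2 + 1) * (Real.pi ^ 2 / 8)) - 1) with hC4
  have hC4n : 0 ≤ C4 := by
    apply mul_nonneg (by positivity)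
    rw [sub_nonneg]
    exact Real.one_le_exp (by positivity)
  refine ⟨C4 * c2 + 1 + 4 / r, ?_⟩
  intro L hL A B a b hA hB hAre hBre hA0 hB0 ha hb hdA hdB
  have h4r : 0 < 4 / r := by positivity
  have hC4c : 0 ≤ C4 * c2 := mul_nonneg hC4n hc2.le
  have hL0 : 0 < L := by linarith
  have hLr : 4 / r ≤ L := by linarith
  have hLC : C4 * c2 < L := by linarith
  have h2L : 2 / L ≤ r / 2 := by
    rw [div_le_div_iff₀ hL0 (by norm_num)]
    have h := hLr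
    rw [div_le_iff₀ hr] at h
    linarith
  have hlog : 0 ≤ Real.log 2 := Real.log_nonneg (by norm_num)
  have hlog1 : Real.log 2 ≤ 1 := by
    have := Real.log_two_lt_d9
    linarith
  have hπ4 : Real.pi ≤ 4 := Real.pi_le_four
  have hα : ∀ z : ℂ, ‖z‖ ≤ 2 / L → ‖A z + L‖ ≤ c1 := by
    intro z hz
    refine c4b_riccati_contradiction_bc r L hr hL0 hLr A hA hAre
      (((Real.log 2 / 2 : ℝ) : ℂ) + I * (Real.pi / 4)) (by rw [hA0]; ring) ?_ ?_ z hz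
    · rw [(c4b_riccati_contradiction_parts (Real.log 2 / 2)).1]
      positivity
    · refine (Complex.norm_le_abs_re_add_abs_im _).trans ?_
      obtain ⟨e1, e2, -, -⟩ := c4b_riccati_contradiction_parts (Real.log 2 / 2)
      rw [e1, e2, abs_of_nonneg (by positivity), abs_of_nonneg (by positivity)]
      linarith
  have hβ : ∀ z : ℂ, ‖z‖ ≤ 2 / L → ‖B z + L‖ ≤ c1 := by
    intro z hz
    refine c4b_riccati_contradiction_bc r L hr hL0 hLr B hB hBre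
      (((Real.log 2 / 2 : ℝ) : ℂ) - I * (Real.pi / 4)) (by rw [hB0]; ring) ?_ ?_ z hz
    · rw [(c4b_riccati_contradiction_parts (Real.log 2 / 2)).2.2.1]
      positivity
    · refine (Complex.norm_le_abs_re_add_abs_im _).trans ?_
      obtain ⟨-, -, e1, e2⟩ := c4b_riccati_contradiction_parts (Real.log 2 / 2)
      rw [e1, e2, abs_of_nonneg (by positivity), abs_neg, abs_of_nonneg (by positivity)]
      linarith
  have hreAB : ∀ z : ℂ, ‖z‖ ≤ 2 / L → |(A z - B z).re| ≤ 2 * c1 := by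
    intro z hz
    have h1 : A z - B z = (A z + L) - (B z + L) := by ring
    have h2 : ‖A z - B z‖ ≤ 2 * c1 := by
      rw [h1]
      calc ‖(A z + L) - (B z + L)‖ ≤ ‖A z + L‖ + ‖B z + L‖ := norm_sub_le _ _
        _ ≤ c1 + c1 := add_le_add (hα z hz) (hβ z hz)
        _ = 2 * c1 := by ring
    exact (Complex.abs_re_le_norm _).trans h2
  have hqle : ∀ z : ℂ, ‖z‖ ≤ 2 / L → ‖exp (A z - B z)‖ ≤ c2 := by
    intro z hz
    rw [Complex.norm_exp]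
    exact Real.exp_le_exp.2 (abs_le.1 (hreAB z hz)).2
  have hqge : ∀ z : ℂ, ‖z‖ ≤ 2 / L → Real.exp (-(2 * c1)) ≤ ‖exp (A z - B z)‖ := by
    intro z hz
    rw [Complex.norm_exp]
    exact Real.exp_le_exp.2 (abs_le.1 (hreAB z hz)).1
  -- the path
  have hτ1 : Real.pi ^ 2 / 8 ≤ 2 := by nlinarith
  let p : ℝ → ℂ := fun τ => (-(I / L)) * (τ : ℂ)
  have hpn : ∀ τ ∈ Icc (0 : ℝ) (Real.pi ^ 2 / 8), ‖p τ‖ ≤ 2 / L := by
    intro τ hτ
    show ‖(-(I / (L:ℂ))) * (τ : ℂ)‖ ≤ 2 / L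
    rw [norm_mul, norm_neg, norm_div, Complex.norm_I, Complex.norm_real, Complex.norm_real,
      Real.norm_of_nonneg hL0.le, Real.norm_of_nonneg hτ.1]
    rw [one_div, inv_mul_eq_div]
    apply div_le_div_of_nonneg_right _ hL0.le
    exact hτ.2.trans hτ1
  have hpb : ∀ τ ∈ Icc (0 : ℝ) (Real.pi ^ 2 / 8), p τ ∈ Metric.ball (0:ℂ) r := by
    intro τ hτ
    rw [mem_ball_zero_iff]
    have := hpn τ hτ
    linarith
  have hpd : ∀ τ, HasDerivAt p (-(I / L)) τ := by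
    intro τ
    have h := (HasDerivAt.ofReal_comp (hasDerivAt_id τ)).const_mul (-(I / (L:ℂ)))
    exact h.congr_deriv (by simp)
  let D : ℝ → ℂ := fun τ => exp (A (p τ) - B (p τ)) -
    I * ((Real.tan (Real.pi / 4 - 2 * τ / Real.pi) : ℝ) : ℂ)
  let P : ℂ := 2 / Real.pi
  let E : ℝ → ℂ := fun τ => (I/2)*(exp (A (p τ) - B (p τ))-1)
    + (I/2)*(exp (A (p τ) - B (p τ))-exp (A (p τ) - B (p τ))^2)
    + P*(exp (A (p τ) - B (p τ))^2*(A (p τ) + L)-(B (p τ) + L)) + b (p τ)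
    - exp (A (p τ) - B (p τ))^2*a (p τ)
  let D' : ℝ → ℂ := fun τ => I * P * (exp (A (p τ) - B (p τ)) -
      I * ((Real.tan (Real.pi / 4 - 2 * τ / Real.pi) : ℝ) : ℂ)) * (exp (A (p τ) - B (p τ)) +
      I * ((Real.tan (Real.pi / 4 - 2 * τ / Real.pi) : ℝ) : ℂ)) - (I / L) * E τ
  have hPn : ‖P‖ ≤ 1 := by
    show ‖(2 / (Real.pi : ℂ))‖ ≤ 1
    rw [norm_div, Complex.norm_real, Real.norm_of_nonneg hπ.le, Complex.norm_ofNat,
      div_le_one hπ]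
    exact Real.two_le_pi
  have hDd : ∀ τ ∈ Icc (0 : ℝ) (Real.pi ^ 2 / 8), HasDerivAt D (D' τ) τ := by
    intro τ hτ
    have hz := hpb τ hτ
    have hAd : HasDerivAt A (deriv A (p τ)) (p τ) :=
      (hA.differentiableAt (Metric.isOpen_ball.mem_nhds hz)).hasDerivAt
    have hBd : HasDerivAt B (deriv B (p τ)) (p τ) :=
      (hB.differentiableAt (Metric.isOpen_ball.mem_nhds hz)).hasDerivAt
    have h1 := (hAd.comp τ (hpd τ)).sub (hBd.comp τ (hpd τ))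
    have h2 := (Complex.hasDerivAt_exp (A (p τ) - B (p τ))).comp τ h1
    obtain ⟨hcos, -⟩ := c4b_riccati_contradiction_tan τ hτ.1 hτ.2
    have h3 : HasDerivAt (fun τ : ℝ => Real.pi / 4 - 2 * τ / Real.pi) (-(2 / Real.pi)) τ := by
      have h := (((hasDerivAt_id τ).const_mul 2).div_const Real.pi).const_sub (Real.pi / 4)
      simpa using h
    have h4 := (Real.hasDerivAt_tan hcos.ne').comp τ h3
    have h5 := (h4.ofReal_comp).const_mul I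
    have h6 := h2.sub h5
    refine HasDerivAt.congr_deriv h6 ?_
    rw [hdA _ hz, hdB _ hz]
    have hsec : 1 / Real.cos (Real.pi / 4 - 2 * τ / Real.pi) ^ 2
        = 1 + Real.tan (Real.pi / 4 - 2 * τ / Real.pi) ^ 2 :=
      c4b_riccati_contradiction_sec _ hcos.ne'
    rw [hsec]
    have hinv : exp (B (p τ) - A (p τ)) = (exp (A (p τ) - B (p τ)))⁻¹ := by
      rw [← Complex.exp_neg]
      congr 1
      ring
    rw [hinv]
    have hq0 : exp (A (p τ) - B (p τ)) ≠ 0 := Complex.exp_ne_zero _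
    have hqq : exp (A (p τ) - B (p τ)) * (exp (A (p τ) - B (p τ)))⁻¹ = 1 := mul_inv_cancel₀ hq0
    have hLL : (L : ℂ) * (L : ℂ)⁻¹ = 1 := mul_inv_cancel₀ (by exact_mod_cast hL0.ne')
    show _ = I * P * (exp (A (p τ) - B (p τ)) -
      I * ((Real.tan (Real.pi / 4 - 2 * τ / Real.pi) : ℝ) : ℂ)) * (exp (A (p τ) - B (p τ)) +
      I * ((Real.tan (Real.pi / 4 - 2 * τ / Real.pi) : ℝ) : ℂ)) - (I / L) * ((I/2)*(exp (A (p τ) - B (p τ))-1)
    + (I/2)*(exp (A (p τ) - B (p τ))-exp (A (p τ) - B (p τ))^2)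
    + P*(exp (A (p τ) - B (p τ))^2*(A (p τ) + L)-(B (p τ) + L)) + b (p τ)
    - exp (A (p τ) - B (p τ))^2*a (p τ))
    have hP : (2 / (Real.pi : ℂ)) = P := rfl
    generalize Real.tan (Real.pi / 4 - 2 * τ / Real.pi) = t
    push_cast
    rw [hP]
    clear_value P
    generalize (t : ℂ) = t
    generalize exp (A (p τ) - B (p τ)) = q at *
    generalize A (p τ) = Az at *
    generalize B (p τ) = Bz at *
    generalize a (p τ) = az at *
    generalize b (p τ) = bz at *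
    generalize q⁻¹ = qi at *
    linear_combination (-(I * (L : ℂ)⁻¹)*(-(I/2) - P*Bz + bz)) * hqq
      + (I*P*(q^2-1)) * hLL + (I*P*t^2) * Complex.I_sq
  have hD0 : D 0 = 0 := by
    show exp (A (p 0) - B (p 0)) - I * ((Real.tan (Real.pi / 4 - 2 * 0 / Real.pi) : ℝ) : ℂ) = 0
    have hp0 : p 0 = 0 := by
      show (-(I / (L:ℂ))) * ((0 : ℝ) : ℂ) = 0
      simp
    rw [hp0, hA0, hB0]
    have h1 : -(L:ℂ) + ((Real.log 2 / 2 : ℝ) : ℂ) + I * (Real.pi / 4)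
        - (-(L:ℂ) + ((Real.log 2 / 2 : ℝ) : ℂ) - I * (Real.pi / 4)) = (Real.pi / 2 : ℂ) * I := by
      ring
    rw [h1, Complex.exp_pi_div_two_mul_I]
    simp
  have hDbound : ∀ τ ∈ Ico (0 : ℝ) (Real.pi ^ 2 / 8), ‖D' τ‖ ≤ (c2 + 1) * ‖D τ‖ + c3 / L := by
    intro τ hτ
    have hτ' : τ ∈ Icc (0 : ℝ) (Real.pi ^ 2 / 8) := ⟨hτ.1, hτ.2.le⟩
    have hz := hpb τ hτ'
    have hzn := hpn τ hτ'
    obtain ⟨-, htan⟩ := c4b_riccati_contradiction_tan τ hτ'.1 hτ'.2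
    have hE : ‖E τ‖ ≤ c3 :=
      c4b_riccati_contradiction_E _ _ _ _ _ P c1 c2 Ch (hqle _ hzn) (hα _ hzn) (hβ _ hzn)
        (ha _ hz) (hb _ hz) hPn
    have hsum : ‖exp (A (p τ) - B (p τ)) +
        I * ((Real.tan (Real.pi / 4 - 2 * τ / Real.pi) : ℝ) : ℂ)‖ ≤ c2 + 1 := by
      refine (norm_add_le _ _).trans (add_le_add (hqle _ hzn) ?_)
      rw [norm_mul, Complex.norm_I, one_mul, Complex.norm_real, Real.norm_eq_abs]
      exact htan
    calc ‖D' τ‖ ≤ ‖I * P * D τ * (exp (A (p τ) - B (p τ)) +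
        I * ((Real.tan (Real.pi / 4 - 2 * τ / Real.pi) : ℝ) : ℂ))‖ + ‖(I / L) * E τ‖ :=
          norm_sub_le _ _
      _ ≤ (c2 + 1) * ‖D τ‖ + c3 / L := by
        apply add_le_add
        · rw [norm_mul, norm_mul, norm_mul, Complex.norm_I, one_mul]
          calc ‖P‖ * ‖D τ‖ * ‖exp (A (p τ) - B (p τ)) +
              I * ((Real.tan (Real.pi / 4 - 2 * τ / Real.pi) : ℝ) : ℂ)‖
              ≤ 1 * ‖D τ‖ * (c2 + 1) := by gcongr
            _ = (c2 + 1) * ‖D τ‖ := by ring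
        · rw [norm_mul, norm_div, Complex.norm_I, Complex.norm_real, Real.norm_of_nonneg hL0.le]
          calc 1 / L * ‖E τ‖ ≤ 1 / L * c3 := by gcongr
            _ = c3 / L := by ring
  have hgr := norm_le_gronwallBound_of_norm_deriv_right_le (f := D) (f' := D') (δ := 0)
    (K := c2 + 1) (ε := c3 / L) (a := 0) (b := Real.pi ^ 2 / 8)
    (fun τ hτ => (hDd τ hτ).continuousAt.continuousWithinAt)
    (fun τ hτ => (hDd τ ⟨hτ.1, hτ.2.le⟩).hasDerivWithinAt)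
    (by rw [hD0, norm_zero]) hDbound (Real.pi ^ 2 / 8) ⟨by positivity, le_rfl⟩
  rw [gronwallBound_of_K_ne_0 (by positivity)] at hgr
  simp only [zero_mul, zero_add, sub_zero] at hgr
  have hDe : D (Real.pi ^ 2 / 8) = exp (A (p (Real.pi ^ 2 / 8)) - B (p (Real.pi ^ 2 / 8))) := by
    show exp (A (p (Real.pi ^ 2 / 8)) - B (p (Real.pi ^ 2 / 8))) -
      I * ((Real.tan (Real.pi / 4 - 2 * (Real.pi ^ 2 / 8) / Real.pi) : ℝ) : ℂ) = _
    have h1 : Real.pi / 4 - 2 * (Real.pi ^ 2 / 8) / Real.pi = 0 := by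
      field_simp
      ring
    rw [h1, Real.tan_zero]
    simp
  rw [hDe] at hgr
  have hlow := hqge _ (hpn (Real.pi ^ 2 / 8) ⟨by positivity, le_rfl⟩)
  have h7 : Real.exp (-(2 * c1)) ≤ C4 / L := by
    refine (hlow.trans hgr).trans (le_of_eq ?_)
    rw [hC4]
    ring
  rw [le_div_iff₀ hL0, Real.exp_neg, ← hc2d, inv_mul_le_iff₀ hc2] at h7
  linarith

end Pool.Agent.Helper118.Yud
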