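import Pool.Agent.Helper118.Yud.Defs
import Pool.Agent.Helper118.Yud.G2
import Pool.Agent.Helper118.Yud.C4a
import Pool.Agent.Helper118.Yud.C4b

set_option autoImplicit false

namespace Pool.Agent.Helper118.Yud

open MeasureTheory Complex Set Filter Topology



/-- reflected function -/
noncomputable def c4c_cc_10341 (f : ℂ → ℂ) (z : ℂ) : ℂ := (starRingEnd ℂ) (f ((starRingEnd ℂ) z))

theorem c4c_cc_hasDeriv_10341 {f : ℂ → ℂ} {z : ℂ} (hf : DifferentiableAt ℂ f ((starRingEnd ℂ) z)) :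
    HasDerivAt (c4c_cc_10341 f) ((starRingEnd ℂ) (deriv f ((starRingEnd ℂ) z))) z := by
  have h1 := hf.hasDerivAt.conj_conj
  rw [Complex.conj_conj] at h1
  exact h1

theorem c4c_cc_diffOn_10341 {f : ℂ → ℂ} {R : ℝ} (hf : DifferentiableOn ℂ f (Metric.ball 0 R)) :
    DifferentiableOn ℂ (c4c_cc_10341 f) (Metric.ball 0 R) := by
  intro z hz
  have hz' : (starRingEnd ℂ) z ∈ Metric.ball (0 : ℂ) R := by
    rw [mem_ball_zero_iff] at hz ⊢
    rwa [RCLike.norm_conj]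
  have h1 := (hf _ hz').differentiableAt (Metric.isOpen_ball.mem_nhds hz')
  exact (c4c_cc_hasDeriv_10341 h1).differentiableAt.differentiableWithinAt

theorem c4c_log_10341 (ρ : ℝ) (hρ : 0 < ρ) : Complex.log ((ρ : ℂ) * (1 + I)) =
    -((-Real.log ρ : ℝ) : ℂ) + (Real.log 2 / 2 : ℝ) + I * (Real.pi / 4) := by
  obtain ⟨w, hw⟩ : ∃ w : ℂ, w = -((-Real.log ρ : ℝ) : ℂ) + (Real.log 2 / 2 : ℝ) +
    I * (Real.pi / 4) := ⟨_, rfl⟩
  rw [← hw]
  have h0 : w = ((Real.log ρ : ℝ) : ℂ) + ((Real.log 2 / 2 : ℝ) : ℂ) +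
      ((Real.pi / 4 : ℝ) : ℂ) * I := by
    rw [hw]; push_cast; ring
  have him : w.im = Real.pi / 4 := by
    rw [h0]
    simp only [Complex.add_im, Complex.ofReal_im, Complex.mul_im, Complex.ofReal_re,
      Complex.I_im, Complex.I_re]
    ring
  have h1 : Complex.exp w = (ρ : ℂ) * (1 + I) := by
    rw [h0, Complex.exp_add, Complex.exp_add, ← Complex.ofReal_exp, ← Complex.ofReal_exp,
      Real.exp_log hρ, Real.exp_half, Real.exp_log (by norm_num), Complex.exp_mul_I,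
      ← Complex.ofReal_cos, ← Complex.ofReal_sin, Real.cos_pi_div_four, Real.sin_pi_div_four]
    have h2 : ((√2 : ℝ) : ℂ) * ((√2 / 2 : ℝ) : ℂ) = 1 := by
      rw [← Complex.ofReal_mul]
      have : √2 * (√2 / 2) = 1 := by
        rw [← mul_div_assoc, Real.mul_self_sqrt (by norm_num)]; norm_num
      rw [this, Complex.ofReal_one]
    calc (ρ : ℂ) * ((√2 : ℝ) : ℂ) * (((√2 / 2 : ℝ) : ℂ) + ((√2 / 2 : ℝ) : ℂ) * I)
        = (ρ : ℂ) * (((√2 : ℝ) : ℂ) * ((√2 / 2 : ℝ) : ℂ)) * (1 + I) := by ring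
      _ = (ρ : ℂ) * (1 + I) := by rw [h2, mul_one]
  rw [← h1, Complex.log_exp]
  · rw [him]; linarith [Real.pi_pos]
  · rw [him]; linarith [Real.pi_pos]

theorem c4c_expder_10341 {r : ℝ} {W A : ℂ → ℂ} (hA : DifferentiableOn ℂ A (Metric.ball 0 r))
    (hexp : ∀ z ∈ Metric.ball (0:ℂ) r, Complex.exp (A z) = W z) {z : ℂ}
    (hz : z ∈ Metric.ball (0:ℂ) r) : deriv W z = Complex.exp (A z) * deriv A z := by
  have h1 := ((hA z hz).differentiableAt (Metric.isOpen_ball.mem_nhds hz)).hasDerivAt.cexp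
  have h2 : (fun z => Complex.exp (A z)) =ᶠ[𝓝 z] W := by
    filter_upwards [Metric.isOpen_ball.mem_nhds hz] with x hx using hexp x hx
  rw [← h2.deriv_eq, h1.deriv]

theorem c4c_core_10341 (δ : ℝ) (h : ℂ → ℂ) (hh : DifferentiableOn ℂ h (Metric.ball 0 δ))
    (Ch : ℝ) (hCh : ∀ v : ℂ, ‖v‖ ≤ δ / 2 → ‖h v‖ ≤ Ch * ‖v‖) (r : ℝ) (hr : 0 < r) (W : ℂ → ℂ)
    (ρ : ℝ) (hρ : 0 < ρ) (hδ : 0 < δ)
    (hW : DifferentiableOn ℂ W (Metric.ball 0 r))
    (hWb : ∀ z ∈ Metric.ball (0:ℂ) r, ‖W z‖ < min δ 1 / 2) (hW0 : W 0 = (ρ : ℂ) * (1 + I))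
    (hode : ∀ᶠ t : ℝ in 𝓝 0, 0 < (W (t:ℂ)).re ∧ 0 < (W (t:ℂ)).im ∧
      HasDerivAt (fun s : ℝ => W (s:ℂ))
        ((starRingEnd ℂ) (-(I / 2) * ((starRingEnd ℂ) (W (t:ℂ)) - W (t:ℂ)) -
          (2 / Real.pi) * W (t:ℂ) * Complex.log (W (t:ℂ)) + h (W (t:ℂ)))) t) :
    ∃ A B a b : ℂ → ℂ, DifferentiableOn ℂ A (Metric.ball 0 r) ∧
    DifferentiableOn ℂ B (Metric.ball 0 r) ∧
    (∀ z ∈ Metric.ball (0:ℂ) r, (A z).re ≤ 0) ∧ (∀ z ∈ Metric.ball (0:ℂ) r, (B z).re ≤ 0) ∧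
    A 0 = -((-Real.log ρ : ℝ):ℂ) + (Real.log 2 / 2 : ℝ) + I * (Real.pi / 4) ∧
    B 0 = -((-Real.log ρ : ℝ):ℂ) + (Real.log 2 / 2 : ℝ) - I * (Real.pi / 4) ∧
    (∀ z ∈ Metric.ball (0:ℂ) r, ‖a z‖ ≤ Ch) ∧ (∀ z ∈ Metric.ball (0:ℂ) r, ‖b z‖ ≤ Ch) ∧
    (∀ z ∈ Metric.ball (0:ℂ) r, deriv A z = (I/2) * (1 - exp (B z - A z)) -
        (2/Real.pi) * exp (B z - A z) * B z + exp (B z - A z) * b z) ∧
    (∀ z ∈ Metric.ball (0:ℂ) r, deriv B z = -(I/2) * (1 - exp (A z - B z)) -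
        (2/Real.pi) * exp (A z - B z) * A z + exp (A z - B z) * a z) := by
  have hcc : (2 / (Real.pi : ℂ)) * ((Real.pi : ℂ) / 2) = 1 := by
    have : (Real.pi : ℂ) ≠ 0 := Complex.ofReal_ne_zero.2 Real.pi_ne_zero
    field_simp
  obtain ⟨V, hVdef⟩ : ∃ V, V = c4c_cc_10341 W := ⟨_, rfl⟩
  obtain ⟨hb, hbdef⟩ : ∃ hb, hb = c4c_cc_10341 h := ⟨_, rfl⟩
  have hVz : ∀ z, V z = (starRingEnd ℂ) (W ((starRingEnd ℂ) z)) := by intro z; rw [hVdef]; rfl
  have hbz : ∀ z, hb z = (starRingEnd ℂ) (h ((starRingEnd ℂ) z)) := by intro z; rw [hbdef]; rfl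
  have hV : DifferentiableOn ℂ V (Metric.ball 0 r) := by rw [hVdef]; exact c4c_cc_diffOn_10341 hW
  have hhb : DifferentiableOn ℂ hb (Metric.ball 0 δ) := by rw [hbdef]; exact c4c_cc_diffOn_10341 hh
  have hcb : ∀ z ∈ Metric.ball (0:ℂ) r, (starRingEnd ℂ) z ∈ Metric.ball (0:ℂ) r := by
    intro z hz
    rw [mem_ball_zero_iff] at hz ⊢
    rwa [RCLike.norm_conj]
  have hVb : ∀ z ∈ Metric.ball (0:ℂ) r, ‖V z‖ < min δ 1 / 2 := by
    intro z hz
    rw [hVz, RCLike.norm_conj]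
    exact hWb _ (hcb z hz)
  have hmin1 : min δ 1 / 2 ≤ δ / 2 := by
    have := min_le_left δ 1
    linarith
  have hmin2 : min δ 1 / 2 ≤ 1 / 2 := by
    have := min_le_right δ 1
    linarith
  have hWδ : MapsTo W (Metric.ball 0 r) (Metric.ball 0 δ) := by
    intro z hz
    rw [mem_ball_zero_iff]
    have := hWb z hz
    linarith
  have hVδ : MapsTo V (Metric.ball 0 r) (Metric.ball 0 δ) := by
    intro z hz
    rw [mem_ball_zero_iff]
    have := hVb z hz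
    linarith
  have hWd := hW.deriv Metric.isOpen_ball
  have hVd := hV.deriv Metric.isOpen_ball
  obtain ⟨P, hP⟩ : ∃ P : ℂ → ℂ, P = fun z =>
    -((Real.pi : ℂ) / 2) * (deriv V z + (I / 2) * (V z - W z) - h (W z)) := ⟨_, rfl⟩
  obtain ⟨Q, hQ⟩ : ∃ Q : ℂ → ℂ, Q = fun z =>
    -((Real.pi : ℂ) / 2) * (deriv W z - (I / 2) * (W z - V z) - hb (V z)) := ⟨_, rfl⟩
  have hPz : ∀ z, P z =
    -((Real.pi : ℂ) / 2) * (deriv V z + (I / 2) * (V z - W z) - h (W z)) := by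
    intro z; rw [hP]
  have hQz : ∀ z, Q z =
    -((Real.pi : ℂ) / 2) * (deriv W z - (I / 2) * (W z - V z) - hb (V z)) := by
    intro z; rw [hQ]
  have hPd : DifferentiableOn ℂ P (Metric.ball 0 r) := by
    rw [hP]
    exact ((hVd.add ((hV.sub hW).const_mul _)).sub (hh.comp hW hWδ)).const_mul _
  have hQd : DifferentiableOn ℂ Q (Metric.ball 0 r) := by
    rw [hQ]
    exact ((hWd.sub ((hW.sub hV).const_mul _)).sub (hhb.comp hV hVδ)).const_mul _
  -- the equations on the real line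
  have hreal : ∀ᶠ t : ℝ in 𝓝 0, 0 < (W (t:ℂ)).re ∧ V (t:ℂ) = (starRingEnd ℂ) (W (t:ℂ)) ∧
      deriv W (t:ℂ) = (starRingEnd ℂ) (-(I / 2) * ((starRingEnd ℂ) (W (t:ℂ)) - W (t:ℂ)) -
          (2 / Real.pi) * W (t:ℂ) * Complex.log (W (t:ℂ)) + h (W (t:ℂ))) ∧
      deriv V (t:ℂ) = (-(I / 2) * ((starRingEnd ℂ) (W (t:ℂ)) - W (t:ℂ)) -
          (2 / Real.pi) * W (t:ℂ) * Complex.log (W (t:ℂ)) + h (W (t:ℂ))) := by
    have hball : ∀ᶠ t : ℝ in 𝓝 0, |t| < r := by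
      have : Tendsto (fun t : ℝ => |t|) (𝓝 0) (𝓝 0) := by
        have h1 := (continuous_abs (G := ℝ)).tendsto 0
        rwa [abs_zero] at h1
      exact this.eventually_lt_const hr
    filter_upwards [hode, hball] with t ht htr
    have htb : (t : ℂ) ∈ Metric.ball (0:ℂ) r := by
      rw [mem_ball_zero_iff, Complex.norm_real]
      exact htr
    have hWt := (hW _ htb).differentiableAt (Metric.isOpen_ball.mem_nhds htb)
    have h1 : deriv W (t:ℂ) = (starRingEnd ℂ) (-(I / 2) * ((starRingEnd ℂ) (W (t:ℂ)) - W (t:ℂ)) -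
          (2 / Real.pi) * W (t:ℂ) * Complex.log (W (t:ℂ)) + h (W (t:ℂ))) :=
      hWt.hasDerivAt.comp_ofReal.unique ht.2.2
    refine ⟨ht.1, ?_, h1, ?_⟩
    · rw [hVz, Complex.conj_ofReal]
    · have h2 : HasDerivAt V ((starRingEnd ℂ) (deriv W ((starRingEnd ℂ) (t:ℂ)))) (t:ℂ) := by
        rw [hVdef]
        apply c4c_cc_hasDeriv_10341
        rw [Complex.conj_ofReal]
        exact hWt
      rw [h2.deriv, Complex.conj_ofReal, h1, Complex.conj_conj]
  have hevP : ∀ᶠ t : ℝ in 𝓝 0, W (t:ℂ) ∈ slitPlane ∧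
      P (t:ℂ) = W (t:ℂ) * Complex.log (W (t:ℂ)) := by
    filter_upwards [hreal] with t ht
    obtain ⟨h1, h2, h3, h4⟩ := ht
    refine ⟨Or.inl h1, ?_⟩
    rw [hPz, h4, h2]
    linear_combination (W (t:ℂ) * Complex.log (W (t:ℂ))) * hcc
  have hevQ : ∀ᶠ t : ℝ in 𝓝 0, V (t:ℂ) ∈ slitPlane ∧
      Q (t:ℂ) = V (t:ℂ) * Complex.log (V (t:ℂ)) := by
    filter_upwards [hreal] with t ht
    obtain ⟨h1, h2, h3, h4⟩ := ht
    have hslit : W (t:ℂ) ∈ slitPlane := Or.inl h1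
    constructor
    · left
      rw [h2, Complex.conj_re]
      exact h1
    · have hlog := Complex.log_conj _ (slitPlane_arg_ne_pi hslit)
      rw [hQz, h3, h2, hbz, Complex.conj_conj, hlog]
      simp only [map_add, map_sub, map_mul, map_neg, map_div₀, Complex.conj_I,
        Complex.conj_ofReal, Complex.conj_conj, map_ofNat]
      linear_combination ((starRingEnd ℂ) (W (t:ℂ)) *
        (starRingEnd ℂ) (Complex.log (W (t:ℂ)))) * hcc
  obtain ⟨A, hA, hAexp, hAP, hA0⟩ := log_of_xlogx r hr W P hW hPd hevP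
  obtain ⟨B, hB, hBexp, hBQ, hB0⟩ := log_of_xlogx r hr V Q hV hQd hevQ
  have hWne : ∀ z ∈ Metric.ball (0:ℂ) r, W z ≠ 0 := by
    intro z hz
    rw [← hAexp z hz]
    exact Complex.exp_ne_zero _
  have hVne : ∀ z ∈ Metric.ball (0:ℂ) r, V z ≠ 0 := by
    intro z hz
    rw [← hBexp z hz]
    exact Complex.exp_ne_zero _
  have hre : ∀ (X Y : ℂ), Complex.exp X = Y → ‖Y‖ < 1 / 2 → X.re ≤ 0 := by
    intro X Y hXY hY
    rw [← hXY, Complex.norm_exp] at hY
    by_contra hcon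
    push Not at hcon
    have := Real.one_lt_exp_iff.2 hcon
    linarith
  have hA0' : A 0 = -((-Real.log ρ : ℝ):ℂ) + (Real.log 2 / 2 : ℝ) + I * (Real.pi / 4) := by
    rw [hA0, hW0, c4c_log_10341 ρ hρ]
  refine ⟨A, B, fun z => h (W z) / W z, fun z => hb (V z) / V z, hA, hB, ?_, ?_, hA0', ?_, ?_, ?_,
    ?_, ?_⟩
  · intro z hz
    exact hre _ _ (hAexp z hz) (lt_of_lt_of_le (hWb z hz) hmin2)
  · intro z hz
    exact hre _ _ (hBexp z hz) (lt_of_lt_of_le (hVb z hz) hmin2)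
  · have hslit : W 0 ∈ slitPlane := by
      left
      rw [hW0]
      simp [hρ]
    have hV0 : V 0 = (starRingEnd ℂ) (W 0) := by rw [hVz, map_zero]
    rw [hB0, hV0, Complex.log_conj _ (slitPlane_arg_ne_pi hslit), ← hA0, hA0']
    simp only [map_add, map_mul, map_neg, map_div₀, Complex.conj_I,
        Complex.conj_ofReal, map_ofNat]
    ring
  · intro z hz
    show ‖h (W z) / W z‖ ≤ Ch
    have hne := hWne z hz
    rw [norm_div, div_le_iff₀ (norm_pos_iff.2 hne)]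
    exact hCh _ ((hWb z hz).le.trans hmin1)
  · intro z hz
    show ‖hb (V z) / V z‖ ≤ Ch
    have hne := hVne z hz
    rw [norm_div, div_le_iff₀ (norm_pos_iff.2 hne), hbz, RCLike.norm_conj]
    have h1 := hCh ((starRingEnd ℂ) (V z)) (by
      rw [RCLike.norm_conj]
      exact (hVb z hz).le.trans hmin1)
    rwa [RCLike.norm_conj] at h1
  · intro z hz
    show deriv A z = (I/2) * (1 - exp (B z - A z)) -
        (2/Real.pi) * exp (B z - A z) * B z + exp (B z - A z) * (hb (V z) / V z)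
    have e1 := c4c_expder_10341 hA hAexp hz
    have e2 := hBQ z hz
    rw [hQz] at e2
    have e3 : Complex.exp (A z) * Complex.exp (B z - A z) = V z := by
      rw [← Complex.exp_add, ← hBexp z hz]
      congr 1
      ring
    have hne := hVne z hz
    obtain ⟨b, hb'⟩ : ∃ b, b = hb (V z) / V z := ⟨_, rfl⟩
    have hbV : hb (V z) = V z * b := by rw [hb']; field_simp
    rw [← hb']
    rw [hbV] at e2
    have e4 := hAexp z hz
    apply mul_left_cancel₀ (Complex.exp_ne_zero (A z))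
    rw [← e1]
    obtain ⟨E, hE⟩ : ∃ E, E = Complex.exp (B z - A z) := ⟨_, rfl⟩
    rw [← hE] at e3 ⊢
    rw [e4] at e3 ⊢
    linear_combination (-(2 / (Real.pi : ℂ))) * e2 -
      (deriv W z - (I / 2) * (W z - V z) - V z * b) * hcc +
      ((I / 2) + (2 / (Real.pi : ℂ)) * B z - b) * e3
  · intro z hz
    show deriv B z = -(I/2) * (1 - exp (A z - B z)) -
        (2/Real.pi) * exp (A z - B z) * A z + exp (A z - B z) * (h (W z) / W z)
    have e1 := c4c_expder_10341 hB hBexp hz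
    have e2 := hAP z hz
    rw [hPz] at e2
    have e3 : Complex.exp (B z) * Complex.exp (A z - B z) = W z := by
      rw [← Complex.exp_add, ← hAexp z hz]
      congr 1
      ring
    have hne := hWne z hz
    obtain ⟨a, ha'⟩ : ∃ a, a = h (W z) / W z := ⟨_, rfl⟩
    have haW : h (W z) = W z * a := by rw [ha']; field_simp
    rw [← ha']
    rw [haW] at e2
    have e4 := hBexp z hz
    apply mul_left_cancel₀ (Complex.exp_ne_zero (B z))
    rw [← e1]
    obtain ⟨E, hE⟩ : ∃ E, E = Complex.exp (A z - B z) := ⟨_, rfl⟩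
    rw [← hE] at e3 ⊢
    rw [e4] at e3 ⊢
    linear_combination (-(2 / (Real.pi : ℂ))) * e2 -
      (deriv V z + (I / 2) * (V z - W z) - W z * a) * hcc +
      (-(I / 2) + (2 / (Real.pi : ℂ)) * A z - a) * e3



theorem corner_contradiction (δ : ℝ) (hδ : 0 < δ) (h : ℂ → ℂ) (hh : DifferentiableOn ℂ h (Metric.ball 0 δ))
    (h0 : h 0 = 0) (r M : ℝ) (hr : 0 < r) (W : ℕ → ℂ → ℂ) (ρ : ℕ → ℝ) (hρ : ∀ n, 0 < ρ n)
    (hρ0 : Tendsto ρ atTop (𝓝 0)) (hW : ∀ n, DifferentiableOn ℂ (W n) (Metric.ball 0 r))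
    (hM : ∀ n, ∀ z ∈ Metric.ball (0:ℂ) r, ‖W n z‖ ≤ M)
    (hW0 : ∀ n, W n 0 = (ρ n : ℂ) * (1 + I))
    (hlim : ∀ t : ℝ, |t| < r → Tendsto (fun n => W n (t:ℂ)) atTop (𝓝 0))
    (hode : ∀ n, ∀ᶠ t : ℝ in 𝓝 0, 0 < (W n (t:ℂ)).re ∧ 0 < (W n (t:ℂ)).im ∧
      HasDerivAt (fun s : ℝ => W n (s:ℂ))
        ((starRingEnd ℂ) (-(I / 2) * ((starRingEnd ℂ) (W n (t:ℂ)) - W n (t:ℂ)) -
          (2 / Real.pi) * W n (t:ℂ) * Complex.log (W n (t:ℂ)) + h (W n (t:ℂ)))) t) : False := by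
  obtain ⟨G, hG, -, hG0, hGlim⟩ := vitali_real r M hr W hW hM (fun _ => 0) hlim
  -- G vanishes
  have hGz : EqOn G 0 (Metric.ball 0 r) := by
    apply (hG.analyticOnNhd Metric.isOpen_ball).eqOn_zero_of_preconnected_of_frequently_eq_zero
      (convex_ball (0 : ℂ) r).isPreconnected (Metric.mem_ball_self hr)
    have ht : Tendsto (fun k : ℕ => ((1 / ((k : ℝ) + 1) : ℝ) : ℂ)) atTop (𝓝[≠] 0) := by
      rw [tendsto_nhdsWithin_iff]
      constructor
      · have h1 : Tendsto (fun k : ℕ => (1 / ((k : ℝ) + 1) : ℝ)) atTop (𝓝 0) :=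
          tendsto_one_div_add_atTop_nhds_zero_nat
        have h2 := (Complex.continuous_ofReal.tendsto 0).comp h1
        rw [Complex.ofReal_zero] at h2
        exact h2
      · refine Eventually.of_forall fun k => ?_
        rw [Set.mem_compl_iff, Set.mem_singleton_iff, Complex.ofReal_eq_zero]
        positivity
    apply ht.frequently
    apply Eventually.frequently
    have h1 : Tendsto (fun k : ℕ => (1 / ((k : ℝ) + 1) : ℝ)) atTop (𝓝 0) :=
      tendsto_one_div_add_atTop_nhds_zero_nat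
    filter_upwards [h1.eventually_lt_const hr] with k hk
    apply hG0
    rw [abs_of_pos (by positivity)]
    exact hk
  have hunif := (tendstoLocallyUniformlyOn_iff_forall_isCompact Metric.isOpen_ball).1 hGlim
    (Metric.closedBall (0 : ℂ) (r / 2)) (Metric.closedBall_subset_ball (by linarith))
    (isCompact_closedBall _ _)
  rw [Metric.tendstoUniformlyOn_iff] at hunif
  have hminpos : 0 < min δ 1 / 2 := by
    have : 0 < min δ 1 := lt_min hδ one_pos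
    linarith
  have hsmall := hunif _ hminpos
  -- the bound of h
  have hds : DifferentiableOn ℂ (dslope h 0) (Metric.ball 0 δ) :=
    (Complex.differentiableOn_dslope (Metric.ball_mem_nhds 0 hδ)).2 hh
  obtain ⟨C, hC⟩ := (isCompact_closedBall (0 : ℂ) (δ / 2)).exists_bound_of_continuousOn
    (hds.continuousOn.mono (Metric.closedBall_subset_ball (by linarith)))
  have hCh : ∀ v : ℂ, ‖v‖ ≤ δ / 2 → ‖h v‖ ≤ (max C 0) * ‖v‖ := by
    intro v hv
    have h1 := sub_smul_dslope h 0 v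
    rw [sub_zero, h0, sub_zero, smul_eq_mul] at h1
    rw [← h1, norm_mul, mul_comm]
    exact mul_le_mul_of_nonneg_right ((hC v (by rwa [mem_closedBall_zero_iff])).trans
      (le_max_left _ _)) (norm_nonneg _)
  obtain ⟨L0, hL0⟩ := riccati_contradiction (r / 2) (max C 0) (by linarith) (le_max_right _ _)
  have hlog : Tendsto (fun n => Real.log (ρ n)) atTop atBot := by
    apply Real.tendsto_log_nhdsGT_zero.comp
    rw [tendsto_nhdsWithin_iff]
    exact ⟨hρ0, Eventually.of_forall hρ⟩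
  obtain ⟨n, hn1, hn2⟩ := (hsmall.and (hlog.eventually_le_atBot (-L0))).exists
  have hWb : ∀ z ∈ Metric.ball (0:ℂ) (r / 2), ‖W n z‖ < min δ 1 / 2 := by
    intro z hz
    have h1 := hn1 z (Metric.ball_subset_closedBall hz)
    have h2 : G z = 0 := hGz (Metric.ball_subset_ball (by linarith) hz)
    rwa [h2, dist_zero_left] at h1
  obtain ⟨A, B, a, b, c1, c2, c3, c4, c5, c6, c7, c8, c9, c10⟩ := c4c_core_10341 δ h hh (max C 0) hCh
    (r / 2) (by linarith) (W n) (ρ n) (hρ n) hδ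
    ((hW n).mono (Metric.ball_subset_ball (by linarith))) hWb (hW0 n) (hode n)
  exact hL0 (-Real.log (ρ n)) (by linarith) A B a b c1 c2 c3 c4 c5 c6 c7 c8 c9 c10

end Pool.Agent.Helper118.Yud
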