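import Pool.Agent.Helper118.Yud.Defs
import Pool.Agent.Helper118.Yud.X0
import Pool.Agent.Helper118.Yud.EX
import Pool.Agent.Helper118.Yud.B7
import Pool.Agent.Helper118.Yud.C1
import Pool.Agent.Helper118.Yud.C2
import Pool.Agent.Helper118.Yud.C3
import Pool.Agent.Helper118.Yud.C4c

set_option autoImplicit false

namespace Pool.Agent.Helper118.Yud

open MeasureTheory Complex Set Filter Topology







theorem c5_sign_sin_352 {x : ℝ} (hx : |x| < 1 / 2) :
    Real.sign (Real.sin (2 * Real.pi * x)) = Real.sign x := by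
  have hpi := Real.pi_pos
  have h1 := abs_lt.1 hx
  rcases lt_trichotomy x 0 with h | h | h
  · have h2 : Real.sin (2 * Real.pi * x) < 0 := by
      refine Real.sin_neg_of_neg_of_neg_pi_lt ?_ ?_
      · nlinarith
      · nlinarith
    rw [Real.sign_of_neg h2, Real.sign_of_neg h]
  · subst h
    simp
  · have h2 : 0 < Real.sin (2 * Real.pi * x) := by
      refine Real.sin_pos_of_pos_of_lt_pi ?_ ?_
      · nlinarith
      · nlinarith
    rw [Real.sign_of_pos h2, Real.sign_of_pos h]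

theorem c5_pr_zero_352 : pr 0 = 0 := by
  unfold pr
  simp

theorem not_all_analytic {K : T2 → ℂ} {C : ℝ} (hK : IsBS K C) :
    ∃ w : C(T2, ℝ), ∃ ξ : ℝ → T2 → ℂ, Lagr K (fun x => w x) ξ ∧ ∃ t, ¬ AnalyticAt ℝ (fun s => ξ s 0) t := by
  by_contra hcon
  have hH : ∀ w : C(T2, ℝ), ∀ ξ : ℝ → T2 → ℂ, Lagr K (fun x => w x) ξ →
      ∀ t, AnalyticAt ℝ (fun s => ξ s 0) t := by
    intro w ξ hξ t
    by_contra h
    exact hcon ⟨w, ξ, hξ, t, h⟩
  obtain ⟨r, M, hr, hunif⟩ := uniform_radius hK hH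
  obtain ⟨ξ, hξ⟩ := exists_lagr hK BC BC_measurable 1 BC_abs_le
  have hUc : Continuous (vel K BC (fun _ => 0)) := vel0_continuous hK BC BC_measurable BC_abs_le
  set w : ℂ → ℂ := fun z => (starRingEnd ℂ) (vel K BC (fun _ => 0) (pr z)) with hw
  have hwc : Continuous w := Complex.continuous_conj.comp (hUc.comp pr_continuous)
  have hw0 : w 0 = 0 := by
    simp only [hw]
    rw [c5_pr_zero_352, bc_vel_zero hK, map_zero]
  have hball : ∀ x y : ℝ, (x : ℂ) + (y : ℂ) * I ∈ Metric.ball (0 : ℂ) (1 / 4) →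
      |x| < 1 / 4 ∧ |y| < 1 / 4 := by
    intro x y hxy
    rw [mem_ball_zero_iff] at hxy
    have h1 := Complex.abs_re_le_norm ((x : ℂ) + (y : ℂ) * I)
    have h2 := Complex.abs_im_le_norm ((x : ℂ) + (y : ℂ) * I)
    simp at h1 h2
    exact ⟨by linarith, by linarith⟩
  obtain ⟨h, hd, hh0, hexp⟩ := corner_expansion (1 / 4) (by norm_num) w hwc.continuousOn hw0 (by
    intro a b c d hab hcd hin
    have hac := hball a c (hin a ⟨le_rfl, hab⟩ c ⟨le_rfl, hcd⟩)
    have hbd := hball b d (hin b ⟨hab, le_rfl⟩ d ⟨hcd, le_rfl⟩)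
    have ha := abs_lt.1 hac.1
    have hc := abs_lt.1 hac.2
    have hb := abs_lt.1 hbd.1
    have hd := abs_lt.1 hbd.2
    have hcirc := circulation hK BC BC_measurable BC_abs_le BC_mean a b c d hab hcd
      (by linarith) (by linarith)
    refine hcirc.trans ?_
    refine intervalIntegral.integral_congr fun x hx => ?_
    rw [uIcc_of_le hab] at hx
    refine intervalIntegral.integral_congr fun y hy => ?_
    rw [uIcc_of_le hcd] at hy
    have hxy := hball x y (hin x hx y hy)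
    show ((BC (pr ((x : ℂ) + (y : ℂ) * I)) : ℝ) : ℂ) = ((Real.sign x * Real.sign y : ℝ) : ℂ)
    rw [BC_pr]
    have e1 : ((x : ℂ) + (y : ℂ) * I).re = x := by simp
    have e2 : ((x : ℂ) + (y : ℂ) * I).im = y := by simp
    rw [e1, e2, c5_sign_sin_352 (by linarith [hxy.1]), c5_sign_sin_352 (by linarith [hxy.2])])
  -- the sequence
  set ρ : ℕ → ℝ := fun n => 1 / ((n : ℝ) + 8) with hρdef
  have hρ : ∀ n, 0 < ρ n := fun n => by
    simp only [hρdef]
    positivity
  have hρ8 : ∀ n, ρ n ≤ 1 / 8 := fun n => by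
    simp only [hρdef]
    refine one_div_le_one_div_of_le (by norm_num) ?_
    have : (0 : ℝ) ≤ n := Nat.cast_nonneg n
    linarith
  have hρ0 : Tendsto ρ atTop (𝓝 0) := by
    simp only [hρdef]
    have h1 : Tendsto (fun n : ℕ => (n : ℝ) + 8) atTop atTop :=
      tendsto_atTop_add_const_right _ _ tendsto_natCast_atTop_atTop
    have h2 := tendsto_inv_atTop_zero.comp h1
    refine h2.congr fun n => ?_
    simp [one_div]
  set a : ℕ → T2 := fun n => pr ((ρ n : ℂ) * (1 + I)) with hadef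
  have hext : ∀ n, ExtBdd (fun t => ξ t (a n)) r M := fun n =>
    hunif BC BC_measurable BC_abs_le ξ hξ (a n)
  choose H hHd hHM hHt using hext
  set W : ℕ → ℂ → ℂ := fun n z => (ρ n : ℂ) * (1 + I) + H n z with hWdef
  have hWt : ∀ n (t : ℝ), |t| < r → W n (t : ℂ) = (ρ n : ℂ) * (1 + I) + ξ t (a n) := by
    intro n t ht
    simp only [hWdef]
    rw [hHt n t ht]
  have hξ0 : ∀ b, ξ 0 b = 0 := by
    intro b
    rw [hξ.eq 0 b, intervalIntegral.integral_same]
  have hξc : ∀ n, Continuous fun t => (ρ n : ℂ) * (1 + I) + ξ t (a n) := by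
    intro n
    have h1 : Continuous fun t => Function.uncurry ξ (t, a n) :=
      hξ.cont.comp (continuous_id.prodMk continuous_const)
    exact continuous_const.add h1
  have hn1 : ‖(1 + I : ℂ)‖ ≤ 2 := by
    refine (norm_add_le _ _).trans ?_
    rw [norm_one, Complex.norm_I]
    norm_num
  refine corner_contradiction (1 / 4) (by norm_num) h hd hh0 r (M + 1) hr W ρ hρ hρ0 ?_ ?_ ?_ ?_ ?_
  · intro n
    exact (differentiableOn_const _).add (hHd n)
  · intro n z hz
    have h1 := hHM n z hz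
    have h2 : ‖(ρ n : ℂ) * (1 + I)‖ ≤ 1 := by
      rw [norm_mul, Complex.norm_real, Real.norm_of_nonneg (hρ n).le]
      calc ρ n * ‖(1 + I : ℂ)‖ ≤ (1 / 8) * 2 := mul_le_mul (hρ8 n) hn1 (norm_nonneg _) (by norm_num)
        _ ≤ 1 := by norm_num
    calc ‖W n z‖ ≤ ‖(ρ n : ℂ) * (1 + I)‖ + ‖H n z‖ := norm_add_le _ _
      _ ≤ M + 1 := by linarith
  · intro n
    have h1 := hWt n 0 (by simpa using hr)
    rw [hξ0, add_zero] at h1
    simpa using h1
  · intro t ht
    have h1 : Tendsto (fun n => (ρ n : ℂ) * (1 + I)) atTop (𝓝 0) := by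
      have h2 : Tendsto (fun n => (ρ n : ℂ)) atTop (𝓝 ((0 : ℝ) : ℂ)) :=
        (Complex.continuous_ofReal.tendsto 0).comp hρ0
      have h3 := h2.mul_const (1 + I : ℂ)
      simpa using h3
    have h4 : Tendsto a atTop (𝓝 (pr 0)) := (pr_continuous.tendsto 0).comp h1
    have h5 : Continuous fun b => ξ t b :=
      hξ.cont.comp (continuous_const.prodMk continuous_id)
    have h6 : Tendsto (fun n => ξ t (a n)) atTop (𝓝 (ξ t (pr 0))) := (h5.tendsto _).comp h4
    rw [c5_pr_zero_352, bc_fix hK ξ hξ t] at h6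
    have h7 := h1.add h6
    rw [add_zero] at h7
    refine h7.congr fun n => ?_
    rw [hWt n t ht]
  · intro n
    -- the trajectory near time 0
    have hc := hξc n
    have e0 : (ρ n : ℂ) * (1 + I) + ξ 0 (a n) = (ρ n : ℂ) * (1 + I) := by rw [hξ0, add_zero]
    have hre : ((ρ n : ℂ) * (1 + I)).re = ρ n := by simp
    have him : ((ρ n : ℂ) * (1 + I)).im = ρ n := by simp
    have ev1 : ∀ᶠ t : ℝ in 𝓝 0, 0 < ((ρ n : ℂ) * (1 + I) + ξ t (a n)).re := by
      have h1 : Tendsto (fun t => ((ρ n : ℂ) * (1 + I) + ξ t (a n)).re) (𝓝 0)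
          (𝓝 (((ρ n : ℂ) * (1 + I) + ξ 0 (a n)).re)) :=
        (Complex.continuous_re.comp hc).tendsto 0
      rw [e0, hre] at h1
      exact h1.eventually_const_lt (hρ n)
    have ev2 : ∀ᶠ t : ℝ in 𝓝 0, 0 < ((ρ n : ℂ) * (1 + I) + ξ t (a n)).im := by
      have h1 : Tendsto (fun t => ((ρ n : ℂ) * (1 + I) + ξ t (a n)).im) (𝓝 0)
          (𝓝 (((ρ n : ℂ) * (1 + I) + ξ 0 (a n)).im)) :=
        (Complex.continuous_im.comp hc).tendsto 0
      rw [e0, him] at h1
      exact h1.eventually_const_lt (hρ n)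
    have ev3 : ∀ᶠ t : ℝ in 𝓝 0, ‖(ρ n : ℂ) * (1 + I) + ξ t (a n)‖ < 1 / 4 := by
      have h1 : Tendsto (fun t => ‖(ρ n : ℂ) * (1 + I) + ξ t (a n)‖) (𝓝 0)
          (𝓝 (‖(ρ n : ℂ) * (1 + I) + ξ 0 (a n)‖)) := (hc.norm).tendsto 0
      rw [e0] at h1
      refine h1.eventually_lt_const ?_
      have h2 : ‖(ρ n : ℂ) * (1 + I)‖ ^ 2 = 2 * (ρ n) ^ 2 := by
        rw [← Complex.normSq_eq_norm_sq, Complex.normSq_apply, hre, him]
        ring
      have h3 := hρ8 n
      have h4 := hρ n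
      nlinarith [norm_nonneg ((ρ n : ℂ) * (1 + I))]
    have ev4 : ∀ᶠ t : ℝ in 𝓝 0, |t| < r := by
      have : Metric.ball (0 : ℝ) r ∈ 𝓝 (0 : ℝ) := Metric.ball_mem_nhds _ hr
      filter_upwards [this] with t ht
      simpa [Real.dist_eq] using ht
    filter_upwards [ev1, ev2, ev3, ev4] with t h1 h2 h3 h4
    have hWe := hWt n t h4
    rw [← hWe] at h1 h2 h3
    refine ⟨h1, h2, ?_⟩
    have hder := Lagr.hasDerivAt hK BC BC_measurable 1 BC_abs_le ξ hξ t (a n)
    rw [bc_steady hK ξ hξ t] at hder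
    have hmv : mv (ξ t) (a n) = pr (W n (t : ℂ)) := by
      rw [hWe, pr_add]
      rfl
    rw [hmv] at hder
    have hval : vel K BC (fun _ => 0) (pr (W n (t : ℂ))) = (starRingEnd ℂ) (w (W n (t : ℂ))) := by
      simp only [hw]
      rw [Complex.conj_conj]
    rw [hval, hexp (W n (t : ℂ)) (by rw [mem_ball_zero_iff]; exact h3) h1 h2] at hder
    have hder2 := hder.const_add ((ρ n : ℂ) * (1 + I))
    refine hder2.congr_of_eventuallyEq ?_
    have hop : {s : ℝ | |s| < r} ∈ 𝓝 t := (isOpen_lt continuous_abs continuous_const).mem_nhds h4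
    filter_upwards [hop] with s hs
    exact hWt n s hs

end Pool.Agent.Helper118.Yud
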