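import Mathlib

set_option autoImplicit false

/-!
# Lagrangian solutions of the 2D Euler equations on the flat torus (definitions)
-/

namespace Pool.Agent.Helper118.Yud

open MeasureTheory Complex Set Filter Topology

/-- flat torus `ℝ²/ℤ²` -/
abbrev T2 := UnitAddCircle × UnitAddCircle

/-- projection `ℂ → ℝ²/ℤ²` -/
noncomputable def pr (z : ℂ) : T2 := ((z.re : UnitAddCircle), (z.im : UnitAddCircle))

/-- characters `e_k(x) = exp(2πi (k₁x₁+k₂x₂))` -/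
noncomputable def ek (k : ℤ × ℤ) (x : T2) : ℂ := fourier k.1 x.1 * fourier k.2 x.2

/-- real trigonometric polynomials -/
def IsTrig (p : T2 → ℝ) : Prop :=
  ∃ c : (ℤ × ℤ) →₀ ℂ, ∀ x, (p x : ℂ) = c.sum fun k a => a * ek k x

/-- `K : T2 → ℂ` (velocity `u₁ + i u₂` of a unit point vortex at `0`, with uniform background vorticity `-1`)
is the Biot–Savart kernel of the torus: all the properties that are used. `‖x‖` is the max norm of the torus. -/
structure IsBS (K : T2 → ℂ) (C : ℝ) : Prop where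
  pos : 0 < C
  meas : Measurable K
  bd : ∀ x : T2, x ≠ 0 → ‖K x‖ ≤ C / ‖x‖
  lip : ∀ x y : T2, x ≠ 0 → y ≠ 0 → ‖K x - K y‖ ≤ C * ‖x - y‖ / (‖x‖ * ‖y‖)
  fc : ∀ k : ℤ × ℤ, k ≠ 0 →
    ∫ x, K x * ek (-k) x = 1 / (2 * (Real.pi : ℂ) * ((k.1 : ℂ) - (k.2 : ℂ) * I))
  fc0 : ∫ x, K x = 0
  odd : ∀ x : T2, K (-x) = -K x
  refl : ∀ x : T2, K (x.1, -x.2) = -(starRingEnd ℂ) (K x)
  reg : ∀ ε : ℝ, 0 < ε → ε ≤ 1/4 → ∃ Kε : T2 → ℂ,
    ContDiff ℝ 1 (fun z : ℂ => Kε (pr z)) ∧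
    (∀ z : ℂ, (fderiv ℝ (fun z : ℂ => Kε (pr z)) z 1).re +
      (fderiv ℝ (fun z : ℂ => Kε (pr z)) z I).im = 0) ∧
    ∫ x, ‖K x - Kε x‖ ≤ C * ε

/-- the modulus `φ(δ) = min(δ,1) (1 - log min(δ,1))` -/
noncomputable def phi (δ : ℝ) : ℝ := min δ 1 * (1 - Real.log (min δ 1))

/-- position map of a displacement field -/
noncomputable def mv (ξ : T2 → ℂ) (b : T2) : T2 := b + pr (ξ b)

/-- velocity at `x` generated by the vorticity `ω` (initial, i.e. Lagrangian) carried by the displacement `ξ` -/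
noncomputable def vel (K : T2 → ℂ) (ω : T2 → ℝ) (ξ : T2 → ℂ) (x : T2) : ℂ :=
  ∫ b, (ω b : ℂ) * K (x - mv ξ b)

/-- Lagrangian solution of the Euler equations with initial vorticity `ω` (minus its mean): `ξ t a` is the
displacement at time `t` of the particle `a`. -/
structure Lagr (K : T2 → ℂ) (ω : T2 → ℝ) (ξ : ℝ → T2 → ℂ) : Prop where
  cont : Continuous (Function.uncurry ξ)
  mp : ∀ t, MeasurePreserving (mv (ξ t)) volume volume
  eq : ∀ t a, ξ t a = ∫ s in (0:ℝ)..t, vel K ω (ξ s) (mv (ξ s) a)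

/-- approximate Lagrangian solution on `[-T,T]` with error `δ` -/
structure ALagr (K : T2 → ℂ) (T δ : ℝ) (ω : T2 → ℝ) (ξ : ℝ → T2 → ℂ) : Prop where
  cont : Continuous (Function.uncurry ξ)
  mp : ∀ t, |t| ≤ T → MeasurePreserving (mv (ξ t)) volume volume
  eq : ∀ t, |t| ≤ T → ∀ a, ‖ξ t a - ∫ s in (0:ℝ)..t, vel K ω (ξ s) (mv (ξ s) a)‖ ≤ δ

end Pool.Agent.Helper118.Yud
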