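import Pool.Agent.Helper118.Yud.Defs

set_option autoImplicit false

namespace Pool.Agent.Helper118.Yud

open MeasureTheory Complex Set Filter Topology

/-- conjugate velocity u - i v at z of a unit vortex at the lattice points (period 1 and I), background -1 -/
noncomputable def k0 (z : ℂ) : ℂ :=
  (1 / (2 * I)) * (Complex.cot (Real.pi * z) + ∑' m : ℕ, (Complex.cot (Real.pi * (z + (m + 1) * I)) +
    Complex.cot (Real.pi * (z - (m + 1) * I)))) + (z.im : ℂ)

end Pool.Agent.Helper118.Yud
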