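import Pool.Agent.Helper118.Yud.Defs
import Pool.Agent.Helper118.Yud.K0

set_option autoImplicit false

namespace Pool.Agent.Helper118.Yud

open MeasureTheory Complex Set Filter Topology



theorem k1_k0_cot_neg (w : ℂ) : Complex.cot (-w) = -Complex.cot w := by
  unfold Complex.cot
  rw [Complex.cos_neg, Complex.sin_neg, div_neg]

theorem k1_k0_cot_add_pi (w : ℂ) : Complex.cot (w + Real.pi) = Complex.cot w := by
  unfold Complex.cot
  rw [Complex.cos_add_pi, Complex.sin_add_pi, neg_div_neg_eq]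

theorem k1_k0_cot_conj (w : ℂ) :
    Complex.cot ((starRingEnd ℂ) w) = (starRingEnd ℂ) (Complex.cot w) := by
  unfold Complex.cot
  rw [Complex.cos_conj, Complex.sin_conj, map_div₀]

theorem k1_k0_cot_bound (w : ℂ) (hw : 1 ≤ w.im) :
    ‖Complex.cot (Real.pi * w) + I‖ ≤ 4 * Real.exp (-(2 * Real.pi) * w.im) := by
  have hq : ‖Complex.exp (2 * Real.pi * I * w)‖ = Real.exp (-(2 * Real.pi) * w.im) := by
    rw [Complex.norm_exp]
    congr 1
    simp
  have hq2 : Real.exp (-(2 * Real.pi) * w.im) ≤ 1 / 2 := by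
    have h1 : -(2 * Real.pi) * w.im ≤ -1 := by nlinarith [Real.pi_gt_three]
    refine (Real.exp_le_exp.2 h1).trans ?_
    rw [Real.exp_neg, one_div]
    apply inv_anti₀ (by norm_num)
    have := Real.add_one_le_exp (1 : ℝ)
    linarith
  rw [Complex.cot_pi_eq_exp_ratio]
  set q := Complex.exp (2 * Real.pi * I * w) with hqdef
  have h1q : 1 / 2 ≤ ‖1 - q‖ := by
    have := norm_sub_norm_le (1 : ℂ) q
    rw [norm_one, hq] at this
    linarith
  have h1q0 : (1 - q) ≠ 0 := by
    intro h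
    rw [h, norm_zero] at h1q
    norm_num at h1q
  have e : (q + 1) / (I * (1 - q)) + I = (2 * q) / (I * (1 - q)) := by
    field_simp
    rw [Complex.I_sq]
    ring
  rw [e, norm_div, norm_mul, norm_mul, Complex.norm_I, hq, one_mul, Complex.norm_ofNat,
    div_le_iff₀ (by linarith)]
  have := Real.exp_pos (-(2 * Real.pi) * w.im)
  nlinarith

/-- auxiliary terms -/
noncomputable def k1_k0_a (z : ℂ) (m : ℕ) : ℂ := Complex.cot (Real.pi * (z + (m + 1) * I)) + I

theorem k1_k0_a_summable (z : ℂ) : Summable (k1_k0_a z) := by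
  have hr : Summable fun m : ℕ => 4 * Real.exp (-(2 * Real.pi) * (z.im + 1)) *
      (Real.exp (-(2 * Real.pi))) ^ m := by
    apply Summable.mul_left
    apply summable_geometric_of_lt_one (Real.exp_pos _).le
    rw [Real.exp_lt_one_iff]
    have := Real.pi_pos
    linarith
  refine Summable.of_norm_bounded_eventually_nat hr ?_
  filter_upwards [Filter.eventually_ge_atTop (Nat.ceil |z.im|)] with m hm
  have h1 : |z.im| ≤ m := Nat.ceil_le.1 hm
  have h2 : (z + (m + 1) * I).im = z.im + (m + 1) := by simp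
  have h3 : 1 ≤ (z + (m + 1) * I).im := by
    rw [h2]
    have := neg_abs_le z.im
    linarith
  refine (k1_k0_cot_bound _ h3).trans (le_of_eq ?_)
  rw [h2, mul_assoc, ← Real.exp_nat_mul, ← Real.exp_add]
  congr 2
  ring

theorem k1_k0_term (z : ℂ) (m : ℕ) : (Complex.cot (Real.pi * (z + (m + 1) * I)) +
    Complex.cot (Real.pi * (z - (m + 1) * I))) = k1_k0_a z m - k1_k0_a (-z) m := by
  have h : Complex.cot (Real.pi * (z - (m + 1) * I)) =
      -Complex.cot (Real.pi * (-z + (m + 1) * I)) := by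
    rw [← k1_k0_cot_neg]
    congr 1
    ring
  rw [h]
  unfold k1_k0_a
  ring

theorem k1_k0_eq (z : ℂ) : k0 z = (1 / (2 * I)) * (Complex.cot (Real.pi * z) +
    (∑' m, k1_k0_a z m - ∑' m, k1_k0_a (-z) m)) + (z.im : ℂ) := by
  unfold k0
  rw [← (k1_k0_a_summable z).tsum_sub (k1_k0_a_summable (-z))]
  simp only [k1_k0_term]

theorem k1_k0_a_shift (z : ℂ) (m : ℕ) : k1_k0_a (z + I) m = k1_k0_a z (m + 1) := by
  unfold k1_k0_a
  congr 3
  push_cast
  ring

theorem k1_k0_A_add_I (z : ℂ) : ∑' m, k1_k0_a (z + I) m =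
    ∑' m, k1_k0_a z m - (Complex.cot (Real.pi * (z + I)) + I) := by
  have h := (k1_k0_a_summable z).tsum_eq_zero_add
  have h0 : k1_k0_a z 0 = Complex.cot (Real.pi * (z + I)) + I := by
    unfold k1_k0_a
    congr 3
    push_cast
    ring
  rw [h, h0]
  simp only [k1_k0_a_shift]
  ring

theorem k0_summable (z : ℂ) : Summable fun m : ℕ => (Complex.cot (Real.pi * (z + (m + 1) * I)) +
    Complex.cot (Real.pi * (z - (m + 1) * I))) := by
  simp only [k1_k0_term]
  exact (k1_k0_a_summable z).sub (k1_k0_a_summable (-z))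

theorem k0_add_one (z : ℂ) : k0 (z + 1) = k0 z := by
  have e : ∀ w : ℂ, Complex.cot (Real.pi * (w + 1)) = Complex.cot (Real.pi * w) := by
    intro w
    rw [mul_add, mul_one, k1_k0_cot_add_pi]
  unfold k0
  have e1 : ∀ m : ℕ, Complex.cot (Real.pi * (z + 1 + (m + 1) * I)) =
      Complex.cot (Real.pi * (z + (m + 1) * I)) := by
    intro m
    rw [← e (z + (m + 1) * I)]
    congr 1
    ring
  have e2 : ∀ m : ℕ, Complex.cot (Real.pi * (z + 1 - (m + 1) * I)) =
      Complex.cot (Real.pi * (z - (m + 1) * I)) := by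
    intro m
    rw [← e (z - (m + 1) * I)]
    congr 1
    ring
  simp only [e, e1, e2]
  simp

theorem k0_add_I (z : ℂ) : k0 (z + I) = k0 z := by
  rw [k1_k0_eq, k1_k0_eq]
  have h1 := k1_k0_A_add_I z
  have h2 := k1_k0_A_add_I (-z - I)
  rw [sub_add_cancel] at h2
  have h3 : -(z + I) = -z - I := by ring
  have h4 : Complex.cot (Real.pi * -z) = -Complex.cot (Real.pi * z) := by
    rw [← k1_k0_cot_neg]
    congr 1
    ring
  rw [h4] at h2
  rw [h3, h1, h2]
  have h5 : ((z + I).im : ℂ) = (z.im : ℂ) + 1 := by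
    simp
  rw [h5]
  have hI : (I : ℂ) ≠ 0 := Complex.I_ne_zero
  field_simp
  ring

theorem k0_neg (z : ℂ) : k0 (-z) = -k0 z := by
  rw [k1_k0_eq, k1_k0_eq, neg_neg]
  have h4 : Complex.cot (Real.pi * -z) = -Complex.cot (Real.pi * z) := by
    rw [← k1_k0_cot_neg]
    congr 1
    ring
  rw [h4, Complex.neg_im]
  push_cast
  ring

theorem k0_conj (z : ℂ) : k0 ((starRingEnd ℂ) z) = -(starRingEnd ℂ) (k0 z) := by
  have e0 : ∀ w : ℂ, (Real.pi : ℂ) * (starRingEnd ℂ) w = (starRingEnd ℂ) (Real.pi * w) := by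
    intro w
    rw [map_mul, Complex.conj_ofReal]
  have e1 : ∀ m : ℕ, Complex.cot (Real.pi * ((starRingEnd ℂ) z + (m + 1) * I)) =
      (starRingEnd ℂ) (Complex.cot (Real.pi * (z - (m + 1) * I))) := by
    intro m
    rw [← k1_k0_cot_conj, ← e0]
    congr 2
    simp
  have e2 : ∀ m : ℕ, Complex.cot (Real.pi * ((starRingEnd ℂ) z - (m + 1) * I)) =
      (starRingEnd ℂ) (Complex.cot (Real.pi * (z + (m + 1) * I))) := by
    intro m
    rw [← k1_k0_cot_conj, ← e0]
    congr 2
    simp [sub_eq_add_neg]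
  unfold k0
  simp only [e1, e2, e0, k1_k0_cot_conj]
  have e3 : (∑' m : ℕ, ((starRingEnd ℂ) (Complex.cot (Real.pi * (z - (m + 1) * I))) +
      (starRingEnd ℂ) (Complex.cot (Real.pi * (z + (m + 1) * I))))) =
      (starRingEnd ℂ) (∑' m : ℕ, (Complex.cot (Real.pi * (z + (m + 1) * I)) +
        Complex.cot (Real.pi * (z - (m + 1) * I)))) := by
    rw [Complex.conj_tsum]
    congr 1
    funext m
    rw [map_add, add_comm]
  rw [e3]
  simp only [map_add, map_mul, map_div₀, map_one, Complex.conj_I, Complex.conj_ofReal,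
    Complex.conj_im, map_ofNat]
  push_cast
  have hI : (I : ℂ) ≠ 0 := Complex.I_ne_zero
  field_simp
  ring

end Pool.Agent.Helper118.Yud
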