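import Pool.Agent.Helper118.Yud.Defs
import Pool.Agent.Helper118.Yud.K0

set_option autoImplicit false

namespace Pool.Agent.Helper118.Yud

open MeasureTheory Complex Set Filter Topology



theorem k2_cot_add_I_bound_10067 (w : ℂ) (t : ℝ)
    (h : ‖Complex.exp (2 * Real.pi * I * w)‖ ≤ t) (ht : t < 1) :
    ‖Complex.cot (Real.pi * w) + I‖ ≤ 2 * t / (1 - t) := by
  set q := Complex.exp (2 * Real.pi * I * w) with hq
  have hq1 : 1 - t ≤ ‖1 - q‖ := by
    have h1 := norm_sub_norm_le (1 : ℂ) q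
    rw [norm_one] at h1
    linarith
  have hpos : 0 < ‖1 - q‖ := by linarith
  have hne : (1 : ℂ) - q ≠ 0 := norm_pos_iff.1 hpos
  have e : Complex.cot (Real.pi * w) + I = 2 * q / (I * (1 - q)) := by
    rw [Complex.cot_pi_eq_exp_ratio, ← hq]
    have hI : I * (1 - q) ≠ 0 := mul_ne_zero I_ne_zero hne
    rw [eq_div_iff hI, add_mul, div_mul_cancel₀ _ hI]
    linear_combination (1 - q) * I_mul_I
  rw [e, norm_div, norm_mul, norm_mul, norm_I, one_mul]
  have h2 : ‖(2 : ℂ)‖ = 2 := by simp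
  rw [h2]
  have ht0 : 0 ≤ t := (norm_nonneg _).trans h
  exact div_le_div₀ (by linarith) (by linarith) (by linarith) hq1

theorem k2_cot_sub_I_bound_10067 (w : ℂ) (t : ℝ)
    (h : ‖Complex.exp (2 * Real.pi * I * (-w))‖ ≤ t) (ht : t < 1) :
    ‖Complex.cot (Real.pi * w) - I‖ ≤ 2 * t / (1 - t) := by
  have h1 := k2_cot_add_I_bound_10067 (-w) t h ht
  have e : Complex.cot (Real.pi * (-w)) = -Complex.cot (Real.pi * w) := by
    rw [mul_neg]
    simp [Complex.cot, div_neg]
  rw [e] at h1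
  rw [← norm_neg]
  rwa [neg_sub, sub_eq_add_neg, add_comm]

theorem k2_norm_q_10067 (w : ℂ) :
    ‖Complex.exp (2 * Real.pi * I * w)‖ = Real.exp (-(2 * Real.pi * w.im)) := by
  rw [Complex.norm_exp]
  congr 1
  simp [Complex.mul_re, Complex.mul_im]

theorem k2_sin_ne_10067 (x : ℂ) (hx : x.im ≠ 0) : Complex.sin (Real.pi * x) ≠ 0 := by
  apply sin_pi_mul_ne_zero
  rw [Complex.mem_integerComplement_iff]
  rintro ⟨n, rfl⟩
  simp at hx

theorem k2_cot_diff_10067 (c z : ℂ) (h : (z + c).im ≠ 0) :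
    DifferentiableAt ℂ (fun z => Complex.cot (Real.pi * (z + c))) z := by
  unfold Complex.cot
  exact DifferentiableAt.div (by fun_prop) (by fun_prop) (k2_sin_ne_10067 _ h)

theorem k2_term_bound_10067 (r : ℝ) (m : ℕ) (z : ℂ) (hr : r < 1) (hz : |z.im| < r) :
    ‖Complex.cot (Real.pi * (z + (m + 1) * I)) + Complex.cot (Real.pi * (z - (m + 1) * I))‖ ≤
      4 * Real.exp (-(2 * Real.pi * (1 - r))) / (1 - Real.exp (-(2 * Real.pi * (1 - r)))) *
        Real.exp (-(2 * Real.pi)) ^ m := by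
  set ρ := Real.exp (-(2 * Real.pi * (1 - r))) with hρ
  set κ := Real.exp (-(2 * Real.pi)) with hκ
  have hpi := Real.pi_pos
  have hρ0 : 0 < ρ := Real.exp_pos _
  have hκ0 : 0 < κ := Real.exp_pos _
  have hρ1 : ρ < 1 := by
    rw [hρ, Real.exp_lt_one_iff]
    have : 0 < 2 * Real.pi * (1 - r) := by
      have : 0 < 1 - r := by linarith
      positivity
    linarith
  have hκ1 : κ ≤ 1 := by
    rw [hκ, Real.exp_le_one_iff]
    linarith
  have hκm : κ ^ m ≤ 1 := pow_le_one₀ hκ0.le hκ1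
  have hκm0 : 0 < κ ^ m := pow_pos hκ0 m
  have ht : ρ * κ ^ m ≤ ρ := by nlinarith
  have hab := abs_lt.1 hz
  have he : ρ * κ ^ m = Real.exp (-(2 * Real.pi * ((m : ℝ) + 1 - r))) := by
    rw [hρ, hκ, ← Real.exp_nat_mul, ← Real.exp_add]
    congr 1
    ring
  have b1 : ‖Complex.exp (2 * Real.pi * I * (z + (m + 1) * I))‖ ≤ ρ * κ ^ m := by
    rw [k2_norm_q_10067, he]
    apply Real.exp_le_exp.2
    have e1 : (z + (m + 1) * I).im = z.im + (m + 1) := by simp
    rw [e1]
    have : 2 * Real.pi * ((m : ℝ) + 1 - r) ≤ 2 * Real.pi * (z.im + (m + 1)) :=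
      mul_le_mul_of_nonneg_left (by linarith) (by positivity)
    linarith
  have b2 : ‖Complex.exp (2 * Real.pi * I * (-(z - (m + 1) * I)))‖ ≤ ρ * κ ^ m := by
    rw [k2_norm_q_10067, he]
    apply Real.exp_le_exp.2
    have e1 : (-(z - (m + 1) * I)).im = -z.im + (m + 1) := by simp; ring
    rw [e1]
    have : 2 * Real.pi * ((m : ℝ) + 1 - r) ≤ 2 * Real.pi * (-z.im + (m + 1)) :=
      mul_le_mul_of_nonneg_left (by linarith) (by positivity)
    linarith
  have c1 := k2_cot_add_I_bound_10067 _ _ b1 (by linarith)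
  have c2 := k2_cot_sub_I_bound_10067 _ _ b2 (by linarith)
  have e : Complex.cot (Real.pi * (z + (m + 1) * I)) + Complex.cot (Real.pi * (z - (m + 1) * I)) =
      (Complex.cot (Real.pi * (z + (m + 1) * I)) + I) +
        (Complex.cot (Real.pi * (z - (m + 1) * I)) - I) := by ring
  rw [e]
  refine (norm_add_le _ _).trans ((add_le_add c1 c2).trans ?_)
  have h3 : 2 * (ρ * κ ^ m) / (1 - ρ * κ ^ m) ≤ 2 * (ρ * κ ^ m) / (1 - ρ) :=
    div_le_div_of_nonneg_left (by positivity) (by linarith) (by linarith)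
  have h4 : 4 * ρ / (1 - ρ) * κ ^ m = 2 * (ρ * κ ^ m) / (1 - ρ) + 2 * (ρ * κ ^ m) / (1 - ρ) := by
    ring
  rw [h4]
  exact add_le_add h3 h3

theorem k2_sum_diff_10067 (z : ℂ) (hz : |z.im| < 1) :
    DifferentiableAt ℂ (fun z => ∑' m : ℕ, (Complex.cot (Real.pi * (z + (m + 1) * I)) +
      Complex.cot (Real.pi * (z - (m + 1) * I)))) z := by
  obtain ⟨r, hr1, hr2⟩ := exists_between hz
  have hU : IsOpen {z : ℂ | |z.im| < r} := isOpen_lt (by fun_prop) (by fun_prop)
  have hpi := Real.pi_pos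
  have hκ1 : Real.exp (-(2 * Real.pi)) < 1 := by
    rw [Real.exp_lt_one_iff]
    linarith
  have hu : Summable (fun m : ℕ => 4 * Real.exp (-(2 * Real.pi * (1 - r))) /
      (1 - Real.exp (-(2 * Real.pi * (1 - r)))) * Real.exp (-(2 * Real.pi)) ^ m) :=
    (summable_geometric_of_lt_one (Real.exp_pos _).le hκ1).mul_left _
  have h := differentiableOn_tsum_of_summable_norm hu
    (F := fun (m : ℕ) (z : ℂ) => Complex.cot (Real.pi * (z + (m + 1) * I)) +
      Complex.cot (Real.pi * (z - (m + 1) * I))) (U := {z : ℂ | |z.im| < r}) ?_ hU ?_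
  · exact h.differentiableAt (hU.mem_nhds hr1)
  · intro m w hw
    have hab := abs_lt.1 (show |w.im| < r from hw)
    have hm : (0 : ℝ) ≤ m := Nat.cast_nonneg m
    have d1 := k2_cot_diff_10067 ((m + 1) * I) w (by
      have : (w + (m + 1) * I).im = w.im + (m + 1) := by simp
      rw [this]
      have : 0 < w.im + (m + 1) := by linarith
      exact this.ne')
    have d2 := k2_cot_diff_10067 (-((m + 1) * I)) w (by
      have : (w + -((m + 1) * I)).im = w.im - (m + 1) := by simp; ring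
      rw [this]
      have : w.im - (m + 1) < 0 := by linarith
      exact this.ne)
    simp only [← sub_eq_add_neg] at d2
    exact (d1.add d2).differentiableWithinAt
  · intro m w hw
    exact k2_term_bound_10067 r m w hr2 hw

/-- the removable singularity of `cot πz - 1/(πz)` -/
theorem k2_cot_pole_10067 : ∃ g : ℂ → ℂ, DifferentiableOn ℂ g {z | |z.re| < 1 ∧ |z.im| < 1} ∧
    ∀ z : ℂ, z ≠ 0 → |z.re| < 1 → Complex.cot (Real.pi * z) = 1 / (Real.pi * z) + g z := by
  set S : ℂ → ℂ := fun z => Complex.sin (Real.pi * z) with hS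
  set N : ℂ → ℂ := fun z => Real.pi * z * Complex.cos (Real.pi * z) - Complex.sin (Real.pi * z)
    with hN
  have hpi : (Real.pi : ℂ) ≠ 0 := by exact_mod_cast Real.pi_ne_zero
  have hSd : Differentiable ℂ S := by rw [hS]; fun_prop
  have hNd : Differentiable ℂ N := by rw [hN]; fun_prop
  have dsl : ∀ f : ℂ → ℂ, Differentiable ℂ f → Differentiable ℂ (dslope f 0) := by
    intro f hf
    have := (Complex.differentiableOn_dslope (s := Set.univ) (c := (0 : ℂ)) (f := f)
      Filter.univ_mem).2 hf.differentiableOn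
    exact differentiableOn_univ.1 this
  have h1 := dsl S hSd
  have h2 := dsl N hNd
  have h3 := dsl _ h2
  have hS0 : HasDerivAt S (Real.pi : ℂ) 0 := by
    have a1 : HasDerivAt (fun z : ℂ => (Real.pi : ℂ) * z) (Real.pi : ℂ) 0 := by
      simpa using (hasDerivAt_id (0 : ℂ)).const_mul (Real.pi : ℂ)
    have a2 := a1.csin
    simpa using a2
  have hN0 : HasDerivAt N 0 0 := by
    have a1 : HasDerivAt (fun z : ℂ => (Real.pi : ℂ) * z) (Real.pi : ℂ) 0 := by
      simpa using (hasDerivAt_id (0 : ℂ)).const_mul (Real.pi : ℂ)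
    have a2 := (a1.mul a1.ccos).sub a1.csin
    have a3 : HasDerivAt N _ 0 := a2
    convert a3 using 1
    simp
  have s0 : dslope S 0 0 = Real.pi := by rw [dslope_same, hS0.deriv]
  have n0 : dslope N 0 0 = 0 := by rw [dslope_same, hN0.deriv]
  have sz : ∀ z, z ≠ 0 → dslope S 0 z = z⁻¹ * Complex.sin (Real.pi * z) := by
    intro z hz
    rw [dslope_of_ne _ hz, slope_def_module]
    simp [hS]
  have nz : ∀ z, z ≠ 0 → dslope N 0 z = z⁻¹ * N z := by
    intro z hz
    rw [dslope_of_ne _ hz, slope_def_module]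
    simp [hN]
  have nz2 : ∀ z, z ≠ 0 → dslope (dslope N 0) 0 z = z⁻¹ * (z⁻¹ * N z) := by
    intro z hz
    rw [dslope_of_ne _ hz, slope_def_module, n0, nz z hz]
    simp
  have hsin : ∀ z : ℂ, z ≠ 0 → |z.re| < 1 → Complex.sin (Real.pi * z) ≠ 0 := by
    intro z hz hre
    apply sin_pi_mul_ne_zero
    rw [Complex.mem_integerComplement_iff]
    rintro ⟨n, rfl⟩
    have h4 : |(n : ℝ)| < 1 := by simpa using hre
    have h5 : |n| < 1 := by exact_mod_cast h4
    have h6 : n = 0 := Int.abs_lt_one_iff.1 h5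
    rw [h6] at hz
    simp at hz
  refine ⟨fun z => dslope (dslope N 0) 0 z / (Real.pi * dslope S 0 z), ?_, ?_⟩
  · intro z hz
    refine DifferentiableAt.differentiableWithinAt ?_
    refine DifferentiableAt.div (h3 z) ((h1 z).const_mul _) ?_
    refine mul_ne_zero hpi ?_
    by_cases h0 : z = 0
    · rw [h0, s0]; exact hpi
    · rw [sz z h0]
      exact mul_ne_zero (inv_ne_zero h0) (hsin z h0 hz.1)
  · intro z hz hre
    have hs := hsin z hz hre
    simp only
    rw [nz2 z hz, sz z hz, hN]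
    simp only [Complex.cot]
    field_simp
    ring

theorem k0_decomp : ∃ g : ℂ → ℂ, DifferentiableOn ℂ g {z | |z.re| < 1 ∧ |z.im| < 1} ∧
    ∀ z : ℂ, z ≠ 0 → |z.re| < 1 → |z.im| < 1 → k0 z = 1 / (2 * Real.pi * I * z) + g z + (z.im : ℂ) := by
  obtain ⟨g, hg1, hg2⟩ := k2_cot_pole_10067
  refine ⟨fun z => (1 / (2 * I)) * (g z + ∑' m : ℕ, (Complex.cot (Real.pi * (z + (m + 1) * I)) +
    Complex.cot (Real.pi * (z - (m + 1) * I)))), ?_, ?_⟩
  · refine DifferentiableOn.const_mul (DifferentiableOn.add hg1 ?_) _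
    intro z hz
    exact (k2_sum_diff_10067 z hz.2).differentiableWithinAt
  · intro z hz hre him
    have hpi : (Real.pi : ℂ) ≠ 0 := by exact_mod_cast Real.pi_ne_zero
    unfold k0
    rw [hg2 z hz hre]
    simp only
    have e : 1 / (2 * Real.pi * I * z) = (1 / (2 * I)) * (1 / (Real.pi * z)) := by
      field_simp
    rw [e]
    ring

end Pool.Agent.Helper118.Yud
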