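import Pool.Agent.Helper118.Yud.Defs
import Pool.Agent.Helper118.Yud.X0
import Pool.Agent.Helper118.Yud.K1
import Pool.Agent.Helper118.Yud.K2
import Pool.Agent.Helper118.Yud.E4

set_option autoImplicit false

namespace Pool.Agent.Helper118.Yud

open MeasureTheory Complex Set Filter Topology






theorem k3_kmbl_g (g : ℂ → ℂ) (hg : DifferentiableOn ℂ g {z | |z.re| < 1 ∧ |z.im| < 1}) :
    ∃ B L : ℝ, 0 ≤ B ∧ 0 ≤ L ∧ (∀ z : ℂ, |z.re| ≤ 5/8 → |z.im| ≤ 5/8 → ‖g z‖ ≤ B) ∧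
      ∀ z w : ℂ, |z.re| ≤ 5/8 → |z.im| ≤ 5/8 → |w.re| ≤ 5/8 → |w.im| ≤ 5/8 →
        ‖g w - g z‖ ≤ L * ‖w - z‖ := by
  obtain ⟨Ω, hΩ⟩ : ∃ Ω : Set ℂ, Ω = {z | |z.re| < 1 ∧ |z.im| < 1} := ⟨_, rfl⟩
  have hΩo : IsOpen Ω := by
    rw [hΩ]
    exact (isOpen_lt (continuous_abs.comp Complex.continuous_re) continuous_const).inter
      (isOpen_lt (continuous_abs.comp Complex.continuous_im) continuous_const)
  rw [← hΩ] at hg
  obtain ⟨Q, hQ⟩ : ∃ Q : Set ℂ, Q = Icc (-(5/8) : ℝ) (5/8) ×ℂ Icc (-(5/8) : ℝ) (5/8) := ⟨_, rfl⟩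
  have hQm : ∀ z : ℂ, z ∈ Q ↔ |z.re| ≤ 5/8 ∧ |z.im| ≤ 5/8 := by
    intro z
    rw [hQ, Complex.mem_reProdIm, mem_Icc, mem_Icc, abs_le, abs_le]
  have hQc : IsCompact Q := by
    rw [hQ]; exact isCompact_Icc.reProdIm isCompact_Icc
  have hQconv : Convex ℝ Q := by
    rw [hQ]
    exact ((convex_Icc (-(5/8) : ℝ) (5/8)).linear_preimage Complex.reLm).inter
      ((convex_Icc (-(5/8) : ℝ) (5/8)).linear_preimage Complex.imLm)
  have hQΩ : Q ⊆ Ω := by
    intro z hz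
    rw [hQm] at hz
    rw [hΩ]
    exact ⟨lt_of_le_of_lt hz.1 (by norm_num), lt_of_le_of_lt hz.2 (by norm_num)⟩
  obtain ⟨B, hB⟩ := hQc.exists_bound_of_continuousOn (hg.continuousOn.mono hQΩ)
  have hgd : ContinuousOn (deriv g) Q := (hg.deriv hΩo).continuousOn.mono hQΩ
  obtain ⟨L, hL⟩ := hQc.exists_bound_of_continuousOn hgd
  have h0 : (0:ℂ) ∈ Q := by rw [hQm]; norm_num
  refine ⟨B, L, (norm_nonneg _).trans (hB 0 h0), (norm_nonneg _).trans (hL 0 h0), ?_, ?_⟩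
  · intro z h1 h2
    exact hB z ((hQm z).2 ⟨h1, h2⟩)
  · intro z w h1 h2 h3 h4
    exact hQconv.norm_image_sub_le_of_norm_deriv_le
      (fun x hx => (hg x (hQΩ hx)).differentiableAt (hΩo.mem_nhds (hQΩ hx))) hL
      ((hQm z).2 ⟨h1, h2⟩) ((hQm w).2 ⟨h3, h4⟩)

theorem kernel_meas_bd_lip (K : T2 → ℂ) (hK : ∀ z : ℂ, K (pr z) = (starRingEnd ℂ) (k0 z)) :
    Measurable K ∧ ∃ C : ℝ, 0 < C ∧ (∀ x : T2, x ≠ 0 → ‖K x‖ ≤ C / ‖x‖) ∧
      (∀ x y : T2, x ≠ 0 → y ≠ 0 → ‖K x - K y‖ ≤ C * ‖x - y‖ / (‖x‖ * ‖y‖)) := by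
  obtain ⟨g, hg, hk⟩ := k0_decomp
  obtain ⟨B, L, hB0, hL0, hB, hL⟩ := k3_kmbl_g g hg
  have hpr0 : pr 0 = 0 := by
    unfold pr
    simp
  have hpi : (1:ℝ) ≤ 2 * Real.pi := by linarith [Real.pi_gt_three]
  have hhalf : ∀ x : T2, ‖x‖ ≤ 1 / 2 := by
    intro x
    obtain ⟨z, -, h2, h3, h4⟩ := exists_rep x
    rw [h4]
    exact max_le h2 h3
  have hinv : ∀ z : ℂ, ‖1 / (2 * Real.pi * I * z)‖ = 1 / (2 * Real.pi * ‖z‖) := by
    intro z
    rw [norm_div, norm_one, norm_mul, norm_mul, norm_mul, Complex.norm_I, mul_one,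
      Complex.norm_real, Real.norm_eq_abs, abs_of_pos Real.pi_pos]
    norm_num
  have hbd : ∀ x : T2, x ≠ 0 → ‖K x‖ ≤ (2 + B) / ‖x‖ := by
    intro x hx
    obtain ⟨z, h1, h2, h3, h4⟩ := exists_rep x
    have hxn : 0 < ‖x‖ := norm_pos_iff.2 hx
    have hz : z ≠ 0 := by
      rintro rfl
      exact hx (by rw [← h1, hpr0])
    have hzx : ‖x‖ ≤ ‖z‖ := by
      rw [h4]
      exact max_le (Complex.abs_re_le_norm z) (Complex.abs_im_le_norm z)
    have h5 : ‖K x‖ = ‖k0 z‖ := by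
      rw [← h1, hK, RCLike.norm_conj]
    rw [h5, hk z hz (lt_of_le_of_lt h2 (by norm_num)) (lt_of_le_of_lt h3 (by norm_num))]
    have h6 : ‖(z.im : ℂ)‖ ≤ 1 := by
      rw [Complex.norm_real, Real.norm_eq_abs]
      linarith
    have h7 := hB z (by linarith) (by linarith)
    have h8 : ‖1 / (2 * Real.pi * I * z)‖ ≤ 1 / ‖x‖ := by
      rw [hinv]
      apply one_div_le_one_div_of_le hxn
      nlinarith
    have h9 : (1 : ℝ) ≤ 1 / ‖x‖ := by
      rw [le_div_iff₀ hxn]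
      linarith [hhalf x]
    calc ‖1 / (2 * Real.pi * I * z) + g z + (z.im : ℂ)‖
        ≤ ‖1 / (2 * Real.pi * I * z)‖ + ‖g z‖ + ‖(z.im : ℂ)‖ := norm_add₃_le
      _ ≤ 1 / ‖x‖ + B + 1 := by linarith
      _ ≤ 1 / ‖x‖ + B * (1 / ‖x‖) + 1 / ‖x‖ := by nlinarith
      _ = (2 + B) / ‖x‖ := by ring
  have hC0 : 0 < 8 * (2 + B) + 1 + (L + 1) := by linarith
  have hlip : ∀ x y : T2, x ≠ 0 → y ≠ 0 →
      ‖K x - K y‖ ≤ (8 * (2 + B) + 1 + (L + 1)) * ‖x - y‖ / (‖x‖ * ‖y‖) := by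
    intro x y hx hy
    have hxn : 0 < ‖x‖ := norm_pos_iff.2 hx
    have hyn : 0 < ‖y‖ := norm_pos_iff.2 hy
    have hxy : 0 < ‖x‖ * ‖y‖ := mul_pos hxn hyn
    have hx2 := hhalf x
    have hy2 := hhalf y
    have hd0 : 0 ≤ ‖x - y‖ := norm_nonneg _
    rw [le_div_iff₀ hxy]
    rcases le_or_gt (1/8) ‖x - y‖ with hcase | hcase
    · have h1 : ‖K x - K y‖ ≤ (2 + B) / ‖x‖ + (2 + B) / ‖y‖ :=
        (norm_sub_le _ _).trans (add_le_add (hbd x hx) (hbd y hy))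
      calc ‖K x - K y‖ * (‖x‖ * ‖y‖)
          ≤ ((2 + B) / ‖x‖ + (2 + B) / ‖y‖) * (‖x‖ * ‖y‖) :=
            mul_le_mul_of_nonneg_right h1 hxy.le
        _ = (2 + B) * (‖x‖ + ‖y‖) := by field_simp; ring
        _ ≤ (2 + B) * 1 := mul_le_mul_of_nonneg_left (by linarith) (by linarith)
        _ ≤ (8 * (2 + B) + 1 + (L + 1)) * ‖x - y‖ := by nlinarith
    · obtain ⟨z, h1, h2, h3, h4⟩ := exists_rep x
      obtain ⟨d, k1, k2, k3, k4⟩ := exists_rep (y - x)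
      rw [norm_sub_rev y x] at k4
      have hd1 : |d.re| ≤ ‖x - y‖ := by rw [k4]; exact le_max_left _ _
      have hd2 : |d.im| ≤ ‖x - y‖ := by rw [k4]; exact le_max_right _ _
      obtain ⟨w, hw⟩ : ∃ w, w = z + d := ⟨_, rfl⟩
      have hpw : pr w = y := by rw [hw, pr_add, h1, k1, add_sub_cancel]
      have hz : z ≠ 0 := by
        rintro rfl
        exact hx (by rw [← h1, hpr0])
      have hw0 : w ≠ 0 := by
        intro h
        exact hy (by rw [← hpw, h, hpr0])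
      have hzx : ‖x‖ ≤ ‖z‖ := by
        rw [h4]
        exact max_le (Complex.abs_re_le_norm z) (Complex.abs_im_le_norm z)
      have hwy : ‖y‖ ≤ ‖w‖ := by
        rw [← hpw]; exact norm_pr_le w
      have hwre : |w.re| ≤ 5/8 := by
        rw [hw, Complex.add_re]
        exact (abs_add_le _ _).trans (by linarith)
      have hwim : |w.im| ≤ 5/8 := by
        rw [hw, Complex.add_im]
        exact (abs_add_le _ _).trans (by linarith)
      have hdn : ‖w - z‖ ≤ 2 * ‖x - y‖ := by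
        have e1 : w - z = d := by rw [hw]; ring
        rw [e1]
        exact (Complex.norm_le_abs_re_add_abs_im d).trans (by linarith)
      have h5 : ‖K x - K y‖ = ‖k0 w - k0 z‖ := by
        rw [← h1, ← hpw, hK, hK, ← map_sub, RCLike.norm_conj, norm_sub_rev]
      have ez := hk z hz (lt_of_le_of_lt h2 (by norm_num)) (lt_of_le_of_lt h3 (by norm_num))
      have ew := hk w hw0 (lt_of_le_of_lt hwre (by norm_num)) (lt_of_le_of_lt hwim (by norm_num))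
      have h6 := hL z w (by linarith) (by linarith) hwre hwim
      have h7 : ‖((w.im : ℂ)) - (z.im : ℂ)‖ ≤ ‖w - z‖ := by
        rw [← Complex.ofReal_sub, Complex.norm_real, Real.norm_eq_abs, ← Complex.sub_im]
        exact Complex.abs_im_le_norm _
      have hzn : 0 < ‖z‖ := norm_pos_iff.2 hz
      have hwn : 0 < ‖w‖ := norm_pos_iff.2 hw0
      have h8 : ‖1 / (2 * Real.pi * I * w) - 1 / (2 * Real.pi * I * z)‖ * (‖x‖ * ‖y‖) ≤
          ‖w - z‖ := by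
        have hpi0 : (Real.pi : ℂ) ≠ 0 := by exact_mod_cast Real.pi_ne_zero
        have e1 : 1 / (2 * Real.pi * I * w) - 1 / (2 * Real.pi * I * z) =
            1 / (2 * Real.pi * I * (z * w)) * (z - w) := by
          have hI := Complex.I_ne_zero
          field_simp
        rw [e1, norm_mul, hinv, norm_mul, norm_sub_rev z w]
        have e2 : 1 / (2 * Real.pi * (‖z‖ * ‖w‖)) * (‖x‖ * ‖y‖) ≤ 1 := by
          rw [one_div, inv_mul_le_iff₀ (by positivity)]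
          have e3 : ‖x‖ * ‖y‖ ≤ ‖z‖ * ‖w‖ := mul_le_mul hzx hwy hyn.le hzn.le
          have e4 : 0 < ‖z‖ * ‖w‖ := mul_pos hzn hwn
          nlinarith
        calc 1 / (2 * Real.pi * (‖z‖ * ‖w‖)) * ‖w - z‖ * (‖x‖ * ‖y‖)
            = (1 / (2 * Real.pi * (‖z‖ * ‖w‖)) * (‖x‖ * ‖y‖)) * ‖w - z‖ := by ring
          _ ≤ 1 * ‖w - z‖ := mul_le_mul_of_nonneg_right e2 (norm_nonneg _)
          _ = ‖w - z‖ := one_mul _
      have h9 : ‖k0 w - k0 z‖ ≤ ‖1 / (2 * Real.pi * I * w) - 1 / (2 * Real.pi * I * z)‖ +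
          ‖g w - g z‖ + ‖((w.im : ℂ)) - (z.im : ℂ)‖ := by
        rw [ez, ew]
        have e1 : 1 / (2 * Real.pi * I * w) + g w + (w.im : ℂ) -
            (1 / (2 * Real.pi * I * z) + g z + (z.im : ℂ)) =
            (1 / (2 * Real.pi * I * w) - 1 / (2 * Real.pi * I * z)) + (g w - g z) +
              ((w.im : ℂ) - (z.im : ℂ)) := by ring
        rw [e1]
        exact norm_add₃_le
      have hxy4 : ‖x‖ * ‖y‖ ≤ 1 / 4 := by nlinarith
      rw [h5]
      have hn : 0 ≤ ‖w - z‖ := norm_nonneg _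
      calc ‖k0 w - k0 z‖ * (‖x‖ * ‖y‖)
          ≤ (‖1 / (2 * Real.pi * I * w) - 1 / (2 * Real.pi * I * z)‖ +
            (L + 1) * ‖w - z‖) * (‖x‖ * ‖y‖) :=
            mul_le_mul_of_nonneg_right (by linarith) hxy.le
        _ = ‖1 / (2 * Real.pi * I * w) - 1 / (2 * Real.pi * I * z)‖ * (‖x‖ * ‖y‖) +
            (L + 1) * ‖w - z‖ * (‖x‖ * ‖y‖) := by ring
        _ ≤ ‖w - z‖ + (L + 1) * ‖w - z‖ * (1 / 4) :=
            add_le_add h8 (mul_le_mul_of_nonneg_left hxy4 (by positivity))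
        _ ≤ 2 * ‖x - y‖ + (L + 1) * (2 * ‖x - y‖) * (1 / 4) := by
            have : (L + 1) * ‖w - z‖ ≤ (L + 1) * (2 * ‖x - y‖) :=
              mul_le_mul_of_nonneg_left hdn (by linarith)
            linarith
        _ ≤ (8 * (2 + B) + 1 + (L + 1)) * ‖x - y‖ := by nlinarith
  refine ⟨?_, 8 * (2 + B) + 1 + (L + 1), hC0, ?_, hlip⟩
  · refine measurable_of_continuousOn_compl_singleton (0 : T2) ?_
    intro x hx
    have hx0 : x ≠ 0 := hx
    have hxn : 0 < ‖x‖ := norm_pos_iff.2 hx0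
    rw [ContinuousWithinAt, tendsto_iff_norm_sub_tendsto_zero]
    have h1 : Tendsto (fun y : T2 => (8 * (2 + B) + 1 + (L + 1)) * ‖y - x‖ / (‖y‖ * ‖x‖))
        (𝓝[{0}ᶜ] x) (𝓝 0) := by
      have h2 : ContinuousAt
          (fun y : T2 => (8 * (2 + B) + 1 + (L + 1)) * ‖y - x‖ / (‖y‖ * ‖x‖)) x := by
        refine ContinuousAt.div (by fun_prop) (by fun_prop) ?_
        exact (mul_pos hxn hxn).ne'
      have h3 := h2.tendsto.mono_left (nhdsWithin_le_nhds (s := ({0}ᶜ : Set T2)))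
      rw [sub_self, norm_zero, mul_zero, zero_div] at h3
      exact h3
    refine squeeze_zero' (Eventually.of_forall fun y => norm_nonneg _) ?_ h1
    filter_upwards [self_mem_nhdsWithin] with y hy
    exact hlip y x hy hx0
  · intro x hx
    refine (hbd x hx).trans (div_le_div_of_nonneg_right (by linarith) (norm_nonneg _))

end Pool.Agent.Helper118.Yud
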