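import Pool.Agent.Helper118.Yud.Defs
import Pool.Agent.Helper118.Yud.X0
import Pool.Agent.Helper118.Yud.K1
import Pool.Agent.Helper118.Yud.K2
import Pool.Agent.Helper118.Yud.E4

set_option autoImplicit false

namespace Pool.Agent.Helper118.Yud

open MeasureTheory Complex Set Filter Topology




/-- oscillating factor -/
noncomputable def k4_ex (n : ℤ) (x : ℝ) : ℂ := Complex.exp (2 * Real.pi * I * n * x)

theorem k4_ex_cont (n : ℤ) : Continuous (k4_ex n) := by unfold k4_ex; fun_prop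

theorem k4_ex_norm (n : ℤ) (x : ℝ) : ‖k4_ex n x‖ = 1 := by
  unfold k4_ex
  rw [show 2 * (Real.pi : ℂ) * I * n * x = ((2 * Real.pi * n * x : ℝ) : ℂ) * I by push_cast; ring]
  exact Complex.norm_exp_ofReal_mul_I _

theorem k4_ex_mul (m n : ℤ) (x : ℝ) : k4_ex m x * k4_ex n x = k4_ex (m + n) x := by
  unfold k4_ex
  rw [← Complex.exp_add]
  congr 1
  push_cast
  ring

theorem k4_ex_pow (m : ℤ) (x : ℝ) (n : ℕ) : k4_ex m x ^ n = k4_ex (n * m) x := by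
  unfold k4_ex
  rw [← Complex.exp_nat_mul]
  congr 1
  push_cast
  ring

theorem k4_ex_int (n : ℤ) : ∫ x in (0:ℝ)..1, k4_ex n x = if n = 0 then 1 else 0 := by
  by_cases h : n = 0
  · rw [if_pos h, h]
    unfold k4_ex
    simp
  · rw [if_neg h]
    have hc : 2 * (Real.pi : ℂ) * I * n ≠ 0 := by
      have : (Real.pi : ℂ) ≠ 0 := by exact_mod_cast Real.pi_ne_zero
      have hn : (n : ℂ) ≠ 0 := by exact_mod_cast h
      simp [this, hn]
    unfold k4_ex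
    rw [integral_exp_mul_complex hc]
    have e1 : Complex.exp (2 * (Real.pi : ℂ) * I * n * ((1 : ℝ) : ℂ)) = 1 := by
      rw [show 2 * (Real.pi : ℂ) * I * n * ((1 : ℝ) : ℂ) = n * (2 * Real.pi * I) by push_cast; ring]
      exact Complex.exp_int_mul_two_pi_mul_I n
    rw [e1]
    simp

/-- geometric kernel -/
noncomputable def k4_Qk (σ : ℤ) (r : ℝ) (x : ℝ) : ℂ := ((r : ℂ) * k4_ex σ x) / (1 - (r : ℂ) * k4_ex σ x)

theorem k4_w_norm (σ : ℤ) {r : ℝ} (hr : 0 ≤ r) (x : ℝ) : ‖(r : ℂ) * k4_ex σ x‖ = r := by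
  rw [norm_mul, k4_ex_norm, mul_one, Complex.norm_real, Real.norm_eq_abs, abs_of_nonneg hr]

theorem k4_w_ne (σ : ℤ) {r : ℝ} (hr : 0 ≤ r) (hr1 : r < 1) (x : ℝ) : 1 - (r : ℂ) * k4_ex σ x ≠ 0 := by
  intro h
  have h1 : (r : ℂ) * k4_ex σ x = 1 := by linear_combination -h
  have h2 := k4_w_norm σ hr x
  rw [h1, norm_one] at h2
  linarith

theorem k4_Qk_cont (σ : ℤ) {r : ℝ} (hr : 0 ≤ r) (hr1 : r < 1) : Continuous (k4_Qk σ r) := by
  unfold k4_Qk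
  exact (continuous_const.mul (k4_ex_cont σ)).div (continuous_const.sub (continuous_const.mul (k4_ex_cont σ)))
    (k4_w_ne σ hr hr1)

theorem k4_Qk_norm (σ : ℤ) {r : ℝ} (hr : 0 ≤ r) (hr1 : r < 1) (x : ℝ) : ‖k4_Qk σ r x‖ ≤ r / (1 - r) := by
  unfold k4_Qk
  rw [norm_div, k4_w_norm σ hr]
  apply div_le_div_of_nonneg_left hr (by linarith)
  calc 1 - r = ‖(1:ℂ)‖ - ‖(r : ℂ) * k4_ex σ x‖ := by rw [norm_one, k4_w_norm σ hr]
    _ ≤ _ := norm_sub_norm_le _ _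

theorem k4_Qk_hasSum (σ : ℤ) {r : ℝ} (hr : 0 ≤ r) (hr1 : r < 1) (x : ℝ) :
    HasSum (fun j : ℕ => (r : ℂ) ^ (j + 1) * k4_ex ((j + 1) * σ) x) (k4_Qk σ r x) := by
  have h := (hasSum_geometric_of_norm_lt_one (ξ := (r : ℂ) * k4_ex σ x)
    (by rw [k4_w_norm σ hr]; exact hr1)).mul_left ((r : ℂ) * k4_ex σ x)
  have e : k4_Qk σ r x = (r : ℂ) * k4_ex σ x * (1 - (r : ℂ) * k4_ex σ x)⁻¹ := rfl
  rw [e]
  have h2 : (fun j : ℕ => (r : ℂ) ^ (j + 1) * k4_ex ((j + 1) * σ) x) =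
      fun j : ℕ => ((r : ℂ) * k4_ex σ x) * ((r : ℂ) * k4_ex σ x) ^ j := by
    funext j
    rw [← pow_succ', mul_pow, k4_ex_pow]
    push_cast
    rfl
  rw [h2]
  exact h

theorem k4_Qk_coef (σ l : ℤ) {r : ℝ} (hr : 0 ≤ r) (hr1 : r < 1) :
    HasSum (fun j : ℕ => (r : ℂ) ^ (j + 1) * (if ((j : ℤ) + 1) * σ + l = 0 then 1 else 0))
      (∫ x in (0:ℝ)..1, k4_Qk σ r x * k4_ex l x) := by
  have h := intervalIntegral.hasSum_integral_of_dominated_convergence (μ := volume) (a := (0:ℝ)) (b := 1)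
    (F := fun (j : ℕ) (x : ℝ) => (r : ℂ) ^ (j + 1) * k4_ex ((j + 1) * σ) x * k4_ex l x)
    (f := fun x => k4_Qk σ r x * k4_ex l x) (fun j _ => r ^ (j + 1)) ?_ ?_ ?_ ?_ ?_
  · have he : (fun j : ℕ => (r : ℂ) ^ (j + 1) * (if ((j : ℤ) + 1) * σ + l = 0 then (1:ℂ) else 0)) =
        fun j : ℕ => ∫ x in (0:ℝ)..1, (r : ℂ) ^ (j + 1) * k4_ex ((j + 1) * σ) x * k4_ex l x := by
      funext j
      have : (fun x : ℝ => (r : ℂ) ^ (j + 1) * k4_ex ((j + 1) * σ) x * k4_ex l x) =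
          fun x : ℝ => (r : ℂ) ^ (j + 1) * k4_ex ((j + 1) * σ + l) x := by
        funext x
        rw [mul_assoc, k4_ex_mul]
      rw [this, intervalIntegral.integral_const_mul, k4_ex_int]
    rw [he]
    exact h
  · intro n
    exact ((continuous_const.mul (k4_ex_cont _)).mul (k4_ex_cont _)).aestronglyMeasurable
  · intro n
    refine Filter.Eventually.of_forall fun x _ => ?_
    rw [norm_mul, norm_mul, k4_ex_norm, k4_ex_norm, norm_pow, Complex.norm_real, Real.norm_eq_abs,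
      abs_of_nonneg hr, mul_one, mul_one]
  · refine Filter.Eventually.of_forall fun x _ => ?_
    exact (summable_nat_add_iff 1).2 (summable_geometric_of_lt_one hr hr1)
  · exact intervalIntegrable_const
  · refine Filter.Eventually.of_forall fun x _ => ?_
    exact (k4_Qk_hasSum σ hr hr1 x).mul_right (k4_ex l x)

theorem k4_Qk_coef_zero (σ l : ℤ) {r : ℝ} (hr : 0 ≤ r) (hr1 : r < 1)
    (h : ∀ j : ℕ, ((j : ℤ) + 1) * σ + l ≠ 0) : ∫ x in (0:ℝ)..1, k4_Qk σ r x * k4_ex l x = 0 := by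
  have h1 := k4_Qk_coef σ l hr hr1
  have h2 : (fun j : ℕ => (r : ℂ) ^ (j + 1) * (if ((j : ℤ) + 1) * σ + l = 0 then (1:ℂ) else 0)) = fun _ => 0 := by
    funext j
    rw [if_neg (h j), mul_zero]
  rw [h2] at h1
  exact h1.unique hasSum_zero

theorem k4_Qk_coef_eq (σ l : ℤ) {r : ℝ} (hr : 0 ≤ r) (hr1 : r < 1) (hσ : σ ≠ 0) (j0 : ℕ)
    (h : ((j0 : ℤ) + 1) * σ + l = 0) : ∫ x in (0:ℝ)..1, k4_Qk σ r x * k4_ex l x = (r : ℂ) ^ (j0 + 1) := by
  have h1 := k4_Qk_coef σ l hr hr1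
  have h2 : HasSum (fun j : ℕ => (r : ℂ) ^ (j + 1) * (if ((j : ℤ) + 1) * σ + l = 0 then (1:ℂ) else 0))
      ((r : ℂ) ^ (j0 + 1) * (if ((j0 : ℤ) + 1) * σ + l = 0 then (1:ℂ) else 0)) := by
    apply hasSum_single
    intro j hj
    rw [if_neg, mul_zero]
    intro h3
    have h4 : ((j : ℤ) + 1) * σ = ((j0 : ℤ) + 1) * σ := by linarith
    have h5 := mul_right_cancel₀ hσ h4
    apply hj
    have : (j : ℤ) = j0 := by linarith
    exact_mod_cast this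
  rw [h1.unique h2, if_pos h, mul_one]

/-- radius -/
noncomputable def k4_Rr (t : ℝ) : ℝ := Real.exp (-(2 * Real.pi * t))

theorem k4_Rr_pos (t : ℝ) : 0 < k4_Rr t := Real.exp_pos _

theorem k4_Rr_lt (t : ℝ) (ht : 0 < t) : k4_Rr t < 1 := by
  unfold k4_Rr
  rw [Real.exp_lt_one_iff]
  have := Real.pi_pos
  have : 0 < 2 * Real.pi * t := by positivity
  linarith

theorem k4_Rr_add (s t : ℝ) : k4_Rr (s + t) = k4_Rr s * k4_Rr t := by
  unfold k4_Rr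
  rw [← Real.exp_add]
  congr 1
  ring

theorem k4_Rr_nat (n : ℕ) : k4_Rr n = k4_Rr 1 ^ n := by
  unfold k4_Rr
  rw [← Real.exp_nat_mul]
  congr 1
  ring

theorem k4_Rr_anti {s t : ℝ} (h : s ≤ t) : k4_Rr t ≤ k4_Rr s := by
  unfold k4_Rr
  apply Real.exp_le_exp.2
  have := Real.pi_pos
  nlinarith

theorem k4_cot_up (x η : ℝ) (hη : 0 < η) :
    Complex.cot (Real.pi * ((x : ℂ) + η * I)) = -I - 2 * I * k4_Qk 1 (k4_Rr η) x := by
  rw [Complex.cot_pi_eq_exp_ratio]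
  have e1 : Complex.exp (2 * Real.pi * I * ((x : ℂ) + η * I)) = (k4_Rr η : ℂ) * k4_ex 1 x := by
    unfold k4_ex k4_Rr
    rw [Complex.ofReal_exp, ← Complex.exp_add]
    congr 1
    push_cast
    linear_combination (2 * (Real.pi : ℂ) * η) * I_sq
  have h1 := k4_w_ne 1 (k4_Rr_pos η).le (k4_Rr_lt η hη) x
  rw [e1]
  unfold k4_Qk
  set w := (k4_Rr η : ℂ) * k4_ex 1 x with hw
  field_simp
  linear_combination (1 + w) * I_sq

theorem k4_cot_down (x η : ℝ) (hη : 0 < η) :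
    Complex.cot (Real.pi * ((x : ℂ) - η * I)) = I + 2 * I * k4_Qk (-1) (k4_Rr η) x := by
  rw [Complex.cot_pi_eq_exp_ratio]
  have e1 : Complex.exp (2 * Real.pi * I * ((x : ℂ) - η * I)) = ((k4_Rr η : ℂ) * k4_ex (-1) x)⁻¹ := by
    unfold k4_ex k4_Rr
    rw [Complex.ofReal_exp, ← Complex.exp_add, ← Complex.exp_neg]
    congr 1
    push_cast
    linear_combination (-2 * (Real.pi : ℂ) * η) * I_sq
  have h1 := k4_w_ne (-1) (k4_Rr_pos η).le (k4_Rr_lt η hη) x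
  have h2 : (k4_Rr η : ℂ) * k4_ex (-1) x ≠ 0 := by
    intro h
    have := k4_w_norm (-1) (k4_Rr_pos η).le x
    rw [h, norm_zero] at this
    have := k4_Rr_pos η
    linarith
  rw [e1]
  unfold k4_Qk
  set w := (k4_Rr η : ℂ) * k4_ex (-1) x with hw
  have h3 : w - 1 ≠ 0 := by
    intro h
    apply h1
    linear_combination -h
  field_simp
  linear_combination (1 - w ^ 2) * I_sq

/-- pair term -/
noncomputable def k4_pt (y : ℝ) (m : ℕ) (x : ℝ) : ℂ :=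
  -2 * I * k4_Qk 1 (k4_Rr (y + (m + 1))) x + 2 * I * k4_Qk (-1) (k4_Rr ((m + 1) - y)) x

theorem k4_pt_cont {y : ℝ} (h0 : 0 < y) (h1 : y < 1) (m : ℕ) : Continuous (k4_pt y m) := by
  unfold k4_pt
  have hm : (0:ℝ) ≤ m := Nat.cast_nonneg m
  exact (continuous_const.mul (k4_Qk_cont 1 (k4_Rr_pos _).le (k4_Rr_lt _ (by linarith)))).add
    (continuous_const.mul (k4_Qk_cont (-1) (k4_Rr_pos _).le (k4_Rr_lt _ (by linarith))))

theorem k4_pt_norm {y : ℝ} (h0 : 0 < y) (h1 : y < 1) (m : ℕ) (x : ℝ) :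
    ‖k4_pt y m x‖ ≤ 4 * (k4_Rr (1 - y) / (1 - k4_Rr (1 - y))) * k4_Rr 1 ^ m := by
  have hm : (0:ℝ) ≤ m := Nat.cast_nonneg m
  have hα1 := k4_Rr_lt (1 - y) (by linarith)
  have hα0 := k4_Rr_pos (1 - y)
  have key : ∀ t : ℝ, (m + 1) - y ≤ t → k4_Rr t / (1 - k4_Rr t) ≤ k4_Rr (1 - y) / (1 - k4_Rr (1 - y)) * k4_Rr 1 ^ m := by
    intro t ht
    have e1 : k4_Rr ((m + 1) - y) = k4_Rr (1 - y) * k4_Rr 1 ^ m := by
      rw [← k4_Rr_nat, ← k4_Rr_add]
      congr 1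
      ring
    have e2 : k4_Rr t ≤ k4_Rr (1 - y) * k4_Rr 1 ^ m := by rw [← e1]; exact k4_Rr_anti ht
    have e3 : k4_Rr t ≤ k4_Rr (1 - y) := k4_Rr_anti (by linarith)
    calc k4_Rr t / (1 - k4_Rr t) ≤ (k4_Rr (1 - y) * k4_Rr 1 ^ m) / (1 - k4_Rr (1 - y)) := by
          apply div_le_div₀ (by have := k4_Rr_pos 1; positivity) e2 (by linarith) (by linarith)
      _ = _ := by ring
  unfold k4_pt
  have n1 := k4_Qk_norm 1 (k4_Rr_pos (y + (m + 1))).le (k4_Rr_lt _ (by linarith)) x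
  have n2 := k4_Qk_norm (-1) (k4_Rr_pos ((m + 1) - y)).le (k4_Rr_lt _ (by linarith)) x
  have k1 := key (y + (m + 1)) (by linarith)
  have k2 := key ((m + 1) - y) le_rfl
  calc ‖-2 * I * k4_Qk 1 (k4_Rr (y + (m + 1))) x + 2 * I * k4_Qk (-1) (k4_Rr ((m + 1) - y)) x‖ ≤
      ‖-2 * I * k4_Qk 1 (k4_Rr (y + (m + 1))) x‖ + ‖2 * I * k4_Qk (-1) (k4_Rr ((m + 1) - y)) x‖ := norm_add_le _ _
    _ = 2 * ‖k4_Qk 1 (k4_Rr (y + (m + 1))) x‖ + 2 * ‖k4_Qk (-1) (k4_Rr ((m + 1) - y)) x‖ := by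
        simp [norm_mul]
    _ ≤ 2 * (k4_Rr (1 - y) / (1 - k4_Rr (1 - y)) * k4_Rr 1 ^ m) + 2 * (k4_Rr (1 - y) / (1 - k4_Rr (1 - y)) * k4_Rr 1 ^ m) := by
        gcongr
        · exact n1.trans k1
        · exact n2.trans k2
    _ = _ := by ring

theorem k4_pt_summable_bound (y : ℝ) : Summable (fun m : ℕ => 4 * (k4_Rr (1 - y) / (1 - k4_Rr (1 - y))) * k4_Rr 1 ^ m) :=
  (summable_geometric_of_lt_one (k4_Rr_pos 1).le (k4_Rr_lt 1 one_pos)).mul_left _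

theorem k4_pt_summable {y : ℝ} (h0 : 0 < y) (h1 : y < 1) (x : ℝ) : Summable (fun m : ℕ => k4_pt y m x) :=
  Summable.of_norm_bounded (k4_pt_summable_bound y) (fun m => k4_pt_norm h0 h1 m x)

theorem k4_k0_strip {y : ℝ} (h0 : 0 < y) (h1 : y < 1) (x : ℝ) :
    k0 ((x : ℂ) + y * I) = 1 / (2 * I) * (-I - 2 * I * k4_Qk 1 (k4_Rr y) x + ∑' m : ℕ, k4_pt y m x) + y := by
  unfold k0
  have him : ((x : ℂ) + y * I).im = y := by simp
  rw [him, k4_cot_up x y h0]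
  congr 3
  apply tsum_congr
  intro m
  have hm : (0:ℝ) ≤ m := Nat.cast_nonneg m
  have e1 : (x : ℂ) + y * I + (m + 1) * I = (x : ℂ) + ((y + (m + 1) : ℝ) : ℂ) * I := by
    push_cast; ring
  have e2 : (x : ℂ) + y * I - (m + 1) * I = (x : ℂ) - ((((m : ℝ) + 1) - y : ℝ) : ℂ) * I := by
    push_cast; ring
  rw [e1, e2, k4_cot_up x _ (by linarith), k4_cot_down x _ (by linarith)]
  unfold k4_pt
  ring

theorem k4_pt_int {y : ℝ} (h0 : 0 < y) (h1 : y < 1) (l : ℤ) :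
    HasSum (fun m : ℕ => ∫ x in (0:ℝ)..1, k4_pt y m x * k4_ex l x)
      (∫ x in (0:ℝ)..1, (∑' m : ℕ, k4_pt y m x) * k4_ex l x) := by
  apply intervalIntegral.hasSum_integral_of_dominated_convergence
    (fun m _ => 4 * (k4_Rr (1 - y) / (1 - k4_Rr (1 - y))) * k4_Rr 1 ^ m)
  · intro m
    exact ((k4_pt_cont h0 h1 m).mul (k4_ex_cont l)).aestronglyMeasurable
  · intro m
    refine Filter.Eventually.of_forall fun x _ => ?_
    rw [norm_mul, k4_ex_norm, mul_one]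
    exact k4_pt_norm h0 h1 m x
  · exact Filter.Eventually.of_forall fun x _ => k4_pt_summable_bound y
  · exact intervalIntegrable_const
  · exact Filter.Eventually.of_forall fun x _ => (k4_pt_summable h0 h1 x).hasSum.mul_right _

theorem k4_pts_cont {y : ℝ} (h0 : 0 < y) (h1 : y < 1) : Continuous (fun x => ∑' m : ℕ, k4_pt y m x) :=
  continuous_tsum (k4_pt_cont h0 h1) (k4_pt_summable_bound y) (fun m x => k4_pt_norm h0 h1 m x)

theorem k4_inner_int {y : ℝ} (h0 : 0 < y) (h1 : y < 1) (l : ℤ) :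
    ∫ x in (0:ℝ)..1, k0 ((x : ℂ) + y * I) * k4_ex l x =
      1 / (2 * I) * (-I * (if l = 0 then 1 else 0) - 2 * I * (∫ x in (0:ℝ)..1, k4_Qk 1 (k4_Rr y) x * k4_ex l x) +
        (∫ x in (0:ℝ)..1, (∑' m : ℕ, k4_pt y m x) * k4_ex l x)) + y * (if l = 0 then 1 else 0) := by
  have e1 : (fun x : ℝ => k0 ((x : ℂ) + y * I) * k4_ex l x) = fun x : ℝ =>
      ((-(1/2) + (y:ℂ)) * k4_ex l x + (-1) * (k4_Qk 1 (k4_Rr y) x * k4_ex l x)) +
        1 / (2 * I) * ((∑' m : ℕ, k4_pt y m x) * k4_ex l x) := by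
    funext x
    rw [k4_k0_strip h0 h1]
    have hI : (1 / (2 * I)) * I = 1 / 2 := by field_simp
    linear_combination (-1 * k4_ex l x - 2 * k4_Qk 1 (k4_Rr y) x * k4_ex l x) * hI
  have c1 : Continuous (fun x : ℝ => (-(1/2) + (y:ℂ)) * k4_ex l x) := continuous_const.mul (k4_ex_cont l)
  have c2 : Continuous (fun x : ℝ => (-1 : ℂ) * (k4_Qk 1 (k4_Rr y) x * k4_ex l x)) :=
    continuous_const.mul ((k4_Qk_cont 1 (k4_Rr_pos y).le (k4_Rr_lt y h0)).mul (k4_ex_cont l))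
  have c3 : Continuous (fun x : ℝ => 1 / (2 * I) * ((∑' m : ℕ, k4_pt y m x) * k4_ex l x)) :=
    continuous_const.mul ((k4_pts_cont h0 h1).mul (k4_ex_cont l))
  have c12 : Continuous (fun x : ℝ => (-(1/2) + (y:ℂ)) * k4_ex l x + (-1 : ℂ) * (k4_Qk 1 (k4_Rr y) x * k4_ex l x)) :=
    c1.add c2
  rw [e1, intervalIntegral.integral_add (c12.intervalIntegrable _ _) (c3.intervalIntegrable _ _),
    intervalIntegral.integral_add (c1.intervalIntegrable _ _) (c2.intervalIntegrable _ _),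
    intervalIntegral.integral_const_mul, intervalIntegral.integral_const_mul,
    intervalIntegral.integral_const_mul, k4_ex_int]
  have hI : (1 / (2 * I)) * I = 1 / 2 := by field_simp
  linear_combination ((if l = 0 then (1:ℂ) else 0) + 2 * (∫ x in (0:ℝ)..1, k4_Qk 1 (k4_Rr y) x * k4_ex l x)) * hI

theorem k4_pt_coef {y : ℝ} (h0 : 0 < y) (h1 : y < 1) (m : ℕ) (l : ℤ) :
    ∫ x in (0:ℝ)..1, k4_pt y m x * k4_ex l x =
      -2 * I * (∫ x in (0:ℝ)..1, k4_Qk 1 (k4_Rr (y + (m + 1))) x * k4_ex l x) +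
      2 * I * (∫ x in (0:ℝ)..1, k4_Qk (-1) (k4_Rr ((m + 1) - y)) x * k4_ex l x) := by
  have hm : (0:ℝ) ≤ m := Nat.cast_nonneg m
  have c1 : Continuous (fun x : ℝ => -2 * I * (k4_Qk 1 (k4_Rr (y + (m + 1))) x * k4_ex l x)) :=
    continuous_const.mul ((k4_Qk_cont 1 (k4_Rr_pos _).le (k4_Rr_lt _ (by linarith))).mul (k4_ex_cont l))
  have c2 : Continuous (fun x : ℝ => 2 * I * (k4_Qk (-1) (k4_Rr ((m + 1) - y)) x * k4_ex l x)) :=
    continuous_const.mul ((k4_Qk_cont (-1) (k4_Rr_pos _).le (k4_Rr_lt _ (by linarith))).mul (k4_ex_cont l))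
  have e1 : (fun x : ℝ => k4_pt y m x * k4_ex l x) = fun x : ℝ =>
      -2 * I * (k4_Qk 1 (k4_Rr (y + (m + 1))) x * k4_ex l x) + 2 * I * (k4_Qk (-1) (k4_Rr ((m + 1) - y)) x * k4_ex l x) := by
    funext x
    unfold k4_pt
    ring
  rw [e1, intervalIntegral.integral_add (c1.intervalIntegrable _ _) (c2.intervalIntegrable _ _),
    intervalIntegral.integral_const_mul, intervalIntegral.integral_const_mul]

theorem k4_J_zero {y : ℝ} (h0 : 0 < y) (h1 : y < 1) :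
    ∫ x in (0:ℝ)..1, k0 ((x : ℂ) + y * I) * k4_ex 0 x = (y : ℂ) - 1 / 2 := by
  have hz : ∀ (σ : ℤ) (t : ℝ), σ = 1 ∨ σ = -1 → 0 < t → ∫ x in (0:ℝ)..1, k4_Qk σ (k4_Rr t) x * k4_ex 0 x = 0 := by
    intro σ t hσ ht
    apply k4_Qk_coef_zero σ 0 (k4_Rr_pos t).le (k4_Rr_lt t ht)
    intro j
    rcases hσ with rfl | rfl <;> omega
  have hs := k4_pt_int h0 h1 0
  have hs2 : (fun m : ℕ => ∫ x in (0:ℝ)..1, k4_pt y m x * k4_ex 0 x) = fun _ => 0 := by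
    funext m
    have hm : (0:ℝ) ≤ m := Nat.cast_nonneg m
    rw [k4_pt_coef h0 h1, hz 1 _ (Or.inl rfl) (by linarith), hz (-1) _ (Or.inr rfl) (by linarith)]
    ring
  rw [hs2] at hs
  rw [k4_inner_int h0 h1, hz 1 y (Or.inl rfl) h0, hs.unique hasSum_zero, if_pos rfl]
  field_simp
  ring

theorem k4_geom1 (c r : ℂ) (hr : ‖r‖ < 1) : HasSum (fun m : ℕ => c * r ^ (m + 1)) (c * (r / (1 - r))) := by
  have h := (hasSum_geometric_of_norm_lt_one hr).mul_left (c * r)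
  have e1 : (fun m : ℕ => c * r ^ (m + 1)) = fun m : ℕ => c * r * r ^ m := by
    funext m; ring
  have e2 : c * (r / (1 - r)) = c * r * (1 - r)⁻¹ := by ring
  rw [e1, e2]
  exact h

theorem k4_Rr_pow (t : ℝ) (n : ℕ) : k4_Rr t ^ n = Real.exp (-(2 * Real.pi * n * t)) := by
  unfold k4_Rr
  rw [← Real.exp_nat_mul]
  congr 1
  ring

theorem k4_J_ne {y : ℝ} (h0 : 0 < y) (h1 : y < 1) (l : ℤ) (hl : l ≠ 0) :
    ∫ x in (0:ℝ)..1, k0 ((x : ℂ) + y * I) * k4_ex l x =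
      ((Real.exp (2 * Real.pi * l * y) / (Real.exp (2 * Real.pi * l) - 1) : ℝ) : ℂ) := by
  rw [k4_inner_int h0 h1, if_neg hl]
  rcases lt_or_gt_of_ne hl with hneg | hpos
  · -- l < 0
    obtain ⟨j0, hj0⟩ : ∃ j0 : ℕ, l = -((j0 : ℤ) + 1) := ⟨(-l - 1).toNat, by omega⟩
    have a1 : ∀ t : ℝ, 0 < t → ∫ x in (0:ℝ)..1, k4_Qk 1 (k4_Rr t) x * k4_ex l x = ((k4_Rr t : ℝ) : ℂ) ^ (j0 + 1) :=
      fun t ht => k4_Qk_coef_eq 1 l (k4_Rr_pos t).le (k4_Rr_lt t ht) one_ne_zero j0 (by rw [hj0]; ring)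
    have a2 : ∀ t : ℝ, 0 < t → ∫ x in (0:ℝ)..1, k4_Qk (-1) (k4_Rr t) x * k4_ex l x = 0 :=
      fun t ht => k4_Qk_coef_zero (-1) l (k4_Rr_pos t).le (k4_Rr_lt t ht) (by intro j; omega)
    have hs := k4_pt_int h0 h1 l
    have hρ : ‖((k4_Rr 1 ^ (j0 + 1) : ℝ) : ℂ)‖ < 1 := by
      rw [Complex.norm_real, Real.norm_eq_abs, abs_of_pos (pow_pos (k4_Rr_pos 1) _)]
      exact pow_lt_one₀ (k4_Rr_pos 1).le (k4_Rr_lt 1 one_pos) (by omega)
    have hs2 : (fun m : ℕ => ∫ x in (0:ℝ)..1, k4_pt y m x * k4_ex l x) =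
        fun m : ℕ => (-2 * I * ((k4_Rr y ^ (j0 + 1) : ℝ) : ℂ)) * ((k4_Rr 1 ^ (j0 + 1) : ℝ) : ℂ) ^ (m + 1) := by
      funext m
      have hm : (0:ℝ) ≤ m := Nat.cast_nonneg m
      rw [k4_pt_coef h0 h1, a1 _ (by linarith), a2 _ (by linarith)]
      have e3 : k4_Rr (y + (m + 1)) = k4_Rr y * k4_Rr 1 ^ (m + 1) := by
        rw [← k4_Rr_nat, k4_Rr_add]
        push_cast
        rfl
      rw [e3]
      push_cast
      ring
    rw [hs2] at hs
    rw [a1 y h0, hs.unique (k4_geom1 _ _ hρ)]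
    have hlt : k4_Rr 1 ^ (j0 + 1) < 1 := pow_lt_one₀ (k4_Rr_pos 1).le (k4_Rr_lt 1 one_pos) (by omega)
    have e5 : Real.exp (2 * Real.pi * l * y) = k4_Rr y ^ (j0 + 1) := by
      rw [k4_Rr_pow, hj0]
      congr 1
      push_cast
      ring
    have e6 : Real.exp (2 * Real.pi * l) = k4_Rr 1 ^ (j0 + 1) := by
      rw [k4_Rr_pow, hj0]
      congr 1
      push_cast
      ring
    rw [e5, e6]
    have hne : (1 : ℂ) - ((k4_Rr 1 ^ (j0 + 1) : ℝ) : ℂ) ≠ 0 := by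
      intro h
      have : (1 : ℝ) - k4_Rr 1 ^ (j0 + 1) = 0 := by exact_mod_cast h
      linarith
    have hne2 : ((k4_Rr 1 ^ (j0 + 1) : ℝ) : ℂ) - 1 ≠ 0 := by
      intro h
      apply hne
      linear_combination -h
    rw [Complex.ofReal_div, Complex.ofReal_sub, Complex.ofReal_one]
    set A : ℂ := ((k4_Rr 1 ^ (j0 + 1) : ℝ) : ℂ) with hA
    have hB : (((k4_Rr y : ℝ) : ℂ)) ^ (j0 + 1) = ((k4_Rr y ^ (j0 + 1) : ℝ) : ℂ) := by push_cast; rfl
    rw [hB]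
    set B : ℂ := ((k4_Rr y ^ (j0 + 1) : ℝ) : ℂ) with hB'
    have hI : (1 / (2 * I)) * I = 1 / 2 := by field_simp
    have e7 : 1 / (2 * I) * (-I * 0 - 2 * I * B + -2 * I * B * (A / (1 - A))) + (y : ℂ) * 0 =
        -(B * (1 + A / (1 - A))) := by
      linear_combination (-2 * B - 2 * B * (A / (1 - A))) * hI
    rw [e7]
    field_simp
    ring
  · -- l > 0
    obtain ⟨j0, hj0⟩ : ∃ j0 : ℕ, l = (j0 : ℤ) + 1 := ⟨(l - 1).toNat, by omega⟩
    have a1 : ∀ t : ℝ, 0 < t → ∫ x in (0:ℝ)..1, k4_Qk 1 (k4_Rr t) x * k4_ex l x = 0 :=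
      fun t ht => k4_Qk_coef_zero 1 l (k4_Rr_pos t).le (k4_Rr_lt t ht) (by intro j; omega)
    have a2 : ∀ t : ℝ, 0 < t → ∫ x in (0:ℝ)..1, k4_Qk (-1) (k4_Rr t) x * k4_ex l x = ((k4_Rr t : ℝ) : ℂ) ^ (j0 + 1) :=
      fun t ht => k4_Qk_coef_eq (-1) l (k4_Rr_pos t).le (k4_Rr_lt t ht) (by norm_num) j0 (by rw [hj0]; ring)
    have hs := k4_pt_int h0 h1 l
    have hρ : ‖((k4_Rr 1 ^ (j0 + 1) : ℝ) : ℂ)‖ < 1 := by
      rw [Complex.norm_real, Real.norm_eq_abs, abs_of_pos (pow_pos (k4_Rr_pos 1) _)]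
      exact pow_lt_one₀ (k4_Rr_pos 1).le (k4_Rr_lt 1 one_pos) (by omega)
    have hs2 : (fun m : ℕ => ∫ x in (0:ℝ)..1, k4_pt y m x * k4_ex l x) =
        fun m : ℕ => (2 * I * ((k4_Rr (-y) ^ (j0 + 1) : ℝ) : ℂ)) * ((k4_Rr 1 ^ (j0 + 1) : ℝ) : ℂ) ^ (m + 1) := by
      funext m
      have hm : (0:ℝ) ≤ m := Nat.cast_nonneg m
      rw [k4_pt_coef h0 h1, a1 _ (by linarith), a2 _ (by linarith)]
      have e3 : k4_Rr ((m + 1) - y) = k4_Rr (-y) * k4_Rr 1 ^ (m + 1) := by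
        rw [← k4_Rr_nat, ← k4_Rr_add]
        congr 1
        push_cast
        ring
      rw [e3]
      push_cast
      ring
    rw [hs2] at hs
    rw [a1 y h0, hs.unique (k4_geom1 _ _ hρ)]
    have hlt : k4_Rr 1 ^ (j0 + 1) < 1 := pow_lt_one₀ (k4_Rr_pos 1).le (k4_Rr_lt 1 one_pos) (by omega)
    have hA0 : 0 < k4_Rr 1 ^ (j0 + 1) := pow_pos (k4_Rr_pos 1) _
    have e5 : Real.exp (2 * Real.pi * l * y) = k4_Rr (-y) ^ (j0 + 1) := by
      rw [k4_Rr_pow, hj0]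
      congr 1
      push_cast
      ring
    have e6 : Real.exp (2 * Real.pi * l) = (k4_Rr 1 ^ (j0 + 1))⁻¹ := by
      rw [k4_Rr_pow, ← Real.exp_neg, hj0]
      congr 1
      push_cast
      ring
    rw [e5, e6]
    have e8 : (k4_Rr 1 ^ (j0 + 1))⁻¹ - 1 = (1 - k4_Rr 1 ^ (j0 + 1)) / k4_Rr 1 ^ (j0 + 1) := by
      field_simp
    rw [e8]
    have hne : (1 : ℂ) - ((k4_Rr 1 ^ (j0 + 1) : ℝ) : ℂ) ≠ 0 := by
      intro h
      have : (1 : ℝ) - k4_Rr 1 ^ (j0 + 1) = 0 := by exact_mod_cast h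
      linarith
    have hA0' : ((k4_Rr 1 ^ (j0 + 1) : ℝ) : ℂ) ≠ 0 := by exact_mod_cast hA0.ne'
    rw [Complex.ofReal_div, Complex.ofReal_div, Complex.ofReal_sub, Complex.ofReal_one]
    set A : ℂ := ((k4_Rr 1 ^ (j0 + 1) : ℝ) : ℂ) with hA
    set B : ℂ := ((k4_Rr (-y) ^ (j0 + 1) : ℝ) : ℂ) with hB'
    have hI : (1 / (2 * I)) * I = 1 / 2 := by field_simp
    have e7 : 1 / (2 * I) * (-I * 0 - 2 * I * 0 + 2 * I * B * (A / (1 - A))) + (y : ℂ) * 0 =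
        B * (A / (1 - A)) := by
      linear_combination (2 * B * (A / (1 - A))) * hI
    rw [e7]
    field_simp

theorem k4_ii_congr {f g : ℝ → ℂ} (h : ∀ y, 0 < y → y < 1 → f y = g y) :
    ∫ y in (0:ℝ)..1, f y = ∫ y in (0:ℝ)..1, g y := by
  rw [intervalIntegral.integral_of_le zero_le_one, intervalIntegral.integral_of_le zero_le_one,
    integral_Ioc_eq_integral_Ioo, integral_Ioc_eq_integral_Ioo]
  exact setIntegral_congr_fun measurableSet_Ioo (fun y hy => h y hy.1 hy.2)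

theorem k4_ii_conj (f : ℝ → ℂ) : ∫ x in (0:ℝ)..1, (starRingEnd ℂ) (f x) =
    (starRingEnd ℂ) (∫ x in (0:ℝ)..1, f x) := by
  rw [intervalIntegral.integral_of_le zero_le_one, intervalIntegral.integral_of_le zero_le_one,
    integral_conj]

theorem k4_exp_one_k (n : ℤ) : Complex.exp (2 * (Real.pi : ℂ) * I * n) = 1 := by
  rw [show 2 * (Real.pi : ℂ) * I * n = n * (2 * Real.pi * I) by ring]
  exact Complex.exp_int_mul_two_pi_mul_I n

theorem k4_outer_ne (l n : ℤ) (hl : l ≠ 0) :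
    ∫ y in (0:ℝ)..1, (∫ x in (0:ℝ)..1, k0 ((x : ℂ) + y * I) * k4_ex l x) * k4_ex n y =
      1 / (2 * (Real.pi : ℂ) * ((l : ℂ) + (n : ℂ) * I)) := by
  have h1 : ∫ y in (0:ℝ)..1, (∫ x in (0:ℝ)..1, k0 ((x : ℂ) + y * I) * k4_ex l x) * k4_ex n y =
      ∫ y in (0:ℝ)..1, (1 / (Complex.exp (2 * Real.pi * l) - 1)) *
        Complex.exp ((2 * Real.pi * ((l : ℂ) + (n : ℂ) * I)) * y) := by
    apply k4_ii_congr
    intro y hy0 hy1
    rw [k4_J_ne hy0 hy1 l hl]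
    unfold k4_ex
    rw [show (2 * (Real.pi : ℂ) * ((l : ℂ) + (n : ℂ) * I)) * y = 2 * Real.pi * l * y + 2 * Real.pi * I * n * y by ring,
      Complex.exp_add]
    push_cast
    ring
  have hπ : (Real.pi : ℂ) ≠ 0 := by exact_mod_cast Real.pi_ne_zero
  have hln : (l : ℂ) + (n : ℂ) * I ≠ 0 := by
    intro h
    have h2 := congrArg Complex.re h
    simp at h2
    exact hl h2
  have hc : 2 * (Real.pi : ℂ) * ((l : ℂ) + (n : ℂ) * I) ≠ 0 := by
    apply mul_ne_zero (mul_ne_zero two_ne_zero hπ) hln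
  have hE : Complex.exp (2 * (Real.pi : ℂ) * l) - 1 ≠ 0 := by
    have h2 : Complex.exp (2 * (Real.pi : ℂ) * l) = ((Real.exp (2 * Real.pi * l) : ℝ) : ℂ) := by push_cast; rfl
    rw [h2]
    intro h3
    have h4 : Real.exp (2 * Real.pi * l) - 1 = 0 := by exact_mod_cast h3
    have h5 : Real.exp (2 * Real.pi * l) = 1 := by linarith
    rw [Real.exp_eq_one_iff] at h5
    have hπr := Real.pi_ne_zero
    have hlr : (l : ℝ) ≠ 0 := by exact_mod_cast hl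
    simp [hπr, hlr] at h5
  rw [h1, intervalIntegral.integral_const_mul, integral_exp_mul_complex hc]
  have e2 : Complex.exp (2 * (Real.pi : ℂ) * ((l : ℂ) + (n : ℂ) * I) * ((1 : ℝ) : ℂ)) =
      Complex.exp (2 * (Real.pi : ℂ) * l) := by
    rw [show 2 * (Real.pi : ℂ) * ((l : ℂ) + (n : ℂ) * I) * ((1 : ℝ) : ℂ) =
      2 * Real.pi * l + 2 * Real.pi * I * n by push_cast; ring, Complex.exp_add, k4_exp_one_k, mul_one]
  rw [e2, Complex.ofReal_zero, mul_zero, Complex.exp_zero]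
  field_simp

theorem k4_outer_zero_ne (n : ℤ) (hn : n ≠ 0) :
    ∫ y in (0:ℝ)..1, (∫ x in (0:ℝ)..1, k0 ((x : ℂ) + y * I) * k4_ex 0 x) * k4_ex n y =
      1 / (2 * (Real.pi : ℂ) * (((0 : ℤ) : ℂ) + (n : ℂ) * I)) := by
  have h1 : ∫ y in (0:ℝ)..1, (∫ x in (0:ℝ)..1, k0 ((x : ℂ) + y * I) * k4_ex 0 x) * k4_ex n y =
      ∫ y in (0:ℝ)..1, ((y : ℂ) - 1 / 2) * Complex.exp ((2 * Real.pi * I * n) * y) := by
    apply k4_ii_congr
    intro y hy0 hy1
    rw [k4_J_zero hy0 hy1]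
    rfl
  have hπ : (Real.pi : ℂ) ≠ 0 := by exact_mod_cast Real.pi_ne_zero
  have hn' : (n : ℂ) ≠ 0 := by exact_mod_cast hn
  set c : ℂ := 2 * Real.pi * I * n with hc
  have hc0 : c ≠ 0 := by
    rw [hc]
    exact mul_ne_zero (mul_ne_zero (mul_ne_zero two_ne_zero hπ) I_ne_zero) hn'
  have hder : ∀ y : ℝ, HasDerivAt (fun y : ℝ => ((y : ℂ) - 1 / 2) * (Complex.exp (c * y) / c) -
      Complex.exp (c * y) / c ^ 2) (((y : ℂ) - 1 / 2) * Complex.exp (c * y)) y := by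
    intro y
    have hE : HasDerivAt (fun y : ℝ => Complex.exp (c * y)) (Complex.exp (c * y) * c) y := by
      have h2 : HasDerivAt (fun y : ℝ => c * (y : ℂ)) c y := by
        simpa using (Complex.ofRealCLM.hasDerivAt (x := y)).const_mul c
      exact h2.cexp
    have hid : HasDerivAt (fun y : ℝ => (y : ℂ) - 1 / 2) 1 y := by
      have := (Complex.ofRealCLM.hasDerivAt (x := y)).sub_const (1 / 2 : ℂ)
      simpa using this
    have h3 : HasDerivAt (fun y : ℝ => ((y : ℂ) - 1 / 2) * (Complex.exp (c * y) / c) -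
      Complex.exp (c * y) / c ^ 2) (1 * (Complex.exp (c * y) / c) +
        ((y : ℂ) - 1 / 2) * (Complex.exp (c * y) * c / c) - Complex.exp (c * y) * c / c ^ 2) y :=
      (hid.mul (hE.div_const c)).sub (hE.div_const (c ^ 2))
    refine h3.congr_deriv ?_
    field_simp
    ring
  have hcont : Continuous (fun y : ℝ => ((y : ℂ) - 1 / 2) * Complex.exp (c * y)) := by fun_prop
  rw [h1, intervalIntegral.integral_eq_sub_of_hasDerivAt (fun y _ => hder y) (hcont.intervalIntegrable _ _)]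
  have e1 : Complex.exp (c * ((1 : ℝ) : ℂ)) = 1 := by
    rw [Complex.ofReal_one, mul_one, hc]
    exact k4_exp_one_k n
  have e0 : Complex.exp (c * ((0 : ℝ) : ℂ)) = 1 := by simp
  rw [e1, e0]
  push_cast
  rw [hc]
  field_simp
  ring

theorem k4_outer_zero_zero :
    ∫ y in (0:ℝ)..1, (∫ x in (0:ℝ)..1, k0 ((x : ℂ) + y * I) * k4_ex 0 x) * k4_ex 0 y = 0 := by
  have h1 : ∫ y in (0:ℝ)..1, (∫ x in (0:ℝ)..1, k0 ((x : ℂ) + y * I) * k4_ex 0 x) * k4_ex 0 y =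
      ∫ y in (0:ℝ)..1, ((y - 1 / 2 : ℝ) : ℂ) := by
    apply k4_ii_congr
    intro y hy0 hy1
    rw [k4_J_zero hy0 hy1]
    unfold k4_ex
    simp
  rw [h1, intervalIntegral.integral_ofReal]
  have : ∫ y in (0:ℝ)..1, (y - 1 / 2 : ℝ) = 0 := by
    rw [intervalIntegral.integral_sub (by simp) (by simp)]
    simp
  rw [this]
  simp

theorem k4_ek_pr (k : ℤ × ℤ) (x y : ℝ) : ek (-k) ((x : UnitAddCircle), (y : UnitAddCircle)) =
    (starRingEnd ℂ) (k4_ex k.1 x) * (starRingEnd ℂ) (k4_ex k.2 y) := by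
  unfold ek
  have h : ∀ (n : ℤ) (t : ℝ), fourier (-n) (t : UnitAddCircle) = (starRingEnd ℂ) (k4_ex n t) := by
    intro n t
    rw [fourier_neg, fourier_coe_apply]
    congr 1
    unfold k4_ex
    simp
  rw [Prod.fst_neg, Prod.snd_neg, h, h]

theorem k4_ek_norm (k : ℤ × ℤ) (x : T2) : ‖ek k x‖ = 1 := by
  unfold ek
  rw [norm_mul, fourier_apply, fourier_apply, Circle.norm_coe, Circle.norm_coe, mul_one]

theorem k4_ek_cont (k : ℤ × ℤ) : Continuous (ek k) := by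
  unfold ek
  exact ((fourier k.1).continuous.comp continuous_fst).mul ((fourier k.2).continuous.comp continuous_snd)

theorem k4_main_int (K : T2 → ℂ) (hK : ∀ z : ℂ, K (pr z) = (starRingEnd ℂ) (k0 z))
    (hint : Integrable K volume) (k : ℤ × ℤ) :
    ∫ x, K x * ek (-k) x = (starRingEnd ℂ)
      (∫ y in (0:ℝ)..1, (∫ x in (0:ℝ)..1, k0 ((x : ℂ) + y * I) * k4_ex k.1 x) * k4_ex k.2 y) := by
  have hF : Integrable (fun x : T2 => K x * ek (-k) x) volume :=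
    hint.mul_bdd (c := 1) (k4_ek_cont _).aestronglyMeasurable (Filter.Eventually.of_forall fun x => (k4_ek_norm _ x).le)
  have h1 : ∫ x : T2, K x * ek (-k) x =
      ∫ y : UnitAddCircle, ∫ x : UnitAddCircle, K (x, y) * ek (-k) (x, y) :=
    integral_prod_symm (fun x : T2 => K x * ek (-k) x) hF
  rw [h1, ← UnitAddCircle.intervalIntegral_preimage 0, zero_add, ← k4_ii_conj]
  congr 1
  funext y
  rw [← UnitAddCircle.intervalIntegral_preimage 0, zero_add, ← intervalIntegral.integral_mul_const, ← k4_ii_conj]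
  congr 1
  funext x
  have hp : pr ((x : ℂ) + y * I) = ((x : UnitAddCircle), (y : UnitAddCircle)) := by
    unfold pr
    simp
  rw [← hp, hK, hp, k4_ek_pr, map_mul, map_mul]
  ring



theorem kernel_fourier (K : T2 → ℂ) (hK : ∀ z : ℂ, K (pr z) = (starRingEnd ℂ) (k0 z))
    (hint : Integrable K volume) :
    (∀ k : ℤ × ℤ, k ≠ 0 →
      ∫ x, K x * ek (-k) x = 1 / (2 * (Real.pi : ℂ) * ((k.1 : ℂ) - (k.2 : ℂ) * I))) ∧
    ∫ x, K x = 0 := by
  constructor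
  · intro k hk
    rw [k4_main_int K hK hint k]
    have h : ∫ y in (0:ℝ)..1, (∫ x in (0:ℝ)..1, k0 ((x : ℂ) + y * I) * k4_ex k.1 x) * k4_ex k.2 y =
        1 / (2 * (Real.pi : ℂ) * ((k.1 : ℂ) + (k.2 : ℂ) * I)) := by
      by_cases h1 : k.1 = 0
      · have h2 : k.2 ≠ 0 := by
          intro h2
          apply hk
          ext
          · exact h1
          · exact h2
        rw [h1]
        exact k4_outer_zero_ne k.2 h2
      · exact k4_outer_ne k.1 k.2 h1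
    rw [h, map_div₀, map_mul, map_mul, map_add, map_mul, map_one, Complex.conj_I, Complex.conj_ofReal]
    have e2 : (starRingEnd ℂ) (2 : ℂ) = 2 := Complex.conj_ofNat 2
    have e3 : ∀ n : ℤ, (starRingEnd ℂ) (n : ℂ) = n := fun n => map_intCast _ n
    rw [e2, e3, e3]
    congr 2
    ring
  · have h := k4_main_int K hK hint 0
    have h2 : (fun x => K x * ek (-0) x) = K := by
      funext x
      unfold ek
      simp
    rw [h2] at h
    rw [h]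
    have h3 := k4_outer_zero_zero
    show (starRingEnd ℂ) (∫ y in (0:ℝ)..1, (∫ x in (0:ℝ)..1, k0 ((x : ℂ) + y * I) * k4_ex 0 x) * k4_ex 0 y) = 0
    rw [h3, map_zero]

end Pool.Agent.Helper118.Yud
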