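import Pool.Agent.Helper118.Yud.Defs
import Pool.Agent.Helper118.Yud.X0
import Pool.Agent.Helper118.Yud.K1
import Pool.Agent.Helper118.Yud.K2
import Pool.Agent.Helper118.Yud.E4

set_option autoImplicit false

namespace Pool.Agent.Helper118.Yud

open MeasureTheory Complex Set Filter Topology




/-- the regularised profile -/
private noncomputable def k5_HH (a s : ℝ) : ℝ := if s ≤ a then (2 * a - s) / a ^ 2 else 1 / s

/-- its derivative -/
private noncomputable def k5_HH' (a s : ℝ) : ℝ := -1 / (max s a) ^ 2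

private theorem k5_HH_deriv {a : ℝ} (ha : 0 < a) (s : ℝ) : HasDerivAt (k5_HH a) (k5_HH' a s) s := by
  have hlin : ∀ x : ℝ, HasDerivAt (fun s : ℝ => (2 * a - s) / a ^ 2) (-1 / a ^ 2) x := by
    intro x
    have := ((hasDerivAt_id x).const_sub (2 * a)).div_const (a ^ 2)
    simpa using this
  have hinv : ∀ x : ℝ, 0 < x → HasDerivAt (fun s : ℝ => 1 / s) (-1 / x ^ 2) x := by
    intro x hx
    have := hasDerivAt_inv hx.ne'
    have h2 : (fun s : ℝ => 1 / s) = fun s => s⁻¹ := by
      funext s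
      rw [one_div]
    rw [h2, show (-1:ℝ) / x ^ 2 = -(x ^ 2)⁻¹ by ring]
    exact this
  rcases lt_trichotomy s a with h | h | h
  · have e : k5_HH' a s = -1 / a ^ 2 := by
      unfold k5_HH'
      rw [max_eq_right h.le]
    rw [e]
    refine (hlin s).congr_of_eventuallyEq ?_
    filter_upwards [Iio_mem_nhds h] with x hx
    unfold k5_HH
    rw [if_pos (le_of_lt hx)]
  · subst h
    have e : k5_HH' s s = -1 / s ^ 2 := by
      unfold k5_HH'
      rw [max_self]
    rw [e]
    have h1 : HasDerivWithinAt (k5_HH s) (-1 / s ^ 2) (Iic s) s := by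
      refine (hlin s).hasDerivWithinAt.congr ?_ ?_
      · intro x hx
        unfold k5_HH
        rw [if_pos (show x ≤ s from hx)]
      · unfold k5_HH
        rw [if_pos le_rfl]
    have h2 : HasDerivWithinAt (k5_HH s) (-1 / s ^ 2) (Ici s) s := by
      refine (hinv s ha).hasDerivWithinAt.congr ?_ ?_
      · intro x hx
        unfold k5_HH
        split_ifs with h
        · have : x = s := le_antisymm h hx
          rw [this]
          field_simp
          ring
        · rfl
      · unfold k5_HH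
        rw [if_pos le_rfl]
        field_simp
        ring
    have h3 := h1.union h2
    rw [Iic_union_Ici] at h3
    exact hasDerivWithinAt_univ.mp h3
  · have e : k5_HH' a s = -1 / s ^ 2 := by
      unfold k5_HH'
      rw [max_eq_left h.le]
    rw [e]
    refine (hinv s (ha.trans h)).congr_of_eventuallyEq ?_
    filter_upwards [Ioi_mem_nhds h] with x hx
    unfold k5_HH
    rw [if_neg (not_le.mpr hx)]

private theorem k5_HH_contDiff {a : ℝ} (ha : 0 < a) : ContDiff ℝ 1 (k5_HH a) := by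
  rw [contDiff_one_iff_deriv]
  refine ⟨fun s => (k5_HH_deriv ha s).differentiableAt, ?_⟩
  have : deriv (k5_HH a) = k5_HH' a := by
    funext s
    exact (k5_HH_deriv ha s).deriv
  rw [this]
  unfold k5_HH'
  apply Continuous.div continuous_const (by fun_prop)
  intro s
  have : 0 < max s a := lt_max_of_lt_right ha
  positivity

/-- the local form of the regularised kernel -/
private noncomputable def k5_cc (g : ℂ → ℂ) (a : ℝ) (z : ℂ) : ℂ :=
  (starRingEnd ℂ) (g z) + (z.im : ℂ) + I * z * ((k5_HH a (z.re ^ 2 + z.im ^ 2) / (2 * Real.pi) : ℝ) : ℂ)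

private theorem k5_bigsq_open : IsOpen {z : ℂ | |z.re| < 1 ∧ |z.im| < 1} :=
  (isOpen_lt (Complex.continuous_re.abs) continuous_const).inter
    (isOpen_lt (Complex.continuous_im.abs) continuous_const)

private theorem k5_cc_contDiffAt {g : ℂ → ℂ} (hg : DifferentiableOn ℂ g {z | |z.re| < 1 ∧ |z.im| < 1})
    {a : ℝ} (ha : 0 < a) {z : ℂ} (hz : |z.re| < 1 ∧ |z.im| < 1) : ContDiffAt ℝ 1 (k5_cc g a) z := by
  unfold k5_cc
  apply ContDiffAt.add
  · apply ContDiffAt.add
    · have h1 : ContDiffAt ℝ 1 g z :=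
        ((hg.analyticAt (k5_bigsq_open.mem_nhds hz)).contDiffAt).restrict_scalars ℝ
      exact Complex.conjCLE.contDiff.contDiffAt.comp z h1
    · exact (Complex.ofRealCLM.contDiff.comp Complex.imCLM.contDiff).contDiffAt
  · apply ContDiffAt.mul
    · exact (contDiff_const.mul contDiff_id).contDiffAt
    · apply ContDiff.contDiffAt
      apply Complex.ofRealCLM.contDiff.comp
      apply ContDiff.div_const
      apply (k5_HH_contDiff ha).comp
      exact (Complex.reCLM.contDiff.pow 2).add (Complex.imCLM.contDiff.pow 2)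

private theorem k5_cc_div {g : ℂ → ℂ} (hg : DifferentiableOn ℂ g {z | |z.re| < 1 ∧ |z.im| < 1})
    {a : ℝ} (ha : 0 < a) {z : ℂ} (hz : |z.re| < 1 ∧ |z.im| < 1) :
    (fderiv ℝ (k5_cc g a) z 1).re + (fderiv ℝ (k5_cc g a) z I).im = 0 := by
  have hgd : HasDerivAt g (deriv g z) z := (hg.differentiableAt (k5_bigsq_open.mem_nhds hz)).hasDerivAt
  have h1 := (Complex.conjCLE.hasFDerivAt (x := g z)).comp z hgd.complexToReal_fderiv
  have h2 : HasFDerivAt (fun z : ℂ => (z.im : ℂ)) (Complex.ofRealCLM.comp Complex.imCLM) z :=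
    (Complex.ofRealCLM.comp Complex.imCLM).hasFDerivAt
  have h3 : HasFDerivAt (fun z : ℂ => z.re ^ 2 + z.im ^ 2) _ z :=
    (Complex.reCLM.hasFDerivAt.pow 2).add (Complex.imCLM.hasFDerivAt.pow 2)
  have h4 := ((k5_HH_deriv ha (z.re ^ 2 + z.im ^ 2)).comp_hasFDerivAt z h3).mul_const (1 / (2 * Real.pi))
  have h5 := Complex.ofRealCLM.hasFDerivAt.comp z h4
  have h6 : HasFDerivAt (fun z : ℂ => I * z) (I • ContinuousLinearMap.id ℝ ℂ) z :=
    (hasFDerivAt_id z).const_mul I
  have h7 := (h1.add h2).add (h6.mul h5)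
  have h8 : k5_cc g a = ((⇑Complex.conjCLE ∘ g + fun z : ℂ => (z.im : ℂ)) + (fun z : ℂ => I * z) *
      (⇑Complex.ofRealCLM ∘ fun y => (k5_HH a ∘ fun z : ℂ => z.re ^ 2 + z.im ^ 2) y * (1 / (2 * Real.pi)))) := by
    funext z
    simp [k5_cc, div_eq_mul_inv]
  rw [h8, h7.fderiv]
  simp
  ring

private noncomputable def k5_Psi (ε u : ℝ) : ℝ := if u < ε then u ^ (-(1/2) : ℝ) else 0

private theorem k5_Psi_int {ε : ℝ} (hε : 0 < ε) : ∫ u in Ioi (0:ℝ), k5_Psi ε u = 2 * ε ^ ((1/2) : ℝ) := by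
  have h1 : ∀ u, k5_Psi ε u = (Iio ε).indicator (fun u : ℝ => u ^ (-(1/2) : ℝ)) u := by
    intro u
    unfold k5_Psi
    rw [Set.indicator_apply]
    rfl
  simp only [h1]
  rw [setIntegral_indicator measurableSet_Iio, Ioi_inter_Iio, ← integral_Ioc_eq_integral_Ioo,
    ← intervalIntegral.integral_of_le hε.le, integral_rpow (Or.inl (by norm_num))]
  have h2 : (-(1/2) : ℝ) + 1 = 1/2 := by norm_num
  rw [h2, Real.zero_rpow (by norm_num)]
  ring

private theorem k5_Psi_abs_ii : IntervalIntegrable (fun x : ℝ => |x| ^ (-(1/2) : ℝ)) volume (-(1/2)) (1/2) := by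
  have h0 : IntervalIntegrable (fun x : ℝ => x ^ (-(1/2) : ℝ)) volume 0 (1/2) :=
    intervalIntegral.intervalIntegrable_rpow' (by norm_num)
  have h1 : IntervalIntegrable (fun x : ℝ => |x| ^ (-(1/2) : ℝ)) volume 0 (1/2) := by
    refine h0.congr ?_
    intro x hx
    rw [uIoc_of_le (by norm_num)] at hx
    simp only
    rw [abs_of_pos hx.1]
  have h2 : IntervalIntegrable (fun x : ℝ => |x| ^ (-(1/2) : ℝ)) volume (-0) (-(1/2)) := by
    have := (IntervalIntegrable.iff_comp_neg (f := fun x : ℝ => |x| ^ (-(1/2) : ℝ))).mp h1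
    simpa only [abs_neg] using this
  rw [neg_zero] at h2
  exact h2.symm.trans h1

private noncomputable def k5_phe (ε : ℝ) (s : UnitAddCircle) : ℝ := k5_Psi ε ‖s‖

private theorem k5_phe_coe {ε t : ℝ} (ht : t ∈ Ioc (-(1/2) : ℝ) (-(1/2) + 1)) :
    k5_phe ε (t : UnitAddCircle) = k5_Psi ε |t| := by
  unfold k5_phe
  have : ‖(t : UnitAddCircle)‖ = |t| := by
    rw [AddCircle.norm_coe_eq_abs_iff 1 one_ne_zero, abs_one, abs_le]
    obtain ⟨h1, h2⟩ := ht
    constructor <;> linarith
  rw [this]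

private theorem k5_Psi_meas (ε : ℝ) : Measurable (k5_Psi ε) := by
  unfold k5_Psi
  apply Measurable.ite measurableSet_Iio
  · fun_prop
  · exact measurable_const

private theorem k5_Psi_nonneg (ε : ℝ) {u : ℝ} (hu : 0 ≤ u) : 0 ≤ k5_Psi ε u := by
  unfold k5_Psi
  split_ifs
  · positivity
  · exact le_rfl

private theorem k5_phe_meas (ε : ℝ) : Measurable (k5_phe ε) := (k5_Psi_meas ε).comp measurable_norm

private theorem k5_phe_integrable (ε : ℝ) : Integrable (k5_phe ε) (volume : Measure UnitAddCircle) := by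
  rw [← (UnitAddCircle.measurePreserving_mk (-(1/2))).integrable_comp (k5_phe_meas ε).aestronglyMeasurable]
  have h1 : IntegrableOn (fun x : ℝ => |x| ^ (-(1/2) : ℝ)) (Ioc (-(1/2)) (-(1/2) + 1)) volume := by
    have h2 := k5_Psi_abs_ii
    rw [intervalIntegrable_iff, uIoc_of_le (by norm_num)] at h2
    have h3 : (-(1/2) + 1 : ℝ) = 1/2 := by norm_num
    rw [h3]
    exact h2
  refine Integrable.mono' h1 ?_ ?_
  · exact ((k5_phe_meas ε).comp (AddCircle.measurable_mk')).aestronglyMeasurable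
  · filter_upwards [ae_restrict_mem measurableSet_Ioc] with t ht
    rw [Function.comp_apply, k5_phe_coe ht, Real.norm_of_nonneg (k5_Psi_nonneg ε (abs_nonneg t))]
    unfold k5_Psi
    split_ifs
    · exact le_rfl
    · positivity

private theorem k5_phe_integral {ε : ℝ} (hε : 0 < ε) (hε4 : ε ≤ 1/4) :
    ∫ s, k5_phe ε s = 4 * ε ^ ((1/2) : ℝ) := by
  rw [← UnitAddCircle.integral_preimage (-(1/2)) (k5_phe ε)]
  have h1 : ∫ t in Ioc (-(1/2) : ℝ) (-(1/2) + 1), k5_phe ε (t : UnitAddCircle) =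
      ∫ t in Ioc (-(1/2) : ℝ) (-(1/2) + 1), k5_Psi ε |t| :=
    setIntegral_congr_fun measurableSet_Ioc (fun t ht => k5_phe_coe ht)
  rw [h1, setIntegral_eq_integral_of_forall_compl_eq_zero, integral_comp_abs (f := k5_Psi ε), k5_Psi_int hε]
  · ring
  · intro x hx
    unfold k5_Psi
    rw [if_neg]
    intro h
    apply hx
    rw [abs_lt] at h
    constructor <;> linarith

private theorem k5_ae_ne_T2 : ∀ᵐ x : T2, x.1 ≠ 0 ∧ x.2 ≠ 0 := by
  have h00 : volume ({0} : Set UnitAddCircle) = 0 := by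
    have := AddCircle.volume_closedBall (T := 1) (x := 0) 0
    simpa using this
  have h0 : ∀ᵐ s : UnitAddCircle, s ≠ 0 := compl_mem_ae_iff.mpr h00
  have h1 : ∀ᵐ x : T2, x.1 ≠ 0 := by
    rw [Measure.volume_eq_prod]
    exact Measure.quasiMeasurePreserving_fst.ae h0
  have h2 : ∀ᵐ x : T2, x.2 ≠ 0 := by
    rw [Measure.volume_eq_prod]
    exact Measure.quasiMeasurePreserving_snd.ae h0
  exact h1.and h2

private theorem k5_cc_out {g : ℂ → ℂ} {a : ℝ} (ha : 0 < a)
    (hg2 : ∀ z : ℂ, z ≠ 0 → |z.re| < 1 → |z.im| < 1 →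
      k0 z = 1 / (2 * Real.pi * I * z) + g z + (z.im : ℂ))
    {z : ℂ} (h1 : |z.re| < 1) (h2 : |z.im| < 1) (h : a < z.re ^ 2 + z.im ^ 2) :
    k5_cc g a z = (starRingEnd ℂ) (k0 z) := by
  have hz : z ≠ 0 := by
    intro h0
    rw [h0] at h
    simp at h
    linarith
  rw [hg2 z hz h1 h2]
  unfold k5_cc k5_HH
  rw [if_neg (not_le.mpr h)]
  have hS : (0:ℝ) < z.re ^ 2 + z.im ^ 2 := ha.trans h
  have hnn : z * (starRingEnd ℂ) z = ((z.re ^ 2 + z.im ^ 2 : ℝ) : ℂ) := by
    rw [Complex.mul_conj, Complex.normSq_apply]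
    push_cast
    ring
  have hzc : (starRingEnd ℂ) z ≠ 0 := by
    intro h0
    exact hz ((map_eq_zero _).mp h0)
  have hpi : (Real.pi : ℂ) ≠ 0 := by exact_mod_cast Real.pi_ne_zero
  have key : I * z * (((1 / (z.re ^ 2 + z.im ^ 2)) / (2 * Real.pi) : ℝ) : ℂ) =
      (starRingEnd ℂ) (1 / (2 * Real.pi * I * z)) := by
    rw [map_div₀, map_mul, map_mul, map_mul, map_one, Complex.conj_ofReal, Complex.conj_I]
    have h3 : (((1 / (z.re ^ 2 + z.im ^ 2)) / (2 * Real.pi) : ℝ) : ℂ) =
        1 / (z * (starRingEnd ℂ) z) / (2 * Real.pi) := by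
      rw [hnn]
      push_cast
      ring
    rw [h3]
    have h2c : (starRingEnd ℂ) 2 = 2 := by
      have := Complex.conj_ofReal 2
      simpa using this
    rw [h2c]
    field_simp
    rw [Complex.I_sq]
  rw [key, map_add, map_add, Complex.conj_ofReal]
  ring

private theorem k5_cc_diff {g : ℂ → ℂ} {ε : ℝ} (hε : 0 < ε)
    (hg2 : ∀ z : ℂ, z ≠ 0 → |z.re| < 1 → |z.im| < 1 →
      k0 z = 1 / (2 * Real.pi * I * z) + g z + (z.im : ℂ))
    {z : ℂ} (h1 : |z.re| < 1) (h2 : |z.im| < 1) (hr : z.re ≠ 0) (hi : z.im ≠ 0) :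
    ‖(starRingEnd ℂ) (k0 z) - k5_cc g (ε ^ 2) z‖ ≤ k5_Psi ε |z.re| * k5_Psi ε |z.im| := by
  rcases lt_or_ge (ε ^ 2) (z.re ^ 2 + z.im ^ 2) with h | h
  · rw [k5_cc_out (by positivity) hg2 h1 h2 h, sub_self, norm_zero]
    exact mul_nonneg (k5_Psi_nonneg ε (abs_nonneg _)) (k5_Psi_nonneg ε (abs_nonneg _))
  · have hr2 : 0 < z.re ^ 2 := by positivity
    have hi2 : 0 < z.im ^ 2 := by positivity
    have hz : z ≠ 0 := by
      intro h0
      rw [h0] at hr
      simp at hr
    have hre : |z.re| < ε := by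
      apply lt_of_pow_lt_pow_left₀ 2 hε.le
      rw [sq_abs]
      linarith
    have him : |z.im| < ε := by
      apply lt_of_pow_lt_pow_left₀ 2 hε.le
      rw [sq_abs]
      linarith
    have hS : (0:ℝ) < z.re ^ 2 + z.im ^ 2 := by positivity
    set S : ℝ := z.re ^ 2 + z.im ^ 2 with hSdef
    set a : ℝ := ε ^ 2 with hadef
    have ha : 0 < a := by positivity
    have hnn : z * (starRingEnd ℂ) z = (S : ℂ) := by
      rw [Complex.mul_conj, Complex.normSq_apply, hSdef]
      push_cast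
      ring
    have hzc : (starRingEnd ℂ) z ≠ 0 := by
      intro h0
      exact hz ((map_eq_zero _).mp h0)
    have hpi : (Real.pi : ℂ) ≠ 0 := by exact_mod_cast Real.pi_ne_zero
    have hconj : (starRingEnd ℂ) (1 / (2 * Real.pi * I * z)) = I * z * ((1 / S / (2 * Real.pi) : ℝ) : ℂ) := by
      rw [map_div₀, map_mul, map_mul, map_mul, map_one, Complex.conj_ofReal, Complex.conj_I]
      have h3 : ((1 / S / (2 * Real.pi) : ℝ) : ℂ) =
          1 / (z * (starRingEnd ℂ) z) / (2 * Real.pi) := by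
        rw [hnn]
        push_cast
        ring
      rw [h3]
      have h2c : (starRingEnd ℂ) 2 = 2 := by
        have := Complex.conj_ofReal 2
        simpa using this
      rw [h2c]
      field_simp
      rw [Complex.I_sq]
    have hdiff : (starRingEnd ℂ) (k0 z) - k5_cc g a z =
        I * z * (((a - S) ^ 2 / (a ^ 2 * S) / (2 * Real.pi) : ℝ) : ℂ) := by
      rw [hg2 z hz h1 h2, map_add, map_add, hconj, Complex.conj_ofReal]
      unfold k5_cc k5_HH
      rw [if_pos (by rw [← hSdef]; exact h), ← hSdef]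
      have h4 : ((1 / S / (2 * Real.pi) : ℝ) : ℂ) - (((2 * a - S) / a ^ 2 / (2 * Real.pi) : ℝ) : ℂ) =
          (((a - S) ^ 2 / (a ^ 2 * S) / (2 * Real.pi) : ℝ) : ℂ) := by
        rw [← Complex.ofReal_sub]
        congr 1
        field_simp
        ring
      rw [← h4]
      ring
    rw [hdiff, norm_mul, norm_mul, Complex.norm_I, one_mul, Complex.norm_real,
      Real.norm_of_nonneg (by positivity)]
    have hnz : 0 < ‖z‖ := norm_pos_iff.mpr hz
    have hSn : S = ‖z‖ ^ 2 := by
      rw [← Complex.normSq_eq_norm_sq, Complex.normSq_apply, hSdef]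
      ring
    have hb1 : (a - S) ^ 2 / (a ^ 2 * S) / (2 * Real.pi) ≤ 1 / S := by
      have h5 : (a - S) ^ 2 / (a ^ 2 * S) ≤ 1 / S := by
        rw [div_le_div_iff₀ (by positivity) hS]
        have : (a - S) ^ 2 ≤ a ^ 2 := by
          apply pow_le_pow_left₀ (by linarith)
          linarith
        nlinarith
      have h6 : (1:ℝ) ≤ 2 * Real.pi := by
        have := Real.pi_gt_three
        linarith
      exact (div_le_self (by positivity) h6).trans h5
    have hb2 : ‖z‖ * ((a - S) ^ 2 / (a ^ 2 * S) / (2 * Real.pi)) ≤ S ^ (-(1/2) : ℝ) := by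
      have e1 : S ^ (-(1/2) : ℝ) = ‖z‖ * (1 / S) := by
        rw [hSn, ← Real.rpow_natCast, ← Real.rpow_mul hnz.le]
        have : (((2:ℕ) : ℝ) * (-(1/2) : ℝ)) = -1 := by norm_num
        rw [this, Real.rpow_neg_one]
        push_cast
        rw [Real.rpow_two]
        field_simp
      rw [e1]
      exact mul_le_mul_of_nonneg_left hb1 hnz.le
    refine hb2.trans ?_
    unfold k5_Psi
    rw [if_pos hre, if_pos him, ← Real.mul_rpow (abs_nonneg _) (abs_nonneg _)]
    apply Real.rpow_le_rpow_of_nonpos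
    · exact mul_pos (abs_pos.mpr hr) (abs_pos.mpr hi)
    · rw [hSdef, ← sq_abs z.re, ← sq_abs z.im]
      nlinarith [sq_nonneg (|z.re| - |z.im|), abs_nonneg z.re, abs_nonneg z.im,
        sq_nonneg (|z.re| + |z.im|), sq_nonneg (|z.re|), sq_nonneg (|z.im|)]
    · norm_num



theorem kernel_reg (K : T2 → ℂ) (hK : ∀ z : ℂ, K (pr z) = (starRingEnd ℂ) (k0 z))
    (hint : Integrable K volume) :
    ∃ C' : ℝ, 0 < C' ∧ ∀ ε : ℝ, 0 < ε → ε ≤ 1/4 → ∃ Kε : T2 → ℂ,
    ContDiff ℝ 1 (fun z : ℂ => Kε (pr z)) ∧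
    (∀ z : ℂ, (fderiv ℝ (fun z : ℂ => Kε (pr z)) z 1).re +
      (fderiv ℝ (fun z : ℂ => Kε (pr z)) z I).im = 0) ∧
    ∫ x, ‖K x - Kε x‖ ≤ C' * ε := by
  obtain ⟨g, hg1, hg2⟩ := k0_decomp
  choose rep hrep1 hrep2 hrep3 hrep4 using exists_rep
  refine ⟨16, by norm_num, fun ε hε hε4 => ?_⟩
  have ha : (0:ℝ) < ε ^ 2 := by positivity
  have ha16 : ε ^ 2 ≤ 1 / 16 := by nlinarith
  -- local formula
  have hloc : ∀ z : ℂ, |z.re| < 3/5 → |z.im| < 3/5 → k5_cc g (ε ^ 2) (rep (pr z)) = k5_cc g (ε ^ 2) z := by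
    intro z h1 h2
    obtain ⟨m, n, hmn⟩ := (pr_eq_iff (rep (pr z)) z).mp (hrep1 (pr z))
    have hre : z.re = (rep (pr z)).re + m := by
      have := congrArg Complex.re hmn
      simp at this
      linarith
    have him : z.im = (rep (pr z)).im + n := by
      have := congrArg Complex.im hmn
      simp at this
      linarith
    have hr1 := hrep2 (pr z)
    have hr2 := hrep3 (pr z)
    set r := rep (pr z) with hr
    by_cases hmn0 : m = 0 ∧ n = 0
    · have : r = z := by
        apply Complex.ext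
        · rw [hre, hmn0.1]; simp
        · rw [him, hmn0.2]; simp
      rw [this]
    · have big : ∀ (t s : ℝ) (k : ℤ), |t| < 3/5 → |s| ≤ 1/2 → t = s + k → k ≠ 0 →
          (1:ℝ)/16 < s ^ 2 ∧ (1:ℝ)/16 < t ^ 2 := by
        intro t s k ht hs hts hk
        have hk1 : (1:ℝ) ≤ |(k:ℝ)| := by
          have : (1:ℤ) ≤ |k| := Int.one_le_abs hk
          exact_mod_cast this
        have h3 : |(k:ℝ)| ≤ |t| + |s| := by
          have : (k:ℝ) = t - s := by linarith
          rw [this]
          exact abs_sub t s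
        have hs2 : 2/5 < |s| := by linarith
        have ht2 : 1/2 ≤ |t| := by linarith
        rw [← sq_abs s, ← sq_abs t]
        constructor <;> nlinarith
      have hout : ε ^ 2 < r.re ^ 2 + r.im ^ 2 ∧ ε ^ 2 < z.re ^ 2 + z.im ^ 2 := by
        by_cases hm : m = 0
        · have hn : n ≠ 0 := fun h => hmn0 ⟨hm, h⟩
          obtain ⟨b1, b2⟩ := big z.im r.im n h2 hr2 him hn
          constructor
          · nlinarith [sq_nonneg r.re]
          · nlinarith [sq_nonneg z.re]
        · obtain ⟨b1, b2⟩ := big z.re r.re m h1 hr1 hre hm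
          constructor
          · nlinarith [sq_nonneg r.im]
          · nlinarith [sq_nonneg z.im]
      rw [k5_cc_out ha hg2 (by linarith) (by linarith) hout.1,
        k5_cc_out ha hg2 (by linarith) (by linarith) hout.2, ← hK, ← hK, hr, hrep1]
  -- local formula near any point
  have hev : ∀ z0 : ℂ, ∃ l : ℂ, (|(z0 - l).re| < 1 ∧ |(z0 - l).im| < 1) ∧
      (fun z : ℂ => k5_cc g (ε ^ 2) (rep (pr z))) =ᶠ[𝓝 z0] fun z => k5_cc g (ε ^ 2) (z - l) := by
    intro z0
    obtain ⟨m, n, hmn⟩ := (pr_eq_iff (rep (pr z0)) z0).mp (hrep1 (pr z0))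
    have hsub : z0 - ((m : ℂ) + (n : ℂ) * I) = rep (pr z0) := by
      rw [← hmn]
      ring
    refine ⟨(m : ℂ) + (n : ℂ) * I, ?_, ?_⟩
    · rw [hsub]
      have h1 := hrep2 (pr z0)
      have h2 := hrep3 (pr z0)
      exact ⟨by linarith, by linarith⟩
    · have hc1 : Continuous (fun z : ℂ => |(z - ((m : ℂ) + (n : ℂ) * I)).re|) := by fun_prop
      have hc2 : Continuous (fun z : ℂ => |(z - ((m : ℂ) + (n : ℂ) * I)).im|) := by fun_prop
      have o1 : ∀ᶠ z in 𝓝 z0, |(z - ((m : ℂ) + (n : ℂ) * I)).re| < 3/5 := by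
        apply hc1.continuousAt.eventually_lt continuousAt_const
        rw [hsub]
        have := hrep2 (pr z0)
        linarith
      have o2 : ∀ᶠ z in 𝓝 z0, |(z - ((m : ℂ) + (n : ℂ) * I)).im| < 3/5 := by
        apply hc2.continuousAt.eventually_lt continuousAt_const
        rw [hsub]
        have := hrep3 (pr z0)
        linarith
      filter_upwards [o1, o2] with z h1 h2
      have hpr : pr z = pr (z - ((m : ℂ) + (n : ℂ) * I)) := by
        symm
        rw [pr_eq_iff]
        exact ⟨m, n, by ring⟩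
      rw [hpr]
      exact hloc _ h1 h2
  refine ⟨fun x => k5_cc g (ε ^ 2) (rep x), ?_, ?_, ?_⟩
  · rw [contDiff_iff_contDiffAt]
    intro z0
    obtain ⟨l, hl, he⟩ := hev z0
    refine ContDiffAt.congr_of_eventuallyEq ?_ he
    have h1 := k5_cc_contDiffAt hg1 ha hl
    exact h1.comp z0 (contDiffAt_id.sub contDiffAt_const)
  · intro z0
    obtain ⟨l, hl, he⟩ := hev z0
    rw [he.fderiv_eq]
    have h1 : DifferentiableAt ℝ (k5_cc g (ε ^ 2)) (z0 - l) :=
      (k5_cc_contDiffAt hg1 ha hl).differentiableAt one_ne_zero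
    have h2 : HasFDerivAt (fun z => k5_cc g (ε ^ 2) (z - l)) (fderiv ℝ (k5_cc g (ε ^ 2)) (z0 - l)) z0 := by
      have h3 := h1.hasFDerivAt.comp z0 ((hasFDerivAt_id z0).sub_const l)
      refine HasFDerivAt.congr_fderiv h3 ?_
      ext v
      simp
    rw [h2.fderiv]
    exact k5_cc_div hg1 ha hl
  · have hφi := k5_phe_integrable ε
    have hφp : Integrable (fun x : T2 => k5_phe ε x.1 * k5_phe ε x.2) volume := by
      rw [Measure.volume_eq_prod]
      exact hφi.mul_prod hφi
    have hle : ∫ x, ‖K x - k5_cc g (ε ^ 2) (rep x)‖ ≤ ∫ x : T2, k5_phe ε x.1 * k5_phe ε x.2 := by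
      apply integral_mono_of_nonneg
      · exact Eventually.of_forall fun x => norm_nonneg _
      · exact hφp
      · filter_upwards [k5_ae_ne_T2] with x hx
        have h1 := hrep1 x
        have h2 := hrep2 x
        have h3 := hrep3 x
        set z := rep x with hz
        have hx1 : x.1 = (z.re : UnitAddCircle) := by rw [← h1]; rfl
        have hx2 : x.2 = (z.im : UnitAddCircle) := by rw [← h1]; rfl
        have hr : z.re ≠ 0 := by
          intro h
          apply hx.1
          rw [hx1, h]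
          simp
        have hi : z.im ≠ 0 := by
          intro h
          apply hx.2
          rw [hx2, h]
          simp
        have n1 : ‖x.1‖ = |z.re| := by
          rw [hx1, AddCircle.norm_coe_eq_abs_iff 1 one_ne_zero, abs_one]
          exact h2
        have n2 : ‖x.2‖ = |z.im| := by
          rw [hx2, AddCircle.norm_coe_eq_abs_iff 1 one_ne_zero, abs_one]
          exact h3
        have hKx : K x = (starRingEnd ℂ) (k0 z) := by rw [← hK, h1]
        rw [hKx]
        unfold k5_phe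
        rw [n1, n2]
        exact k5_cc_diff hε hg2 (by linarith) (by linarith) hr hi
    have hprod : ∫ x : T2, k5_phe ε x.1 * k5_phe ε x.2 = (∫ s, k5_phe ε s) * ∫ s, k5_phe ε s := by
      rw [Measure.volume_eq_prod]
      exact integral_prod_mul (k5_phe ε) (k5_phe ε)
    rw [hprod, k5_phe_integral hε hε4] at hle
    have hsq : (4 * ε ^ ((1/2) : ℝ)) * (4 * ε ^ ((1/2) : ℝ)) = 16 * ε := by
      have : ε ^ ((1/2) : ℝ) * ε ^ ((1/2) : ℝ) = ε := by
        rw [← Real.rpow_add hε]
        norm_num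
      calc _ = 16 * (ε ^ ((1/2) : ℝ) * ε ^ ((1/2) : ℝ)) := by ring
        _ = 16 * ε := by rw [this]
    rw [hsq] at hle
    exact hle

end Pool.Agent.Helper118.Yud
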