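import Pool.Agent.Helper118.Yud.Defs
import Pool.Agent.Helper118.Yud.X0
import Pool.Agent.Helper118.Yud.K1
import Pool.Agent.Helper118.Yud.K2
import Pool.Agent.Helper118.Yud.K3
import Pool.Agent.Helper118.Yud.K4
import Pool.Agent.Helper118.Yud.K5
import Pool.Agent.Helper118.Yud.E1

set_option autoImplicit false

namespace Pool.Agent.Helper118.Yud

open MeasureTheory Complex Set Filter Topology

theorem k0_add_int (z : ℂ) (m : ℤ) : k0 (z + m) = k0 z := by
  have h1 : Function.Periodic k0 1 := fun z => k0_add_one z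
  simpa using (h1.int_mul m) z

theorem k0_add_int_I (z : ℂ) (n : ℤ) : k0 (z + n * I) = k0 z := by
  have h1 : Function.Periodic k0 I := fun z => k0_add_I z
  exact (h1.int_mul n) z

theorem exists_kernel_fun : ∃ K : T2 → ℂ, ∀ z : ℂ, K (pr z) = (starRingEnd ℂ) (k0 z) := by
  choose g hg using pr_surjective
  refine ⟨fun x => (starRingEnd ℂ) (k0 (g x)), fun z => ?_⟩
  obtain ⟨m, n, h⟩ := (pr_eq_iff (g (pr z)) z).1 (hg (pr z))
  have h2 : g (pr z) + m + n * I = z := by
    linear_combination -h
  have h3 : k0 z = k0 (g (pr z)) := by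
    rw [← h2, k0_add_int_I, k0_add_int, h2]
  simp only [h3]

theorem integrable_of_bd (K : T2 → ℂ) (hm : Measurable K) (C : ℝ)
    (hbd : ∀ x : T2, x ≠ 0 → ‖K x‖ ≤ C / ‖x‖) : Integrable K volume := by
  have hint : Integrable (fun a : T2 => C * ‖a‖⁻¹) volume := by
    apply Integrable.const_mul
    refine ⟨by fun_prop, ?_⟩
    rw [hasFiniteIntegral_iff_ofReal (Filter.Eventually.of_forall fun a => by positivity)]
    exact e1_lint_fin
  refine hint.mono' hm.aestronglyMeasurable ?_
  have h0 : ∀ᵐ x : T2, x ≠ 0 := by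
    have h1 : (volume : Measure UnitAddCircle) {0} = 0 := by
      rw [← Metric.closedBall_zero, AddCircle.volume_closedBall]
      simp
    have : (volume : Measure T2) {0} = 0 := by
      rw [show ({0} : Set T2) = ({0} : Set UnitAddCircle) ×ˢ ({0} : Set UnitAddCircle) by
        rw [Set.singleton_prod_singleton]; rfl]
      rw [show (volume : Measure T2) = (volume : Measure UnitAddCircle).prod volume from rfl,
        Measure.prod_prod, h1, zero_mul]
    exact compl_mem_ae_iff.mpr this
  filter_upwards [h0] with x hx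
  have := hbd x hx
  rwa [div_eq_mul_inv] at this

theorem exists_kernel : ∃ (K : T2 → ℂ) (C : ℝ), IsBS K C := by
  obtain ⟨K, hK⟩ := exists_kernel_fun
  obtain ⟨hmeas, C1, hC1, hbd, hlip⟩ := kernel_meas_bd_lip K hK
  have hint := integrable_of_bd K hmeas C1 hbd
  obtain ⟨hf, hf0⟩ := kernel_fourier K hK hint
  obtain ⟨C2, hC2, hreg⟩ := kernel_reg K hK hint
  refine ⟨K, max C1 C2, ⟨lt_max_of_lt_left hC1, hmeas, fun x hx => ?_, fun x y hx hy => ?_, hf, hf0,
    fun x => ?_, fun x => ?_, fun ε h1 h2 => ?_⟩⟩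
  · refine (hbd x hx).trans ?_
    gcongr
    exact le_max_left _ _
  · refine (hlip x y hx hy).trans ?_
    gcongr
    exact le_max_left _ _
  · obtain ⟨z, rfl⟩ := pr_surjective x
    have e : -pr z = pr (-z) := by
      have := pr_add z (-z)
      rw [add_neg_cancel] at this
      have h0 : pr 0 = 0 := by
        have := pr_add 0 0
        simp only [add_zero] at this
        exact (add_eq_left.1 this.symm)
      rw [h0] at this
      exact neg_eq_of_add_eq_zero_right this.symm
    rw [e, hK, hK, k0_neg, map_neg]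
  · obtain ⟨z, rfl⟩ := pr_surjective x
    have e : ((pr z).1, -(pr z).2) = pr ((starRingEnd ℂ) z) := by
      simp [pr]
    rw [e, hK, hK, k0_conj, map_neg]
  · obtain ⟨Kε, h3, h4, h5⟩ := hreg ε h1 h2
    refine ⟨Kε, h3, h4, h5.trans ?_⟩
    gcongr
    exact le_max_right _ _

end Pool.Agent.Helper118.Yud
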